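import Pool.Prelude.Def_F_c21d359f

/-!
# Relativised classes, disjoint coNP pairs relative to an oracle, and the random oracle
-/

set_option autoImplicit false

namespace Pool.Agent.RO

open N68a2faeb MeasureTheory

/-- Run of an oracle procedure. The step function `g` is given the input `x` and the list `a` of the
answers received so far; if `g (x, a) = (true, y)` the procedure halts with output `y`, and if
`g (x, a) = (false, q)` it asks the oracle `O` the query `q`. At most `t` calls of `g` are made, and
the value is `none` if the procedure has not halted by then. -/
def orun {α : Type} (g : α × List Bool → Bool × List Bool) (O : List Bool → Bool) (x : α) :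
    ℕ → List Bool → Option (List Bool)
  | 0, _ => none
  | t + 1, a => if (g (x, a)).1 = true then some (g (x, a)).2
      else orun g O x t (a ++ [O (g (x, a)).2])

/-- `f` is computable in polynomial time relative to the oracle `R`: it is computed by an oracle
procedure whose step function is computable in polynomial time (in the frozen sense) and which
halts within polynomially many rounds. -/
def IsPolyTimeRel {α β : Type} [N487b59b3 α] [N487b59b3 β] (R : List Bool → Bool) (f : α → β) :
    Prop :=
  ∃ (g : α × List Bool → Bool × List Bool) (p : Polynomial ℕ), IsPolyTime g ∧
    ∀ x, orun g R x (p.eval (N487b59b3.bitEncode x).length) [] = some (N487b59b3.bitEncode (f x))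

/-- The class `NP` relative to `R`. -/
def NPRel (R : List Bool → Bool) : DecisionComplexityClass :=
  { L | ∃ (p : Polynomial ℕ), ∃ V : (List Bool × List Bool) → Bool,
      IsPolyTimeRel R V ∧
      ∀ x, L x ↔ ∃ w : List Bool, w.length ≤ p.eval x.length ∧ V (x, w) }

/-- The class `coNP` relative to `R`. -/
def coNPRel (R : List Bool → Bool) : DecisionComplexityClass :=
  { L | Lᶜ ∈ NPRel R }

/-- Disjoint coNP pairs relative to `R`. -/
structure IsDisjointCoNPPairRel (R : List Bool → Bool) (A B : DecisionProblem) : Prop where
  memA : A ∈ coNPRel R
  memB : B ∈ coNPRel R
  disjoint : ∀ x, ¬(A x = true ∧ B x = true)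

/-- Many-one reducibility of `(A, B)` to `(A', B')` in polynomial time relative to `R`. -/
def PairReducibleRel (R : List Bool → Bool) (A B A' B' : DecisionProblem) : Prop :=
  ∃ f : List Bool → List Bool, IsPolyTimeRel R f ∧
    (∀ x, A x = true → A' (f x) = true) ∧ (∀ x, B x = true → B' (f x) = true)

/-- Two oracles in one: queries `true :: w` go to `R`, queries `false :: z` go to `S`. -/
def join (R S : List Bool → Bool) : List Bool → Bool
  | [] => false
  | true :: w => R w
  | false :: z => S z

/-- `S` separates the pair `(A, B)`. -/
def Separates (S : List Bool → Bool) (A B : DecisionProblem) : Prop :=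
  (∀ z, A z = true → S z = true) ∧ ∀ z, B z = true → S z = false

/-- Turing reducibility of `(A, B)` to `(A', B')` relative to `R` with at most `T n + poly n`
queries: one oracle procedure with polynomial-time step function decides, on input `x` and given
`R` and any separator `S` of `(A', B')` as oracles, whether `x` lies in `A` or in `B`, within
`T n + poly n` rounds, `n = |x|`. No condition is imposed on `x` outside `A ∪ B`. -/
def PairTuringReducibleRel (R : List Bool → Bool) (T : ℕ → ℕ) (A B A' B' : DecisionProblem) :
    Prop :=
  ∃ (g : List Bool × List Bool → Bool × List Bool) (p : Polynomial ℕ), IsPolyTime g ∧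
    ∀ S, Separates S A' B' → ∀ x,
      (A x = true → orun g (join R S) x (T x.length + p.eval x.length) [] = some [true]) ∧
      (B x = true → orun g (join R S) x (T x.length + p.eval x.length) [] = some [false])

/-- The random oracle: independent fair coins `R w`, one for every string `w`. -/
noncomputable def randomOracle : Measure (List Bool → Bool) :=
  Measure.infinitePi (fun _ => (PMF.uniformOfFintype Bool).toMeasure)

end Pool.Agent.RO
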