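import Pool.Agent.Work.MP_46935e_lc.Univ2

/-!
# Only countably many functions are computable in polynomial time
-/

set_option autoImplicit false

namespace Pool.Agent.RO

open Pool.Agent.PT Pool.Agent.Work.MP_46935e_lc

/-- A function computed by a two-stack machine is determined by a program of the universal
machine, a constant and the time bound. -/
theorem exists_code {α β : Type} (ea : α → List Bool) (eb : β → List Bool) (f : α → β)
    (hf : Nonempty (Turing.TM2ComputableInPolyTime ea eb f)) :
    ∃ c : List ℕ × ℕ × Polynomial ℕ, ∀ a,
      univ c.1 (c.2.1 * c.2.2.eval (ea a).length) (ea a) = eb (f a) := by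
  obtain ⟨M⟩ := hf
  obtain ⟨t, C, h⟩ := exists_program M.tm M.inputAlphabet M.outputAlphabet
  exact ⟨(t, C, M.time), fun a => h (ea a) (eb (f a)) _ ⟨M.outputsFun a⟩ _ le_rfl⟩

/-- Only countably many functions on strings are computable in polynomial time. -/
theorem countable_tm2 {α β : Type} (ea : α → List Bool) (eb : β → List Bool)
    (heb : Function.Injective eb) :
    {f : α → β | Nonempty (Turing.TM2ComputableInPolyTime ea eb f)}.Countable := by
  classical
  have hpc : Countable (Polynomial ℕ) := by
    have h2 : Function.Injective
        (fun p : Polynomial ℕ => (List.range (p.natDegree + 1)).map p.coeff) := by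
      intro p q hpq
      simp only at hpq
      have hl := congrArg List.length hpq
      simp only [List.length_map, List.length_range] at hl
      have hd : p.natDegree = q.natDegree := by omega
      ext n
      rcases Nat.lt_or_ge p.natDegree n with hn | hn
      · rw [Polynomial.coeff_eq_zero_of_natDegree_lt hn,
          Polynomial.coeff_eq_zero_of_natDegree_lt (hd ▸ hn)]
      · rw [hd] at hpq
        have h3 := List.map_inj_left.1 hpq n (List.mem_range.2 (by omega))
        exact h3
    exact h2.countable
  set c : (α → β) → List ℕ × ℕ × Polynomial ℕ := fun f =>
    if h : Nonempty (Turing.TM2ComputableInPolyTime ea eb f) then (exists_code ea eb f h).choose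
    else ([], 0, 0) with hc
  have hcs : ∀ f, Nonempty (Turing.TM2ComputableInPolyTime ea eb f) → ∀ a,
      univ (c f).1 ((c f).2.1 * (c f).2.2.eval (ea a).length) (ea a) = eb (f a) := by
    intro f hf a
    have : c f = (exists_code ea eb f hf).choose := by
      rw [hc]
      exact dif_pos hf
    rw [this]
    exact (exists_code ea eb f hf).choose_spec a
  refine Set.countable_of_injective_of_countable_image (f := c) ?_ (Set.to_countable _)
  intro f hf g hg hfg
  funext a
  apply heb
  rw [← hcs f hf a, ← hcs g hg a, hfg]

end Pool.Agent.RO
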