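import Pool.Agent.Work.MP_46935e_lc.RO.Acc
import Pool.Agent.Work.PT.Auto
import Pool.Agent.Work.MP_46935e_lc.Frozen

/-!
# Many-one reductions of pairs are Turing reductions with few queries
-/

set_option autoImplicit false

namespace Pool.Agent.RO

open Pool.Agent.PT Pool.Agent.Work.MP_46935e_lc

/-- All answers but the last one. -/
def front (a : List Bool) : List Bool := a.reverse.tail.reverse

@[fun_prop]
theorem ptf_front {α : Type} [Enc α] {f : α → List Bool} (hf : PTF f) :
    PTF (fun a => front (f a)) := by
  unfold front
  fun_prop

theorem front_snoc (a : List Bool) (b : Bool) : front (a ++ [b]) = a := by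
  simp [front]

/-- The oracle procedure which computes the reduction with step function `g` and asks the separator
about its value. -/
def mog (g : List Bool × List Bool → Bool × List Bool) (p : List Bool × List Bool) :
    Bool × List Bool :=
  if p.2.isEmpty = false ∧ (g (p.1, front p.2)).1 = true then (true, [p.2.reverse.headD false])
  else if (g p).1 = true then (false, false :: unB (g p).2)
  else (false, true :: (g p).2)

attribute [local fun_prop] ptf_unB

theorem ptf_mog {g : List Bool × List Bool → Bool × List Bool} (hg : PTF g) : PTF (mog g) := by
  unfold mog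
  fun_prop

theorem orun_mog {g : List Bool × List Bool → Bool × List Bool} {R S : List Bool → Bool}
    {x y : List Bool} (t : ℕ) : ∀ a : List Bool,
    (a.isEmpty = false → (g (x, front a)).1 = false) → orun g R x t a = some y →
      orun (mog g) (join R S) x (t + 1) a = some [S (unB y)] := by
  induction t with
  | zero => intro a _ h; cases h
  | succ t ih =>
    intro a ha h
    have hn : ¬ (a.isEmpty = false ∧ (g (x, front a)).1 = true) := by
      rintro ⟨h1, h2⟩
      rw [ha h1] at h2
      cases h2
    rw [orun] at h
    rw [orun]
    by_cases hg : (g (x, a)).1 = true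
    · rw [if_pos hg] at h
      have e : mog g (x, a) = (false, false :: unB (g (x, a)).2) := by
        unfold mog
        rw [if_neg hn, if_pos hg]
      rw [e]
      simp only [Bool.false_eq_true, if_false, join_false]
      rw [Option.some.inj h]
      have e2 : mog g (x, a ++ [S (unB y)]) = (true, [S (unB y)]) := by
        unfold mog
        rw [if_pos ⟨by simp, by rw [front_snoc]; exact hg⟩]
        simp
      rw [orun, e2]
      rfl
    · rw [if_neg hg] at h
      have hgf : (g (x, a)).1 = false := by simpa using hg
      have e : mog g (x, a) = (false, true :: (g (x, a)).2) := by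
        unfold mog
        rw [if_neg hn, if_neg hg]
      rw [e]
      simp only [Bool.false_eq_true, if_false, join_true]
      exact ih _ (fun _ => by rw [front_snoc]; exact hgf) h

theorem turing_of_manyOne {R : Orc} {A B A' B' : List Bool → Bool} (T : ℕ → ℕ)
    (h : PairReducibleRel R A B A' B') : PairTuringReducibleRel R T A B A' B' := by
  obtain ⟨f, ⟨g, p, hg, hgr⟩, hA, hB⟩ := h
  refine ⟨mog g, p.comp (3 * Polynomial.X) + 1, of_ptf_P (ptf_mog (ptf_of_P hg)),
    fun S hS x => ?_⟩
  have key : orun (mog g) (join R S) x
      (T x.length + (p.comp (3 * Polynomial.X) + 1).eval x.length) [] = some [S (f x)] := by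
    have h1 := hgr x
    rw [length_bitEncode_list] at h1
    have h2 := orun_mog (S := S) (p.eval (3 * x.length)) [] (fun h => by cases h) h1
    rw [bitEncode_list, unB_encB] at h2
    refine orun_mono _ _ _ _ _ _ _ ?_ h2
    simp only [Polynomial.eval_add, Polynomial.eval_comp, Polynomial.eval_mul,
      Polynomial.eval_X, Polynomial.eval_one, Polynomial.eval_ofNat]
    omega
  constructor
  · intro hx
    rw [key, hS.1 _ (hA x hx)]
  · intro hx
    rw [key, hS.2 _ (hB x hx)]

end Pool.Agent.RO
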