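import Pool.Agent.Work.MP_46935e_lc.RO.PairDef
import Pool.Agent.Work.PT.Auto
import Pool.Agent.Work.MP_46935e_lc.Frozen

/-!
# The new pair consists of sets in coNP relative to the oracle
-/

set_option autoImplicit false

namespace Pool.Agent.RO

open Pool.Agent.PT Pool.Agent.Work.MP_46935e_lc

/-! ### Polynomial time -/

theorem ptf_inst : PTF (fun p : ℕ × ℕ => inst p.1 p.2) := by
  unfold inst
  fun_prop

theorem ptf_pin : PTF pin := by
  have h1 : PTF (fun p : List Bool × ℕ => inst p.2 (p.1.length - p.2 - 1)) := by
    have h : PTF (fun p : List Bool × ℕ => (p.2, p.1.length - p.2 - 1)) := by fun_prop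
    exact ptf_inst.comp h
  unfold pin
  fun_prop

theorem ptf_look {act : ℕ → Option (ℕ × ℕ)} (hact : PTF act) (i₀ : ℕ) :
    PTF (fun x : List Bool => look act i₀ x) := by
  have h1 := ptf_pin
  have h2 : PTF (fun p : List Bool × (ℕ × ℕ) => act p.2.1) := hact.comp (PTF.snd.fst')
  unfold look
  fun_prop

theorem ptf_addr (c : Bool) : PTF (fun p : ℕ × (List Bool × ℕ) => addr p.1 c p.2.1 p.2.2) := by
  unfold addr
  fun_prop

/-! ### The verifier -/

/-- The verifier for the complement. -/
def sideV (act : ℕ → Option (ℕ × ℕ)) (i₀ : ℕ) (c : Bool) (R : Orc) (p : List Bool × List Bool) :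
    Bool :=
  match look act i₀ p.1 with
  | none => true
  | some q => decide (p.2.length = q.1) &&
      (List.range q.2.1).all (fun j => R (addr q.2.2 c p.2 j))

/-- Step function of the verifier for active instances. -/
def sideS (c : Bool) (p : ((List Bool × List Bool) × List Bool) × (ℕ × (ℕ × ℕ))) :
    Bool × List Bool :=
  if p.1.1.2.length = p.2.1 then
    if p.1.2.length < p.2.2.1 then (false, addr p.2.2.2 c p.1.1.2 p.1.2.length)
    else (true, [p.1.2.all (fun b => b)])
  else (true, [false])

/-- Step function of the verifier. -/
def sideG (act : ℕ → Option (ℕ × ℕ)) (i₀ : ℕ) (c : Bool)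
    (p : (List Bool × List Bool) × List Bool) : Bool × List Bool :=
  match look act i₀ p.1.1 with
  | none => (true, [true])
  | some q => sideS c (p, q)

theorem ptf_sideS (c : Bool) : PTF (sideS c) := by
  have h : PTF (fun p : ((List Bool × List Bool) × List Bool) × (ℕ × (ℕ × ℕ)) =>
      addr p.2.2.2 c p.1.1.2 p.1.2.length) := by
    have h1 : PTF (fun p : ((List Bool × List Bool) × List Bool) × (ℕ × (ℕ × ℕ)) =>
      (p.2.2.2, (p.1.1.2, p.1.2.length))) := by fun_prop
    exact (ptf_addr c).comp h1
  unfold sideS
  fun_prop

theorem ptf_sideG {act : ℕ → Option (ℕ × ℕ)} (hact : PTF act) (i₀ : ℕ) (c : Bool) :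
    PTF (sideG act i₀ c) := by
  have h1 : PTF (fun p : (List Bool × List Bool) × List Bool => look act i₀ p.1.1) :=
    (ptf_look hact i₀).comp (PTF.fst.fst')
  refine (PTF.option_case (g := sideS c) h1 (PTF.const (true, [true])) (ptf_sideS c)).congr
    (fun p => ?_)
  unfold sideG
  cases look act i₀ p.1.1 <;> rfl

theorem orun_side (act : ℕ → Option (ℕ × ℕ)) (i₀ : ℕ) (c : Bool) (R : Orc) (x w : List Bool)
    {n b ν : ℕ} (hl : look act i₀ x = some (n, (b, ν))) (hw : w.length = n) :
    ∀ t k, k ≤ b → b + 1 ≤ t + k →
      orun (sideG act i₀ c) R (x, w) t ((List.range k).map (fun j => R (addr ν c w j))) =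
        some [(List.range b).all (fun j => R (addr ν c w j))] := by
  intro t
  induction t with
  | zero => intro k hk h; omega
  | succ t ih =>
    intro k hk h
    have hg : sideG act i₀ c ((x, w), (List.range k).map (fun j => R (addr ν c w j))) =
        if k < b then (false, addr ν c w k)
        else (true, [((List.range k).map (fun j => R (addr ν c w j))).all (fun b => b)]) := by
      unfold sideG
      simp only [hl]
      unfold sideS
      simp only [hw, if_true, List.length_map, List.length_range]
    rw [orun, hg]
    by_cases hkb : k < b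
    · rw [if_pos hkb]
      simp only [Bool.false_eq_true, if_false]
      have e : (List.range k).map (fun j => R (addr ν c w j)) ++ [R (addr ν c w k)] =
          (List.range (k + 1)).map (fun j => R (addr ν c w j)) := by
        rw [List.range_succ, List.map_append]
        rfl
      rw [e]
      exact ih (k + 1) hkb (by omega)
    · have : k = b := by omega
      subst this
      rw [if_neg hkb]
      simp only [if_true]
      rw [List.all_map]
      rfl

theorem side_mem {act : ℕ → Option (ℕ × ℕ)} (hact : PTF act) (i₀ : ℕ) (c : Bool) (R : Orc) :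
    side act i₀ c R ∈ coNPRel R := by
  show (side act i₀ c R)ᶜ ∈ NPRel R
  refine ⟨Polynomial.X, sideV act i₀ c R, ⟨sideG act i₀ c, Polynomial.X,
    of_ptf_T (ptf_sideG hact i₀ c), fun p => ?_⟩, fun x => ?_⟩
  · obtain ⟨x, w⟩ := p
    rw [Polynomial.eval_X, length_bitEncode_pair]
    show _ = some [sideV act i₀ c R (x, w)]
    have e0 : ∀ T, orun (sideG act i₀ c) R (x, w) (T + 1) [] =
      if (sideG act i₀ c ((x, w), [])).1 = true then some (sideG act i₀ c ((x, w), [])).2
        else orun (sideG act i₀ c) R (x, w) T ([] ++ [R (sideG act i₀ c ((x, w), [])).2]) :=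
      fun T => rfl
    cases hl : look act i₀ x with
    | none =>
      rw [e0]
      have h1 : sideG act i₀ c ((x, w), []) = (true, [true]) := by
        unfold sideG; simp only [hl]
      have h2 : sideV act i₀ c R (x, w) = true := by
        unfold sideV; simp only [hl]
      rw [h1, h2]
      rfl
    | some q =>
      obtain ⟨n, b, ν⟩ := q
      by_cases hw : w.length = n
      · obtain ⟨i, N, -, -, -, hb, hx⟩ := exists_of_look hl
        have hxl : x.length = n + ν + 1 := by rw [hx, length_inst]
        have h1 := orun_side act i₀ c R x w hl hw (6 * x.length + 3 * w.length + 1) 0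
          (Nat.zero_le _) (by omega)
        rw [List.range_zero, List.map_nil] at h1
        rw [h1]
        have h2 : sideV act i₀ c R (x, w) =
            (List.range b).all (fun j => R (addr ν c w j)) := by
          unfold sideV
          simp only [hl, hw, decide_true, Bool.true_and]
        rw [h2]
      · rw [e0]
        have h1 : sideG act i₀ c ((x, w), []) = (true, [false]) := by
          unfold sideG
          simp only [hl]
          unfold sideS
          simp only [hw, if_false]
        have h2 : sideV act i₀ c R (x, w) = false := by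
          unfold sideV
          simp only [hl, hw, decide_false, Bool.false_and]
        rw [h1, h2]
        rfl
  · have hc : (side act i₀ c R)ᶜ x = true ↔ ¬ (side act i₀ c R x = true) := by
      show (!(side act i₀ c R x)) = true ↔ _
      cases side act i₀ c R x <;> simp
    rw [hc]
    cases hl : look act i₀ x with
    | none =>
      have h1 : side act i₀ c R x = false := by unfold side; simp only [hl]
      rw [h1]
      have h2 : sideV act i₀ c R (x, []) = true := by unfold sideV; simp only [hl]
      exact ⟨fun _ => ⟨[], Nat.zero_le _, h2⟩, fun _ => Bool.false_ne_true⟩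
    | some q =>
      obtain ⟨n, b, ν⟩ := q
      obtain ⟨i, N, -, -, -, hb, hx⟩ := exists_of_look hl
      have hxl : x.length = n + ν + 1 := by rw [hx, length_inst]
      have hV : ∀ w, sideV act i₀ c R (x, w) = true ↔ Wit R n b ν c w := by
        intro w
        unfold sideV Wit
        simp only [hl, Bool.and_eq_true, decide_eq_true_eq, List.all_eq_true, List.mem_range]
      rw [side_eq_true]
      constructor
      · intro h
        have h2 : ∃ u, Wit R n b ν c u := by
          by_contra hcon
          exact h ⟨n, b, ν, hl, fun u hu => hcon ⟨u, hu⟩⟩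
        obtain ⟨u, hu⟩ := h2
        refine ⟨u, ?_, (hV u).2 hu⟩
        rw [Polynomial.eval_X, hu.1]
        omega
      · rintro ⟨w, -, hw⟩ ⟨n', b', ν', h1, h2⟩
        rw [hl] at h1
        have h3 := Option.some.inj h1
        have e1 : n = n' := congrArg Prod.fst h3
        have e2 : b = b' := congrArg (fun p => p.2.1) h3
        have e3 : ν = ν' := congrArg (fun p => p.2.2) h3
        subst e1 e2 e3
        exact h2 w ((hV w).1 hw)

end Pool.Agent.RO
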