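import Pool.Agent.Work.MP_46935e_lc.RO.Defs
import Pool.Agent.Work.MP_46935e_lc.Frozen

/-!
# Runs of oracle procedures
-/

set_option autoImplicit false

namespace Pool.Agent.RO

open Pool.Agent.PT Pool.Agent.Work.MP_46935e_lc

variable {α : Type}

/-- The queries asked during a run. -/
def oqs (g : α × List Bool → Bool × List Bool) (O : List Bool → Bool) (x : α) :
    ℕ → List Bool → List (List Bool)
  | 0, _ => []
  | t + 1, a => if (g (x, a)).1 = true then []
      else (g (x, a)).2 :: oqs g O x t (a ++ [O (g (x, a)).2])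

theorem length_oqs (g : α × List Bool → Bool × List Bool) (O : List Bool → Bool) (x : α) (t : ℕ) :
    ∀ a, (oqs g O x t a).length ≤ t := by
  induction t with
  | zero => intro a; simp [oqs]
  | succ t ih =>
    intro a
    rw [oqs]
    split_ifs
    · simp
    · rw [List.length_cons]; have := ih (a ++ [O (g (x, a)).2]); omega

theorem orun_congr (g : α × List Bool → Bool × List Bool) {O O' : List Bool → Bool} (x : α)
    (t : ℕ) : ∀ a, (∀ q ∈ oqs g O x t a, O q = O' q) →
      orun g O' x t a = orun g O x t a ∧ oqs g O' x t a = oqs g O x t a := by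
  induction t with
  | zero => intro a _; exact ⟨rfl, rfl⟩
  | succ t ih =>
    intro a h
    rw [oqs] at h
    rw [orun, orun, oqs, oqs]
    split_ifs with hg
    · exact ⟨rfl, rfl⟩
    · rw [if_neg hg] at h
      have h1 := h _ List.mem_cons_self
      have h2 := ih (a ++ [O (g (x, a)).2]) (fun q hq => h q (List.mem_cons_of_mem _ hq))
      rw [← h1]
      exact ⟨h2.1, by rw [h2.2]⟩

theorem orun_mono (g : α × List Bool → Bool × List Bool) (O : List Bool → Bool) (x : α)
    (y : List Bool) (t : ℕ) : ∀ (a : List Bool) (t' : ℕ), t ≤ t' → orun g O x t a = some y →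
      orun g O x t' a = some y := by
  induction t with
  | zero => intro a t' _ h; cases h
  | succ t ih =>
    intro a t' ht h
    obtain ⟨t'', rfl⟩ : ∃ s, t' = s + 1 := ⟨t' - 1, by omega⟩
    rw [orun] at h ⊢
    split_ifs at h ⊢ with hg
    · exact h
    · exact ih _ _ (by omega) h

/-- Bound for the length of the queries, `s` the size of the input and `t` the number of
rounds. -/
def qlen (k s t : ℕ) : ℕ := (s + 4 * t + 5) ^ k

theorem qlen_mono (k : ℕ) {s s' t t' : ℕ} (hs : s ≤ s') (ht : t ≤ t') :
    qlen k s t ≤ qlen k s' t' := Nat.pow_le_pow_left (by omega) _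

theorem exists_qlen [Enc α] {g : α × List Bool → Bool × List Bool} (hg : PTF g) :
    ∃ k, ∀ (O : List Bool → Bool) (x : α) (t : ℕ), ∀ q ∈ oqs g O x t [],
      q.length ≤ qlen k (sz x) t := by
  obtain ⟨k, hk⟩ := hg.size
  refine ⟨k, fun O x t => ?_⟩
  have key : ∀ (t : ℕ) (a : List Bool), ∀ q ∈ oqs g O x t a,
      q.length ≤ qlen k (sz x) (a.length + t) := by
    intro t
    induction t with
    | zero => intro a q hq; cases hq
    | succ t ih =>
      intro a q hq
      rw [oqs] at hq
      split_ifs at hq with hg
      · cases hq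
      · rcases List.mem_cons.1 hq with rfl | hq
        · have h1 := hk (x, a)
          have h2 : (g (x, a)).2.length ≤ sz (g (x, a)) := by
            have h3 := length_le_sz (g (x, a)).2
            have h4 : sz (g (x, a)) = sz (g (x, a)).1 + sz (g (x, a)).2 + 1 := sz_pair _ _
            omega
          refine h2.trans (h1.trans (Nat.pow_le_pow_left ?_ _))
          rw [sz_pair]
          have := sz_bits a
          omega
        · have h1 := ih _ q hq
          rw [List.length_append, List.length_singleton] at h1
          refine h1.trans (qlen_mono k (le_refl _) (by omega))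
  intro q hq
  have := key t [] q hq
  simpa using this

theorem join_true (R S : List Bool → Bool) (w : List Bool) : join R S (true :: w) = R w := rfl
theorem join_false (R S : List Bool → Bool) (w : List Bool) : join R S (false :: w) = S w := rfl
theorem join_nil (R S : List Bool → Bool) : join R S [] = false := rfl

/-! ### Subexponential bounds -/

theorem eval_mono (p : Polynomial ℕ) {m n : ℕ} (h : m ≤ n) : p.eval m ≤ p.eval n := by
  induction p using Polynomial.induction_on' with
  | add p q hp hq => rw [Polynomial.eval_add, Polynomial.eval_add]; exact add_le_add hp hq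
  | monomial k c =>
    rw [Polynomial.eval_monomial, Polynomial.eval_monomial]
    exact Nat.mul_le_mul_left _ (Nat.pow_le_pow_left h _)

/-- Subexponential functions. -/
def SubExp (T : ℕ → ℕ) : Prop := ∀ k : ℕ, ∀ᶠ n in Filter.atTop, T n ^ k ≤ 2 ^ n

theorem SubExp.mono {T T' : ℕ → ℕ} (h : SubExp T') (hT : ∀ n, T n ≤ T' n) : SubExp T := by
  intro k
  filter_upwards [h k] with n hn
  exact (Nat.pow_le_pow_left (hT n) k).trans hn

theorem SubExp.pow {T : ℕ → ℕ} (h : SubExp T) (j : ℕ) : SubExp (fun n => T n ^ j) := by
  intro k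
  filter_upwards [h (j * k)] with n hn
  rwa [← pow_mul]

theorem SubExp.mul {T T' : ℕ → ℕ} (h : SubExp T) (h' : SubExp T') :
    SubExp (fun n => T n * T' n) := by
  intro k
  filter_upwards [h (k * 2), h' (k * 2)] with n h1 h2
  rw [pow_mul] at h1 h2
  have h3 := Nat.mul_le_mul h1 h2
  rw [← mul_pow, ← mul_pow, ← sq (2 ^ n)] at h3
  exact (Nat.pow_le_pow_iff_left (by norm_num)).1 h3

theorem SubExp.const (c : ℕ) : SubExp (fun _ => c) := by
  intro k
  filter_upwards [Filter.eventually_ge_atTop (c ^ k)] with n hn
  exact hn.trans Nat.lt_two_pow_self.le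

theorem SubExp.id : SubExp (fun n => n) := by
  intro k
  have h1 := (isLittleO_pow_const_const_pow_of_one_lt (R := ℝ) k (one_lt_two)).bound
    (zero_lt_one)
  filter_upwards [h1] with n hn
  rw [one_mul, Real.norm_of_nonneg (by positivity), Real.norm_of_nonneg (by positivity)] at hn
  exact_mod_cast hn

theorem SubExp.max {T T' : ℕ → ℕ} (h : SubExp T) (h' : SubExp T') :
    SubExp (fun n => Max.max (T n) (T' n)) := by
  intro k
  filter_upwards [h k, h' k] with n h1 h2
  rcases max_choice (T n) (T' n) with e | e <;> rw [e] <;> assumption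

theorem SubExp.add {T T' : ℕ → ℕ} (h : SubExp T) (h' : SubExp T') :
    SubExp (fun n => T n + T' n) :=
  ((SubExp.const 2).mul (h.max h')).mono (fun n => by
    have h1 := le_max_left (T n) (T' n)
    have h2 := le_max_right (T n) (T' n)
    omega)

theorem SubExp.eval {T : ℕ → ℕ} (h : SubExp T) (p : Polynomial ℕ) :
    SubExp (fun n => p.eval (T n)) := by
  induction p using Polynomial.induction_on' with
  | add p q hp hq => exact (hp.add hq).mono (fun n => by rw [Polynomial.eval_add])
  | monomial k c =>
    exact ((SubExp.const c).mul (h.pow k)).mono (fun n => by rw [Polynomial.eval_monomial])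

/-- Uniform use of a subexponential bound. -/
theorem SubExp.lt {T : ℕ → ℕ} (h : SubExp T) :
    ∀ᶠ n in Filter.atTop, ∀ m, n ≤ m → m ≤ 2 * n + 1 → 2 * T m < 2 ^ n := by
  have h1 := ((SubExp.const 2).mul h).add (SubExp.const 1)
  obtain ⟨n₀, h2⟩ := Filter.eventually_atTop.1 (h1 4)
  filter_upwards [Filter.eventually_ge_atTop (n₀ + 1)] with n hn m h3 h4
  have h5 := h2 m (by omega)
  have h6 : (2 * T m + 1) ^ 4 ≤ (2 ^ n) ^ 4 := by
    refine h5.trans ?_
    rw [← pow_mul]
    exact Nat.pow_le_pow_right (by norm_num) (by omega)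
  have h7 := (Nat.pow_le_pow_iff_left (by norm_num)).1 h6
  omega

end Pool.Agent.RO
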