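import Pool.Agent.Work.MP_46935e_lc.RO.RelDef
import Pool.Agent.Work.MP_46935e_lc.RO.Run
import Pool.Agent.Work.MP_46935e_lc.RO.PairNP

/-!
# The new pair relative to two oracles consists of sets in coNP relative to their join
-/

set_option autoImplicit false

namespace Pool.Agent.RO

open Pool.Agent.PT Pool.Agent.Work.MP_46935e_lc Function

/-! ### Logarithm and short strings in polynomial time -/

/-- Halving step. -/
def logStep (p : ℕ × ℕ) : ℕ × ℕ := if 2 ≤ p.1 then (p.1 / 2, p.2 + 1) else p

theorem logStep_inv (p : ℕ × ℕ) : (logStep p).2 + Nat.log 2 (logStep p).1 = p.2 + Nat.log 2 p.1 := by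
  unfold logStep
  split_ifs with h
  · rw [Nat.log_of_one_lt_of_le (by norm_num) h]
    dsimp only
    omega
  · rfl

theorem logStep_iter (n : ℕ) : ∀ i, (logStep^[i] (n, 0)).2 + Nat.log 2 (logStep^[i] (n, 0)).1 =
      Nat.log 2 n ∧ (logStep^[i] (n, 0)).1 ≤ max 1 (n - i) ∧ (logStep^[i] (n, 0)).2 ≤ i := by
  intro i
  induction i with
  | zero => simp
  | succ i ih =>
    rw [iterate_succ_apply']
    obtain ⟨h1, h2, h3⟩ := ih
    generalize logStep^[i] (n, 0) = s at h1 h2 h3 ⊢
    refine ⟨(logStep_inv _).trans h1, ?_, ?_⟩
    · unfold logStep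
      split_ifs with h
      · dsimp only; omega
      · omega
    · unfold logStep
      split_ifs with h
      · dsimp only; omega
      · omega

theorem ptf_log : PTF (fun n : ℕ => Nat.log 2 n) := by
  have hs : PTF (fun p : ℕ × (ℕ × ℕ) => logStep p.2) := by
    unfold logStep
    fun_prop
  have h := PTF.nat_iterate (n := fun n : ℕ => n) (init := fun n : ℕ => (n, 0))
    (step := fun p : ℕ × (ℕ × ℕ) => logStep p.2) PTF.id (PTF.id.pair (PTF.const 0)) hs
    (fun n => 4 * sz n + 20) (((PB.const 4).mul PB.sz).add (PB.const 20)) (fun n i hi => by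
      obtain ⟨-, h2, h3⟩ := logStep_iter n i
      show sz (logStep^[i] (n, 0)) ≤ _
      have : logStep^[i] (n, 0) = ((logStep^[i] (n, 0)).1, (logStep^[i] (n, 0)).2) := rfl
      rw [this, sz_pair, sz_nat, sz_nat, sz_nat]
      omega)
  refine h.snd'.congr (fun n => ?_)
  obtain ⟨h1, h2, -⟩ := logStep_iter n n
  show (logStep^[n] (n, 0)).2 = _
  have h4 : Nat.log 2 (logStep^[n] (n, 0)).1 = 0 := by
    apply Nat.log_of_lt
    omega
  omega

/-- Building the lists of short strings. -/
def strStep (p : List (List Bool) × List (List Bool)) : List (List Bool) × List (List Bool) :=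
  (p.1.map (fun w => false :: w) ++ p.1.map (fun w => true :: w), p.2 ++ p.1)

theorem allStr_succ (n : ℕ) : allStr (n + 1) = allStr n ++ strs n := by
  unfold allStr
  rw [List.range_succ, List.flatMap_append]
  simp

theorem strStep_iter (i : ℕ) : strStep^[i] ([[]], []) = (strs i, allStr i) := by
  induction i with
  | zero => rfl
  | succ i ih =>
    rw [iterate_succ_apply', ih]
    show (_, _) = _
    rw [allStr_succ]
    rfl

theorem length_strs (n : ℕ) : (strs n).length = 2 ^ n := by
  induction n with
  | zero => rfl
  | succ n ih => rw [strs, List.length_append, List.length_map, List.length_map, ih, pow_succ]; ring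

theorem length_allStr (n : ℕ) : (allStr n).length + 1 = 2 ^ n := by
  induction n with
  | zero => rfl
  | succ n ih => rw [allStr_succ, List.length_append, length_strs, pow_succ]; omega

theorem length_allStr_log (n : ℕ) : (allStr (Nat.log 2 n)).length ≤ n := by
  have h := length_allStr (Nat.log 2 n)
  rcases Nat.eq_zero_or_pos n with rfl | hn
  · simp [Nat.log_zero_right] at h ⊢
    exact h
  · have := Nat.pow_log_le_self 2 hn.ne'
    omega

theorem sz_strings_le (m : ℕ) (l : List (List Bool)) (h : ∀ w ∈ l, w.length ≤ m) :
    sz l ≤ l.length * (4 * m + 2) + 1 := by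
  induction l with
  | nil => simp [sz_nil]
  | cons w l ih =>
    have h1 := ih (fun v hv => h v (List.mem_cons_of_mem _ hv))
    have h2 := h w List.mem_cons_self
    have h3 := sz_bits w
    rw [sz_cons, List.length_cons, Nat.succ_mul]
    omega

theorem ptf_allStr_log : PTF (fun n : ℕ => allStr (Nat.log 2 n)) := by
  have hs : PTF (fun p : ℕ × (List (List Bool) × List (List Bool)) => strStep p.2) := by
    unfold strStep
    fun_prop
  have h := PTF.nat_iterate (n := fun n : ℕ => Nat.log 2 n)
    (init := fun _ : ℕ => (([[]], []) : List (List Bool) × List (List Bool)))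
    (step := fun p : ℕ × (List (List Bool) × List (List Bool)) => strStep p.2)
    ptf_log (PTF.const _) hs
    (fun n => 2 * ((sz n + 1) * (4 * sz n + 2) + 1) + 1)
    ((((PB.const 2).mul (((PB.sz.add (PB.const 1)).mul
      (((PB.const 4).mul PB.sz).add (PB.const 2))).add (PB.const 1))).add (PB.const 1)))
    (fun n i hi => by
      show sz (strStep^[i] ([[]], [])) ≤ _
      rw [strStep_iter, sz_pair]
      have hin : i ≤ n := hi.trans (Nat.log_le_self 2 n)
      have hz : n ≤ sz n := by rw [sz_nat]; omega
      have hp : 2 ^ i ≤ n + 1 := by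
        rcases Nat.eq_zero_or_pos n with rfl | hn
        · have : i = 0 := by omega
          subst this; norm_num
        · exact ((Nat.pow_le_pow_right (by norm_num) hi).trans
            (Nat.pow_log_le_self 2 hn.ne')).trans (Nat.le_succ n)
      have e1 : sz (strs i) ≤ (sz n + 1) * (4 * sz n + 2) + 1 := by
        refine (sz_strings_le i _ (fun w hw => ((mem_strs i w).1 hw).le)).trans ?_
        rw [length_strs]
        have := Nat.mul_le_mul (show 2 ^ i ≤ sz n + 1 by omega)
          (show 4 * i + 2 ≤ 4 * sz n + 2 by omega)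
        omega
      have e2 : sz (allStr i) ≤ (sz n + 1) * (4 * sz n + 2) + 1 := by
        refine (sz_strings_le i _ (fun w hw => (mem_allStr.1 hw).le)).trans ?_
        have h5 := length_allStr i
        have := Nat.mul_le_mul (show (allStr i).length ≤ sz n + 1 by omega)
          (show 4 * i + 2 ≤ 4 * sz n + 2 by omega)
        omega
      omega)
  refine h.snd'.congr (fun n => ?_)
  show (strStep^[Nat.log 2 n] ([[]], [])).2 = _
  rw [strStep_iter]

/-! ### Tables from answers -/

/-- The members of `L` with positive answer. -/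
def tabOf (L : List (List Bool)) (a : List Bool) : List (List Bool) :=
  ((List.range L.length).filter (fun j => a.getD j false)).map (fun j => L.getD j [])

theorem tabOf_eq (L : List (List Bool)) (a : List Bool) (C : List Bool → Bool)
    (h : ∀ j < L.length, a.getD j false = C (L.getD j [])) : tabOf L a = L.filter C := by
  have e : L = (List.range L.length).map (fun j => L.getD j []) := by
    apply List.ext_getElem
    · simp
    · intro i h1 h2
      rw [List.getElem_map, List.getElem_range, List.getD_eq_getElem _ _ h1]
  unfold tabOf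
  conv_rhs => rw [e]
  rw [List.filter_map]
  congr 1
  apply List.filter_congr
  intro j hj
  exact h j (List.mem_range.1 hj)

theorem ptf_tabOf : PTF (fun p : List (List Bool) × List Bool => tabOf p.1 p.2) := by
  unfold tabOf
  fun_prop

/-! ### The verifier -/

/-- Parameters of the active instance, given the table. -/
def lookT (act : ℕ × List (List Bool) → Option (ℕ × ℕ)) (i₀ : ℕ) (p : ℕ × ℕ)
    (T : List (List Bool)) : Option (ℕ × (ℕ × ℕ)) :=
  (act (p.1, T)).bind (fun s => if i₀ ≤ s.1 ∧ p.2 < s.2 then some (p.1, (p.1 - s.1, p.2)) else none)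

theorem look_eq_lookT (act : ℕ × List (List Bool) → Option (ℕ × ℕ)) (i₀ : ℕ) (C : Orc)
    (x : List Bool) {p : ℕ × ℕ} (h : pin x = some p) :
    look (fun n => act (n, ctab C (Nat.log 2 n))) i₀ x =
      lookT act i₀ p (ctab C (Nat.log 2 p.1)) := by
  unfold look lookT
  rw [h, Option.bind_some]

/-- Last phase of the step function. -/
def sideS2 (c : Bool) (p : (List Bool × List Bool) × (ℕ × (ℕ × ℕ))) : Bool × List Bool :=
  if p.1.1.length = p.2.1 then
    if p.1.2.length < p.2.2.1 then (false, true :: addr p.2.2.2 c p.1.1 p.1.2.length)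
    else (true, [p.1.2.all (fun b => b)])
  else (true, [false])

/-- Step function for a parsed instance: `p = ((w, a), (n, ν))`. -/
def sideG2 (act : ℕ × List (List Bool) → Option (ℕ × ℕ)) (i₀ : ℕ) (c : Bool)
    (p : (List Bool × List Bool) × (ℕ × ℕ)) : Bool × List Bool :=
  if p.1.2.length < (allStr (Nat.log 2 p.2.1)).length then
    (false, false :: (allStr (Nat.log 2 p.2.1)).getD p.1.2.length [])
  else match lookT act i₀ p.2 (tabOf (allStr (Nat.log 2 p.2.1)) p.1.2) with
    | none => (true, [true])
    | some q => sideS2 c ((p.1.1, p.1.2.drop (allStr (Nat.log 2 p.2.1)).length), q)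

/-- Step function of the verifier. -/
def sideG3 (act : ℕ × List (List Bool) → Option (ℕ × ℕ)) (i₀ : ℕ) (c : Bool)
    (p : (List Bool × List Bool) × List Bool) : Bool × List Bool :=
  match pin p.1.1 with
  | none => (true, [true])
  | some q => sideG2 act i₀ c ((p.1.2, p.2), q)

theorem ptf_sideS2 (c : Bool) : PTF (sideS2 c) := by
  have h : PTF (fun p : (List Bool × List Bool) × (ℕ × (ℕ × ℕ)) =>
      addr p.2.2.2 c p.1.1 p.1.2.length) := by
    have h1 : PTF (fun p : (List Bool × List Bool) × (ℕ × (ℕ × ℕ)) =>
      (p.2.2.2, (p.1.1, p.1.2.length))) := by fun_prop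
    exact (ptf_addr c).comp h1
  unfold sideS2
  fun_prop

theorem ptf_lookT {act : ℕ × List (List Bool) → Option (ℕ × ℕ)} (hact : PTF act) (i₀ : ℕ) :
    PTF (fun p : (ℕ × ℕ) × List (List Bool) => lookT act i₀ p.1 p.2) := by
  have h2 : PTF (fun p : (ℕ × ℕ) × List (List Bool) => act (p.1.1, p.2)) := by
    have h1 : PTF (fun p : (ℕ × ℕ) × List (List Bool) => (p.1.1, p.2)) := by fun_prop
    exact hact.comp h1
  unfold lookT
  fun_prop

theorem ptf_sideG2 {act : ℕ × List (List Bool) → Option (ℕ × ℕ)} (hact : PTF act) (i₀ : ℕ)
    (c : Bool) : PTF (sideG2 act i₀ c) := by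
  have hL : PTF (fun p : (List Bool × List Bool) × (ℕ × ℕ) => allStr (Nat.log 2 p.2.1)) := by
    have h1 : PTF (fun p : (List Bool × List Bool) × (ℕ × ℕ) => p.2.1) := by fun_prop
    exact ptf_allStr_log.comp h1
  have hT : PTF (fun p : (List Bool × List Bool) × (ℕ × ℕ) =>
      tabOf (allStr (Nat.log 2 p.2.1)) p.1.2) := by
    have h1 : PTF (fun p : (List Bool × List Bool) × (ℕ × ℕ) =>
      (allStr (Nat.log 2 p.2.1), p.1.2)) := by fun_prop
    exact ptf_tabOf.comp h1
  have hk : PTF (fun p : (List Bool × List Bool) × (ℕ × ℕ) =>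
      lookT act i₀ p.2 (tabOf (allStr (Nat.log 2 p.2.1)) p.1.2)) := by
    have h1 : PTF (fun p : (List Bool × List Bool) × (ℕ × ℕ) =>
      (p.2, tabOf (allStr (Nat.log 2 p.2.1)) p.1.2)) := by fun_prop
    exact (ptf_lookT hact i₀).comp h1
  have hS : PTF (fun p : ((List Bool × List Bool) × (ℕ × ℕ)) × (ℕ × (ℕ × ℕ)) =>
      sideS2 c ((p.1.1.1, p.1.1.2.drop (allStr (Nat.log 2 p.1.2.1)).length), p.2)) := by
    have h0 : PTF (fun p : ((List Bool × List Bool) × (ℕ × ℕ)) × (ℕ × (ℕ × ℕ)) =>
        allStr (Nat.log 2 p.1.2.1)) := by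
      have h1 : PTF (fun p : ((List Bool × List Bool) × (ℕ × ℕ)) × (ℕ × (ℕ × ℕ)) => p.1.2.1) := by
        fun_prop
      exact ptf_allStr_log.comp h1
    have h1 : PTF (fun p : ((List Bool × List Bool) × (ℕ × ℕ)) × (ℕ × (ℕ × ℕ)) =>
      ((p.1.1.1, p.1.1.2.drop (allStr (Nat.log 2 p.1.2.1)).length), p.2)) := by fun_prop
    exact (ptf_sideS2 c).comp h1
  have hM : PTF (fun p : (List Bool × List Bool) × (ℕ × ℕ) =>
      (match lookT act i₀ p.2 (tabOf (allStr (Nat.log 2 p.2.1)) p.1.2) with
      | none => (true, [true])
      | some q => sideS2 c ((p.1.1, p.1.2.drop (allStr (Nat.log 2 p.2.1)).length), q) :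
        Bool × List Bool)) := by
    refine (PTF.option_case (o := fun p : (List Bool × List Bool) × (ℕ × ℕ) =>
      lookT act i₀ p.2 (tabOf (allStr (Nat.log 2 p.2.1)) p.1.2)) hk (PTF.const (true, [true]))
      hS).congr (fun p => ?_)
    cases lookT act i₀ p.2 (tabOf (allStr (Nat.log 2 p.2.1)) p.1.2) <;> rfl
  unfold sideG2
  fun_prop

theorem ptf_sideG3 {act : ℕ × List (List Bool) → Option (ℕ × ℕ)} (hact : PTF act) (i₀ : ℕ)
    (c : Bool) : PTF (sideG3 act i₀ c) := by
  have h1 : PTF (fun p : (List Bool × List Bool) × List Bool => pin p.1.1) :=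
    ptf_pin.comp (PTF.fst.fst')
  have h2 : PTF (fun p : ((List Bool × List Bool) × List Bool) × (ℕ × ℕ) =>
      sideG2 act i₀ c ((p.1.1.2, p.1.2), p.2)) := by
    have h1 : PTF (fun p : ((List Bool × List Bool) × List Bool) × (ℕ × ℕ) =>
      ((p.1.1.2, p.1.2), p.2)) := by fun_prop
    exact (ptf_sideG2 hact i₀ c).comp h1
  refine (PTF.option_case (o := fun p : (List Bool × List Bool) × List Bool => pin p.1.1) h1
    (PTF.const (true, [true])) h2).congr (fun p => ?_)
  unfold sideG3
  cases pin p.1.1 <;> rfl

/-- A phase of a run. -/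
theorem orun_phase {α : Type} (g : α × List Bool → Bool × List Bool) (O : List Bool → Bool)
    (x : α) (base : List Bool) (q : ℕ → List Bool) (m : ℕ) :
    ∀ t, (∀ k < m, g (x, base ++ (List.range k).map (fun j => O (q j))) = (false, q k)) →
      orun g O x (t + m) base = orun g O x t (base ++ (List.range m).map (fun j => O (q j))) := by
  induction m with
  | zero => intro t _; simp
  | succ m ih =>
    intro t h
    have h1 := ih (t + 1) (fun k hk => h k (by omega))
    rw [show t + (m + 1) = t + 1 + m by ring, h1, orun, h m (by omega), List.range_succ,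
      List.map_append, List.append_assoc]
    rfl

/-- The verifier for the complement. -/
def sideV3 (act : ℕ × List (List Bool) → Option (ℕ × ℕ)) (i₀ : ℕ) (c : Bool) (C R : Orc)
    (p : List Bool × List Bool) : Bool :=
  sideV (fun n => act (n, ctab C (Nat.log 2 n))) i₀ c R p

theorem orun_side3 (act : ℕ × List (List Bool) → Option (ℕ × ℕ)) (i₀ : ℕ) (c : Bool) (C R : Orc)
    (x w : List Bool) : orun (sideG3 act i₀ c) (join R C) (x, w) (2 * x.length + 1) [] =
      some [sideV3 act i₀ c C R (x, w)] := by
  unfold sideV3 sideV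
  cases hp : pin x with
  | none =>
    have h1 : sideG3 act i₀ c ((x, w), []) = (true, [true]) := by
      unfold sideG3; simp only [hp]
    have h2 : look (fun n => act (n, ctab C (Nat.log 2 n))) i₀ x = none := by
      unfold look; rw [hp]; rfl
    rw [h2, orun, h1]
    rfl
  | some p =>
    obtain ⟨n, ν⟩ := p
    have hx := eq_inst_of_pin hp
    have hxl : x.length = n + ν + 1 := by rw [hx, length_inst]
    have hLn := length_allStr_log n
    have hlook := look_eq_lookT act i₀ C x hp
    set L := allStr (Nat.log 2 n) with hLdef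
    have hG : ∀ a, sideG3 act i₀ c ((x, w), a) = sideG2 act i₀ c ((w, a), (n, ν)) := by
      intro a; unfold sideG3; simp only [hp]
    -- first phase
    have hph := orun_phase (sideG3 act i₀ c) (join R C) (x, w) []
      (fun k => false :: L.getD k []) L.length (2 * x.length + 1 - L.length) (fun k hk => by
        rw [hG]
        unfold sideG2
        dsimp only
        rw [← hLdef, if_pos (by simpa using hk)]
        simp)
    rw [Nat.sub_add_cancel (by omega), List.nil_append] at hph
    rw [hph]
    set A := (List.range L.length).map (fun j => join R C (false :: L.getD j [])) with hA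
    have hAl : A.length = L.length := by rw [hA]; simp
    have hT : ∀ a, tabOf L (A ++ a) = ctab C (Nat.log 2 n) := by
      intro a
      refine tabOf_eq L (A ++ a) C (fun j hj => ?_)
      rw [List.getD_append _ _ _ _ (by rw [hAl]; exact hj), hA,
        List.getD_eq_getElem _ _ (by simpa using hj), List.getElem_map, List.getElem_range,
        join_false]
    have hG2 : ∀ a, sideG3 act i₀ c ((x, w), A ++ a) =
        match look (fun n => act (n, ctab C (Nat.log 2 n))) i₀ x with
        | none => (true, [true])
        | some q => sideS2 c ((w, a), q) := by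
      intro a
      rw [hG]
      unfold sideG2
      dsimp only
      rw [← hLdef, if_neg (by rw [List.length_append, hAl]; omega), hT, hlook]
      rw [show (A ++ a).drop L.length = a by rw [← hAl]; simp]
    have hT0 : 2 * x.length + 1 - L.length = (2 * x.length - L.length) + 1 := by omega
    cases hl : look (fun n => act (n, ctab C (Nat.log 2 n))) i₀ x with
    | none =>
      have h1 := hG2 []
      rw [hl, List.append_nil] at h1
      rw [hT0, orun, h1]
      rfl
    | some q =>
      obtain ⟨n', b, ν'⟩ := q
      obtain ⟨i, N, -, -, -, hb, hx'⟩ := exists_of_look hl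
      obtain ⟨hn, hν⟩ := inst_inj (hx.symm.trans hx')
      subst hn hν
      by_cases hw : w.length = n
      · have hph2 := orun_phase (sideG3 act i₀ c) (join R C) (x, w) A
          (fun k => true :: addr ν c w k) b (2 * x.length + 1 - L.length - b) (fun k hk => by
            rw [hG2, hl]
            unfold sideS2
            simp only [hw, if_true, List.length_map, List.length_range, hk])
        rw [Nat.sub_add_cancel (by omega)] at hph2
        rw [hph2]
        have hT1 : 2 * x.length + 1 - L.length - b = (2 * x.length - L.length - b) + 1 := by omega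
        have hs : sideS2 c ((w, (List.range b).map (fun j => join R C (true :: addr ν c w j))),
            (n, (b, ν))) = (true, [(List.range b).all (fun j => R (addr ν c w j))]) := by
          unfold sideS2
          simp only [hw, if_true, List.length_map, List.length_range, lt_irrefl, if_false,
            List.all_map]
          rfl
        have hg : sideG3 act i₀ c ((x, w), A ++
            (List.range b).map (fun j => join R C (true :: addr ν c w j))) =
            (true, [(List.range b).all (fun j => R (addr ν c w j))]) := by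
          rw [hG2, hl]; exact hs
        rw [hT1, orun, hg]
        simp only [if_true, hw, decide_true, Bool.true_and]
      · have h1 := hG2 []
        have hs : sideS2 c ((w, []), (n, (b, ν))) = (true, [false]) := by
          unfold sideS2
          simp only [hw, if_false]
        rw [hl, List.append_nil] at h1
        have hg : sideG3 act i₀ c ((x, w), A) = (true, [false]) := by
          rw [h1]; exact hs
        rw [hT0, orun, hg]
        simp only [if_true, hw, decide_false, Bool.false_and]

theorem side_mem_rel {act : ℕ × List (List Bool) → Option (ℕ × ℕ)} (hact : PTF act) (i₀ : ℕ)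
    (c : Bool) (C R : Orc) :
    side (fun n => act (n, ctab C (Nat.log 2 n))) i₀ c R ∈ coNPRel (join R C) := by
  show (side (fun n => act (n, ctab C (Nat.log 2 n))) i₀ c R)ᶜ ∈ NPRel (join R C)
  refine ⟨Polynomial.X, sideV3 act i₀ c C R, ⟨sideG3 act i₀ c, Polynomial.X,
    of_ptf_T (ptf_sideG3 hact i₀ c), fun p => ?_⟩, fun x => ?_⟩
  · obtain ⟨x, w⟩ := p
    rw [Polynomial.eval_X, length_bitEncode_pair]
    show _ = some [sideV3 act i₀ c C R (x, w)]
    exact orun_mono _ _ _ _ _ _ _ (by omega) (orun_side3 act i₀ c C R x w)
  · set act' : ℕ → Option (ℕ × ℕ) := fun n => act (n, ctab C (Nat.log 2 n)) with hact'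
    have hc : (side act' i₀ c R)ᶜ x = true ↔ ¬ (side act' i₀ c R x = true) := by
      show (!(side act' i₀ c R x)) = true ↔ _
      cases side act' i₀ c R x <;> simp
    rw [hc]
    show _ ↔ ∃ w : List Bool, w.length ≤ Polynomial.eval x.length Polynomial.X ∧
      sideV act' i₀ c R (x, w) = true
    cases hl : look act' i₀ x with
    | none =>
      have h1 : side act' i₀ c R x = false := by unfold side; simp only [hl]
      rw [h1]
      have h2 : sideV act' i₀ c R (x, []) = true := by unfold sideV; simp only [hl]
      exact ⟨fun _ => ⟨[], Nat.zero_le _, h2⟩, fun _ => Bool.false_ne_true⟩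
    | some q =>
      obtain ⟨n, b, ν⟩ := q
      obtain ⟨i, N, -, -, -, hb, hx⟩ := exists_of_look hl
      have hxl : x.length = n + ν + 1 := by rw [hx, length_inst]
      have hV : ∀ w, sideV act' i₀ c R (x, w) = true ↔ Wit R n b ν c w := by
        intro w
        unfold sideV Wit
        simp only [hl, Bool.and_eq_true, decide_eq_true_eq, List.all_eq_true, List.mem_range]
      rw [side_eq_true]
      constructor
      · intro h
        have h2 : ∃ u, Wit R n b ν c u := by
          by_contra hcon
          exact h ⟨n, b, ν, hl, fun u hu => hcon ⟨u, hu⟩⟩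
        obtain ⟨u, hu⟩ := h2
        refine ⟨u, ?_, (hV u).2 hu⟩
        rw [Polynomial.eval_X, hu.1]
        omega
      · rintro ⟨w, -, hw⟩ ⟨n', b', ν', h1, h2⟩
        rw [hl] at h1
        have h3 := Option.some.inj h1
        have e1 : n = n' := congrArg Prod.fst h3
        have e2 : b = b' := congrArg (fun p => p.2.1) h3
        have e3 : ν = ν' := congrArg (fun p => p.2.2) h3
        subst e1 e2 e3
        exact h2 w ((hV w).1 hw)

end Pool.Agent.RO
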