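import Pool.Agent.Work.PT.Typed

set_option autoImplicit false

namespace Pool.Agent.RO

open Pool.Agent.PT

/-- Functions computed by a stack program (with some time bound). -/
def CF {α β : Type} [Enc α] [Enc β] (f : α → β) : Prop := ∃ B : α → ℕ, TimeF f B

/-- All strings of length `n`. -/
def strs : ℕ → List (List Bool)
  | 0 => [[]]
  | n + 1 => (strs n).map (fun w => false :: w) ++ (strs n).map (fun w => true :: w)

/-- All strings of length less than `n`. -/
def allStr (n : ℕ) : List (List Bool) := (List.range n).flatMap strs

end Pool.Agent.RO
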