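import Pool.Agent.Work.MP_46935e_lc.RO.Defs

/-!
# The random oracle: events depending on finitely many strings
-/

set_option autoImplicit false

namespace Pool.Agent.RO

open MeasureTheory ProbabilityTheory

/-- Oracles. -/
abbrev Orc : Type := List Bool → Bool

noncomputable instance : IsProbabilityMeasure randomOracle := by
  unfold randomOracle; infer_instance

/-- The event `Φ` depends only on the strings in `S`. -/
def Dep (Φ : Set Orc) (S : Finset (List Bool)) : Prop :=
  ∀ R R' : Orc, (∀ x ∈ S, R x = R' x) → (R ∈ Φ ↔ R' ∈ Φ)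

variable {Φ Ψ : Set Orc} {S T B : Finset (List Bool)}

theorem Dep.mono (h : Dep Φ S) (hST : S ⊆ T) : Dep Φ T :=
  fun R R' hR => h R R' (fun x hx => hR x (hST hx))

theorem Dep.compl (h : Dep Φ S) : Dep Φᶜ S :=
  fun R R' hR => not_congr (h R R' hR)

theorem Dep.inter (h : Dep Φ S) (h' : Dep Ψ S) : Dep (Φ ∩ Ψ) S :=
  fun R R' hR => and_congr (h R R' hR) (h' R R' hR)

theorem Dep.union (h : Dep Φ S) (h' : Dep Ψ S) : Dep (Φ ∪ Ψ) S :=
  fun R R' hR => or_congr (h R R' hR) (h' R R' hR)

theorem Dep.diff (h : Dep Φ S) (h' : Dep Ψ S) : Dep (Φ \ Ψ) S := h.inter h'.compl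

theorem Dep.univ : Dep Set.univ S := fun _ _ _ => Iff.rfl

theorem Dep.iUnion {ι : Sort*} {Φ : ι → Set Orc} (h : ∀ i, Dep (Φ i) S) : Dep (⋃ i, Φ i) S := by
  intro R R' hR
  simp only [Set.mem_iUnion]
  exact exists_congr (fun i => h i R R' hR)

theorem Dep.iInter {ι : Sort*} {Φ : ι → Set Orc} (h : ∀ i, Dep (Φ i) S) : Dep (⋂ i, Φ i) S := by
  intro R R' hR
  simp only [Set.mem_iInter]
  exact forall_congr' (fun i => h i R R' hR)

/-- Restriction of an oracle to `S`. -/
def res (S : Finset (List Bool)) (R : Orc) : S → Bool := fun x => R x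

theorem measurable_res (S : Finset (List Bool)) : Measurable (res S) := by
  unfold res; fun_prop

theorem Dep.eq_preimage (h : Dep Φ S) : Φ = res S ⁻¹' (res S '' Φ) := by
  ext R
  constructor
  · intro hR; exact ⟨R, hR, rfl⟩
  · rintro ⟨R', hR', e⟩
    exact (h R' R (fun x hx => congrFun e ⟨x, hx⟩)).1 hR'

theorem Dep.measurableSet (h : Dep Φ S) : MeasurableSet Φ := by
  rw [h.eq_preimage]
  exact measurable_res S (Set.toFinite _).measurableSet

theorem iIndep_coord : iIndepFun (fun (x : List Bool) (R : Orc) => R x) randomOracle := by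
  have := iIndepFun_infinitePi (P := fun _ : List Bool => (PMF.uniformOfFintype Bool).toMeasure)
    (X := fun _ b => b) (fun _ => measurable_id)
  exact this

/-- Events depending on disjoint sets of strings are independent. -/
theorem Dep.indep (h : Dep Φ S) (h' : Dep Ψ T) (hST : Disjoint S T) :
    randomOracle.real (Φ ∩ Ψ) = randomOracle.real Φ * randomOracle.real Ψ := by
  have hi := iIndep_coord.indepFun_finset S T hST (fun x => measurable_pi_apply x)
  have := hi.measure_inter_preimage_eq_mul (res S '' Φ) (res T '' Ψ)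
    (Set.toFinite _).measurableSet (Set.toFinite _).measurableSet
  have e1 := h.eq_preimage
  have e2 := h'.eq_preimage
  rw [measureReal_def, measureReal_def, measureReal_def, ← ENNReal.toReal_mul]
  congr 1
  rw [e1, e2]
  exact this

/-- All strings in `B` belong to the oracle. -/
def allTrue (B : Finset (List Bool)) : Set Orc := {R | ∀ x ∈ B, R x = true}

theorem dep_allTrue (B : Finset (List Bool)) : Dep (allTrue B) B := by
  intro R R' h
  exact forall₂_congr (fun x hx => by rw [h x hx])

theorem real_coord (x : List Bool) (b : Bool) :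
    randomOracle.real {R : Orc | R x = b} = 1 / 2 := by
  have h1 : MeasurePreserving (fun R : Orc => R x) randomOracle
      (PMF.uniformOfFintype Bool).toMeasure :=
    measurePreserving_eval_infinitePi _ x
  have h2 := h1.measureReal_preimage (s := {b}) (MeasurableSet.singleton _).nullMeasurableSet
  have h3 : (fun R : Orc => R x) ⁻¹' {b} = {R : Orc | R x = b} := rfl
  rw [h3] at h2
  rw [h2, measureReal_def, PMF.toMeasure_apply_singleton _ _ (MeasurableSet.singleton _)]
  simp

theorem real_allTrue (B : Finset (List Bool)) :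
    randomOracle.real (allTrue B) = (1 / 2) ^ B.card := by
  classical
  induction B using Finset.induction_on with
  | empty => simp [allTrue]
  | insert x B hx ih =>
    have e : allTrue (insert x B) = {R : Orc | R x = true} ∩ allTrue B := by
      ext R; simp [allTrue]
    have hd : Dep {R : Orc | R x = true} {x} := by
      intro R R' h
      show R x = true ↔ R' x = true
      rw [h x (Finset.mem_singleton_self x)]
    rw [e, hd.indep (dep_allTrue B) (by simpa using hx), real_coord, ih,
      Finset.card_insert_of_notMem hx, pow_succ]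
    ring

/-- Put all strings of `B` into the oracle. -/
def plant (B : Finset (List Bool)) (R : Orc) : Orc := fun x => if x ∈ B then true else R x

theorem plant_of_mem {x : List Bool} (h : x ∈ B) (R : Orc) : plant B R x = true := if_pos h

theorem plant_of_notMem {x : List Bool} (h : x ∉ B) (R : Orc) : plant B R x = R x := if_neg h

theorem Dep.plant (h : Dep Φ S) (B : Finset (List Bool)) :
    Dep {R | plant B R ∈ Φ} (S \ B) := by
  intro R R' hR
  refine h _ _ (fun x hx => ?_)
  by_cases hxB : x ∈ B
  · rw [plant_of_mem hxB, plant_of_mem hxB]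
  · rw [plant_of_notMem hxB, plant_of_notMem hxB, hR x (Finset.mem_sdiff.2 ⟨hx, hxB⟩)]

/-- **Planting.** -/
theorem real_inter_allTrue (h : Dep Φ S) (B : Finset (List Bool)) :
    randomOracle.real (Φ ∩ allTrue B) = (1 / 2) ^ B.card *
      randomOracle.real {R | Pool.Agent.RO.plant B R ∈ Φ} := by
  have e : Φ ∩ allTrue B = {R | Pool.Agent.RO.plant B R ∈ Φ} ∩ allTrue B := by
    ext R
    simp only [Set.mem_inter_iff, and_congr_left_iff, Set.mem_ofPred_eq]
    intro hR
    have : Pool.Agent.RO.plant B R = R := by
      funext x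
      by_cases hx : x ∈ B
      · rw [plant_of_mem hx, hR x hx]
      · rw [plant_of_notMem hx]
    rw [this]
  rw [e, (h.plant B).indep (dep_allTrue B) Finset.sdiff_disjoint, real_allTrue, mul_comm]

/-- Linear inequalities between indicator functions can be integrated. -/
theorem sum_real_nonneg {Ω : Type*} [MeasurableSpace Ω] (μ : Measure Ω) [IsProbabilityMeasure μ]
    {ι : Type*} (I : Finset ι) (A : ι → Set Ω) (hA : ∀ i ∈ I, MeasurableSet (A i)) (c : ι → ℝ)
    (h : ∀ ω, 0 ≤ ∑ i ∈ I, c i * (A i).indicator (fun _ => (1 : ℝ)) ω) :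
    0 ≤ ∑ i ∈ I, c i * μ.real (A i) := by
  have h1 : ∀ i ∈ I, c i * μ.real (A i) =
      ∫ ω, c i * (A i).indicator (fun _ => (1 : ℝ)) ω ∂μ := by
    intro i hi
    rw [integral_const_mul, integral_indicator_const _ (hA i hi)]
    simp
  rw [Finset.sum_congr rfl h1, ← integral_finsetSum]
  · exact integral_nonneg h
  · intro i hi
    exact ((integrable_const (1 : ℝ)).indicator (hA i hi)).const_mul _

end Pool.Agent.RO
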