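import Pool.Agent.Work.MP_46935e_lc.RO.Run
import Pool.Agent.Work.MP_46935e_lc.RO.Coin
import Pool.Agent.Work.MP_46935e_lc.RO.CFDef

/-!
# Nondeterministic polynomial-time oracle machines
-/

set_option autoImplicit false

namespace Pool.Agent.RO

open Pool.Agent.PT Pool.Agent.Work.MP_46935e_lc

/-! ### Polynomial-time functions on triples, frozen encodings -/

theorem length_encB (l : List Bool) : (encB l).length = 3 * l.length := by
  induction l with
  | nil => rfl
  | cons b l ih =>
    have : encB (b :: l) = [true, b, false] ++ encB l := rfl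
    rw [this, List.length_append, ih]
    simp
    ring

theorem length_bitEncode_pair (z w : List Bool) :
    (N487b59b3.bitEncode (z, w)).length = 6 * z.length + 3 * w.length + 1 := by
  rw [bitEncode_pair, List.length_append, N487b59b3.length_delimit, length_encB, length_encB]
  ring

theorem length_bitEncode_list (z : List Bool) :
    (N487b59b3.bitEncode z).length = 3 * z.length := by
  rw [bitEncode_list, length_encB]

/-- Encoding of a triple. -/
theorem bitEncode_triple (p : (List Bool × List Bool) × List Bool) :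
    N487b59b3.bitEncode p = dl (N487b59b3.bitEncode p.1) ++ encB p.2 := by
  show N487b59b3.delimit (N487b59b3.bitEncode p.1) ++ N487b59b3.bitEncode p.2 = _
  rw [bitEncode_list]

theorem ptf_encT : PTF (fun p : (List Bool × List Bool) × List Bool => N487b59b3.bitEncode p) :=
  ((ptf_dl (ptf_encP.comp PTF.fst)).append (ptf_encB PTF.snd)).congr
    (fun p => (bitEncode_triple p).symm)

/-- Decoding of a triple. -/
def decT (l : List Bool) : (List Bool × List Bool) × List Bool :=
  (decP (dec2 l).1, unB (dec2 l).2)

theorem ptf_decT : PTF decT :=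
  (ptf_decP.comp (PTF.fst.comp (ptf_dec2 PTF.id))).pair
    (ptf_unB (PTF.snd.comp (ptf_dec2 PTF.id)))

theorem decT_enc (p : (List Bool × List Bool) × List Bool) :
    decT (N487b59b3.bitEncode p) = p := by
  rw [bitEncode_triple]
  unfold decT
  rw [dec2_dl]
  simp only [unB_encB, decP_enc]

/-- Encoding of a bit and a string. -/
theorem bitEncode_out (p : Bool × List Bool) :
    N487b59b3.bitEncode p = dl [p.1] ++ encB p.2 := by
  show N487b59b3.delimit (N487b59b3.bitEncode p.1) ++ N487b59b3.bitEncode p.2 = _
  rw [bitEncode_list]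
  rfl

theorem ptf_encO : PTF (fun p : Bool × List Bool => N487b59b3.bitEncode p) :=
  ((ptf_dl (PTF.fst.cons (PTF.const []))).append (ptf_encB PTF.snd)).congr
    (fun p => (bitEncode_out p).symm)

/-- Decoding of a bit and a string. -/
def decO (l : List Bool) : Bool × List Bool := ((dec2 l).1.headD false, unB (dec2 l).2)

theorem ptf_decO : PTF decO :=
  ((PTF.fst.comp (ptf_dec2 PTF.id)).headD (PTF.const false)).pair
    (ptf_unB (PTF.snd.comp (ptf_dec2 PTF.id)))

theorem decO_enc (p : Bool × List Bool) : decO (N487b59b3.bitEncode p) = p := by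
  rw [bitEncode_out]
  unfold decO
  rw [dec2_dl]
  simp only [unB_encB, List.headD_cons]

theorem ptf_of_T {g : (List Bool × List Bool) × List Bool → Bool × List Bool}
    (h : N68a2faeb.IsPolyTime g) : PTF g :=
  ptf_of_tm2 h ptf_encT ptf_decO decO_enc

theorem of_ptf_T {g : (List Bool × List Bool) × List Bool → Bool × List Bool}
    (h : PTF g) : N68a2faeb.IsPolyTime g :=
  tm2_of_ptf h ptf_decT decT_enc ptf_encO

theorem ptf_of_P {g : List Bool × List Bool → Bool × List Bool}
    (h : N68a2faeb.IsPolyTime g) : PTF g :=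
  ptf_of_tm2 h ptf_encP ptf_decO decO_enc

theorem of_ptf_P {g : List Bool × List Bool → Bool × List Bool}
    (h : PTF g) : N68a2faeb.IsPolyTime g :=
  tm2_of_ptf h ptf_decP decP_enc ptf_encO

/-! ### Nondeterministic machines -/

/-- Data of a nondeterministic polynomial-time oracle machine. -/
structure VD where
  /-- bound for the certificates -/
  p : Polynomial ℕ
  /-- step function of the verifier -/
  g : (List Bool × List Bool) × List Bool → Bool × List Bool
  /-- bound for the number of rounds -/
  q : Polynomial ℕ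
  hg : N68a2faeb.IsPolyTime g

/-- Acceptance. -/
def acc (d : VD) (R : Orc) (z : List Bool) : Prop :=
  ∃ w : List Bool, w.length ≤ d.p.eval z.length ∧
    orun d.g R (z, w) (d.q.eval (N487b59b3.bitEncode (z, w)).length) [] = some [true]

theorem exists_VD {R : Orc} {L : List Bool → Bool} (h : L ∈ NPRel R) :
    ∃ d : VD, ∀ x, L x = true ↔ acc d R x := by
  obtain ⟨p, V, ⟨g, q, hg, h1⟩, h2⟩ := h
  refine ⟨⟨p, g, q, hg⟩, fun x => (h2 x).trans (exists_congr (fun w => and_congr_right
    (fun _ => ?_)))⟩
  dsimp only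
  rw [h1 (x, w)]
  show V (x, w) = true ↔ some [V (x, w)] = some [true]
  simp

/-- Exponent for the length of queries. -/
noncomputable def VD.k (d : VD) : ℕ := (exists_qlen (ptf_of_T d.hg)).choose

theorem VD.k_spec (d : VD) : ∀ (O : List Bool → Bool) (x : List Bool × List Bool) (t : ℕ),
    ∀ q ∈ oqs d.g O x t [], q.length ≤ qlen d.k (sz x) t :=
  (exists_qlen (ptf_of_T d.hg)).choose_spec

/-- Bound for the number of rounds on inputs of length at most `n`. -/
noncomputable def VD.rb (d : VD) (n : ℕ) : ℕ := d.q.eval (6 * n + 3 * d.p.eval n + 1)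

/-- Bound for the length of queries on inputs of length at most `n`. -/
noncomputable def VD.ub (d : VD) (n : ℕ) : ℕ := qlen d.k (4 * n + 4 * d.p.eval n + 3) (d.rb n)

theorem VD.rb_mono (d : VD) {m n : ℕ} (h : m ≤ n) : d.rb m ≤ d.rb n := by
  have := eval_mono d.p h
  exact eval_mono d.q (by omega)

theorem VD.ub_mono (d : VD) {m n : ℕ} (h : m ≤ n) : d.ub m ≤ d.ub n := by
  have := eval_mono d.p h
  exact qlen_mono _ (by omega) (d.rb_mono h)

theorem VD.rounds_le (d : VD) {n : ℕ} {z w : List Bool} (hz : z.length ≤ n)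
    (hw : w.length ≤ d.p.eval z.length) :
    d.q.eval (N487b59b3.bitEncode (z, w)).length ≤ d.rb n := by
  have := eval_mono d.p hz
  rw [length_bitEncode_pair]
  exact eval_mono d.q (by omega)

theorem VD.query_le (d : VD) {n : ℕ} {z w : List Bool} (hz : z.length ≤ n)
    (hw : w.length ≤ d.p.eval z.length) (R : Orc) :
    ∀ x ∈ oqs d.g R (z, w) (d.q.eval (N487b59b3.bitEncode (z, w)).length) [],
      x.length ≤ d.ub n := by
  intro x hx
  refine (d.k_spec R _ _ x hx).trans (qlen_mono _ ?_ (d.rounds_le hz hw))
  have h1 := eval_mono d.p hz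
  have h2 := sz_bits z
  have h3 := sz_bits w
  rw [sz_pair]
  omega

theorem acc_of_agree (d : VD) {R R' : Orc} {n : ℕ} {z : List Bool} (hz : z.length ≤ n)
    (h : ∀ x : List Bool, x.length ≤ d.ub n → R x = R' x) (ha : acc d R z) : acc d R' z := by
  obtain ⟨w, hw, hr⟩ := ha
  refine ⟨w, hw, ?_⟩
  rw [(orun_congr d.g (z, w) _ [] (fun x hx => h x (d.query_le hz hw R x hx))).1]
  exact hr

theorem acc_congr (d : VD) {R R' : Orc} {n : ℕ} {z : List Bool} (hz : z.length ≤ n)
    (h : ∀ x : List Bool, x.length ≤ d.ub n → R x = R' x) : acc d R z ↔ acc d R' z :=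
  ⟨acc_of_agree d hz h, acc_of_agree d hz (fun x hx => (h x hx).symm)⟩

/-- Short certificates of acceptance. -/
theorem acc_cert (d : VD) {R : Orc} {n : ℕ} {z : List Bool} (hz : z.length ≤ n)
    (ha : acc d R z) : ∃ Q : Finset (List Bool), Q.card ≤ d.rb n ∧
      ∀ R' : Orc, (∀ x ∈ Q, R' x = R x) → acc d R' z := by
  classical
  obtain ⟨w, hw, hr⟩ := ha
  refine ⟨(oqs d.g R (z, w) (d.q.eval (N487b59b3.bitEncode (z, w)).length) []).toFinset,
    ((List.toFinset_card_le _).trans (length_oqs _ _ _ _ _)).trans (d.rounds_le hz hw),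
    fun R' hR' => ⟨w, hw, ?_⟩⟩
  rw [(orun_congr d.g (z, w) _ [] (fun x hx => (hR' x (List.mem_toFinset.2 hx)).symm)).1]
  exact hr

/-! ### All strings of bounded length -/

theorem mem_strs (n : ℕ) : ∀ w : List Bool, w ∈ strs n ↔ w.length = n := by
  induction n with
  | zero => intro w; simp [strs]
  | succ n ih =>
    intro w
    cases w with
    | nil => simp [strs]
    | cons b w =>
      rw [strs, List.mem_append, List.mem_map, List.mem_map, List.length_cons]
      constructor
      · intro h
        have : w ∈ strs n := by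
          rcases h with ⟨v, hv, e⟩ | ⟨v, hv, e⟩
          · rw [← (List.cons.inj e).2]; exact hv
          · rw [← (List.cons.inj e).2]; exact hv
        rw [(ih w).1 this]
      · intro h
        have h1 : w ∈ strs n := (ih w).2 (by omega)
        cases b
        · exact Or.inl ⟨w, h1, rfl⟩
        · exact Or.inr ⟨w, h1, rfl⟩

theorem mem_allStr {n : ℕ} {w : List Bool} : w ∈ allStr n ↔ w.length < n := by
  rw [allStr, List.mem_flatMap]
  constructor
  · rintro ⟨m, hm, hw⟩
    rw [(mem_strs m w).1 hw]
    exact List.mem_range.1 hm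
  · intro h
    exact ⟨w.length, List.mem_range.2 h, (mem_strs _ _).2 rfl⟩

theorem nodup_strs (n : ℕ) : (strs n).Nodup := by
  induction n with
  | zero => simp [strs]
  | succ n ih =>
    rw [strs, List.nodup_append]
    refine ⟨ih.map (fun a b h => (List.cons.inj h).2), ih.map (fun a b h => (List.cons.inj h).2),
      fun a ha b hb => ?_⟩
    obtain ⟨v, -, rfl⟩ := List.mem_map.1 ha
    obtain ⟨v', -, rfl⟩ := List.mem_map.1 hb
    simp

theorem nodup_allStr (n : ℕ) : (allStr n).Nodup := by
  rw [allStr, List.nodup_flatMap]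
  refine ⟨fun m _ => nodup_strs m, (List.nodup_range).imp (fun {a b} hab => ?_)⟩
  intro w hw hw'
  exact hab (((mem_strs a w).1 hw).symm.trans ((mem_strs b w).1 hw'))

/-- The finite set of strings of length less than `n`. -/
def lows (n : ℕ) : Finset (List Bool) := (allStr n).toFinset

theorem mem_lows {n : ℕ} {w : List Bool} : w ∈ lows n ↔ w.length < n := by
  rw [lows, List.mem_toFinset, mem_allStr]

theorem lows_mono {m n : ℕ} (h : m ≤ n) : lows m ⊆ lows n := fun _ hw =>
  mem_lows.2 ((mem_lows.1 hw).trans_le h)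

/-! ### Failure of disjointness -/

/-- Some string with length in `[a, b)` is rejected by both machines. -/
def bad (dA dB : VD) (a b : ℕ) : Set Orc :=
  {R | ∃ z : List Bool, a ≤ z.length ∧ z.length < b ∧ ¬ acc dA R z ∧ ¬ acc dB R z}

/-- Length bound. -/
noncomputable def LB (dA dB : VD) (b : ℕ) : ℕ := dA.ub b + dB.ub b + 1

theorem LB_mono (dA dB : VD) {a b : ℕ} (h : a ≤ b) : LB dA dB a ≤ LB dA dB b := by
  have h1 := dA.ub_mono h
  have h2 := dB.ub_mono h
  unfold LB; omega

theorem dep_bad (dA dB : VD) (a b : ℕ) : Dep (bad dA dB a b) (lows (LB dA dB b)) := by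
  intro R R' h
  have hA : ∀ x : List Bool, x.length ≤ dA.ub b → R x = R' x := fun x hx =>
    h x (mem_lows.2 (by unfold LB; omega))
  have hB : ∀ x : List Bool, x.length ≤ dB.ub b → R x = R' x := fun x hx =>
    h x (mem_lows.2 (by unfold LB; omega))
  refine exists_congr (fun z => and_congr_right (fun _ => and_congr_right (fun hz =>
    and_congr (not_congr (acc_congr dA hz.le hA)) (not_congr (acc_congr dB hz.le hB)))))

end Pool.Agent.RO
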