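import Pool.Agent.Work.MP_46935e_lc.RO.CFDef
import Pool.Agent.Work.PT.Auto

/-!
# Closure properties of the functions computed by stack programs (without time bounds)
-/

set_option autoImplicit false

namespace Pool.Agent.RO

open Function Pool.Agent.PT

section

variable {α β γ δ σ : Type} [Enc α] [Enc β] [Enc γ] [Enc δ] [Enc σ]

/-- The time bound is irrelevant. -/
theorem CF.iff {f : α → β} : CF f ↔ ∃ (g : D → D) (T : D → ℕ), CompT g T ∧
    ∀ a, g (enc a) = enc (f a) := by
  constructor
  · rintro ⟨B, g, T, h1, h2, -⟩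
    exact ⟨g, T, h1, h2⟩
  · rintro ⟨g, T, h1, h2⟩
    exact ⟨fun a => T (enc a), g, T, h1, h2, fun _ => le_refl _⟩

theorem CF.of_ptf {f : α → β} (h : PTF f) : CF f := by
  obtain ⟨B, hB, -⟩ := h
  exact ⟨B, hB⟩

theorem CF.congr {f g : α → β} (hf : CF f) (h : ∀ a, f a = g a) : CF g := by
  have : f = g := funext h
  rwa [← this]

theorem CF.recode {f : α → β} {f' : α → γ} (h : CF f) (e : ∀ a, enc (f a) = enc (f' a)) :
    CF f' := by
  obtain ⟨g, T, h1, h2⟩ := CF.iff.1 h
  exact CF.iff.2 ⟨g, T, h1, fun a => (h2 a).trans (e a)⟩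

theorem CF.comp {f : β → γ} {g : α → β} (hf : CF f) (hg : CF g) : CF (fun a => f (g a)) := by
  obtain ⟨f', Tf, f1, f2⟩ := CF.iff.1 hf
  obtain ⟨g', Tg, g1, g2⟩ := CF.iff.1 hg
  exact CF.iff.2 ⟨_, _, f1.comp g1, fun a => by rw [g2, f2]⟩

theorem CF.pair {f : α → β} {g : α → γ} (hf : CF f) (hg : CF g) : CF (fun a => (f a, g a)) := by
  obtain ⟨f', Tf, f1, f2⟩ := CF.iff.1 hf
  obtain ⟨g', Tg, g1, g2⟩ := CF.iff.1 hg
  exact CF.iff.2 ⟨_, _, f1.pair g1, fun a => by rw [f2, g2]; rfl⟩

theorem CF.id : CF (fun a : α => a) := CF.of_ptf PTF.id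
theorem CF.const (b : β) : CF (fun _ : α => b) := CF.of_ptf (PTF.const b)
theorem CF.fst : CF (fun p : α × β => p.1) := CF.of_ptf PTF.fst
theorem CF.snd : CF (fun p : α × β => p.2) := CF.of_ptf PTF.snd
theorem CF.fst' {f : α → β × γ} (hf : CF f) : CF (fun a => (f a).1) := CF.fst.comp hf
theorem CF.snd' {f : α → β × γ} (hf : CF f) : CF (fun a => (f a).2) := CF.snd.comp hf

/-- A polynomial-time function of one argument. -/
theorem CF.app {F : β → γ} (h : PTF F) {f : α → β} (hf : CF f) : CF (fun a => F (f a)) :=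
  (CF.of_ptf h).comp hf

/-- A polynomial-time function of two arguments. -/
theorem CF.app2 {F : β × γ → δ} (h : PTF F) {f : α → β} {g : α → γ} (hf : CF f) (hg : CF g) :
    CF (fun a => F (f a, g a)) := (CF.of_ptf h).comp (hf.pair hg)

/-- A polynomial-time function of three arguments. -/
theorem CF.app3 {F : β × (γ × δ) → σ} (h : PTF F) {f : α → β} {g : α → γ} {k : α → δ}
    (hf : CF f) (hg : CF g) (hk : CF k) :
    CF (fun a => F (f a, (g a, k a))) := (CF.of_ptf h).comp (hf.pair (hg.pair hk))

/-- Case distinction on lists. -/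
theorem CF.list_case {l : α → List β} {f : α → γ} {g : α × (β × List β) → γ}
    (hl : CF l) (hf : CF f) (hg : CF g) :
    CF (fun a => match l a with | [] => f a | b :: r => g (a, (b, r))) := by
  obtain ⟨l', Tl, l1, l2⟩ := CF.iff.1 hl
  obtain ⟨f', Tf, f1, f2⟩ := CF.iff.1 hf
  obtain ⟨g', Tg, g1, g2⟩ := CF.iff.1 hg
  refine CF.iff.2 ⟨_, _, l1.ite f1 (g1.comp (CompT.id.pair l1)), fun a => ?_⟩
  rw [l2, f2]
  cases h : l a with
  | nil => simp [enc_nil]
  | cons b r =>
    have h2 := g2 (a, (b, r))
    rw [if_neg (by rw [enc_cons]; simp)]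
    exact h2

theorem CF.cond {c : α → Bool} {f g : α → β} (hc : CF c) (hf : CF f) (hg : CF g) :
    CF (fun a => if c a then f a else g a) := by
  have h1 : CF (fun a => if c a then [()] else []) :=
    hc.recode (fun a => by cases c a <;> rfl)
  refine (CF.list_case h1 hg (hf.comp CF.fst)).congr (fun a => ?_)
  cases c a <;> rfl

theorem CF.cond' {c : α → Bool} {f g : α → β} (hc : CF c) (hf : CF f) (hg : CF g) :
    CF (fun a => bif c a then f a else g a) :=
  (hc.cond hf hg).congr (fun a => by cases c a <;> rfl)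

theorem CF.ite {p : α → Prop} [DecidablePred p] {f g : α → β}
    (hp : CF (fun a => decide (p a))) (hf : CF f) (hg : CF g) :
    CF (fun a => if p a then f a else g a) :=
  (hp.cond hf hg).congr (fun a => by by_cases h : p a <;> simp [h])

theorem CF.not {c : α → Bool} (hc : CF c) : CF (fun a => !c a) :=
  (hc.cond (CF.const false) (CF.const true)).congr (fun a => by cases c a <;> rfl)

theorem CF.and {c d : α → Bool} (hc : CF c) (hd : CF d) : CF (fun a => c a && d a) :=
  (hc.cond hd (CF.const false)).congr (fun a => by cases c a <;> simp)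

theorem CF.or {c d : α → Bool} (hc : CF c) (hd : CF d) : CF (fun a => c a || d a) :=
  (hc.cond (CF.const true) hd).congr (fun a => by cases c a <;> simp)

theorem CF.eq [DecidableEq β] {f g : α → β} (hf : CF f) (hg : CF g) :
    CF (fun a => decide (f a = g a)) :=
  CF.app2 (F := fun p : β × β => decide (p.1 = p.2)) (PTF.fst.eq PTF.snd) hf hg

/-! ### Iteration and folds -/

/-- Iteration, as often as the code of `c a` has nodes. -/
theorem CF.iterate {c : α → δ} {init : α → σ} {step : α × σ → σ} (hc : CF c) (hi : CF init)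
    (hs : CF step) : CF (fun a => (fun s => step (a, s))^[(enc (c a)).nodes] (init a)) := by
  obtain ⟨c', Tc, c1, c2⟩ := CF.iff.1 hc
  obtain ⟨i', Ti, i1, i2⟩ := CF.iff.1 hi
  obtain ⟨s', Ts, s1, s2⟩ := CF.iff.1 hs
  have g1 := CompT.pair CompT.hd s1
  have f1 := CompT.pair CompT.id i1
  have k1 := CompT.tl.comp (CompT.iter c1 f1 g1)
  have key : ∀ a i, (fun x : D => D.cons x.hd (s' x))^[i] (.cons (enc a) (enc (init a))) =
      .cons (enc a) (enc ((fun s => step (a, s))^[i] (init a))) := by
    intro a i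
    induction i with
    | zero => rfl
    | succ i ih =>
      rw [iterate_succ_apply', ih, iterate_succ_apply']
      exact congrArg (D.cons (enc a)) (s2 (a, (fun s => step (a, s))^[i] (init a)))
  refine CF.iff.2 ⟨_, _, k1, fun a => ?_⟩
  show ((fun x : D => D.cons x.hd (s' x))^[(c' (enc a)).nodes]
    (.cons (enc a) (i' (enc a)))).tl = _
  rw [c2, i2, key]
  rfl

theorem CF.nat_iterate {n : α → ℕ} {init : α → σ} {step : α × σ → σ} (hn : CF n) (hi : CF init)
    (hs : CF step) : CF (fun a => (fun s => step (a, s))^[n a] (init a)) := by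
  refine (CF.iterate hn hi hs).congr (fun a => ?_)
  have e : (enc (n a)).nodes = n a := encNat_nodes _
  rw [e]

theorem foldStep_cf {step : α × (σ × β) → σ} (hs : CF step) : CF (foldStep step) := by
  refine (CF.list_case (l := fun p : α × (List β × σ) => p.2.1)
    (f := fun p => ([], p.2.2))
    (g := fun q : (α × (List β × σ)) × (β × List β) =>
      (q.2.2, step (q.1.1, (q.1.2.2, q.2.1))))
    (CF.fst.comp CF.snd) ((CF.const []).pair (CF.snd.comp CF.snd)) ?_).congr (fun p => ?_)
  · refine (CF.snd.comp CF.snd).pair (hs.comp ?_)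
    exact (CF.fst.comp CF.fst).pair
      ((CF.snd.comp (CF.snd.comp CF.fst)).pair (CF.fst.comp CF.snd))
  · obtain ⟨a, l, s⟩ := p
    unfold foldStep
    cases l <;> rfl

theorem CF.foldl {l : α → List β} {init : α → σ} {step : α × (σ × β) → σ} (hl : CF l)
    (hi : CF init) (hs : CF step) :
    CF (fun a => (l a).foldl (fun s b => step (a, (s, b))) (init a)) := by
  have h := CF.iterate (c := l) (init := fun a => (l a, init a)) (step := foldStep step)
    hl (hl.pair hi) (foldStep_cf hs)
  refine (CF.snd.comp h).congr (fun a => ?_)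
  rw [foldStep_iterate, List.take_of_length_le (length_le_nodes _)]

/-! ### Lists and numbers -/

theorem CF.cons {f : α → β} {l : α → List β} (hf : CF f) (hl : CF l) :
    CF (fun a => f a :: l a) := (hf.pair hl).recode (fun _ => rfl)

theorem CF.append {l m : α → List β} (hl : CF l) (hm : CF m) : CF (fun a => l a ++ m a) :=
  CF.app2 (F := fun p : List β × List β => p.1 ++ p.2) (PTF.fst.append PTF.snd) hl hm

theorem CF.reverse {l : α → List β} (hl : CF l) : CF (fun a => (l a).reverse) :=
  CF.app (F := fun p : List β => p.reverse) PTF.id.reverse hl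

theorem CF.isEmpty {l : α → List β} (hl : CF l) : CF (fun a => (l a).isEmpty) :=
  CF.app (F := fun p : List β => p.isEmpty) PTF.id.isEmpty hl

theorem CF.tail {l : α → List β} (hl : CF l) : CF (fun a => (l a).tail) :=
  CF.app (F := fun p : List β => p.tail) PTF.id.tail hl

theorem CF.length {l : α → List β} (hl : CF l) : CF (fun a => (l a).length) :=
  CF.app (F := fun p : List β => p.length) PTF.id.length hl

theorem CF.flatten {l : α → List (List β)} (hl : CF l) : CF (fun a => (l a).flatten) :=
  CF.app (F := fun p : List (List β) => p.flatten) PTF.id.flatten hl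

theorem CF.head? {l : α → List β} (hl : CF l) : CF (fun a => (l a).head?) :=
  CF.app (F := fun p : List β => p.head?) PTF.id.head? hl

theorem CF.headD {l : α → List β} {d : α → β} (hl : CF l) (hd : CF d) :
    CF (fun a => (l a).headD (d a)) :=
  CF.app2 (F := fun p : List β × β => p.1.headD p.2) (PTF.fst.headD PTF.snd) hl hd

theorem CF.some {f : α → β} (hf : CF f) : CF (fun a => Option.some (f a)) :=
  CF.app (F := fun p : β => Option.some p) PTF.id.some hf

theorem CF.succ {n : α → ℕ} (hn : CF n) : CF (fun a => n a + 1) :=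
  CF.app (F := fun p : ℕ => p + 1) PTF.id.succ hn

theorem CF.pred {n : α → ℕ} (hn : CF n) : CF (fun a => n a - 1) :=
  CF.app (F := fun p : ℕ => p - 1) PTF.id.pred hn

theorem CF.add {m n : α → ℕ} (hm : CF m) (hn : CF n) : CF (fun a => m a + n a) :=
  CF.app2 (F := fun p : ℕ × ℕ => p.1 + p.2) (PTF.fst.add PTF.snd) hm hn

theorem CF.sub {m n : α → ℕ} (hm : CF m) (hn : CF n) : CF (fun a => m a - n a) :=
  CF.app2 (F := fun p : ℕ × ℕ => p.1 - p.2) (PTF.fst.sub PTF.snd) hm hn

theorem CF.mul {m n : α → ℕ} (hm : CF m) (hn : CF n) : CF (fun a => m a * n a) :=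
  CF.app2 (F := fun p : ℕ × ℕ => p.1 * p.2) (PTF.fst.mul PTF.snd) hm hn

theorem CF.mod {m n : α → ℕ} (hm : CF m) (hn : CF n) : CF (fun a => m a % n a) :=
  CF.app2 (F := fun p : ℕ × ℕ => p.1 % p.2) (PTF.fst.mod PTF.snd) hm hn

theorem CF.div {m n : α → ℕ} (hm : CF m) (hn : CF n) : CF (fun a => m a / n a) :=
  CF.app2 (F := fun p : ℕ × ℕ => p.1 / p.2) (PTF.fst.div PTF.snd) hm hn

theorem CF.le {m n : α → ℕ} (hm : CF m) (hn : CF n) : CF (fun a => decide (m a ≤ n a)) :=
  CF.app2 (F := fun p : ℕ × ℕ => decide (p.1 ≤ p.2)) (PTF.fst.le PTF.snd) hm hn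

theorem CF.lt {m n : α → ℕ} (hm : CF m) (hn : CF n) : CF (fun a => decide (m a < n a)) :=
  CF.app2 (F := fun p : ℕ × ℕ => decide (p.1 < p.2)) (PTF.fst.lt PTF.snd) hm hn

theorem CF.min' {m n : α → ℕ} (hm : CF m) (hn : CF n) : CF (fun a => Min.min (m a) (n a)) :=
  CF.app2 (F := fun p : ℕ × ℕ => Min.min p.1 p.2) (PTF.fst.min' PTF.snd) hm hn

theorem CF.max' {m n : α → ℕ} (hm : CF m) (hn : CF n) : CF (fun a => Max.max (m a) (n a)) :=
  CF.app2 (F := fun p : ℕ × ℕ => Max.max p.1 p.2) (PTF.fst.max' PTF.snd) hm hn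

theorem CF.range {n : α → ℕ} (hn : CF n) : CF (fun a => List.range (n a)) :=
  CF.app (F := fun p : ℕ => List.range p) PTF.id.range hn

theorem CF.sum {l : α → List ℕ} (hl : CF l) : CF (fun a => (l a).sum) :=
  CF.app (F := fun p : List ℕ => p.sum) PTF.id.sum hl

theorem CF.drop {l : α → List β} {n : α → ℕ} (hl : CF l) (hn : CF n) :
    CF (fun a => (l a).drop (n a)) :=
  CF.app2 (F := fun p : List β × ℕ => p.1.drop p.2) (PTF.fst.drop PTF.snd) hl hn

theorem CF.take {l : α → List β} {n : α → ℕ} (hl : CF l) (hn : CF n) :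
    CF (fun a => (l a).take (n a)) :=
  CF.app2 (F := fun p : List β × ℕ => p.1.take p.2) (PTF.fst.take PTF.snd) hl hn

theorem CF.get? {l : α → List β} {n : α → ℕ} (hl : CF l) (hn : CF n) :
    CF (fun a => (l a)[n a]?) :=
  CF.app2 (F := fun p : List β × ℕ => p.1[p.2]?) (PTF.fst.get? PTF.snd) hl hn

theorem CF.getD {l : α → List β} {n : α → ℕ} {d : α → β} (hl : CF l) (hn : CF n) (hd : CF d) :
    CF (fun a => (l a).getD (n a) (d a)) :=
  CF.app3 (F := fun p : List β × (ℕ × β) => p.1.getD p.2.1 p.2.2)
    (PTF.fst.getD (PTF.fst.comp PTF.snd) (PTF.snd.comp PTF.snd)) hl hn hd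

theorem CF.replicate {n : α → ℕ} {f : α → β} (hn : CF n) (hf : CF f) :
    CF (fun a => List.replicate (n a) (f a)) :=
  CF.app2 (F := fun p : ℕ × β => List.replicate p.1 p.2) (PTF.fst.replicate PTF.snd) hn hf

theorem CF.mem [DecidableEq β] {f : α → β} {l : α → List β} (hf : CF f) (hl : CF l) :
    CF (fun a => decide (f a ∈ l a)) :=
  CF.app2 (F := fun p : β × List β => decide (p.1 ∈ p.2)) (PTF.fst.mem PTF.snd) hf hl

theorem CF.idxOf [DecidableEq β] {f : α → β} {l : α → List β} (hf : CF f) (hl : CF l) :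
    CF (fun a => (l a).idxOf (f a)) :=
  CF.app2 (F := fun p : β × List β => p.2.idxOf p.1) (PTF.fst.idxOf PTF.snd) hf hl

theorem CF.beq [DecidableEq β] {f g : α → β} (hf : CF f) (hg : CF g) :
    CF (fun a => f a == g a) := (hf.eq hg).congr (fun a => by
      rw [Bool.eq_iff_iff]; simp)

/-! ### Functions of higher order -/

theorem CF.flatMap {l : α → List β} {g : α × β → List γ} (hl : CF l) (hg : CF g) :
    CF (fun a => (l a).flatMap (fun b => g (a, b))) := by
  have h := CF.foldl (l := l) (init := fun _ => ([] : List γ))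
    (step := fun p : α × (List γ × β) => p.2.1 ++ g (p.1, p.2.2)) hl (CF.const [])
    ((CF.fst.comp CF.snd).append (hg.comp (CF.fst.pair (CF.snd.comp CF.snd))))
  refine h.congr (fun a => ?_)
  have : ∀ (l : List β) (s : List γ), l.foldl (fun s b => s ++ g (a, b)) s =
      s ++ l.flatMap (fun b => g (a, b)) := by
    intro l
    induction l with
    | nil => intro s; simp
    | cons b l ih => intro s; simp [ih]
  exact (this (l a) []).trans (by simp)

theorem CF.map {l : α → List β} {g : α × β → γ} (hl : CF l) (hg : CF g) :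
    CF (fun a => (l a).map (fun b => g (a, b))) := by
  refine (CF.flatMap (g := fun p : α × β => [g p]) hl (hg.cons (CF.const []))).congr
    (fun a => ?_)
  induction l a with
  | nil => rfl
  | cons b l ih => simp [ih]

theorem CF.filter {l : α → List β} {p : α × β → Bool} (hl : CF l) (hp : CF p) :
    CF (fun a => (l a).filter (fun b => p (a, b))) := by
  refine (CF.flatMap (g := fun q : α × β => if p q then [q.2] else []) hl
    (hp.cond (CF.snd.cons (CF.const [])) (CF.const []))).congr (fun a => ?_)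
  induction l a with
  | nil => rfl
  | cons b l ih =>
    by_cases h : p (a, b) = true
    · simp [h, ih]
    · simp [h, ih]

theorem CF.any {l : α → List β} {p : α × β → Bool} (hl : CF l) (hp : CF p) :
    CF (fun a => (l a).any (fun b => p (a, b))) := by
  refine ((CF.filter hl hp).isEmpty.not).congr (fun a => ?_)
  rw [Bool.eq_iff_iff]
  simp

theorem CF.all {l : α → List β} {p : α × β → Bool} (hl : CF l) (hp : CF p) :
    CF (fun a => (l a).all (fun b => p (a, b))) := by
  refine ((CF.any (p := fun q : α × β => !p q) hl hp.not).not).congr (fun a => ?_)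
  rw [Bool.eq_iff_iff]
  simp

theorem CF.find {l : α → List β} {p : α × β → Bool} (hl : CF l) (hp : CF p) :
    CF (fun a => (l a).find? (fun b => p (a, b))) :=
  ((CF.filter hl hp).head?).congr (fun a => by simp [List.head?_filter])

theorem CF.pow {m n : α → ℕ} (hm : CF m) (hn : CF n) : CF (fun a => m a ^ n a) := by
  refine (CF.nat_iterate (n := n) (init := fun _ => 1) (step := fun p : α × ℕ => p.2 * m p.1)
    hn (CF.const 1) (CF.snd.mul (hm.comp CF.fst))).congr (fun a => ?_)
  have : ∀ i, (fun s : ℕ => s * m a)^[i] 1 = m a ^ i := by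
    intro i
    induction i with
    | zero => rfl
    | succ i ih => rw [iterate_succ_apply', ih, pow_succ]
  exact this _

/-! ### Strings and sublists -/

theorem CF.strs {n : α → ℕ} (hn : CF n) : CF (fun a => strs (n a)) := by
  refine (CF.nat_iterate (n := n) (init := fun _ => ([[]] : List (List Bool)))
    (step := fun p : α × List (List Bool) =>
      p.2.map (fun w => false :: w) ++ p.2.map (fun w => true :: w))
    hn (CF.const _) (CF.append
      (CF.map (g := fun q : (α × List (List Bool)) × List Bool => false :: q.2) CF.snd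
        ((CF.const false).cons CF.snd))
      (CF.map (g := fun q : (α × List (List Bool)) × List Bool => true :: q.2) CF.snd
        ((CF.const true).cons CF.snd)))).congr (fun a => ?_)
  have : ∀ i, (fun s : List (List Bool) =>
      s.map (fun w => false :: w) ++ s.map (fun w => true :: w))^[i] [[]] = RO.strs i := by
    intro i
    induction i with
    | zero => rfl
    | succ i ih => rw [iterate_succ_apply', ih]; rfl
  exact this _

theorem CF.allStr {n : α → ℕ} (hn : CF n) : CF (fun a => allStr (n a)) :=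
  CF.flatMap (l := fun a => List.range (n a)) (g := fun p : α × ℕ => RO.strs p.2) hn.range
    (CF.strs CF.snd)

theorem CF.sublists' {l : α → List β} (hl : CF l) : CF (fun a => (l a).sublists') := by
  refine (CF.foldl (l := fun a => (l a).reverse) (init := fun _ => ([[]] : List (List β)))
    (step := fun p : α × (List (List β) × β) => p.2.1 ++ p.2.1.map (fun w => p.2.2 :: w))
    hl.reverse (CF.const _) (CF.append (CF.fst.comp CF.snd)
      (CF.map (g := fun q : (α × (List (List β) × β)) × List β => q.1.2.2 :: q.2)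
        (CF.fst.comp CF.snd)
        ((CF.snd.comp (CF.snd.comp CF.fst)).cons CF.snd)))).congr (fun a => ?_)
  rw [List.foldl_reverse]
  induction l a with
  | nil => rfl
  | cons b l ih => rw [List.foldr_cons, ih, List.sublists'_cons]

end

/-! ### Automation -/

section auto

variable {α β γ δ σ : Type} [Enc α] [Enc β] [Enc γ] [Enc δ] [Enc σ]

attribute [fun_prop] CF
attribute [fun_prop] CF.id CF.const CF.comp CF.pair CF.fst CF.snd CF.fst' CF.snd' CF.cond'
  CF.ite CF.not CF.and CF.or CF.eq CF.cons CF.append CF.reverse CF.isEmpty CF.tail CF.length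
  CF.flatten CF.head? CF.headD CF.some CF.succ CF.pred CF.add CF.sub CF.mul CF.mod CF.div CF.le
  CF.lt CF.min' CF.max' CF.range CF.sum CF.drop CF.take CF.get? CF.getD CF.replicate CF.mem
  CF.idxOf CF.beq CF.pow CF.strs CF.allStr CF.sublists'

@[fun_prop]
theorem CF.map' {f : α → β → γ} {l : α → List β} (hf : CF (fun p : α × β => f p.1 p.2))
    (hl : CF l) : CF (fun a => (l a).map (f a)) := CF.map hl hf

@[fun_prop]
theorem CF.flatMap' {f : α → β → List γ} {l : α → List β}
    (hf : CF (fun p : α × β => f p.1 p.2)) (hl : CF l) :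
    CF (fun a => (l a).flatMap (f a)) := CF.flatMap hl hf

@[fun_prop]
theorem CF.filter' {f : α → β → Bool} {l : α → List β}
    (hf : CF (fun p : α × β => f p.1 p.2)) (hl : CF l) :
    CF (fun a => (l a).filter (f a)) := CF.filter hl hf

@[fun_prop]
theorem CF.any' {f : α → β → Bool} {l : α → List β}
    (hf : CF (fun p : α × β => f p.1 p.2)) (hl : CF l) :
    CF (fun a => (l a).any (f a)) := CF.any hl hf

@[fun_prop]
theorem CF.all' {f : α → β → Bool} {l : α → List β}
    (hf : CF (fun p : α × β => f p.1 p.2)) (hl : CF l) :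
    CF (fun a => (l a).all (f a)) := CF.all hl hf

@[fun_prop]
theorem CF.find' {f : α → β → Bool} {l : α → List β}
    (hf : CF (fun p : α × β => f p.1 p.2)) (hl : CF l) :
    CF (fun a => (l a).find? (f a)) := CF.find hl hf

@[fun_prop]
theorem CF.foldl' {f : α → σ → β → σ} {l : α → List β} {init : α → σ}
    (hf : CF (fun p : α × (σ × β) => f p.1 p.2.1 p.2.2)) (hl : CF l) (hi : CF init) :
    CF (fun a => (l a).foldl (f a) (init a)) := CF.foldl hl hi hf

@[fun_prop]
theorem CF.iterate' {f : α → σ → σ} {n : α → ℕ} {init : α → σ}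
    (hf : CF (fun p : α × σ => f p.1 p.2)) (hn : CF n) (hi : CF init) :
    CF (fun a => (f a)^[n a] (init a)) := CF.nat_iterate hn hi hf

@[fun_prop]
theorem CF.decide_and {p q : α → Prop} [DecidablePred p] [DecidablePred q]
    (hp : CF (fun a => decide (p a))) (hq : CF (fun a => decide (q a))) :
    CF (fun a => decide (p a ∧ q a)) :=
  (hp.and hq).congr (fun a => by by_cases h1 : p a <;> by_cases h2 : q a <;> simp [h1, h2])

@[fun_prop]
theorem CF.decide_or {p q : α → Prop} [DecidablePred p] [DecidablePred q]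
    (hp : CF (fun a => decide (p a))) (hq : CF (fun a => decide (q a))) :
    CF (fun a => decide (p a ∨ q a)) :=
  (hp.or hq).congr (fun a => by by_cases h1 : p a <;> by_cases h2 : q a <;> simp [h1, h2])

@[fun_prop]
theorem CF.decide_not {p : α → Prop} [DecidablePred p]
    (hp : CF (fun a => decide (p a))) : CF (fun a => decide (¬ p a)) :=
  hp.not.congr (fun a => by by_cases h1 : p a <;> simp [h1])

@[fun_prop]
theorem CF.decide_imp {p q : α → Prop} [DecidablePred p] [DecidablePred q]
    (hp : CF (fun a => decide (p a))) (hq : CF (fun a => decide (q a))) :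
    CF (fun a => decide (p a → q a)) :=
  (hp.not.or hq).congr (fun a => by by_cases h1 : p a <;> by_cases h2 : q a <;> simp [h1, h2])

end auto

end Pool.Agent.RO
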