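import Pool.Agent.Work.MP_46935e_lc.RO.Coin

/-!
# The probability of an event depending on finitely many strings, by counting
-/

set_option autoImplicit false

namespace Pool.Agent.RO

open MeasureTheory

/-- The oracle containing exactly the strings of `P`. -/
def orc (P : List (List Bool)) : Orc := fun x => decide (x ∈ P)

/-- Set the value at `x` to `b`. -/
def upd (x : List Bool) (b : Bool) (R : Orc) : Orc := fun y => if y = x then b else R y

theorem dep_upd {Φ : Set Orc} {S : Finset (List Bool)} {x : List Bool} (h : Dep Φ (insert x S))
    (b : Bool) : Dep {R | upd x b R ∈ Φ} S := by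
  intro R R' hR
  refine h _ _ (fun y hy => ?_)
  by_cases e : y = x
  · simp [upd, e]
  · rw [Finset.mem_insert] at hy
    simp only [upd, e, if_false]
    exact hR y (hy.resolve_left e)

theorem real_split {Φ : Set Orc} {S : Finset (List Bool)} {x : List Bool} (hx : x ∉ S)
    (h : Dep Φ (insert x S)) :
    randomOracle.real Φ =
      (randomOracle.real {R | upd x true R ∈ Φ} + randomOracle.real {R | upd x false R ∈ Φ}) / 2 := by
  have hd : ∀ b : Bool, Dep {R : Orc | R x = b} {x} := by
    intro b R R' h
    show R x = b ↔ R' x = b
    rw [h x (Finset.mem_singleton_self x)]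
  have hdis : Disjoint S {x} := by simpa using hx
  have hfix : ∀ (b : Bool) (R : Orc), R x = b → upd x b R = R := by
    intro b R hR
    funext y
    by_cases e : y = x
    · simp [upd, e, hR]
    · simp [upd, e]
  have key : ∀ b : Bool, randomOracle.real (Φ ∩ {R : Orc | R x = b}) =
      randomOracle.real {R | upd x b R ∈ Φ} * (1 / 2) := by
    intro b
    have e : Φ ∩ {R : Orc | R x = b} = {R | upd x b R ∈ Φ} ∩ {R : Orc | R x = b} := by
      ext R
      constructor
      · rintro ⟨h1, h2⟩
        refine ⟨?_, h2⟩
        show upd x b R ∈ Φ
        rw [hfix b R h2]; exact h1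
      · rintro ⟨h1, h2⟩
        refine ⟨?_, h2⟩
        have h3 : upd x b R ∈ Φ := h1
        rwa [hfix b R h2] at h3
    rw [e, (dep_upd h b).indep (hd b) hdis, real_coord]
  have hsplit : randomOracle.real Φ = randomOracle.real (Φ ∩ {R : Orc | R x = true}) +
      randomOracle.real (Φ ∩ {R : Orc | R x = false}) := by
    rw [← measureReal_inter_add_sdiff (s := Φ) (hd true).measurableSet]
    congr 2
    ext R
    constructor
    · rintro ⟨h1, h2⟩
      refine ⟨h1, ?_⟩
      have h2' : ¬ R x = true := h2
      show R x = false
      simpa using h2'
    · rintro ⟨h1, h2⟩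
      refine ⟨h1, ?_⟩
      have h2' : R x = false := h2
      show ¬ R x = true
      simp [h2']
  rw [hsplit, key true, key false]
  ring

open Classical in
theorem real_eq_count (l : List (List Bool)) (hl : l.Nodup) (Φ : Set Orc)
    (h : Dep Φ l.toFinset) (c : List (List Bool) → Bool) (hc : ∀ P, c P = true ↔ orc P ∈ Φ) :
    randomOracle.real Φ = ((l.sublists'.filter c).length : ℝ) / 2 ^ l.length := by
  induction l generalizing Φ c with
  | nil =>
    simp only [List.sublists'_nil, List.length_nil, pow_zero, div_one]
    have hconst : ∀ R R' : Orc, (R ∈ Φ ↔ R' ∈ Φ) := fun R R' => h R R' (fun x hx => by simp at hx)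
    by_cases hm : orc [] ∈ Φ
    · have : Φ = Set.univ := by
        ext R; simp [hconst R (orc []), hm]
      have hc' : c [] = true := (hc []).2 hm
      rw [this]
      simp [hc']
    · have : Φ = ∅ := by
        ext R; simp [hconst R (orc []), hm]
      have hc' : c [] = false := by
        rcases hb : c [] with _ | _
        · rfl
        · exact absurd ((hc []).1 hb) hm
      rw [this]
      simp [hc']
  | cons x l ih =>
    rw [List.nodup_cons] at hl
    have h' : Dep Φ (insert x l.toFinset) := by
      rw [← List.toFinset_cons]; exact h
    have hx : x ∉ l.toFinset := by simpa using hl.1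
    rw [real_split hx h']
    have e1 : ∀ P : List (List Bool), orc (x :: P) = upd x true (orc P) := by
      intro P; funext y
      by_cases e : y = x
      · simp [orc, upd, e]
      · simp [orc, upd, e]
    have i1 := ih hl.2 {R | upd x true R ∈ Φ} (dep_upd h' true) (fun P => c (x :: P))
      (fun P => by rw [hc, e1]; rfl)
    have i2 := ih hl.2 {R | upd x false R ∈ Φ} (dep_upd h' false)
      (fun P => decide (upd x false (orc P) ∈ Φ)) (fun P => by simp)
    rw [i1, i2]
    have e2 : (l.sublists'.filter (fun P => decide (upd x false (orc P) ∈ Φ))) =
        l.sublists'.filter c := by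
      apply List.filter_congr
      intro P hP
      have hP' : x ∉ P := fun hh => hl.1 ((List.mem_sublists'.1 hP).subset hh)
      have : upd x false (orc P) = orc P := by
        funext y
        by_cases e : y = x
        · simp [orc, upd, e, hP']
        · simp [orc, upd, e]
      rw [this]
      rcases hb : c P with _ | _
      · have : ¬ orc P ∈ Φ := fun hm => by rw [(hc P).2 hm] at hb; exact absurd hb (by simp)
        simp [this]
      · simp [(hc P).1 hb]
    rw [e2]
    rw [List.sublists'_cons, List.filter_append, List.length_append, List.filter_map,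
      List.length_map, List.length_cons]
    have e3 : (c ∘ List.cons x) = (fun P => c (x :: P)) := rfl
    rw [e3]
    push_cast
    rw [pow_succ]
    field_simp
    ring

end Pool.Agent.RO
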