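import Mathlib

/-!
# Numbers of instances of a stage: integer arithmetic close to the exponential function
-/

set_option autoImplicit false

namespace Pool.Agent.RO

/-- Integer approximation (from above) of `exp (2 ^ (i + 1))`. -/
def BB (i : ℕ) : ℕ :=
  (2 ^ (i + 3)) ^ (2 ^ (i + 3) * 2 ^ (i + 1)) / (2 ^ (i + 3) - 1) ^ (2 ^ (i + 3) * 2 ^ (i + 1)) + 1

theorem floor_div_bounds (a b : ℕ) (hb : 0 < b) :
    (a : ℝ) / b ≤ ((a / b : ℕ) : ℝ) + 1 ∧ ((a / b : ℕ) : ℝ) ≤ (a : ℝ) / b := by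
  have hb' : (0 : ℝ) < b := by exact_mod_cast hb
  refine ⟨?_, Nat.cast_div_le⟩
  rw [div_le_iff₀ hb']
  have h := Nat.lt_div_mul_add (a := a) hb
  have h2 : (a : ℝ) < ((a / b : ℕ) : ℝ) * b + b := by exact_mod_cast h
  nlinarith

theorem pow_mono_half (b : ℕ) :
    (1 - (1 / 2 : ℝ) ^ b) ^ (2 ^ b) ≤ (1 - (1 / 2 : ℝ) ^ (b + 1)) ^ (2 ^ (b + 1)) := by
  have h0 : (1 / 2 : ℝ) ^ b ≤ 1 := pow_le_one₀ (by norm_num) (by norm_num)
  have h1 : 0 ≤ (1 / 2 : ℝ) ^ b := by positivity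
  rw [pow_succ 2 b, mul_comm (2 ^ b) 2, pow_mul]
  apply pow_le_pow_left₀ (by linarith)
  have e : (1 / 2 : ℝ) ^ (b + 1) = (1 / 2 : ℝ) ^ b * (1 / 2) := pow_succ _ _
  rw [e]
  nlinarith [sq_nonneg ((1 / 2 : ℝ) ^ b)]

theorem pow_mono_half' (c b : ℕ) (h : c ≤ b) :
    (1 - (1 / 2 : ℝ) ^ c) ^ (2 ^ c) ≤ (1 - (1 / 2 : ℝ) ^ b) ^ (2 ^ b) := by
  induction b, h using Nat.le_induction with
  | base => exact le_rfl
  | succ b _ ih => exact ih.trans (pow_mono_half b)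

theorem rho_eq (b i : ℕ) :
    (1 - (1 / 2 : ℝ) ^ b) ^ (2 * 2 ^ (b + i)) = ((1 - (1 / 2 : ℝ) ^ b) ^ (2 ^ b)) ^ (2 ^ (i + 1)) := by
  rw [← pow_mul]
  congr 1
  rw [pow_add, pow_succ]
  ring

theorem half_pow_le_exp (b : ℕ) : (1 - (1 / 2 : ℝ) ^ b) ^ (2 ^ b) ≤ Real.exp (-1) := by
  have h0 : (1 / 2 : ℝ) ^ b ≤ 1 := pow_le_one₀ (by norm_num) (by norm_num)
  have h1 : 1 - (1 / 2 : ℝ) ^ b ≤ Real.exp (-((1 / 2 : ℝ) ^ b)) := by
    have := Real.add_one_le_exp (-((1 / 2 : ℝ) ^ b))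
    linarith
  calc (1 - (1 / 2 : ℝ) ^ b) ^ (2 ^ b) ≤ (Real.exp (-((1 / 2 : ℝ) ^ b))) ^ (2 ^ b) :=
        pow_le_pow_left₀ (by linarith) h1 _
    _ = Real.exp (-1) := by
        rw [← Real.exp_nat_mul]
        congr 1
        push_cast
        rw [mul_neg, ← mul_pow]
        norm_num

theorem BB_bounds (i b : ℕ) (hb : i + 3 ≤ b) (ρ : ℝ) (hρ : ρ = (1 - (1 / 2) ^ b) ^ (2 * 2 ^ (b + i))) :
    1 ≤ BB i * ρ ∧ BB i * ρ ≤ 4 ∧ ρ ≤ (1 / 2) ^ i ∧ 0 < ρ := by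
  set X : ℕ := 2 ^ (i + 3) with hX
  set M : ℕ := 2 ^ (i + 1) with hM
  have hM1 : 1 ≤ M := Nat.one_le_two_pow
  have hXM : X = 4 * M := by rw [hX, hM]; ring
  have hX4 : 4 ≤ X := by omega
  set q : ℝ := ((X : ℝ) / ((X - 1 : ℕ) : ℝ)) ^ (X * M) with hq
  have hX1 : ((X - 1 : ℕ) : ℝ) = (X : ℝ) - 1 := by
    rw [Nat.cast_sub (by omega)]; simp
  have hXpos : (0 : ℝ) < X := by exact_mod_cast (by omega : 0 < X)
  have hX4' : (4 : ℝ) ≤ X := by exact_mod_cast hX4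
  have hX1pos : (0 : ℝ) < (X : ℝ) - 1 := by linarith
  have hqpos : 0 < q := by rw [hq, hX1]; positivity
  -- bounds for BB
  have hfl := floor_div_bounds (X ^ (X * M)) ((X - 1) ^ (X * M))
    (Nat.pow_pos (by omega))
  have hBB : (BB i : ℝ) = ((X ^ (X * M) / (X - 1) ^ (X * M) : ℕ) : ℝ) + 1 := by
    rw [BB]; push_cast; rfl
  have hqe : ((X ^ (X * M) : ℕ) : ℝ) / (((X - 1) ^ (X * M) : ℕ) : ℝ) = q := by
    rw [hq, div_pow]; push_cast; rfl
  rw [hqe] at hfl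
  have hB1 : q ≤ BB i := by rw [hBB]; exact hfl.1
  have hB2 : (BB i : ℝ) ≤ q + 1 := by rw [hBB]; linarith [hfl.2]
  -- rho
  have hy0 : (1 / 2 : ℝ) ^ b ≤ 1 / 2 := by
    have : (1 / 2 : ℝ) ^ b ≤ (1 / 2 : ℝ) ^ 1 :=
      pow_le_pow_of_le_one (by norm_num) (by norm_num) (by omega)
    simpa using this
  have hρpos : 0 < ρ := by rw [hρ]; exact pow_pos (by linarith) _
  have hρe := rho_eq b i
  have hinv : ((1 - (1 / 2 : ℝ) ^ (i + 3)) ^ (2 ^ (i + 3))) ^ (2 ^ (i + 1)) = q⁻¹ := by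
    rw [hq, ← pow_mul, ← inv_pow, inv_div, hX1]
    rw [← hX, ← hM]
    congr 1
    have : (1 / 2 : ℝ) ^ (i + 3) = 1 / (X : ℝ) := by
      rw [hX]; push_cast; rw [one_div_pow]
    rw [this]
    field_simp
  have hρlow : q⁻¹ ≤ ρ := by
    rw [hρ, hρe, ← hinv]
    apply pow_le_pow_left₀ _ (pow_mono_half' _ _ hb)
    apply pow_nonneg
    have : (1 / 2 : ℝ) ^ (i + 3) ≤ 1 := pow_le_one₀ (by norm_num) (by norm_num)
    linarith
  have hρexp : ρ ≤ Real.exp (-(M : ℝ)) := by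
    rw [hρ, hρe]
    calc ((1 - (1 / 2 : ℝ) ^ b) ^ (2 ^ b)) ^ (2 ^ (i + 1)) ≤ (Real.exp (-1)) ^ (2 ^ (i + 1)) := by
          apply pow_le_pow_left₀ _ (half_pow_le_exp b)
          exact pow_nonneg (by linarith) _
      _ = Real.exp (-(M : ℝ)) := by
          rw [← Real.exp_nat_mul, hM]; congr 1; ring
  have hqexp : q ≤ Real.exp ((M : ℝ) + 1) := by
    have h1 : (X : ℝ) / ((X - 1 : ℕ) : ℝ) ≤ Real.exp (1 / ((X : ℝ) - 1)) := by
      have := Real.add_one_le_exp (1 / ((X : ℝ) - 1))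
      have e : (X : ℝ) / ((X - 1 : ℕ) : ℝ) = 1 / ((X : ℝ) - 1) + 1 := by
        rw [hX1]; field_simp; ring
      rw [e]; exact this
    calc q ≤ (Real.exp (1 / ((X : ℝ) - 1))) ^ (X * M) :=
          pow_le_pow_left₀ (by positivity) h1 _
      _ = Real.exp ((X * M : ℕ) * (1 / ((X : ℝ) - 1))) := by rw [← Real.exp_nat_mul]
      _ ≤ Real.exp ((M : ℝ) + 1) := by
          apply Real.exp_le_exp.2
          push_cast
          rw [mul_one_div, div_le_iff₀ hX1pos]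
          have hXM' : (X : ℝ) = 4 * M := by exact_mod_cast hXM
          have hM1' : (1 : ℝ) ≤ M := by exact_mod_cast hM1
          nlinarith
  refine ⟨?_, ?_, ?_, hρpos⟩
  · calc (1 : ℝ) = q * q⁻¹ := by field_simp
      _ ≤ BB i * ρ := mul_le_mul hB1 hρlow (by positivity) (by positivity)
  · have hM0 : (0 : ℝ) ≤ M := by positivity
    calc (BB i : ℝ) * ρ ≤ (q + 1) * ρ := mul_le_mul_of_nonneg_right hB2 hρpos.le
      _ = q * ρ + ρ := by ring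
      _ ≤ Real.exp ((M : ℝ) + 1) * Real.exp (-(M : ℝ)) + 1 := by
          apply add_le_add
          · exact mul_le_mul hqexp hρexp hρpos.le (Real.exp_pos _).le
          · refine hρexp.trans ?_
            rw [Real.exp_le_one_iff]; linarith
      _ = Real.exp 1 + 1 := by
          rw [← Real.exp_add]; congr 2; ring
      _ ≤ 4 := by
          have := Real.exp_one_lt_d9
          linarith
  · have hMi : (i : ℝ) ≤ M := by
      have : i < 2 ^ (i + 1) := by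
        calc i < i + 1 := by omega
          _ < 2 ^ (i + 1) := Nat.lt_two_pow_self
      exact_mod_cast this.le
    have he : Real.exp (-1) ≤ 1 / 2 := by
      rw [Real.exp_neg, one_div]
      apply inv_anti₀ (by norm_num)
      have := Real.add_one_le_exp (1 : ℝ)
      linarith
    calc ρ ≤ Real.exp (-(M : ℝ)) := hρexp
      _ ≤ Real.exp (-(i : ℝ)) := Real.exp_le_exp.2 (by linarith)
      _ = (Real.exp (-1)) ^ i := by
          rw [← Real.exp_nat_mul]; congr 1; ring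
      _ ≤ (1 / 2) ^ i := pow_le_pow_left₀ (Real.exp_pos _).le he _

/-- The number of instances of a stage. -/
def numI (K cnt len i : ℕ) : ℕ := K * cnt * BB i / 2 ^ len + BB i / 2 ^ i + 2

theorem numI_bounds (K cnt len i b : ℕ) (hb : i + 3 ≤ b) (h q : ℝ) (hh : h = cnt / 2 ^ len)
    (hq : q = numI K cnt len i * (1 - (1 / 2) ^ b) ^ (2 * 2 ^ (b + i))) :
    K * h + (1 / 2) ^ i ≤ q ∧ q ≤ 4 * K * h + 6 * (1 / 2) ^ i := by
  set ρ : ℝ := (1 - (1 / 2) ^ b) ^ (2 * 2 ^ (b + i)) with hρ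
  obtain ⟨h1, h2, h3, h4⟩ := BB_bounds i b hb ρ hρ
  have f1 := floor_div_bounds (K * cnt * BB i) (2 ^ len) (by positivity)
  have f2 := floor_div_bounds (BB i) (2 ^ i) (by positivity)
  have e1 : (((K * cnt * BB i : ℕ) : ℝ)) / ((2 ^ len : ℕ) : ℝ) = K * h * BB i := by
    rw [hh]; push_cast; ring
  have e2 : ((BB i : ℕ) : ℝ) / ((2 ^ i : ℕ) : ℝ) = (1 / 2) ^ i * BB i := by
    push_cast; rw [one_div_pow]; ring
  rw [e1] at f1
  rw [e2] at f2
  have hn : (numI K cnt len i : ℝ) =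
      ((K * cnt * BB i / 2 ^ len : ℕ) : ℝ) + ((BB i / 2 ^ i : ℕ) : ℝ) + 2 := by
    rw [numI]; push_cast; rfl
  have hh0 : 0 ≤ h := by rw [hh]; positivity
  have hKh : 0 ≤ (K : ℝ) * h := by positivity
  have hi0 : (0 : ℝ) ≤ (1 / 2) ^ i := by positivity
  have g1 : (K : ℝ) * h * BB i + (1 / 2) ^ i * BB i ≤ numI K cnt len i := by
    rw [hn]; linarith [f1.1, f2.1]
  have g2 : (numI K cnt len i : ℝ) ≤ (K : ℝ) * h * BB i + (1 / 2) ^ i * BB i + 2 := by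
    rw [hn]; linarith [f1.2, f2.2]
  have g1' := mul_le_mul_of_nonneg_right g1 h4.le
  have g2' := mul_le_mul_of_nonneg_right g2 h4.le
  have k1 := mul_le_mul_of_nonneg_left h1 hKh
  have k2 := mul_le_mul_of_nonneg_left h1 hi0
  have k3 := mul_le_mul_of_nonneg_left h2 hKh
  have k4 := mul_le_mul_of_nonneg_left h2 hi0
  rw [hq]
  constructor
  · nlinarith
  · nlinarith

end Pool.Agent.RO
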