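import Pool.Agent.Work.MP_46935e_lc.RO.Acc
import Pool.Agent.Work.MP_46935e_lc.RO.CF
import Pool.Agent.Work.MP_46935e_lc.RO.CountP
import Pool.Agent.Work.MP_46935e_lc.RO.Num

/-!
# The probability of failure at a stage is computable
-/

set_option autoImplicit false

namespace Pool.Agent.RO

open Pool.Agent.PT Pool.Agent.Work.MP_46935e_lc Function

variable {α β : Type}

/-- One round of an oracle procedure, the oracle being given by a finite list. -/
def rstep (g : α × List Bool → Bool × List Bool) (P : List (List Bool)) (x : α)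
    (s : List Bool × Option (List Bool)) : List Bool × Option (List Bool) :=
  if s.2.toList.isEmpty = true then
    (if (g (x, s.1)).1 = true then (s.1, some (g (x, s.1)).2)
      else (s.1 ++ [decide ((g (x, s.1)).2 ∈ P)], none))
  else s

theorem orun_eq_iterate (g : α × List Bool → Bool × List Bool) (P : List (List Bool)) (x : α)
    (t : ℕ) : ∀ a, orun g (orc P) x t a = ((rstep g P x)^[t] (a, none)).2 := by
  have hfix : ∀ (t : ℕ) (a y : List Bool),
      (rstep g P x)^[t] (a, some y) = (a, some y) := by
    intro t a y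
    have h1 : rstep g P x (a, some y) = (a, some y) := by
      unfold rstep
      rw [if_neg (by simp)]
    exact iterate_fixed h1 t
  induction t with
  | zero => intro a; rfl
  | succ t ih =>
    intro a
    rw [orun, iterate_succ_apply]
    by_cases hg : (g (x, a)).1 = true
    · have h1 : rstep g P x (a, none) = (a, some (g (x, a)).2) := by
        unfold rstep
        rw [if_pos (by simp), if_pos hg]
      rw [if_pos hg, h1, hfix]
    · have h1 : rstep g P x (a, none) = (a ++ [orc P (g (x, a)).2], none) := by
        unfold rstep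
        rw [if_pos (by simp), if_neg hg]
        rfl
      rw [if_neg hg, h1, ih]

section
variable [Enc α] [Enc β]

theorem CF.orun {g : β × List Bool → Bool × List Bool} (hg : PTF g) {P : α → List (List Bool)}
    {x : α → β} {t : α → ℕ} (hP : CF P) (hx : CF x) (ht : CF t) :
    CF (fun a => orun g (orc (P a)) (x a) (t a) []) := by
  have hg' := CF.of_ptf hg
  have h : CF (fun a => ((rstep g (P a) (x a))^[t a] (([] : List Bool),
      (none : Option (List Bool)))).2) := by
    have h1 : CF (fun p : α × (List Bool × Option (List Bool)) =>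
        rstep g (P p.1) (x p.1) p.2) := by
      unfold rstep
      have h2 : CF (fun p : α × (List Bool × Option (List Bool)) => g (x p.1, p.2.1)) :=
        hg'.comp ((hx.comp CF.fst).pair (CF.fst.comp CF.snd))
      have h3 : CF (fun p : α × (List Bool × Option (List Bool)) => p.2.2.toList) :=
        CF.app (PTF.optToList PTF.id) (CF.snd.comp CF.snd)
      have h4 : CF (fun p : α × (List Bool × Option (List Bool)) => p.2.2.toList.isEmpty) :=
        h3.isEmpty
      have h5 : CF (fun p : α × (List Bool × Option (List Bool)) =>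
          (p.2.1, Option.some (g (x p.1, p.2.1)).2)) :=
        (CF.fst.comp CF.snd).pair (CF.some (CF.snd.comp h2))
      have h6 : CF (fun p : α × (List Bool × Option (List Bool)) =>
          decide ((g (x p.1, p.2.1)).2 ∈ P p.1)) :=
        (CF.mem (CF.snd.comp h2) (hP.comp CF.fst)).congr (fun a => by congr)
      have h7 : CF (fun p : α × (List Bool × Option (List Bool)) =>
          (p.2.1 ++ [decide ((g (x p.1, p.2.1)).2 ∈ P p.1)], (none : Option (List Bool)))) :=
        ((CF.fst.comp CF.snd).append (h6.cons (CF.const []))).pair (CF.const none)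
      exact CF.cond h4 (CF.cond (CF.fst.comp h2) h5 h7) CF.snd
    exact CF.snd.comp (CF.nat_iterate (n := t) (init := fun _ => (([] : List Bool),
      (none : Option (List Bool)))) ht (CF.const _) h1)
  exact h.congr (fun a => (orun_eq_iterate g (P a) (x a) (t a) []).symm)

theorem CF.evalP (p : Polynomial ℕ) {n : α → ℕ} (hn : CF n) : CF (fun a => p.eval (n a)) :=
  CF.app (F := fun n : ℕ => p.eval n) (ptf_eval p PTF.id) hn

/-- Decision procedure for acceptance. -/
def cacc (d : VD) (P : List (List Bool)) (z : List Bool) : Bool :=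
  (allStr (d.p.eval z.length + 1)).any (fun w => decide
    (RO.orun d.g (orc P) (z, w) (d.q.eval (6 * z.length + 3 * w.length + 1)) [] = some [true]))

omit [Enc α] [Enc β] in
theorem cacc_iff (d : VD) (P : List (List Bool)) (z : List Bool) :
    cacc d P z = true ↔ acc d (orc P) z := by
  unfold cacc acc
  rw [List.any_eq_true]
  refine exists_congr (fun w => ?_)
  rw [mem_allStr, decide_eq_true_iff, length_bitEncode_pair, Nat.lt_succ_iff]

theorem CF.cacc (d : VD) {P : α → List (List Bool)} {z : α → List Bool} (hP : CF P)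
    (hz : CF z) : CF (fun a => cacc d (P a) (z a)) := by
  unfold RO.cacc
  have h1 : CF (fun a => RO.allStr (d.p.eval (z a).length + 1)) :=
    ((CF.evalP d.p hz.length).add (CF.const 1)).allStr
  refine CF.any' (f := fun a w => decide (RO.orun d.g (orc (P a)) (z a, w)
    (d.q.eval (6 * (z a).length + 3 * w.length + 1)) [] = Option.some [true])) ?_ h1
  refine CF.eq (CF.orun (ptf_of_T d.hg) (hP.comp CF.fst) ((hz.comp CF.fst).pair CF.snd)
    (CF.evalP d.q ?_)) (CF.const _)
  exact (((CF.const 6).mul (hz.comp CF.fst).length).add ((CF.const 3).mul CF.snd.length)).add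
    (CF.const 1)

/-- Decision procedure for the failure of disjointness. -/
def cbad (dA dB : VD) (P : List (List Bool)) (a b : ℕ) : Bool :=
  (allStr b).any (fun z => decide (a ≤ z.length) && (!(RO.cacc dA P z) && !(RO.cacc dB P z)))

omit [Enc α] [Enc β] in
theorem cbad_iff (dA dB : VD) (P : List (List Bool)) (a b : ℕ) :
    cbad dA dB P a b = true ↔ orc P ∈ bad dA dB a b := by
  unfold cbad bad
  rw [List.any_eq_true]
  refine exists_congr (fun z => ?_)
  rw [mem_allStr, Bool.and_eq_true, Bool.and_eq_true, decide_eq_true_iff, Bool.not_eq_true',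
    Bool.not_eq_true', ← Bool.not_eq_true, ← Bool.not_eq_true, cacc_iff, cacc_iff]
  tauto

theorem CF.cbad (dA dB : VD) {P : α → List (List Bool)} {m n : α → ℕ} (hP : CF P)
    (hm : CF m) (hn : CF n) : CF (fun a => cbad dA dB (P a) (m a) (n a)) := by
  unfold RO.cbad
  refine CF.any' (f := fun a z => decide (m a ≤ z.length) &&
    (!(RO.cacc dA (P a) z) && !(RO.cacc dB (P a) z))) ?_ hn.allStr
  exact ((hm.comp CF.fst).le CF.snd.length).and
    ((CF.cacc dA (hP.comp CF.fst) CF.snd).not.and (CF.cacc dB (hP.comp CF.fst) CF.snd).not)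

end

/-- The left end of the window of a stage. -/
def wOf (h : List ℕ) : ℕ := if h.isEmpty = true then 0 else 2 ^ h.headD 0

theorem cf_wOf : CF wOf := by
  unfold wOf
  exact CF.cond CF.id.isEmpty (CF.const 0) ((CF.const 2).pow (CF.id.headD (CF.const 0)))

theorem cf_ub (d : VD) : CF d.ub := by
  have h1 : CF (fun n : ℕ => d.p.eval n) := CF.evalP d.p CF.id
  have h2 : CF d.rb := by
    unfold VD.rb
    exact CF.evalP d.q ((((CF.const 6).mul CF.id).add ((CF.const 3).mul h1)).add (CF.const 1))
  unfold VD.ub qlen
  exact ((((((CF.const 4).mul CF.id).add ((CF.const 4).mul h1)).add (CF.const 3)).add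
    ((CF.const 4).mul h2)).add (CF.const 5)).pow (CF.const d.k)

theorem cf_LB (dA dB : VD) : CF (LB dA dB) := by
  unfold LB
  exact ((cf_ub dA).add (cf_ub dB)).add (CF.const 1)

/-- The number of finite oracles for which the disjointness fails in the last window for the first
time. -/
noncomputable def cnt (dA dB : VD) (h : List ℕ) : ℕ :=
  (((allStr (LB dA dB (wOf h))).sublists').filter (fun P =>
    cbad dA dB P (wOf h.tail) (wOf h) && !(cbad dA dB P 0 (wOf h.tail)))).length

theorem cf_cnt (dA dB : VD) : CF (cnt dA dB) := by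
  unfold cnt
  have h1 : CF (fun h : List ℕ => wOf h) := cf_wOf
  have h2 : CF (fun h : List ℕ => wOf h.tail) := cf_wOf.comp CF.id.tail
  refine (CF.filter' (f := fun h P => cbad dA dB P (wOf h.tail) (wOf h) &&
    !(cbad dA dB P 0 (wOf h.tail))) ?_ (CF.sublists' (((cf_LB dA dB).comp h1).allStr))).length
  exact (CF.cbad dA dB CF.snd (h2.comp CF.fst) (h1.comp CF.fst)).and
    (CF.cbad dA dB CF.snd (CF.const 0) (h2.comp CF.fst)).not

theorem real_bad_diff (dA dB : VD) (h : List ℕ) (hw : wOf h.tail ≤ wOf h) :
    randomOracle.real (bad dA dB (wOf h.tail) (wOf h) \ bad dA dB 0 (wOf h.tail)) =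
      (cnt dA dB h : ℝ) / 2 ^ (allStr (LB dA dB (wOf h))).length := by
  unfold cnt
  refine real_eq_count _ (nodup_allStr _) _ ?_ _ (fun P => ?_)
  · refine (dep_bad dA dB _ _).diff ((dep_bad dA dB _ _).mono ?_)
    exact lows_mono (LB_mono dA dB hw)
  · rw [Bool.and_eq_true, Bool.not_eq_true', ← Bool.not_eq_true, cbad_iff, cbad_iff]
    rfl

theorem CF.BB {α : Type} [Enc α] {n : α → ℕ} (hn : CF n) : CF (fun a => BB (n a)) := by
  unfold RO.BB
  have h2 : CF (fun _ : α => 2) := CF.const 2
  have h3 : CF (fun a => 2 ^ (n a + 3)) := h2.pow (hn.add (CF.const 3))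
  have h4 : CF (fun a => 2 ^ (n a + 3) * 2 ^ (n a + 1)) := h3.mul (h2.pow (hn.add (CF.const 1)))
  exact ((h3.pow h4).div ((h3.sub (CF.const 1)).pow h4)).add (CF.const 1)

/-- The number of instances of the stage with history `h`. -/
noncomputable def NN (dA dB : VD) (K : ℕ) (h : List ℕ) : ℕ :=
  numI K (cnt dA dB h) (allStr (LB dA dB (wOf h))).length h.length

theorem cf_NN (dA dB : VD) (K : ℕ) : CF (NN dA dB K) := by
  unfold NN numI
  have h1 : CF (fun h : List ℕ => wOf h) := cf_wOf
  have h2 : CF (fun h : List ℕ => (allStr (LB dA dB (wOf h))).length) :=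
    (((cf_LB dA dB).comp h1).allStr).length
  have h3 : CF (fun h : List ℕ => h.length) := CF.id.length
  have h4 : CF (fun h : List ℕ => BB h.length) := CF.BB h3
  exact (((((CF.const K).mul (cf_cnt dA dB)).mul h4).div ((CF.const 2).pow h2)).add
    (h4.div ((CF.const 2).pow h3))).add (CF.const 2)

/-- Lower bound for the parameter of the stage with history `h`. -/
noncomputable def LL (dA dB : VD) (h : List ℕ) : ℕ :=
  LB dA dB (wOf h) + 2 ^ wOf h + 2 * h.length + 3

theorem cf_LL (dA dB : VD) : CF (LL dA dB) := by
  unfold LL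
  have h1 : CF (fun h : List ℕ => wOf h) := cf_wOf
  exact ((((cf_LB dA dB).comp h1).add ((CF.const 2).pow h1)).add
    ((CF.const 2).mul CF.id.length)).add (CF.const 3)

end Pool.Agent.RO
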