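import Pool.Agent.Work.MP_46935e_lc.RO.PairDef

/-!
# Tables of an oracle
-/

set_option autoImplicit false

namespace Pool.Agent.RO

/-- The strings of length less than `m` that belong to `C`. -/
def ctab (C : List Bool → Bool) (m : ℕ) : List (List Bool) := (allStr m).filter C

end Pool.Agent.RO
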