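import Pool.Agent.Work.MP_46935e_lc.RO.Star
import Pool.Agent.Work.MP_46935e_lc.RO.RelDef

/-!
# The relativised construction: machines, failure of disjointness, errors

Everything is relative to the join of the random oracle `R` and a fixed oracle `C`.
-/

set_option autoImplicit false

namespace Pool.Agent.RO.J

open Pool.Agent.PT Pool.Agent.Work.MP_46935e_lc

/-- Acceptance relative to the join. -/
abbrev jacc (C : Orc) (d : VD) (R : Orc) (z : List Bool) : Prop := acc d (join R C) z

theorem join_agree {R R' C : Orc} {m : ℕ} (h : ∀ x : List Bool, x.length ≤ m → R x = R' x) :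
    ∀ x : List Bool, x.length ≤ m → join R C x = join R' C x := by
  intro x hx
  match x, hx with
  | [], _ => rfl
  | true :: w, hx =>
    rw [join_true, join_true]
    exact h w (by rw [List.length_cons] at hx; omega)
  | false :: z, _ => rfl

theorem jacc_congr (C : Orc) (d : VD) {R R' : Orc} {n : ℕ} {z : List Bool} (hz : z.length ≤ n)
    (h : ∀ x : List Bool, x.length ≤ d.ub n → R x = R' x) : jacc C d R z ↔ jacc C d R' z :=
  acc_congr d hz (join_agree h)

/-- Short certificates of acceptance. -/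
theorem jacc_cert (C : Orc) (d : VD) {R : Orc} {n : ℕ} {z : List Bool} (hz : z.length ≤ n)
    (ha : jacc C d R z) : ∃ Q : Finset (List Bool), Q.card ≤ d.rb n ∧
      ∀ R' : Orc, (∀ x ∈ Q, R' x = R x) → jacc C d R' z := by
  classical
  obtain ⟨Q, hQ, h⟩ := acc_cert d hz ha
  refine ⟨Q.image List.tail, Finset.card_image_le.trans hQ, fun R' hR' => h _ (fun x hx => ?_)⟩
  match x, hx with
  | [], _ => rfl
  | true :: w, hx =>
    rw [join_true, join_true]
    exact hR' w (Finset.mem_image.2 ⟨_, hx, rfl⟩)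
  | false :: z, _ => rfl

/-- Some string with length in `[a, b)` is rejected by both machines. -/
def bad (C : Orc) (dA dB : VD) (a b : ℕ) : Set Orc :=
  {R | ∃ z : List Bool, a ≤ z.length ∧ z.length < b ∧ ¬ jacc C dA R z ∧ ¬ jacc C dB R z}

theorem dep_bad (C : Orc) (dA dB : VD) (a b : ℕ) :
    Dep (bad C dA dB a b) (lows (LB dA dB b)) := by
  intro R R' h
  have hA : ∀ x : List Bool, x.length ≤ dA.ub b → R x = R' x := fun x hx =>
    h x (mem_lows.2 (by unfold LB; omega))
  have hB : ∀ x : List Bool, x.length ≤ dB.ub b → R x = R' x := fun x hx =>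
    h x (mem_lows.2 (by unfold LB; omega))
  refine exists_congr (fun z => and_congr_right (fun _ => and_congr_right (fun hz =>
    and_congr (not_congr (jacc_congr C dA hz.le hA)) (not_congr (jacc_congr C dB hz.le hB)))))

/-- The answers `S z` received in the run are correct for the pair: `z` is in no wrong side. -/
def Legit (C : Orc) (dA dB : VD) (R S : Orc) (L : List (List Bool)) : Prop :=
  ∀ z, false :: z ∈ L → (S z = true → jacc C dB R z) ∧ (S z = false → jacc C dA R z)

/-- With some correct answers the run of `g` on the instance `ν` has a wrong output. -/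
def errI (C : Orc) (dA dB : VD) (g : List Bool × List Bool → Bool × List Bool) (t n b ν : ℕ) :
    Set Orc :=
  {R | ∃ S : Orc, Legit C dA dB R S (oqs g (join (join R C) S) (inst n ν) t []) ∧
    (((∀ u, ¬ Wit R n b ν true u) ∧
      orun g (join (join R C) S) (inst n ν) t [] ≠ some [true]) ∨
      ((∀ u, ¬ Wit R n b ν false u) ∧
        orun g (join (join R C) S) (inst n ν) t [] ≠ some [false]))}

theorem errI_of_agree (C : Orc) (dA dB : VD) (g : List Bool × List Bool → Bool × List Bool)
    {t n b ν ℓ : ℕ}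
    (hℓ : ∀ R S : Orc, ∀ q ∈ oqs g (join R S) (inst n ν) t [], q.length ≤ ℓ)
    {R R' : Orc} (h : ∀ x ∈ lows (ℓ + LB dA dB ℓ + (n + b + ν + 2)), R x = R' x)
    (hR : R ∈ errI C dA dB g t n b ν) : R' ∈ errI C dA dB g t n b ν := by
  obtain ⟨S, h1, h2⟩ := hR
  have hq : ∀ q ∈ oqs g (join (join R C) S) (inst n ν) t [],
      join (join R C) S q = join (join R' C) S q := by
    intro q hq
    have h3 := hℓ (join R C) S q hq
    match q, h3 with
    | [], _ => rfl
    | true :: w, h3 =>
      rw [join_true, join_true]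
      refine join_agree (m := ℓ) (fun x hx => h x (mem_lows.2 (by omega))) w ?_
      rw [List.length_cons] at h3
      omega
    | false :: z, _ => rfl
  obtain ⟨e1, e2⟩ := orun_congr g (inst n ν) t [] hq
  have hW : ∀ c u, Wit R n b ν c u ↔ Wit R' n b ν c u := fun c u =>
    wit_congr (fun x hx => h x (mem_lows.2 (by omega)))
  refine ⟨S, ?_, ?_⟩
  · rw [e2]
    intro z hz
    have h3 := hℓ (join R C) S _ hz
    rw [List.length_cons] at h3
    have hB := jacc_congr C dB (R := R) (R' := R') (n := ℓ) (z := z) (by omega) (fun x hx =>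
      h x (mem_lows.2 (by unfold LB; omega)))
    have hA := jacc_congr C dA (R := R) (R' := R') (n := ℓ) (z := z) (by omega) (fun x hx =>
      h x (mem_lows.2 (by unfold LB; omega)))
    rw [← hA, ← hB]
    exact h1 z hz
  · rw [e1]
    simpa only [hW] using h2

theorem dep_errI (C : Orc) (dA dB : VD) (g : List Bool × List Bool → Bool × List Bool)
    {t n b ν ℓ : ℕ}
    (hℓ : ∀ R S : Orc, ∀ q ∈ oqs g (join R S) (inst n ν) t [], q.length ≤ ℓ) :
    Dep (errI C dA dB g t n b ν) (lows (ℓ + LB dA dB ℓ + (n + b + ν + 2))) :=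
  fun _ _ h => ⟨errI_of_agree C dA dB g hℓ h,
    errI_of_agree C dA dB g hℓ (fun x hx => (h x hx).symm)⟩

/-- **Property (star).** -/
theorem star_prop (C : Orc) (dA dB : VD) (g : List Bool × List Bool → Bool × List Bool)
    {t n b ν ℓ : ℕ}
    (hℓ : ∀ R S : Orc, ∀ q ∈ oqs g (join R S) (inst n ν) t [], q.length ≤ ℓ)
    {R : Orc} (hd : ∀ z : List Bool, z.length < ℓ → jacc C dA R z ∨ jacc C dB R z) :
    ∃ (c : Bool) (Q : Finset (List Bool)), Q.card ≤ t * (1 + dA.rb ℓ + dB.rb ℓ) ∧
      ∀ R' : Orc, (∀ x ∈ Q, R' x = R x) → (∀ u, ¬ Wit R' n b ν (!c) u) →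
        R' ∈ errI C dA dB g t n b ν := by
  classical
  set S : Orc := fun z => decide (jacc C dB R z) with hS
  set L := oqs g (join (join R C) S) (inst n ν) t [] with hL
  -- certificates
  have hcert : ∀ q ∈ L, ∃ Q : Finset (List Bool), Q.card ≤ 1 + dA.rb ℓ + dB.rb ℓ ∧
      ∀ R' : Orc, (∀ x ∈ Q, R' x = R x) →
        join (join R C) S q = join (join R' C) S q ∧
        ∀ z, q = false :: z → (S z = true → jacc C dB R' z) ∧ (S z = false → jacc C dA R' z) := by
    intro q hq
    have h3 := hℓ (join R C) S q hq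
    match q, h3 with
    | [], _ => exact ⟨∅, by simp, fun R' _ => ⟨rfl, fun z hz => by cases hz⟩⟩
    | true :: w, _ =>
      refine ⟨{w.tail}, by rw [Finset.card_singleton]; omega,
        fun R' h => ⟨?_, fun z hz => by cases hz⟩⟩
      rw [join_true, join_true]
      match w, h with
      | [], _ => rfl
      | true :: w', h =>
        rw [join_true, join_true]
        exact (h w' (Finset.mem_singleton_self w')).symm
      | false :: w', _ => rfl
    | false :: z, h3 =>
      rw [List.length_cons] at h3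
      by_cases hz : jacc C dB R z
      · obtain ⟨Q, hQ, hQ'⟩ := jacc_cert C dB (n := ℓ) (z := z) (by omega) hz
        refine ⟨Q, by omega, fun R' h => ⟨rfl, fun z' hz' => ?_⟩⟩
        obtain rfl := (List.cons.inj hz').2
        refine ⟨fun _ => hQ' R' h, fun hf => ?_⟩
        rw [hS] at hf
        exact absurd hz (of_decide_eq_false hf)
      · have hzA : jacc C dA R z := (hd z (by omega)).resolve_right hz
        obtain ⟨Q, hQ, hQ'⟩ := jacc_cert C dA (n := ℓ) (z := z) (by omega) hzA
        refine ⟨Q, by omega, fun R' h => ⟨rfl, fun z' hz' => ?_⟩⟩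
        obtain rfl := (List.cons.inj hz').2
        refine ⟨fun hf => ?_, fun _ => hQ' R' h⟩
        rw [hS] at hf
        exact absurd (of_decide_eq_true hf) hz
  choose! Qf hQ1 hQ2 using hcert
  have hcard : (L.toFinset.biUnion Qf).card ≤ t * (1 + dA.rb ℓ + dB.rb ℓ) := by
    refine (Finset.card_biUnion_le_card_mul _ _ _ (fun q hq => hQ1 q (List.mem_toFinset.1 hq))).trans
      (Nat.mul_le_mul_right _ ?_)
    exact (List.toFinset_card_le _).trans (length_oqs _ _ _ _ _)
  have hkey : ∀ R' : Orc, (∀ x ∈ L.toFinset.biUnion Qf, R' x = R x) →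
      orun g (join (join R' C) S) (inst n ν) t [] =
        orun g (join (join R C) S) (inst n ν) t [] ∧
        Legit C dA dB R' S (oqs g (join (join R' C) S) (inst n ν) t []) := by
    intro R' hR'
    have hR'' : ∀ q ∈ L, ∀ x ∈ Qf q, R' x = R x := fun q hq x hx =>
      hR' x (Finset.mem_biUnion.2 ⟨q, List.mem_toFinset.2 hq, hx⟩)
    obtain ⟨e1, e2⟩ := orun_congr g (inst n ν) t [] (O := join (join R C) S)
      (O' := join (join R' C) S) (fun q hq => (hQ2 q hq R' (hR'' q hq)).1)
    refine ⟨e1, ?_⟩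
    rw [e2]
    intro z hz
    exact (hQ2 _ hz R' (hR'' _ hz)).2 z rfl
  by_cases hy : orun g (join (join R C) S) (inst n ν) t [] = some [true]
  · refine ⟨true, _, hcard, fun R' hR' hW => ?_⟩
    obtain ⟨e1, e2⟩ := hkey R' hR'
    refine ⟨S, e2, Or.inr ⟨hW, ?_⟩⟩
    rw [e1, hy]
    simp
  · refine ⟨false, _, hcard, fun R' hR' hW => ?_⟩
    obtain ⟨e1, e2⟩ := hkey R' hR'
    refine ⟨S, e2, Or.inl ⟨hW, ?_⟩⟩
    rw [e1]
    exact hy

end Pool.Agent.RO.J
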