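import Pool.Agent.Work.MP_46935e_lc.RO.JAcc
import Pool.Agent.Work.MP_46935e_lc.RO.Count

/-!
# The relativised construction: computability of the probability of failure
-/

set_option autoImplicit false

namespace Pool.Agent.RO.J

open Pool.Agent.PT Pool.Agent.Work.MP_46935e_lc Function

variable {α β : Type}

/-- Answer of the join of two finite oracles. -/
def jans (P P' : List (List Bool)) (q : List Bool) : Bool :=
  if q.isEmpty = true then false
  else if q.headD false = true then decide (q.tail ∈ P) else decide (q.tail ∈ P')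

theorem jans_eq (P P' : List (List Bool)) (q : List Bool) :
    jans P P' q = join (orc P) (orc P') q := by
  match q with
  | [] => rfl
  | true :: w => rfl
  | false :: z => rfl

/-- One round of an oracle procedure, the oracle being given by two finite lists. -/
def rstep (g : α × List Bool → Bool × List Bool) (P P' : List (List Bool)) (x : α)
    (s : List Bool × Option (List Bool)) : List Bool × Option (List Bool) :=
  if s.2.toList.isEmpty = true then
    (if (g (x, s.1)).1 = true then (s.1, some (g (x, s.1)).2)
      else (s.1 ++ [jans P P' (g (x, s.1)).2], none))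
  else s

theorem orun_eq_iterate (g : α × List Bool → Bool × List Bool) (P P' : List (List Bool)) (x : α)
    (t : ℕ) : ∀ a, orun g (join (orc P) (orc P')) x t a = ((rstep g P P' x)^[t] (a, none)).2 := by
  have hfix : ∀ (t : ℕ) (a y : List Bool),
      (rstep g P P' x)^[t] (a, some y) = (a, some y) := by
    intro t a y
    have h1 : rstep g P P' x (a, some y) = (a, some y) := by
      unfold rstep
      rw [if_neg (by simp)]
    exact iterate_fixed h1 t
  induction t with
  | zero => intro a; rfl
  | succ t ih =>
    intro a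
    rw [orun, iterate_succ_apply]
    by_cases hg : (g (x, a)).1 = true
    · have h1 : rstep g P P' x (a, none) = (a, some (g (x, a)).2) := by
        unfold rstep
        rw [if_pos (by simp), if_pos hg]
      rw [if_pos hg, h1, hfix]
    · have h1 : rstep g P P' x (a, none) =
          (a ++ [join (orc P) (orc P') (g (x, a)).2], none) := by
        unfold rstep
        rw [if_pos (by simp), if_neg hg, jans_eq]
      rw [if_neg hg, h1, ih]

section
variable [Enc α] [Enc β]

theorem cf_jans {P P' : α → List (List Bool)} {q : α → List Bool} (hP : CF P) (hP' : CF P')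
    (hq : CF q) : CF (fun a => jans (P a) (P' a) (q a)) := by
  unfold jans
  have h1 : CF (fun a => decide ((q a).tail ∈ P a)) :=
    (CF.mem hq.tail hP).congr (fun a => by congr)
  have h2 : CF (fun a => decide ((q a).tail ∈ P' a)) :=
    (CF.mem hq.tail hP').congr (fun a => by congr)
  exact CF.cond hq.isEmpty (CF.const false) (CF.cond (hq.headD (CF.const false)) h1 h2)

theorem cf_orun {g : β × List Bool → Bool × List Bool} (hg : PTF g) {P P' : α → List (List Bool)}
    {x : α → β} {t : α → ℕ} (hP : CF P) (hP' : CF P') (hx : CF x) (ht : CF t) :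
    CF (fun a => orun g (join (orc (P a)) (orc (P' a))) (x a) (t a) []) := by
  have hg' := CF.of_ptf hg
  have h : CF (fun a => ((rstep g (P a) (P' a) (x a))^[t a] (([] : List Bool),
      (none : Option (List Bool)))).2) := by
    have h1 : CF (fun p : α × (List Bool × Option (List Bool)) =>
        rstep g (P p.1) (P' p.1) (x p.1) p.2) := by
      unfold rstep
      have h2 : CF (fun p : α × (List Bool × Option (List Bool)) => g (x p.1, p.2.1)) :=
        hg'.comp ((hx.comp CF.fst).pair (CF.fst.comp CF.snd))
      have h3 : CF (fun p : α × (List Bool × Option (List Bool)) => p.2.2.toList) :=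
        CF.app (PTF.optToList PTF.id) (CF.snd.comp CF.snd)
      have h4 : CF (fun p : α × (List Bool × Option (List Bool)) => p.2.2.toList.isEmpty) :=
        h3.isEmpty
      have h5 : CF (fun p : α × (List Bool × Option (List Bool)) =>
          (p.2.1, Option.some (g (x p.1, p.2.1)).2)) :=
        (CF.fst.comp CF.snd).pair (CF.some (CF.snd.comp h2))
      have h6 : CF (fun p : α × (List Bool × Option (List Bool)) =>
          jans (P p.1) (P' p.1) (g (x p.1, p.2.1)).2) :=
        cf_jans (hP.comp CF.fst) (hP'.comp CF.fst) (CF.snd.comp h2)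
      have h7 : CF (fun p : α × (List Bool × Option (List Bool)) =>
          (p.2.1 ++ [jans (P p.1) (P' p.1) (g (x p.1, p.2.1)).2],
            (none : Option (List Bool)))) :=
        ((CF.fst.comp CF.snd).append (h6.cons (CF.const []))).pair (CF.const none)
      exact CF.cond h4 (CF.cond (CF.fst.comp h2) h5 h7) CF.snd
    exact CF.snd.comp (CF.nat_iterate (n := t) (init := fun _ => (([] : List Bool),
      (none : Option (List Bool)))) ht (CF.const _) h1)
  exact h.congr (fun a => (orun_eq_iterate g (P a) (P' a) (x a) (t a) []).symm)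

/-- Decision procedure for acceptance. -/
def cacc (d : VD) (P P' : List (List Bool)) (z : List Bool) : Bool :=
  (allStr (d.p.eval z.length + 1)).any (fun w => decide
    (orun d.g (join (orc P) (orc P')) (z, w) (d.q.eval (6 * z.length + 3 * w.length + 1)) [] =
      some [true]))

omit [Enc α] [Enc β] in
theorem cacc_iff (d : VD) (P P' : List (List Bool)) (z : List Bool) :
    cacc d P P' z = true ↔ acc d (join (orc P) (orc P')) z := by
  unfold cacc acc
  rw [List.any_eq_true]
  refine exists_congr (fun w => ?_)
  rw [mem_allStr, decide_eq_true_iff, length_bitEncode_pair, Nat.lt_succ_iff]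

theorem cf_cacc (d : VD) {P P' : α → List (List Bool)} {z : α → List Bool} (hP : CF P)
    (hP' : CF P') (hz : CF z) : CF (fun a => cacc d (P a) (P' a) (z a)) := by
  unfold cacc
  have h1 : CF (fun a => allStr (d.p.eval (z a).length + 1)) :=
    ((CF.evalP d.p hz.length).add (CF.const 1)).allStr
  refine CF.any' (f := fun a w => decide (orun d.g (join (orc (P a)) (orc (P' a))) (z a, w)
    (d.q.eval (6 * (z a).length + 3 * w.length + 1)) [] = Option.some [true])) ?_ h1
  refine CF.eq (cf_orun (ptf_of_T d.hg) (hP.comp CF.fst) (hP'.comp CF.fst)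
    ((hz.comp CF.fst).pair CF.snd) (CF.evalP d.q ?_)) (CF.const _)
  exact (((CF.const 6).mul (hz.comp CF.fst).length).add ((CF.const 3).mul CF.snd.length)).add
    (CF.const 1)

/-- Decision procedure for the failure of disjointness. -/
def cbad (dA dB : VD) (P P' : List (List Bool)) (a b : ℕ) : Bool :=
  (allStr b).any (fun z => decide (a ≤ z.length) && (!(cacc dA P P' z) && !(cacc dB P P' z)))

theorem cf_cbad (dA dB : VD) {P P' : α → List (List Bool)} {m n : α → ℕ} (hP : CF P)
    (hP' : CF P') (hm : CF m) (hn : CF n) :
    CF (fun a => cbad dA dB (P a) (P' a) (m a) (n a)) := by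
  unfold cbad
  refine CF.any' (f := fun a z => decide (m a ≤ z.length) &&
    (!(cacc dA (P a) (P' a) z) && !(cacc dB (P a) (P' a) z))) ?_ hn.allStr
  exact ((hm.comp CF.fst).le CF.snd.length).and
    ((cf_cacc dA (hP.comp CF.fst) (hP'.comp CF.fst) CF.snd).not.and
      (cf_cacc dB (hP.comp CF.fst) (hP'.comp CF.fst) CF.snd).not)

end

theorem orc_ctab {C : Orc} {m : ℕ} {z : List Bool} (hz : z.length < m) :
    orc (ctab C m) z = C z := by
  unfold orc ctab
  rw [Bool.eq_iff_iff, decide_eq_true_iff, List.mem_filter, mem_allStr]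
  exact and_iff_right hz

theorem jacc_table (C : Orc) (d : VD) (P : List (List Bool)) {n m : ℕ} {z : List Bool}
    (hz : z.length ≤ n) (hm : d.ub n < m) :
    acc d (join (orc P) (orc (ctab C m))) z ↔ jacc C d (orc P) z := by
  refine acc_congr d hz (fun x hx => ?_)
  match x, hx with
  | [], _ => rfl
  | true :: w, _ => rfl
  | false :: z', hx =>
    rw [join_false, join_false]
    exact orc_ctab (by rw [List.length_cons] at hx; omega)

theorem cbad_iff (C : Orc) (dA dB : VD) (P : List (List Bool)) (a b : ℕ) {m : ℕ}
    (hm : LB dA dB b ≤ m) :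
    cbad dA dB P (ctab C m) a b = true ↔ orc P ∈ bad C dA dB a b := by
  unfold cbad bad
  rw [List.any_eq_true]
  refine exists_congr (fun z => ?_)
  rw [mem_allStr, Bool.and_eq_true, Bool.and_eq_true, decide_eq_true_iff, Bool.not_eq_true',
    Bool.not_eq_true', ← Bool.not_eq_true, ← Bool.not_eq_true, cacc_iff, cacc_iff]
  unfold LB at hm
  constructor
  · rintro ⟨h1, h2, h3, h4⟩
    rw [jacc_table C dA P h1.le (by omega)] at h3
    rw [jacc_table C dB P h1.le (by omega)] at h4
    exact ⟨h2, h1, h3, h4⟩
  · rintro ⟨h2, h1, h3, h4⟩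
    rw [← jacc_table C dA P (m := m) h1.le (by omega)] at h3
    rw [← jacc_table C dB P (m := m) h1.le (by omega)] at h4
    exact ⟨h1, h2, h3, h4⟩

/-- The number of finite oracles for which the disjointness fails in the last window for the first
time. -/
noncomputable def cnt (dA dB : VD) (h : List ℕ) (P' : List (List Bool)) : ℕ :=
  (((allStr (LB dA dB (wOf h))).sublists').filter (fun P =>
    cbad dA dB P P' (wOf h.tail) (wOf h) && !(cbad dA dB P P' 0 (wOf h.tail)))).length

theorem cf_cnt (dA dB : VD) :
    CF (fun p : List ℕ × List (List Bool) => cnt dA dB p.1 p.2) := by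
  unfold cnt
  have h1 : CF (fun p : List ℕ × List (List Bool) => wOf p.1) := cf_wOf.comp CF.fst
  have h2 : CF (fun p : List ℕ × List (List Bool) => wOf p.1.tail) :=
    cf_wOf.comp CF.fst.tail
  refine (CF.filter' (f := fun (p : List ℕ × List (List Bool)) P =>
    cbad dA dB P p.2 (wOf p.1.tail) (wOf p.1) &&
    !(cbad dA dB P p.2 0 (wOf p.1.tail))) ?_
    (CF.sublists' (((cf_LB dA dB).comp h1).allStr))).length
  exact (cf_cbad dA dB CF.snd (CF.snd.comp CF.fst) (h2.comp CF.fst) (h1.comp CF.fst)).and
    (cf_cbad dA dB CF.snd (CF.snd.comp CF.fst) (CF.const 0) (h2.comp CF.fst)).not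

theorem real_bad_diff (C : Orc) (dA dB : VD) (h : List ℕ) (hw : wOf h.tail ≤ wOf h) {m : ℕ}
    (hm : LB dA dB (wOf h) ≤ m) :
    randomOracle.real (bad C dA dB (wOf h.tail) (wOf h) \ bad C dA dB 0 (wOf h.tail)) =
      (cnt dA dB h (ctab C m) : ℝ) / 2 ^ (allStr (LB dA dB (wOf h))).length := by
  unfold cnt
  refine real_eq_count _ (nodup_allStr _) _ ?_ _ (fun P => ?_)
  · refine (dep_bad C dA dB _ _).diff ((dep_bad C dA dB _ _).mono ?_)
    exact lows_mono (LB_mono dA dB hw)
  · rw [Bool.and_eq_true, Bool.not_eq_true', ← Bool.not_eq_true, cbad_iff C dA dB P _ _ hm,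
      cbad_iff C dA dB P _ _ ((LB_mono dA dB hw).trans hm)]
    rfl

/-- The number of instances of the stage with history `h`. -/
noncomputable def NN (dA dB : VD) (K : ℕ) (p : List ℕ × List (List Bool)) : ℕ :=
  numI K (cnt dA dB p.1 p.2) (allStr (LB dA dB (wOf p.1))).length p.1.length

theorem cf_NN (dA dB : VD) (K : ℕ) : CF (NN dA dB K) := by
  unfold NN numI
  have h1 : CF (fun p : List ℕ × List (List Bool) => wOf p.1) := cf_wOf.comp CF.fst
  have h2 : CF (fun p : List ℕ × List (List Bool) =>
      (allStr (LB dA dB (wOf p.1))).length) :=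
    (((cf_LB dA dB).comp h1).allStr).length
  have h3 : CF (fun p : List ℕ × List (List Bool) => p.1.length) := CF.fst.length
  have h4 : CF (fun p : List ℕ × List (List Bool) => BB p.1.length) := CF.BB h3
  exact (((((CF.const K).mul (cf_cnt dA dB)).mul h4).div ((CF.const 2).pow h2)).add
    (h4.div ((CF.const 2).pow h3))).add (CF.const 2)

end Pool.Agent.RO.J
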