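import Pool.Agent.Work.MP_46935e_lc.RO.Coin

set_option autoImplicit false

namespace Pool.Agent.RO

open MeasureTheory Filter

/-! ### Two integral inequalities -/

section generic

variable {Ω ι : Type*} [MeasurableSpace Ω] (μ : Measure Ω) [IsProbabilityMeasure μ]

theorem real_eq_int {A : Set Ω} (hA : MeasurableSet A) :
    μ.real A = ∫ ω, A.indicator (fun _ => (1 : ℝ)) ω ∂μ := by
  rw [integral_indicator_const _ hA]; simp

theorem integrable_ind {A : Set Ω} (hA : MeasurableSet A) :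
    Integrable (fun ω => A.indicator (fun _ => (1 : ℝ)) ω) μ :=
  (integrable_const (1 : ℝ)).indicator hA

theorem ind_inter (A B : Set Ω) (ω : Ω) : (A ∩ B).indicator (fun _ => (1 : ℝ)) ω =
    A.indicator (fun _ => (1 : ℝ)) ω * B.indicator (fun _ => (1 : ℝ)) ω := by
  by_cases hA : ω ∈ A <;> by_cases hB : ω ∈ B <;> simp [hA, hB]

theorem sum_real_eq_int (I : Finset ι) (A : ι → Set Ω) (hA : ∀ i ∈ I, MeasurableSet (A i)) :
    ∑ i ∈ I, μ.real (A i) = ∫ ω, ∑ i ∈ I, (A i).indicator (fun _ => (1 : ℝ)) ω ∂μ := by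
  rw [integral_finsetSum]
  · exact Finset.sum_congr rfl (fun i hi => real_eq_int μ (hA i hi))
  · exact fun i hi => integrable_ind μ (hA i hi)

theorem second_moment (I : Finset ι) (A : ι → Set Ω) (hA : ∀ i ∈ I, MeasurableSet (A i))
    {G : Set Ω} (hG : MeasurableSet G) {ε : ℝ} (hε : 0 < ε) :
    ∑ i ∈ I, μ.real (A i ∩ G) ≤
      ε / 2 * ∑ i ∈ I, ∑ j ∈ I, μ.real (A i ∩ A j) + μ.real G / (2 * ε) := by
  have h1 := sum_real_eq_int μ I (fun i => A i ∩ G) (fun i hi => (hA i hi).inter hG)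
  have h2 : ∑ i ∈ I, ∑ j ∈ I, μ.real (A i ∩ A j) =
      ∫ ω, ∑ i ∈ I, ∑ j ∈ I, (A i ∩ A j).indicator (fun _ => (1 : ℝ)) ω ∂μ := by
    rw [integral_finsetSum]
    · exact Finset.sum_congr rfl (fun i hi => sum_real_eq_int μ I (fun j => A i ∩ A j)
        (fun j hj => (hA i hi).inter (hA j hj)))
    · exact fun i hi => integrable_finsetSum _
        (fun j hj => integrable_ind μ ((hA i hi).inter (hA j hj)))
  have hi2 : Integrable (fun ω => ∑ i ∈ I, ∑ j ∈ I,
      (A i ∩ A j).indicator (fun _ => (1 : ℝ)) ω) μ :=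
    integrable_finsetSum _ (fun i hi => integrable_finsetSum _
        (fun j hj => integrable_ind μ ((hA i hi).inter (hA j hj))))
  rw [h1, h2, real_eq_int μ hG, div_eq_mul_inv _ (2 * ε), mul_comm _ (2 * ε)⁻¹, ← integral_const_mul,
    ← integral_const_mul, ← integral_add (hi2.const_mul _) ((integrable_ind μ hG).const_mul _)]
  apply integral_mono
  · exact integrable_finsetSum _ (fun i hi => integrable_ind μ ((hA i hi).inter hG))
  · exact (hi2.const_mul _).add ((integrable_ind μ hG).const_mul _)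
  intro ω
  simp only [ind_inter]
  rw [← Finset.sum_mul, ← Finset.sum_mul_sum]
  set y := ∑ i ∈ I, (A i).indicator (fun _ => (1 : ℝ)) ω
  by_cases hω : ω ∈ G
  · simp only [Set.indicator_of_mem hω, mul_one]
    have : ε / 2 * (y * y) + (2 * ε)⁻¹ - y = (ε * y - 1) ^ 2 / (2 * ε) := by
      field_simp
      ring
    have h3 : 0 ≤ (ε * y - 1) ^ 2 / (2 * ε) := by positivity
    linarith
  · simp only [Set.indicator_of_notMem hω, mul_zero, add_zero]
    have : 0 ≤ y * y := mul_self_nonneg y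
    positivity

theorem pairs_bound [DecidableEq ι] (I : Finset ι) (A : ι → Set Ω)
    (hA : ∀ i ∈ I, MeasurableSet (A i)) {G : Set Ω} (hG : MeasurableSet G) :
    ∑ i ∈ I, μ.real (A i ∩ G) ≤
      μ.real G + ∑ i ∈ I, ∑ j ∈ I.erase i, μ.real (A i ∩ A j) := by
  have h1 := sum_real_eq_int μ I (fun i => A i ∩ G) (fun i hi => (hA i hi).inter hG)
  have hj : ∀ i j, j ∈ I.erase i → j ∈ I := fun i j h => Finset.mem_of_mem_erase h
  have h2 : ∑ i ∈ I, ∑ j ∈ I.erase i, μ.real (A i ∩ A j) =
      ∫ ω, ∑ i ∈ I, ∑ j ∈ I.erase i, (A i ∩ A j).indicator (fun _ => (1 : ℝ)) ω ∂μ := by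
    rw [integral_finsetSum]
    · exact Finset.sum_congr rfl (fun i hi => sum_real_eq_int μ _ (fun j => A i ∩ A j)
        (fun j h => (hA i hi).inter (hA j (hj i j h))))
    · exact fun i hi => integrable_finsetSum _
        (fun j h => integrable_ind μ ((hA i hi).inter (hA j (hj i j h))))
  have hi2 : Integrable (fun ω => ∑ i ∈ I, ∑ j ∈ I.erase i,
      (A i ∩ A j).indicator (fun _ => (1 : ℝ)) ω) μ :=
    integrable_finsetSum _ (fun i hi => integrable_finsetSum _
        (fun j h => integrable_ind μ ((hA i hi).inter (hA j (hj i j h)))))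
  rw [h1, h2, real_eq_int μ hG, ← integral_add (integrable_ind μ hG) hi2]
  apply integral_mono
  · exact integrable_finsetSum _ (fun i hi => integrable_ind μ ((hA i hi).inter hG))
  · exact (integrable_ind μ hG).add hi2
  intro ω
  simp only [ind_inter]
  set f : ι → ℝ := fun i => (A i).indicator (fun _ => (1 : ℝ)) ω with hf
  have hf2 : ∀ i, f i * f i = f i := by
    intro i
    by_cases h : ω ∈ A i <;> simp [hf, h]
  have hf0 : ∀ i, 0 ≤ f i := by
    intro i
    by_cases h : ω ∈ A i <;> simp [hf, h]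
  have e : ∑ i ∈ I, ∑ j ∈ I.erase i, f i * f j = (∑ i ∈ I, f i) ^ 2 - ∑ i ∈ I, f i := by
    rw [sq, Finset.sum_mul_sum, ← Finset.sum_sub_distrib]
    apply Finset.sum_congr rfl
    intro i hi
    rw [← Finset.add_sum_erase I _ hi, hf2]
    ring
  show ∑ i ∈ I, f i * G.indicator (fun _ => (1 : ℝ)) ω ≤
    G.indicator (fun _ => (1 : ℝ)) ω + ∑ i ∈ I, ∑ j ∈ I.erase i, f i * f j
  have hnn : 0 ≤ ∑ i ∈ I, ∑ j ∈ I.erase i, f i * f j :=
    Finset.sum_nonneg (fun i _ => Finset.sum_nonneg (fun j _ => mul_nonneg (hf0 i) (hf0 j)))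
  rw [← Finset.sum_mul]
  by_cases hω : ω ∈ G
  · rw [Set.indicator_of_mem hω, e]
    nlinarith [sq_nonneg (∑ i ∈ I, f i - 1)]
  · rw [Set.indicator_of_notMem hω]
    simpa using hnn

end generic

/-! ### Blocks -/

section blocks

variable {γ : Type*} [DecidableEq γ]

/-- No block of `K` is contained in the oracle. -/
def noneOf (B : γ → Finset (List Bool)) (K : Finset γ) : Set Orc := {R | ∀ j ∈ K, R ∉ allTrue (B j)}

theorem dep_noneOf (B : γ → Finset (List Bool)) (K : Finset γ) : Dep (noneOf B K) (K.biUnion B) := by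
  intro R R' h
  refine forall₂_congr (fun j hj => not_congr (dep_allTrue (B j) R R' (fun x hx => h x ?_)))
  exact Finset.mem_biUnion.2 ⟨j, hj, hx⟩

theorem real_noneOf {B : γ → Finset (List Bool)} {K : Finset γ} {b : ℕ}
    (hc : ∀ j ∈ K, (B j).card = b) (hd : ∀ i ∈ K, ∀ j ∈ K, i ≠ j → Disjoint (B i) (B j)) :
    randomOracle.real (noneOf B K) = (1 - (1 / 2) ^ b) ^ K.card := by
  induction K using Finset.induction_on with
  | empty => simp [noneOf]
  | insert a K ha ih =>
    have e : noneOf B (insert a K) = (allTrue (B a))ᶜ ∩ noneOf B K := by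
      ext R; simp [noneOf]
    rw [e, (dep_allTrue (B a)).compl.indep (dep_noneOf B K), ih, Finset.card_insert_of_notMem ha,
      measureReal_compl (dep_allTrue (B a)).measurableSet, real_allTrue,
      hc a (Finset.mem_insert_self a K), pow_succ]
    · simp
      ring
    · exact fun j hj => hc j (Finset.mem_insert_of_mem hj)
    · exact fun i hi j hj => hd i (Finset.mem_insert_of_mem hi) j (Finset.mem_insert_of_mem hj)
    · rw [Finset.disjoint_biUnion_right]
      intro j hj
      exact hd a (Finset.mem_insert_self a K) j (Finset.mem_insert_of_mem hj)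
        (fun h => ha (h ▸ hj))

end blocks

/-- **Stage inequality.** -/
theorem stage {ι U : Type} [DecidableEq ι] [Fintype U] [DecidableEq U] (I : Finset ι) (b : ℕ)
    (bl : ι → Bool × U → Finset (List Bool)) (hcard : ∀ ν κ, (bl ν κ).card = b)
    (hdisj : ∀ ν κ ν' κ', (ν, κ) ≠ (ν', κ') → Disjoint (bl ν κ) (bl ν' κ'))
    (S₀ : Finset (List Bool)) (hS₀ : ∀ ν κ, Disjoint S₀ (bl ν κ))
    (D F : Set Orc) (Err : ι → Set Orc) (hD : Dep D S₀) (hF : ∃ S, Dep F S)
    (hErr : ∀ ν, ∃ S, Dep (Err ν) S) (s : ℕ)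
    (star : ∀ ν ∈ I, ∀ R ∈ D, R ∉ F → (∀ κ, R ∉ allTrue (bl ν κ)) →
      ∃ (c : Bool) (Q : Finset (List Bool)), Q.card ≤ s ∧ ∀ R' : Orc, (∀ x ∈ Q, R' x = R x) →
        (∃ u, R' ∈ allTrue (bl ν (c, u))) → (∀ u, R' ∉ allTrue (bl ν (!c, u))) → R' ∈ Err ν)
    (hs : s ≤ Fintype.card U) (τ q m : ℝ) (hτ : τ = (1 / 2) ^ b)
    (hq : q = I.card * (1 - τ) ^ (2 * Fintype.card U))
    (hm : m = I.card * (2 * Fintype.card U * τ * (1 - τ) ^ (2 * Fintype.card U - 1)))
    (ε : ℝ) (hε : 0 < ε) :
    τ * (Fintype.card U - s) * (randomOracle.real D * q - randomOracle.real (F ∩ D) - q ^ 2) ≤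
      ε / 2 * (m + m ^ 2) + randomOracle.real ((⋃ ν ∈ I, Err ν) ∩ D) / (2 * ε) := by
  classical
  set M := Fintype.card U with hM
  have hcU : Fintype.card (Bool × U) = 2 * M := by simp [hM]
  have hτ0 : 0 ≤ τ := by rw [hτ]; positivity
  have hDm : MeasurableSet D := hD.measurableSet
  obtain ⟨SF, hSF⟩ := hF
  have hFm : MeasurableSet F := hSF.measurableSet
  choose SE hSE using hErr
  have hErrm : ∀ ν, MeasurableSet (Err ν) := fun ν => (hSE ν).measurableSet
  -- events
  set E : ι → Set Orc := fun ν => noneOf (bl ν) Finset.univ with hE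
  set T : ι → Finset (List Bool) := fun ν => Finset.univ.biUnion (bl ν) with hT
  have hEdep : ∀ ν, Dep (E ν) (T ν) := fun ν => dep_noneOf _ _
  have hEm : ∀ ν, MeasurableSet (E ν) := fun ν => (hEdep ν).measurableSet
  have hd1 : ∀ ν, ∀ i j : Bool × U, i ≠ j → Disjoint (bl ν i) (bl ν j) := by
    intro ν i j hij
    exact hdisj ν i ν j (fun h => hij (congrArg Prod.snd h))
  have hTd : ∀ ν ν', ν ≠ ν' → Disjoint (T ν) (T ν') := by
    intro ν ν' h
    rw [hT, Finset.disjoint_biUnion_left]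
    intro i _
    rw [Finset.disjoint_biUnion_right]
    intro j _
    exact hdisj ν i ν' j (fun h' => h (congrArg Prod.fst h'))
  have hTS : ∀ ν, Disjoint (T ν) S₀ := by
    intro ν
    rw [hT, Finset.disjoint_biUnion_left]
    intro i _
    exact (hS₀ ν i).symm
  have hPE : ∀ ν, randomOracle.real (E ν) = (1 - τ) ^ (2 * M) := by
    intro ν
    rw [hE]
    show randomOracle.real (noneOf (bl ν) Finset.univ) = _
    rw [real_noneOf (b := b) (fun j _ => hcard ν j) (fun i _ j _ => hd1 ν i j), Finset.card_univ, hcU, hτ]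
  set X : ι → Bool × U → Set Orc := fun ν κ => allTrue (bl ν κ) ∩ noneOf (bl ν) (Finset.univ.erase κ) with hX
  have hPX : ∀ ν κ, randomOracle.real (X ν κ) = τ * (1 - τ) ^ (2 * M - 1) := by
    intro ν κ
    show randomOracle.real (allTrue (bl ν κ) ∩ noneOf (bl ν) (Finset.univ.erase κ)) = _
    rw [(dep_allTrue _).indep (dep_noneOf _ _), real_allTrue, hcard, ← hτ,
      real_noneOf (b := b) (fun j _ => hcard ν j) (fun i _ j _ => hd1 ν i j),
      Finset.card_erase_of_mem (Finset.mem_univ _), Finset.card_univ, hcU, hτ]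
    rw [Finset.disjoint_biUnion_right]
    intro j hj
    exact hd1 ν κ j (Finset.ne_of_mem_erase hj).symm
  have hXdep : ∀ ν κ, Dep (X ν κ) (T ν) := by
    intro ν κ
    refine ((dep_allTrue (bl ν κ)).mono ?_).inter ((dep_noneOf (bl ν) _).mono ?_)
    · exact Finset.subset_biUnion_of_mem (bl ν) (Finset.mem_univ κ)
    · exact Finset.biUnion_subset_biUnion_of_subset_left _ (Finset.erase_subset _ _)
  have hXm : ∀ ν κ, MeasurableSet (X ν κ) := fun ν κ => (hXdep ν κ).measurableSet
  have hXd : ∀ ν, Pairwise (fun κ κ' => Disjoint (X ν κ) (X ν κ')) := by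
    intro ν κ κ' hne
    rw [Set.disjoint_left]
    intro R h1 h2
    exact h1.2 κ' (Finset.mem_erase.2 ⟨hne.symm, Finset.mem_univ _⟩) h2.1
  set XX : ι → Set Orc := fun ν => ⋃ κ, X ν κ with hXX
  have hXXdep : ∀ ν, Dep (XX ν) (T ν) := fun ν => Dep.iUnion (hXdep ν)
  have hXXm : ∀ ν, MeasurableSet (XX ν) := fun ν => (hXXdep ν).measurableSet
  have hPXX : ∀ ν, randomOracle.real (XX ν) = 2 * M * τ * (1 - τ) ^ (2 * M - 1) := by
    intro ν
    show randomOracle.real (⋃ κ, X ν κ) = _
    rw [measureReal_iUnion_fintype (hXd ν) (hXm ν), Finset.sum_congr rfl (fun κ _ => hPX ν κ),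
      Finset.sum_const, Finset.card_univ, hcU, nsmul_eq_mul]
    push_cast
    ring
  -- step 1: planting
  have hPl : ∀ ν ∈ I, τ * (M - s) * randomOracle.real (E ν ∩ (D \ F)) ≤
      randomOracle.real (XX ν ∩ (Err ν ∩ D)) := by
    intro ν hν
    set Z : Bool × U → Set Orc := fun κ =>
      {R | R ∈ E ν ∧ R ∈ D ∧ R ∉ F ∧ plant (bl ν κ) R ∈ Err ν} with hZ
    have hZm : ∀ κ, MeasurableSet (Z κ) := by
      intro κ
      have h1 : Z κ = E ν ∩ (D ∩ (Fᶜ ∩ {R | plant (bl ν κ) R ∈ Err ν})) := by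
        ext R; rfl
      rw [h1]
      exact (hEm ν).inter (hDm.inter (hFm.compl.inter ((hSE ν).plant _).measurableSet))
    -- count
    have hcount : ∀ R ∈ E ν ∩ (D \ F), (M : ℝ) - s ≤
        ∑ κ, (Z κ).indicator (fun _ => (1 : ℝ)) R := by
      rintro R ⟨hRE, hRD, hRF⟩
      have hRE' : ∀ κ, R ∉ allTrue (bl ν κ) := fun κ => hRE κ (Finset.mem_univ κ)
      obtain ⟨c, Q, hQ, hst⟩ := star ν hν R hRD hRF hRE'
      -- good u
      set G : Finset U := Finset.univ.filter (fun u => Disjoint Q (bl ν (c, u))) with hG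
      have hGZ : ∀ u ∈ G, R ∈ Z (c, u) := by
        intro u hu
        have hu' : Disjoint Q (bl ν (c, u)) := (Finset.mem_filter.1 hu).2
        refine ⟨hRE, hRD, hRF, hst _ ?_ ⟨u, fun x hx => plant_of_mem hx R⟩ ?_⟩
        · intro x hx
          exact plant_of_notMem (Finset.disjoint_left.1 hu' hx) R
        · intro u' h'
          refine hRE' (!c, u') (fun x hx => ?_)
          rw [← h' x hx]
          refine (plant_of_notMem ?_ R).symm
          refine Finset.disjoint_left.1 (hd1 ν (!c, u') (c, u) ?_) hx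
          intro h''
          have := congrArg Prod.fst h''
          cases c <;> simp at this
      have hGcard : M ≤ G.card + s := by
        have hbad : (Finset.univ.filter (fun u => ¬ Disjoint Q (bl ν (c, u)))).card ≤ Q.card := by
          have hex : ∀ u ∈ Finset.univ.filter (fun u => ¬ Disjoint Q (bl ν (c, u))),
              ∃ x, x ∈ Q ∧ x ∈ bl ν (c, u) := by
            intro u hu
            exact Finset.not_disjoint_iff.1 (Finset.mem_filter.1 hu).2
          choose! f hf using hex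
          refine Finset.card_le_card_of_injOn f (fun u hu => (hf u hu).1) ?_
          intro u hu u' hu' h
          by_contra hne
          have hd := hd1 ν (c, u) (c, u') (fun h' => hne (congrArg Prod.snd h'))
          exact Finset.disjoint_left.1 hd (hf u hu).2 (h ▸ (hf u' hu').2)
        have := Finset.card_filter_add_card_filter_not (s := (Finset.univ : Finset U))
          (fun u => Disjoint Q (bl ν (c, u)))
        rw [Finset.card_univ, ← hG, ← hM] at this
        omega
      calc (M : ℝ) - s ≤ G.card := by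
            have : (M : ℝ) ≤ G.card + s := by exact_mod_cast hGcard
            linarith
        _ = ∑ u ∈ G, (Z (c, u)).indicator (fun _ => (1 : ℝ)) R := by
            rw [Finset.sum_congr rfl (fun u hu => Set.indicator_of_mem (hGZ u hu) _)]
            simp
        _ ≤ ∑ u, (Z (c, u)).indicator (fun _ => (1 : ℝ)) R :=
            Finset.sum_le_sum_of_subset_of_nonneg (Finset.subset_univ _)
              (fun u _ _ => Set.indicator_nonneg (fun _ _ => zero_le_one) _)
        _ ≤ ∑ κ, (Z κ).indicator (fun _ => (1 : ℝ)) R := by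
            rw [Fintype.sum_prod_type]
            exact Finset.single_le_sum (f := fun c => ∑ u, (Z (c, u)).indicator
              (fun _ => (1 : ℝ)) R) (fun c _ => Finset.sum_nonneg
                (fun u _ => Set.indicator_nonneg (fun _ _ => zero_le_one) _)) (Finset.mem_univ c)
    have hsumZ : ((M : ℝ) - s) * randomOracle.real (E ν ∩ (D \ F)) ≤
        ∑ κ, randomOracle.real (Z κ) := by
      rw [sum_real_eq_int _ _ _ (fun κ _ => hZm κ),
        real_eq_int _ ((hEm ν).inter (hDm.diff hFm)), ← integral_const_mul]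
      apply integral_mono
      · exact (integrable_ind _ ((hEm ν).inter (hDm.diff hFm))).const_mul _
      · exact integrable_finsetSum _ (fun κ _ => integrable_ind _ (hZm κ))
      intro R
      by_cases hR : R ∈ E ν ∩ (D \ F)
      · simp only [Set.indicator_of_mem hR, mul_one]
        exact hcount R hR
      · simp only [Set.indicator_of_notMem hR, mul_zero]
        exact Finset.sum_nonneg (fun κ _ => Set.indicator_nonneg (fun _ _ => zero_le_one) _)
    have hplant : ∀ κ, τ * randomOracle.real (Z κ) ≤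
        randomOracle.real (X ν κ ∩ (Err ν ∩ D)) := by
      intro κ
      have hdep : Dep (Err ν ∩ (D ∩ noneOf (bl ν) (Finset.univ.erase κ)))
          (SE ν ∪ (S₀ ∪ (Finset.univ.erase κ).biUnion (bl ν))) := by
        refine ((hSE ν).mono Finset.subset_union_left).inter (Dep.mono ?_ Finset.subset_union_right)
        exact (hD.mono Finset.subset_union_left).inter
          ((dep_noneOf _ _).mono Finset.subset_union_right)
      have e : X ν κ ∩ (Err ν ∩ D) =
          (Err ν ∩ (D ∩ noneOf (bl ν) (Finset.univ.erase κ))) ∩ allTrue (bl ν κ) := by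
        ext R
        simp only [hX, Set.mem_inter_iff]
        tauto
      rw [e, real_inter_allTrue hdep, hcard, ← hτ]
      refine mul_le_mul_of_nonneg_left ?_ hτ0
      refine measureReal_mono ?_ (measure_ne_top _ _)
      rintro R ⟨hRE, hRD, hRF, hRErr⟩
      refine ⟨hRErr, ?_, ?_⟩
      · refine (hD _ _ (fun x hx => ?_)).1 hRD
        exact (plant_of_notMem (Finset.disjoint_left.1 (hS₀ ν κ) hx) R).symm
      · intro j hj h'
        refine hRE j (Finset.mem_univ j) (fun x hx => ?_)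
        rw [← h' x hx]
        exact (plant_of_notMem (Finset.disjoint_left.1
          (hd1 ν j κ (Finset.ne_of_mem_erase hj)) hx) R).symm
    have hunion : randomOracle.real (XX ν ∩ (Err ν ∩ D)) =
        ∑ κ, randomOracle.real (X ν κ ∩ (Err ν ∩ D)) := by
      have e : XX ν ∩ (Err ν ∩ D) = ⋃ κ, (X ν κ ∩ (Err ν ∩ D)) := by
        rw [hXX, Set.iUnion_inter]
      rw [e, measureReal_iUnion_fintype]
      · intro κ κ' hne
        exact (hXd ν hne).mono Set.inter_subset_left Set.inter_subset_left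
      · exact fun κ => (hXm ν κ).inter ((hErrm ν).inter hDm)
    rw [hunion, mul_assoc]
    calc τ * (((M : ℝ) - s) * randomOracle.real (E ν ∩ (D \ F)))
        ≤ τ * ∑ κ, randomOracle.real (Z κ) := mul_le_mul_of_nonneg_left hsumZ hτ0
      _ = ∑ κ, τ * randomOracle.real (Z κ) := Finset.mul_sum _ _ _
      _ ≤ _ := Finset.sum_le_sum (fun κ _ => hplant κ)
  -- step 2
  have hstep2 : randomOracle.real D * q - randomOracle.real (F ∩ D) - q ^ 2 ≤
      ∑ ν ∈ I, randomOracle.real (E ν ∩ (D \ F)) := by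
    have h1 : ∀ ν ∈ I, randomOracle.real (E ν ∩ (D \ F)) =
        (1 - τ) ^ (2 * M) * randomOracle.real D - randomOracle.real (E ν ∩ (F ∩ D)) := by
      intro ν _
      have h2 := measureReal_inter_add_diff (μ := randomOracle) (s := E ν ∩ D) hFm
      have h3 : randomOracle.real (E ν ∩ D) = (1 - τ) ^ (2 * M) * randomOracle.real D := by
        rw [(hEdep ν).indep hD (hTS ν), hPE]
      have e1 : (E ν ∩ D) ∩ F = E ν ∩ (F ∩ D) := by ext R; simp only [Set.mem_inter_iff]; tauto
      have e2 : (E ν ∩ D) \ F = E ν ∩ (D \ F) := by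
        ext R; simp only [Set.mem_inter_iff, Set.mem_diff]; tauto
      rw [e1, e2, h3] at h2
      linarith
    rw [Finset.sum_congr rfl h1, Finset.sum_sub_distrib, Finset.sum_const, nsmul_eq_mul,
      ← mul_assoc, ← hq]
    have h4 := pairs_bound randomOracle I E (fun ν _ => hEm ν) (hFm.inter hDm)
    have h5 : ∑ ν ∈ I, ∑ ν' ∈ I.erase ν, randomOracle.real (E ν ∩ E ν') ≤ q ^ 2 := by
      have h6 : ∀ ν ∈ I, ∑ ν' ∈ I.erase ν, randomOracle.real (E ν ∩ E ν') ≤
          I.card * ((1 - τ) ^ (2 * M) * (1 - τ) ^ (2 * M)) := by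
        intro ν hν
        have h7 : ∀ ν' ∈ I.erase ν, randomOracle.real (E ν ∩ E ν') =
            (1 - τ) ^ (2 * M) * (1 - τ) ^ (2 * M) := by
          intro ν' hν'
          rw [(hEdep ν).indep (hEdep ν') (hTd ν ν' (Finset.ne_of_mem_erase hν').symm), hPE, hPE]
        rw [Finset.sum_congr rfl h7, Finset.sum_const, nsmul_eq_mul]
        refine mul_le_mul_of_nonneg_right ?_ (mul_self_nonneg _)
        exact_mod_cast Finset.card_le_card (Finset.erase_subset _ _)
      refine (Finset.sum_le_sum h6).trans (le_of_eq ?_)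
      rw [Finset.sum_const, nsmul_eq_mul, hq]
      ring
    nlinarith [h4, h5]
  -- step 3
  have hstep3 : ∑ ν ∈ I, randomOracle.real (XX ν ∩ (Err ν ∩ D)) ≤
      ε / 2 * (m + m ^ 2) + randomOracle.real ((⋃ ν ∈ I, Err ν) ∩ D) / (2 * ε) := by
    set Γ : Set Orc := (⋃ ν ∈ I, Err ν) ∩ D with hΓ
    have hΓm : MeasurableSet Γ :=
      (MeasurableSet.biUnion I.countable_toSet (fun ν _ => hErrm ν)).inter hDm
    have h1 : ∀ ν ∈ I, randomOracle.real (XX ν ∩ (Err ν ∩ D)) ≤
        randomOracle.real (XX ν ∩ Γ) := by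
      intro ν hν
      refine measureReal_mono ?_ (measure_ne_top _ _)
      rintro R ⟨h1, h2, h3⟩
      exact ⟨h1, Set.mem_biUnion hν h2, h3⟩
    have h2 := second_moment randomOracle I XX (fun ν _ => hXXm ν) hΓm hε
    have h3 : ∑ ν ∈ I, ∑ ν' ∈ I, randomOracle.real (XX ν ∩ XX ν') ≤ m + m ^ 2 := by
      set p := 2 * (M : ℝ) * τ * (1 - τ) ^ (2 * M - 1) with hp
      have hp0 : 0 ≤ p := by
        have := hPXX
        rcases I.eq_empty_or_nonempty with h | ⟨ν, _⟩
        · rw [hp]
          have : τ ≤ 1 := by rw [hτ]; exact pow_le_one₀ (by norm_num) (by norm_num)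
          have : 0 ≤ 1 - τ := by linarith
          positivity
        · rw [← this ν]; exact measureReal_nonneg
      have h4 : ∀ ν ∈ I, ∑ ν' ∈ I, randomOracle.real (XX ν ∩ XX ν') ≤ p + I.card * p ^ 2 := by
        intro ν hν
        rw [← Finset.add_sum_erase I _ hν, Set.inter_self, hPXX]
        refine add_le_add le_rfl ?_
        have h7 : ∀ ν' ∈ I.erase ν, randomOracle.real (XX ν ∩ XX ν') = p ^ 2 := by
          intro ν' hν'
          rw [(hXXdep ν).indep (hXXdep ν') (hTd ν ν' (Finset.ne_of_mem_erase hν').symm), hPXX,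
            hPXX, sq]
        rw [Finset.sum_congr rfl h7, Finset.sum_const, nsmul_eq_mul]
        refine mul_le_mul_of_nonneg_right ?_ (sq_nonneg _)
        exact_mod_cast Finset.card_le_card (Finset.erase_subset _ _)
      refine (Finset.sum_le_sum h4).trans (le_of_eq ?_)
      rw [Finset.sum_const, nsmul_eq_mul, hm]
      ring
    calc ∑ ν ∈ I, randomOracle.real (XX ν ∩ (Err ν ∩ D))
        ≤ ∑ ν ∈ I, randomOracle.real (XX ν ∩ Γ) := Finset.sum_le_sum h1
      _ ≤ ε / 2 * ∑ ν ∈ I, ∑ ν' ∈ I, randomOracle.real (XX ν ∩ XX ν') +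
          randomOracle.real Γ / (2 * ε) := h2
      _ ≤ _ := by
          have : ε / 2 * ∑ ν ∈ I, ∑ ν' ∈ I, randomOracle.real (XX ν ∩ XX ν') ≤
              ε / 2 * (m + m ^ 2) := mul_le_mul_of_nonneg_left h3 (by positivity)
          linarith
  have hMs : (0 : ℝ) ≤ M - s := by
    have : (s : ℝ) ≤ M := by exact_mod_cast hs
    linarith
  calc τ * (M - s) * (randomOracle.real D * q - randomOracle.real (F ∩ D) - q ^ 2)
      ≤ τ * (M - s) * ∑ ν ∈ I, randomOracle.real (E ν ∩ (D \ F)) :=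
        mul_le_mul_of_nonneg_left hstep2 (mul_nonneg hτ0 hMs)
    _ = ∑ ν ∈ I, τ * (M - s) * randomOracle.real (E ν ∩ (D \ F)) := Finset.mul_sum _ _ _
    _ ≤ ∑ ν ∈ I, randomOracle.real (XX ν ∩ (Err ν ∩ D)) := Finset.sum_le_sum hPl
    _ ≤ _ := hstep3

/-- The stage inequality in the form used in the limit argument. -/
theorem stage' {ι U : Type} [DecidableEq ι] [Fintype U] [DecidableEq U] (I : Finset ι) (b : ℕ)
    (bl : ι → Bool × U → Finset (List Bool)) (hcard : ∀ ν κ, (bl ν κ).card = b)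
    (hdisj : ∀ ν κ ν' κ', (ν, κ) ≠ (ν', κ') → Disjoint (bl ν κ) (bl ν' κ'))
    (S₀ : Finset (List Bool)) (hS₀ : ∀ ν κ, Disjoint S₀ (bl ν κ))
    (D F : Set Orc) (Err : ι → Set Orc) (hD : Dep D S₀) (hF : ∃ S, Dep F S)
    (hErr : ∀ ν, ∃ S, Dep (Err ν) S) (s : ℕ)
    (star : ∀ ν ∈ I, ∀ R ∈ D, R ∉ F → (∀ κ, R ∉ allTrue (bl ν κ)) →
      ∃ (c : Bool) (Q : Finset (List Bool)), Q.card ≤ s ∧ ∀ R' : Orc, (∀ x ∈ Q, R' x = R x) →
        (∃ u, R' ∈ allTrue (bl ν (c, u))) → (∀ u, R' ∉ allTrue (bl ν (!c, u))) → R' ∈ Err ν)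
    (hs : 2 * s ≤ Fintype.card U) (hU : 0 < Fintype.card U) (hb : 1 ≤ b) (τ q : ℝ)
    (hτ : τ = (1 / 2) ^ b) (hq : q = I.card * (1 - τ) ^ (2 * Fintype.card U))
    (hm : 1 ≤ 2 * (Fintype.card U * τ) * q) (ε : ℝ) (hε : 0 < ε) :
    q * (randomOracle.real D - q - ε - 32 * randomOracle.real ((⋃ ν ∈ I, Err ν) ∩ D) / ε) ≤
      randomOracle.real (F ∩ D) := by
  set M := Fintype.card U with hM
  have hM0 : (0 : ℝ) < M := by exact_mod_cast hU
  have hτ0 : 0 < τ := by rw [hτ]; positivity
  have hτ1 : τ ≤ 1 / 2 := by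
    rw [hτ]
    calc ((1 : ℝ) / 2) ^ b ≤ (1 / 2) ^ 1 := pow_le_pow_of_le_one (by norm_num) (by norm_num) hb
      _ = 1 / 2 := pow_one _
  set l := (M : ℝ) * τ with hl
  have hl0 : 0 < l := mul_pos hM0 hτ0
  have hq0 : 0 < q := by
    by_contra h
    have : 2 * l * q ≤ 0 := mul_nonpos_of_nonneg_of_nonpos (by positivity) (not_lt.1 h)
    linarith
  set m := (I.card : ℝ) * (2 * M * τ * (1 - τ) ^ (2 * M - 1)) with hmdef
  have h1τ : 0 < 1 - τ := by linarith
  have hmq : m * (1 - τ) = 2 * l * q := by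
    rw [hmdef, hq, hl]
    have : (1 - τ) ^ (2 * M) = (1 - τ) ^ (2 * M - 1) * (1 - τ) := by
      rw [← pow_succ]
      congr 1
      omega
    rw [this]
    ring
  have hm1 : 2 * l * q ≤ m := by
    have hm0 : 0 ≤ m := by rw [hmdef]; positivity
    nlinarith
  have hm2 : m ≤ 4 * l * q := by
    have hm0 : 0 ≤ m := by rw [hmdef]; positivity
    nlinarith
  have hmge : 1 ≤ m := hm.trans hm1
  set G := randomOracle.real ((⋃ ν ∈ I, Err ν) ∩ D) with hG
  have hG0 : 0 ≤ G := measureReal_nonneg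
  have hst := stage I b bl hcard hdisj S₀ hS₀ D F Err hD hF hErr s star (by omega) τ q m hτ hq rfl
    (ε / 8 / m) (by positivity)
  rw [← hM, ← hG] at hst
  by_cases hneg : randomOracle.real D * q - randomOracle.real (F ∩ D) - q ^ 2 ≤ 0
  · have h3 : 0 ≤ 32 * G / ε := by positivity
    nlinarith [mul_pos hq0 hε, mul_nonneg hq0.le h3]
  · push Not at hneg
    have hMs : (M : ℝ) / 2 ≤ M - s := by
      have : (2 : ℝ) * s ≤ M := by exact_mod_cast hs
      linarith
    have h4 : l / 2 ≤ τ * (M - s) := by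
      rw [hl]
      nlinarith
    have h5 : l / 2 * (randomOracle.real D * q - randomOracle.real (F ∩ D) - q ^ 2) ≤
        ε / 8 / m / 2 * (m + m ^ 2) + G / (2 * (ε / 8 / m)) :=
      (mul_le_mul_of_nonneg_right h4 hneg.le).trans hst
    have h6 : ε / 8 / m / 2 * (m + m ^ 2) ≤ ε / 8 * m := by
      have : ε / 8 / m / 2 * (m + m ^ 2) = ε / 16 * (1 + m) := by
        field_simp
        ring
      rw [this]
      nlinarith
    have h7 : G / (2 * (ε / 8 / m)) = 4 * m * G / ε := by
      field_simp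
      ring
    have h8 : 4 * m * G / ε ≤ 4 * (4 * l * q) * G / ε := by
      gcongr
    have h9 : ε / 8 * m ≤ ε / 8 * (4 * l * q) := by
      gcongr
    rw [h7] at h5
    have h10 : l / 2 * (randomOracle.real D * q - randomOracle.real (F ∩ D) - q ^ 2) ≤
        l / 2 * (ε * q + 32 * q * G / ε) := by
      have e : l / 2 * (ε * q + 32 * q * G / ε) = ε / 8 * (4 * l * q) + 4 * (4 * l * q) * G / ε := by
        field_simp
        ring
      rw [e]
      linarith
    have h11 := le_of_mul_le_mul_left h10 (by positivity)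
    have e2 : q * (randomOracle.real D - q - ε - 32 * G / ε) =
        randomOracle.real D * q - q ^ 2 - (ε * q + 32 * q * G / ε) := by
      ring
    rw [e2]
    linarith

end Pool.Agent.RO
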