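import Pool.Agent.Work.MP_46935e_lc.RO.CF
import Pool.Agent.Work.PT.Clock
import Pool.Agent.Work.PT.Bridge
import Pool.Agent.Work.PT.Serial
import Pool.Agent.Work.PT.Auto

/-!
# Stages recognisable in polynomial time

For computable `NN`, `LL` there is a sequence `nn` growing fast enough for both, such that the
stage number and `NN` of the history are found in polynomial time from `nn j` in unary.
-/

set_option autoImplicit false

namespace Pool.Agent.RO

open Pool.Agent.PT Turing Function

/-! ### Decoding a pair of numbers -/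

/-- The number coded by a tree. -/
def treeNat (t : D) : ℕ := t.toL.length

theorem treeNat_enc (n : ℕ) : treeNat (Enc.enc n) = n := by
  unfold treeNat
  induction n with
  | zero => rfl
  | succ n ih =>
    rw [enc_succ, D.toL, List.length_cons, ih]

/-- The pair of numbers coded by a bit string. -/
def decPair (y : List Bool) : ℕ × ℕ := (treeNat (parse y).hd, treeNat (parse y).tl)

theorem decPair_enc (p : ℕ × ℕ) : decPair (Enc.enc p).enc = p := by
  unfold decPair
  rw [parse_enc]
  obtain ⟨a, b⟩ := p
  rw [enc_pair, D.hd_cons, D.tl_cons, treeNat_enc, treeNat_enc]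

theorem ptf_decPair : PTF decPair := by
  have h : PTF (fun y : List Bool => parse y) := ptf_parse
  have h1 : PTF (fun y : List Bool => (parse y).hd.toL.length) := (h.Dhd'.toL).length
  have h2 : PTF (fun y : List Bool => (parse y).tl.toL.length) := (h.Dtl'.toL).length
  exact h1.pair h2

/-! ### Clocked evaluation -/

/-- A computable function has a clocked evaluation in polynomial time. -/
theorem exists_fire (F : List ℕ → ℕ × ℕ) (hF : CF F) :
    ∃ fire : ℕ × List ℕ → Option ℕ, PTF fire ∧
      (∀ h, ∃ t0, ∀ t, t0 ≤ t → (fire (t, h)).isSome) ∧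
      ∀ t h N, fire (t, h) = some N → N = (F h).1 ∧ (F h).1 ≤ t ∧ (F h).2 ≤ t := by
  obtain ⟨B, hB⟩ := hF
  obtain ⟨M, hM⟩ := hB.tm2
  obtain ⟨R, hR, hy⟩ := clock M.tm M.inputAlphabet M.outputAlphabet
  have mono : ∀ T T' x y, T ≤ T' → R (T, x) = some y → R (T', x) = some y := by
    intro T T' x y hT h
    rw [hy] at h ⊢
    obtain ⟨⟨h1, h2⟩⟩ := h
    exact ⟨⟨h1, h2.trans hT⟩⟩
  have main : ∀ h T, B h + 1 ≤ T → R (T, (Enc.enc h).enc) = some (Enc.enc (F h)).enc := by
    intro h T hT
    refine mono _ T _ _ hT ?_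
    rw [hy]
    exact hM h
  have uniq : ∀ T h y, R (T, (Enc.enc h).enc) = some y → y = (Enc.enc (F h)).enc := by
    intro T h y e
    have h1 := mono T (max T (B h + 1)) _ _ (le_max_left _ _) e
    have h2 := main h (max T (B h + 1)) (le_max_right _ _)
    rw [h1] at h2
    exact Option.some.inj h2
  have hcode : PTF (fun p : ℕ × List ℕ => (Enc.enc p.2).enc) := ptf_ser PTF.snd
  have hRc : PTF (fun p : ℕ × List ℕ => R (p.1, (Enc.enc p.2).enc)) :=
    hR.comp (PTF.fst.pair hcode)
  have hd1 : PTF (fun q : (ℕ × List ℕ) × List Bool => (decPair q.2).1) :=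
    (ptf_decPair.comp PTF.snd).fst'
  have hd2 : PTF (fun q : (ℕ × List ℕ) × List Bool => (decPair q.2).2) :=
    (ptf_decPair.comp PTF.snd).snd'
  have ht : PTF (fun q : (ℕ × List ℕ) × List Bool => q.1.1) := PTF.fst.fst'
  have hin : PTF (fun q : (ℕ × List ℕ) × List Bool =>
      if (decPair q.2).1 ≤ q.1.1 ∧ (decPair q.2).2 ≤ q.1.1 then some (decPair q.2).1
        else none) := by
    fun_prop
  refine ⟨fun p => match R (p.1, (Enc.enc p.2).enc) with
    | none => none
    | some y => if (decPair y).1 ≤ p.1 ∧ (decPair y).2 ≤ p.1 then some (decPair y).1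
        else none, (PTF.option_case hRc (PTF.const none) hin).congr
          (fun p => by cases R (p.1, (Enc.enc p.2).enc) <;> rfl), ?_, ?_⟩
  · intro h
    refine ⟨max (B h + 1) (max (F h).1 (F h).2), fun t ht => ?_⟩
    have h1 := main h t ((le_max_left _ _).trans ht)
    have h2 : (F h).1 ≤ t := ((le_max_left _ _).trans (le_max_right _ _)).trans ht
    have h3 : (F h).2 ≤ t := ((le_max_right _ _).trans (le_max_right _ _)).trans ht
    simp only [h1, decPair_enc]
    rw [if_pos ⟨h2, h3⟩]
    rfl
  · intro t h N e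
    simp only at e
    split at e
    · cases e
    · rename_i y hy1
      have h1 := uniq t h y hy1
      subst h1
      rw [decPair_enc] at e
      split_ifs at e with hc
      · exact ⟨(Option.some.inj e).symm, hc.1, hc.2⟩

/-! ### The state machine -/

/-- The history after `n` steps of time. -/
def histAt (fire : ℕ × List ℕ → Option ℕ) : ℕ → List ℕ
  | 0 => []
  | n + 1 => if (fire (n, histAt fire n)).isSome then n :: histAt fire n else histAt fire n

/-- One step of time. -/
def stepAt (fire : ℕ × List ℕ → Option ℕ) (s : ℕ × List ℕ) : ℕ × List ℕ :=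
  (s.1 + 1, if (fire s).isSome then s.1 :: s.2 else s.2)

theorem stepAt_iterate (fire : ℕ × List ℕ → Option ℕ) (n : ℕ) :
    (stepAt fire)^[n] (0, []) = (n, histAt fire n) := by
  induction n with
  | zero => rfl
  | succ n ih => rw [iterate_succ_apply', ih]; rfl

theorem sz_histAt (fire : ℕ × List ℕ → Option ℕ) (n : ℕ) :
    sz (histAt fire n) ≤ 1 + n * (2 * n + 2) := by
  induction n with
  | zero => exact le_of_eq rfl
  | succ n ih =>
    have h1 : sz (histAt fire (n + 1)) ≤ sz (histAt fire n) + (2 * n + 2) := by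
      rw [histAt]
      split_ifs
      · rw [sz_cons, sz_nat]; omega
      · omega
    have h2 : (n + 1) * (2 * (n + 1) + 2) = n * (2 * n + 2) + (2 * n + 2) + (2 * n + 2) := by
      ring
    omega

theorem ptf_histAt (fire : ℕ × List ℕ → Option ℕ) (hf : PTF fire) : PTF (histAt fire) := by
  have hstep : PTF (fun p : ℕ × (ℕ × List ℕ) => stepAt fire p.2) := by
    unfold stepAt
    have h1 : PTF (fun p : ℕ × (ℕ × List ℕ) => (fire p.2).isSome) :=
      (hf.comp PTF.snd).optionIsSome
    fun_prop
  have hn : PTF (fun n : ℕ => n) := PTF.id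
  have h := PTF.nat_iterate (n := fun n : ℕ => n) (init := fun _ => ((0, []) : ℕ × List ℕ))
    (step := fun p : ℕ × (ℕ × List ℕ) => stepAt fire p.2) hn (PTF.const _) hstep
    (fun n => 3 + sz n + (sz n + (2 * sz n * sz n + 2 * sz n)))
    (((PB.const 3).add PB.sz).add (PB.sz.add ((((PB.const 2).mul PB.sz).mul PB.sz).add
      ((PB.const 2).mul PB.sz)))) (fun n i hi => by
        have e := stepAt_iterate fire i
        change sz ((stepAt fire)^[i] (0, [])) ≤ _
        rw [e, sz_pair, sz_nat, sz_nat]
        have h1 := sz_histAt fire i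
        have h2 : i * (2 * i + 2) ≤ n * (2 * n + 2) := Nat.mul_le_mul hi (by omega)
        nlinarith)
  refine (PTF.snd.comp h).congr (fun n => ?_)
  show ((stepAt fire)^[n] (0, [])).2 = _
  rw [stepAt_iterate]

/-- **Stages.** For computable `NN` and `LL` there is a strictly increasing sequence `nn` with
`NN (hist j), LL (hist j) ≤ nn j`, where `hist j = [nn (j-1), ..., nn 0]`, such that the partial
function `nn j ↦ (j, NN (hist j))` is computable in polynomial time from the unary argument. -/
theorem exists_stages (NN LL : List ℕ → ℕ) (hN : CF NN) (hL : CF LL) :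
    ∃ (nn : ℕ → ℕ) (hist : ℕ → List ℕ) (act : ℕ → Option (ℕ × ℕ)),
      hist 0 = [] ∧ (∀ j, hist (j + 1) = nn j :: hist j) ∧ StrictMono nn ∧
      (∀ j, NN (hist j) ≤ nn j) ∧ (∀ j, LL (hist j) ≤ nn j) ∧
      PTF act ∧ (∀ j, act (nn j) = some (j, NN (hist j))) ∧
      ∀ n, (∀ j, nn j ≠ n) → act n = none := by
  classical
  obtain ⟨fire, hfire, hev, hval⟩ := exists_fire (fun h => (NN h, LL h)) (hN.pair hL)
  let H := histAt fire
  let P : ℕ → Prop := fun n => (fire (n, H n)).isSome
  have hH0 : H 0 = [] := rfl
  have hHs : ∀ n, P n → H (n + 1) = n :: H n := fun n h => if_pos h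
  have hHn : ∀ n, ¬ P n → H (n + 1) = H n := fun n h => if_neg h
  have hinf : {n | P n}.Infinite := by
    rw [Set.infinite_iff_exists_gt]
    intro n
    by_contra hcon
    push Not at hcon
    have hno : ∀ m, n < m → ¬ P m := fun m hm h => absurd (hcon m h) (not_le.2 hm)
    have hconst : ∀ m, H (n + 1 + m) = H (n + 1) := by
      intro m
      induction m with
      | zero => rfl
      | succ m ih => rw [← add_assoc, hHn _ (hno _ (by omega)), ih]
    obtain ⟨t0, ht0⟩ := hev (H (n + 1))
    refine hno (n + 1 + t0) (by omega) ?_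
    show (fire (n + 1 + t0, H (n + 1 + t0))).isSome = true
    rw [hconst]
    exact ht0 _ (by omega)
  have hmono : StrictMono (Nat.nth P) := Nat.nth_strictMono hinf
  have hP : ∀ j, P (Nat.nth P j) := fun j => Nat.nth_mem_of_infinite hinf j
  have hbetw : ∀ n, P n → ∃ j, Nat.nth P j = n := fun n hn => ⟨_, Nat.nth_count hn⟩
  have h0 : ∀ n, n ≤ Nat.nth P 0 → H n = [] := by
    intro n
    induction n with
    | zero => intro _; rfl
    | succ n ih =>
      intro hn
      rw [hHn n, ih (by omega)]
      intro hp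
      obtain ⟨j, rfl⟩ := hbetw n hp
      have := hmono.monotone (Nat.zero_le j)
      omega
  have hs : ∀ j k, Nat.nth P j + 1 + k ≤ Nat.nth P (j + 1) →
      H (Nat.nth P j + 1 + k) = Nat.nth P j :: H (Nat.nth P j) := by
    intro j k
    induction k with
    | zero => intro _; exact hHs _ (hP j)
    | succ k ih =>
      intro hk
      rw [← add_assoc, hHn _ _, ih (by omega)]
      intro hp
      obtain ⟨i, hi⟩ := hbetw _ hp
      have h1 : Nat.nth P j < Nat.nth P i := by omega
      have h2 : Nat.nth P i < Nat.nth P (j + 1) := by omega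
      have h3 := hmono.lt_iff_lt.1 h1
      have h4 := hmono.lt_iff_lt.1 h2
      omega
  have hlen : ∀ j, (H (Nat.nth P j)).length = j := by
    intro j
    induction j with
    | zero => rw [h0 _ le_rfl]; rfl
    | succ j ih =>
      have h1 : Nat.nth P j < Nat.nth P (j + 1) := hmono (Nat.lt_succ_self j)
      have h2 := hs j (Nat.nth P (j + 1) - (Nat.nth P j + 1)) (by omega)
      have h3 : Nat.nth P j + 1 + (Nat.nth P (j + 1) - (Nat.nth P j + 1)) =
        Nat.nth P (j + 1) := by omega
      rw [h3] at h2
      rw [h2, List.length_cons, ih]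
  have hfirej : ∀ j, fire (Nat.nth P j, H (Nat.nth P j)) = some (NN (H (Nat.nth P j))) ∧
      NN (H (Nat.nth P j)) ≤ Nat.nth P j ∧ LL (H (Nat.nth P j)) ≤ Nat.nth P j := by
    intro j
    obtain ⟨N, hN'⟩ := Option.isSome_iff_exists.1 (hP j)
    obtain ⟨h1, h2, h3⟩ := hval _ _ _ hN'
    exact ⟨by rw [hN', h1], h2, h3⟩
  have hHptf : PTF H := ptf_histAt fire hfire
  refine ⟨Nat.nth P, fun j => H (Nat.nth P j),
    fun n => match fire (n, H n) with
      | none => none
      | some N => some ((H n).length, N), h0 _ le_rfl, fun j => ?_, hmono,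
    fun j => (hfirej j).2.1, fun j => (hfirej j).2.2, ?_, fun j => ?_, fun n hn => ?_⟩
  · have h1 : Nat.nth P j < Nat.nth P (j + 1) := hmono (Nat.lt_succ_self j)
    have h2 := hs j (Nat.nth P (j + 1) - (Nat.nth P j + 1)) (by omega)
    have h3 : Nat.nth P j + 1 + (Nat.nth P (j + 1) - (Nat.nth P j + 1)) =
      Nat.nth P (j + 1) := by omega
    rw [h3] at h2
    exact h2
  · have h1 : PTF (fun n : ℕ => fire (n, H n)) := hfire.comp (PTF.id.pair hHptf)
    have h2 : PTF (fun q : ℕ × ℕ => some ((H q.1).length, q.2)) :=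
      (((hHptf.comp PTF.fst).length).pair PTF.snd).some
    exact (PTF.option_case h1 (PTF.const none) h2).congr
      (fun n => by cases fire (n, H n) <;> rfl)
  · simp only [(hfirej j).1, hlen]
  · have : ¬ P n := fun hp => by
      obtain ⟨j, hj⟩ := hbetw n hp
      exact hn j hj
    have h2 : fire (n, H n) = none := by
      have h3 : ¬ (fire (n, H n)).isSome = true := this
      simpa using h3
    simp only [h2]

end Pool.Agent.RO
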