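import Pool.Agent.Work.MP_46935e_lc.RO.RelDef
import Pool.Agent.Work.MP_46935e_lc.RO.Table

/-!
# Stages recognisable in polynomial time from a table of an oracle

The relativised form of `exists_stages`: the thresholds depend on the oracle `C`, through its
table of strings of length less than `LL` of the history, and the action function receives the
table of `C` of the strings of length less than `log n`.
-/

set_option autoImplicit false

namespace Pool.Agent.RO

open Pool.Agent.PT Turing Function

/-! ### Clocked evaluation -/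

/-- A computable function to the numbers has a clocked evaluation in polynomial time. -/
theorem exists_ev {α : Type} [Enc α] (F : α → ℕ) (hF : CF F) :
    ∃ ev : ℕ × α → Option ℕ, PTF ev ∧
      (∀ a, ∃ t0, ∀ t, t0 ≤ t → ev (t, a) = some (F a)) ∧
      ∀ t a N, ev (t, a) = some N → N = F a := by
  obtain ⟨B, hB⟩ := hF
  obtain ⟨M, hM⟩ := hB.tm2
  obtain ⟨R, hR, hy⟩ := clock M.tm M.inputAlphabet M.outputAlphabet
  have mono : ∀ T T' x y, T ≤ T' → R (T, x) = some y → R (T', x) = some y := by
    intro T T' x y hT h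
    rw [hy] at h ⊢
    obtain ⟨⟨h1, h2⟩⟩ := h
    exact ⟨⟨h1, h2.trans hT⟩⟩
  have main : ∀ a T, B a + 1 ≤ T → R (T, (Enc.enc a).enc) = some (Enc.enc (F a)).enc := by
    intro h T hT
    refine mono _ T _ _ hT ?_
    rw [hy]
    exact hM h
  have uniq : ∀ T a y, R (T, (Enc.enc a).enc) = some y → y = (Enc.enc (F a)).enc := by
    intro T h y e
    have h1 := mono T (max T (B h + 1)) _ _ (le_max_left _ _) e
    have h2 := main h (max T (B h + 1)) (le_max_right _ _)
    rw [h1] at h2
    exact Option.some.inj h2
  have hcode : PTF (fun p : ℕ × α => (Enc.enc p.2).enc) := ptf_ser PTF.snd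
  have hRc : PTF (fun p : ℕ × α => R (p.1, (Enc.enc p.2).enc)) :=
    hR.comp (PTF.fst.pair hcode)
  have hp : PTF (fun y : List Bool => parse y) := ptf_parse
  have hd : PTF (fun y : List Bool => treeNat (parse y)) := hp.toL.length
  have hdec : ∀ n : ℕ, treeNat (parse (Enc.enc n).enc) = n := by
    intro n
    rw [parse_enc, treeNat_enc]
  refine ⟨fun p => match R (p.1, (Enc.enc p.2).enc) with
    | none => none
    | some y => some (treeNat (parse y)), (PTF.option_case hRc (PTF.const none)
        (hd.comp PTF.snd).some).congr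
          (fun p => by cases R (p.1, (Enc.enc p.2).enc) <;> rfl), ?_, ?_⟩
  · intro a
    refine ⟨B a + 1, fun t ht => ?_⟩
    have h1 := main a t ht
    simp only [h1, hdec]
  · intro t a N e
    simp only at e
    split at e
    · cases e
    · rename_i y hy1
      have h1 := uniq t a y hy1
      subst h1
      rw [hdec] at e
      exact (Option.some.inj e).symm

/-! ### Powers of two with a cap -/

theorem dbl_iterate (t : ℕ) (L : ℕ) :
    (fun x => min (2 * x) (t + 1))^[L] (min 1 (t + 1)) = min (2 ^ L) (t + 1) := by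
  induction L with
  | zero => simp
  | succ L ih =>
    rw [iterate_succ_apply', ih, pow_succ]
    generalize 2 ^ L = y
    omega

/-- Whether `2 ^ L ≤ t`. -/
def powLe (p : ℕ × ℕ) : Bool := decide ((fun x => min (2 * x) (p.1 + 1))^[p.2] (min 1 (p.1 + 1))
  ≤ p.1)

theorem powLe_iff (t L : ℕ) : powLe (t, L) = true ↔ 2 ^ L ≤ t := by
  unfold powLe
  rw [decide_eq_true_iff]
  rw [dbl_iterate]
  generalize 2 ^ L = y
  show min y (t + 1) ≤ t ↔ _
  omega

theorem ptf_powLe : PTF powLe := by
  have h1 : PTF (fun p : ℕ × ℕ => p.2) := PTF.snd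
  have h2 : PTF (fun p : ℕ × ℕ => min 1 (p.1 + 1)) := by fun_prop
  have h3 : PTF (fun q : (ℕ × ℕ) × ℕ => min (2 * q.2) (q.1.1 + 1)) := by fun_prop
  have h := PTF.nat_iterate (n := fun p : ℕ × ℕ => p.2)
    (init := fun p : ℕ × ℕ => min 1 (p.1 + 1))
    (step := fun q : (ℕ × ℕ) × ℕ => min (2 * q.2) (q.1.1 + 1)) h1 h2 h3
    (fun p => 3 + sz p) ((PB.const 3).add PB.sz) (fun p i _ => by
      change sz ((fun x => min (2 * x) (p.1 + 1))^[i] (min 1 (p.1 + 1))) ≤ _
      rw [dbl_iterate, sz_nat]
      obtain ⟨t, L⟩ := p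
      rw [sz_pair, sz_nat, sz_nat]
      show 2 * min (2 ^ i) (t + 1) + 1 ≤ _
      generalize 2 ^ i = y
      omega)
  have h4 : PTF (fun p : ℕ × ℕ => p.1) := PTF.fst
  exact h.le h4

/-! ### Tables -/

theorem filter_allStr {m n : ℕ} (h : m ≤ n) :
    (allStr n).filter (fun w => decide (w.length < m)) = allStr m := by
  obtain ⟨k, rfl⟩ := Nat.exists_eq_add_of_le h
  unfold allStr
  rw [List.range_add, List.flatMap_append, List.filter_append]
  have h1 : (List.flatMap strs (List.range m)).filter (fun w => decide (w.length < m)) =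
      List.flatMap strs (List.range m) := by
    rw [List.filter_eq_self]
    intro w hw
    rw [List.mem_flatMap] at hw
    obtain ⟨i, hi, hw⟩ := hw
    rw [mem_strs] at hw
    rw [List.mem_range] at hi
    rw [decide_eq_true_iff]
    omega
  have h2 : (List.flatMap strs ((List.range k).map (fun x => m + x))).filter
      (fun w => decide (w.length < m)) = [] := by
    rw [List.filter_eq_nil_iff]
    intro w hw
    rw [List.mem_flatMap] at hw
    obtain ⟨i, hi, hw⟩ := hw
    rw [mem_strs] at hw
    rw [List.mem_map] at hi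
    obtain ⟨j, _, rfl⟩ := hi
    rw [decide_eq_true_iff]
    omega
  rw [h1, h2, List.append_nil]

theorem filter_ctab (C : List Bool → Bool) {m n : ℕ} (h : m ≤ n) :
    (ctab C n).filter (fun w => decide (w.length < m)) = ctab C m := by
  unfold ctab
  rw [List.filter_comm, filter_allStr h]

/-! ### The stages of a firing predicate -/

/-- The sequence of the stages of a firing predicate. -/
theorem stages_of_fire (fire : ℕ × List ℕ → Option ℕ) (A B : List ℕ → ℕ)
    (hev : ∀ h, ∃ t0, ∀ t, t0 ≤ t → (fire (t, h)).isSome)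
    (hval : ∀ t h N, fire (t, h) = some N → N = A h ∧ A h ≤ t ∧ B h ≤ t) :
    ∃ (nn : ℕ → ℕ) (hist : ℕ → List ℕ),
      hist 0 = [] ∧ (∀ j, hist (j + 1) = nn j :: hist j) ∧ StrictMono nn ∧
      (∀ j, A (hist j) ≤ nn j) ∧ (∀ j, B (hist j) ≤ nn j) ∧
      (∀ j, histAt fire (nn j) = hist j) ∧ (∀ j, (hist j).length = j) ∧
      (∀ j, fire (nn j, histAt fire (nn j)) = some (A (hist j))) ∧
      ∀ n, (∀ j, nn j ≠ n) → fire (n, histAt fire n) = none := by
  classical
  let H := histAt fire
  let P : ℕ → Prop := fun n => (fire (n, H n)).isSome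
  have hH0 : H 0 = [] := rfl
  have hHs : ∀ n, P n → H (n + 1) = n :: H n := fun n h => if_pos h
  have hHn : ∀ n, ¬ P n → H (n + 1) = H n := fun n h => if_neg h
  have hinf : {n | P n}.Infinite := by
    rw [Set.infinite_iff_exists_gt]
    intro n
    by_contra hcon
    push Not at hcon
    have hno : ∀ m, n < m → ¬ P m := fun m hm h => absurd (hcon m h) (not_le.2 hm)
    have hconst : ∀ m, H (n + 1 + m) = H (n + 1) := by
      intro m
      induction m with
      | zero => rfl
      | succ m ih => rw [← add_assoc, hHn _ (hno _ (by omega)), ih]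
    obtain ⟨t0, ht0⟩ := hev (H (n + 1))
    refine hno (n + 1 + t0) (by omega) ?_
    show (fire (n + 1 + t0, H (n + 1 + t0))).isSome = true
    rw [hconst]
    exact ht0 _ (by omega)
  have hmono : StrictMono (Nat.nth P) := Nat.nth_strictMono hinf
  have hP : ∀ j, P (Nat.nth P j) := fun j => Nat.nth_mem_of_infinite hinf j
  have hbetw : ∀ n, P n → ∃ j, Nat.nth P j = n := fun n hn => ⟨_, Nat.nth_count hn⟩
  have h0 : ∀ n, n ≤ Nat.nth P 0 → H n = [] := by
    intro n
    induction n with
    | zero => intro _; rfl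
    | succ n ih =>
      intro hn
      rw [hHn n, ih (by omega)]
      intro hp
      obtain ⟨j, rfl⟩ := hbetw n hp
      have := hmono.monotone (Nat.zero_le j)
      omega
  have hs : ∀ j k, Nat.nth P j + 1 + k ≤ Nat.nth P (j + 1) →
      H (Nat.nth P j + 1 + k) = Nat.nth P j :: H (Nat.nth P j) := by
    intro j k
    induction k with
    | zero => intro _; exact hHs _ (hP j)
    | succ k ih =>
      intro hk
      rw [← add_assoc, hHn _ _, ih (by omega)]
      intro hp
      obtain ⟨i, hi⟩ := hbetw _ hp
      have h1 : Nat.nth P j < Nat.nth P i := by omega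
      have h2 : Nat.nth P i < Nat.nth P (j + 1) := by omega
      have h3 := hmono.lt_iff_lt.1 h1
      have h4 := hmono.lt_iff_lt.1 h2
      omega
  have hlen : ∀ j, (H (Nat.nth P j)).length = j := by
    intro j
    induction j with
    | zero => rw [h0 _ le_rfl]; rfl
    | succ j ih =>
      have h1 : Nat.nth P j < Nat.nth P (j + 1) := hmono (Nat.lt_succ_self j)
      have h2 := hs j (Nat.nth P (j + 1) - (Nat.nth P j + 1)) (by omega)
      have h3 : Nat.nth P j + 1 + (Nat.nth P (j + 1) - (Nat.nth P j + 1)) =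
        Nat.nth P (j + 1) := by omega
      rw [h3] at h2
      rw [h2, List.length_cons, ih]
  have hfirej : ∀ j, fire (Nat.nth P j, H (Nat.nth P j)) = some (A (H (Nat.nth P j))) ∧
      A (H (Nat.nth P j)) ≤ Nat.nth P j ∧ B (H (Nat.nth P j)) ≤ Nat.nth P j := by
    intro j
    obtain ⟨N, hN'⟩ := Option.isSome_iff_exists.1 (hP j)
    obtain ⟨h1, h2, h3⟩ := hval _ _ _ hN'
    exact ⟨by rw [hN', h1], h2, h3⟩
  refine ⟨Nat.nth P, fun j => H (Nat.nth P j), h0 _ le_rfl, fun j => ?_, hmono,
    fun j => (hfirej j).2.1, fun j => (hfirej j).2.2, fun j => rfl, hlen,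
    fun j => (hfirej j).1, fun n hn => ?_⟩
  · have h1 : Nat.nth P j < Nat.nth P (j + 1) := hmono (Nat.lt_succ_self j)
    have h2 := hs j (Nat.nth P (j + 1) - (Nat.nth P j + 1)) (by omega)
    have h3 : Nat.nth P j + 1 + (Nat.nth P (j + 1) - (Nat.nth P j + 1)) =
      Nat.nth P (j + 1) := by omega
    rw [h3] at h2
    exact h2
  · have : ¬ P n := fun hp => by
      obtain ⟨j, hj⟩ := hbetw n hp
      exact hn j hj
    have h3 : ¬ (fire (n, H n)).isSome = true := this
    simpa using h3

/-! ### The state machine with a table -/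

/-- The firing function with the table held fixed. -/
def fixT (fire : ℕ × (List ℕ × List (List Bool)) → Option ℕ) (tab : List (List Bool))
    (p : ℕ × List ℕ) : Option ℕ := fire (p.1, (p.2, tab))

theorem ptf_histAt_tab (fire : ℕ × (List ℕ × List (List Bool)) → Option ℕ) (hf : PTF fire) :
    PTF (fun p : ℕ × List (List Bool) => histAt (fixT fire p.2) p.1) := by
  have hstep : PTF (fun p : (ℕ × List (List Bool)) × (ℕ × List ℕ) =>
      stepAt (fixT fire p.1.2) p.2) := by
    unfold stepAt fixT
    have h0 : PTF (fun p : (ℕ × List (List Bool)) × (ℕ × List ℕ) =>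
      (p.2.1, (p.2.2, p.1.2))) := by fun_prop
    have h1 : PTF (fun p : (ℕ × List (List Bool)) × (ℕ × List ℕ) =>
      (fire (p.2.1, (p.2.2, p.1.2))).isSome) := (hf.comp h0).optionIsSome
    fun_prop
  have hn : PTF (fun p : ℕ × List (List Bool) => p.1) := PTF.fst
  have h := PTF.nat_iterate (n := fun p : ℕ × List (List Bool) => p.1)
    (init := fun _ => ((0, []) : ℕ × List ℕ))
    (step := fun p : (ℕ × List (List Bool)) × (ℕ × List ℕ) => stepAt (fixT fire p.1.2) p.2)
    hn (PTF.const _) hstep
    (fun n => 3 + sz n + (sz n + (2 * sz n * sz n + 2 * sz n)))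
    (((PB.const 3).add PB.sz).add (PB.sz.add ((((PB.const 2).mul PB.sz).mul PB.sz).add
      ((PB.const 2).mul PB.sz)))) (fun p i hi => by
        have e := stepAt_iterate (fixT fire p.2) i
        change sz ((stepAt (fixT fire p.2))^[i] (0, [])) ≤ _
        obtain ⟨n, tab⟩ := p
        change i ≤ n at hi
        rw [e, sz_pair, sz_nat, sz_pair, sz_nat]
        have h1 := sz_histAt (fixT fire tab) i
        have h2 : i * (2 * i + 2) ≤ n * (2 * n + 2) := Nat.mul_le_mul hi (by omega)
        have h3 : 0 < sz tab := sz_pos _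
        change 2 * i + 1 + sz (histAt (fixT fire tab) i) + 1 ≤ _
        nlinarith)
  refine (PTF.snd.comp h).congr (fun p => ?_)
  show ((stepAt (fixT fire p.2))^[p.1] (0, [])).2 = _
  rw [stepAt_iterate]

theorem histAt_congr {f g : ℕ × List ℕ → Option ℕ} (n : ℕ)
    (h : ∀ t h, t < n → f (t, h) = g (t, h)) : histAt f n = histAt g n := by
  induction n with
  | zero => rfl
  | succ n ih =>
    have h1 := ih (fun t h' ht => h t h' (by omega))
    rw [histAt, histAt, h1, h n _ (Nat.lt_succ_self n)]

/-- **Stages, relativised.** The thresholds of the stages are computed from the history and a table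
of the oracle, and the action function receives the logarithmic table of the oracle. -/
theorem exists_stages_rel (NN : List ℕ × List (List Bool) → ℕ) (LL : List ℕ → ℕ) (hN : CF NN)
    (hL : CF LL) :
    ∃ act : ℕ × List (List Bool) → Option (ℕ × ℕ), PTF act ∧ ∀ C : List Bool → Bool,
      ∃ (nn : ℕ → ℕ) (hist : ℕ → List ℕ),
        hist 0 = [] ∧ (∀ j, hist (j + 1) = nn j :: hist j) ∧ StrictMono nn ∧
        (∀ j, NN (hist j, ctab C (LL (hist j))) ≤ nn j) ∧ (∀ j, 2 ^ LL (hist j) ≤ nn j) ∧
        (∀ j, act (nn j, ctab C (Nat.log 2 (nn j))) =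
          some (j, NN (hist j, ctab C (LL (hist j))))) ∧
        ∀ n, (∀ j, nn j ≠ n) → act (n, ctab C (Nat.log 2 n)) = none := by
  obtain ⟨evN, hevN, evN1, evN2⟩ := exists_ev NN hN
  obtain ⟨evL, hevL, evL1, evL2⟩ := exists_ev LL hL
  -- the firing function
  let f1 : (ℕ × (List ℕ × List (List Bool))) × ℕ → Option ℕ := fun q =>
    (evN (q.1.1, (q.1.2.1, q.1.2.2.filter (fun w => decide (w.length < q.2))))).bind
      (fun N => if N ≤ q.1.1 then some N else none)
  let fire : ℕ × (List ℕ × List (List Bool)) → Option ℕ := fun p =>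
    (evL (p.1, p.2.1)).bind (fun L => if powLe (p.1, L) = true then f1 (p, L) else none)
  have hf1 : PTF f1 := by
    have h0 : PTF (fun q : (ℕ × (List ℕ × List (List Bool))) × ℕ =>
        (q.1.1, (q.1.2.1, q.1.2.2.filter (fun w => decide (w.length < q.2))))) := by
      fun_prop
    have h1 := hevN.comp h0
    have h2 : PTF (fun r : ((ℕ × (List ℕ × List (List Bool))) × ℕ) × ℕ =>
        if r.2 ≤ r.1.1.1 then some r.2 else none) := by fun_prop
    exact PTF.optionBind' h2 h1
  have hfire : PTF fire := by
    have h0 : PTF (fun p : ℕ × (List ℕ × List (List Bool)) => (p.1, p.2.1)) := by fun_prop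
    have h1 := hevL.comp h0
    have h2 : PTF (fun q : (ℕ × (List ℕ × List (List Bool))) × ℕ => powLe (q.1.1, q.2)) := by
      have h3 : PTF (fun q : (ℕ × (List ℕ × List (List Bool))) × ℕ => (q.1.1, q.2)) := by
        fun_prop
      exact ptf_powLe.comp h3
    have h4 : PTF (fun q : (ℕ × (List ℕ × List (List Bool))) × ℕ =>
        if powLe (q.1.1, q.2) = true then f1 (q.1, q.2) else none) :=
      h2.cond hf1 (PTF.const none)
    exact PTF.optionBind' h4 h1
  -- the value of the firing function
  have hfire_some : ∀ t h tab N, fire (t, (h, tab)) = some N ↔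
      ∃ L, evL (t, h) = some L ∧ 2 ^ L ≤ t ∧
        evN (t, (h, tab.filter (fun w => decide (w.length < L)))) = some N ∧ N ≤ t := by
    intro t h tab N
    show ((evL (t, h)).bind _) = some N ↔ _
    rw [Option.bind_eq_some_iff]
    refine exists_congr (fun L => and_congr_right (fun _ => ?_))
    rw [← powLe_iff t L]
    by_cases hp : powLe (t, L) = true
    · rw [if_pos hp]
      show ((evN (t, (h, tab.filter (fun w => decide (w.length < L))))).bind _) = some N ↔ _
      rw [Option.bind_eq_some_iff]
      constructor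
      · rintro ⟨N', h1, h2⟩
        split_ifs at h2 with h3
        obtain rfl : N' = N := Option.some.inj h2
        exact ⟨hp, h1, h3⟩
      · rintro ⟨_, h1, h2⟩
        exact ⟨N, h1, if_pos h2⟩
    · rw [if_neg hp]
      constructor
      · intro h; cases h
      · rintro ⟨h, _⟩; exact absurd h hp
  have hlog : ∀ L t, 2 ^ L ≤ t → L ≤ Nat.log 2 t := by
    intro L t h
    have h1 : t ≠ 0 := by
      have := Nat.one_le_two_pow (n := L)
      omega
    exact (Nat.le_log_iff_pow_le Nat.one_lt_two h1).2 h
  -- independence of the table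
  have hindep : ∀ (C : List Bool → Bool) t n h, t ≤ n →
      fire (t, (h, ctab C (Nat.log 2 n))) = fire (t, (h, ctab C (Nat.log 2 t))) := by
    intro C t n h htn
    apply Option.ext
    intro N
    rw [hfire_some, hfire_some]
    refine exists_congr (fun L => and_congr_right (fun _ => and_congr_right (fun hp => ?_)))
    have h1 := hlog L t hp
    have h2 : Nat.log 2 t ≤ Nat.log 2 n := Nat.log_mono_right htn
    rw [filter_ctab C (h1.trans h2), filter_ctab C h1]
  -- the action function
  let g : ℕ × List (List Bool) → Option ℕ := fun p =>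
    fire (p.1, (histAt (fixT fire p.2) p.1, p.2))
  have hHptf := ptf_histAt_tab fire hfire
  have hg : PTF g := hfire.comp (PTF.fst.pair (hHptf.pair PTF.snd))
  refine ⟨fun p => (g p).bind (fun N => some ((histAt (fixT fire p.2) p.1).length, N)), ?_,
    fun C => ?_⟩
  · have h2 : PTF (fun q : (ℕ × List (List Bool)) × ℕ =>
        some ((histAt (fixT fire q.1.2) q.1.1).length, q.2)) :=
      (((hHptf.comp PTF.fst).length).pair PTF.snd).some
    exact PTF.optionBind' h2 hg
  · let fireC : ℕ × List ℕ → Option ℕ := fun p => fire (p.1, (p.2, ctab C (Nat.log 2 p.1)))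
    obtain ⟨nn, hist, c1, c2, c3, c4, c5, c6, c7, c8, c9⟩ := stages_of_fire fireC
      (fun h => NN (h, ctab C (LL h))) (fun h => 2 ^ LL h) (fun h => by
        obtain ⟨t1, ht1⟩ := evL1 h
        obtain ⟨t2, ht2⟩ := evN1 (h, ctab C (LL h))
        refine ⟨max (max t1 t2) (max (2 ^ LL h) (NN (h, ctab C (LL h)))), fun t ht => ?_⟩
        have e1 : t1 ≤ t := by omega
        have e2 : t2 ≤ t := by omega
        have e3 : 2 ^ LL h ≤ t := (le_max_left _ _).trans ((le_max_right _ _).trans ht)
        have e4 : NN (h, ctab C (LL h)) ≤ t := by omega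
        have e5 : fireC (t, h) = some (NN (h, ctab C (LL h))) := by
          show fire (t, (h, ctab C (Nat.log 2 t))) = _
          rw [hfire_some]
          refine ⟨LL h, ht1 t e1, e3, ?_, e4⟩
          rw [filter_ctab C (hlog _ _ e3)]
          exact ht2 t e2
        rw [e5]
        rfl) (fun t h N e => by
        change fire (t, (h, ctab C (Nat.log 2 t))) = some N at e
        rw [hfire_some] at e
        obtain ⟨L, e1, e2, e3, e4⟩ := e
        obtain rfl := evL2 _ _ _ e1
        rw [filter_ctab C (hlog _ _ e2)] at e3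
        obtain rfl := evN2 _ _ _ e3
        exact ⟨rfl, e4, e2⟩)
    have hH : ∀ n, histAt (fixT fire (ctab C (Nat.log 2 n))) n = histAt fireC n := fun n =>
      histAt_congr n (fun t h ht => hindep C t n h ht.le)
    have hgn : ∀ n, g (n, ctab C (Nat.log 2 n)) = fireC (n, histAt fireC n) := by
      intro n
      show fire (n, (histAt (fixT fire (ctab C (Nat.log 2 n))) n, ctab C (Nat.log 2 n))) = _
      rw [hH]
    refine ⟨nn, hist, c1, c2, c3, c4, c5, fun j => ?_, fun n hn => ?_⟩
    · show (g (nn j, ctab C (Nat.log 2 (nn j)))).bind _ = _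
      rw [hgn, c8]
      show some ((histAt (fixT fire (ctab C (Nat.log 2 (nn j)))) (nn j)).length, _) = _
      rw [hH, c6, c7]
    · show (g (n, ctab C (Nat.log 2 n))).bind _ = _
      rw [hgn, c9 n hn]
      rfl

end Pool.Agent.RO
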