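import Pool.Agent.Work.MP_46935e_lc.RO.JCount
import Pool.Agent.Work.MP_46935e_lc.RO.TableRel
import Pool.Agent.Work.MP_46935e_lc.RO.PairNPRel
import Pool.Agent.Work.MP_46935e_lc.RO.Stage

/-!
# The relativised construction: stages
-/

set_option autoImplicit false

namespace Pool.Agent.RO.J

open Pool.Agent.PT Pool.Agent.Work.MP_46935e_lc MeasureTheory Filter

/-- The sequence of stages for the pair given by `dA`, `dB` and the amplification `K`. -/
structure Stg (C : Orc) (dA dB : VD) (K : ℕ) where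
  /-- parameters -/
  nn : ℕ → ℕ
  /-- histories -/
  hist : ℕ → List ℕ
  /-- stage function -/
  act : ℕ → Option (ℕ × ℕ)
  h0 : hist 0 = []
  hs : ∀ j, hist (j + 1) = nn j :: hist j
  mono : StrictMono nn
  hN : ∀ j, NN dA dB K (hist j, ctab C (LL dA dB (hist j))) ≤ nn j
  hL : ∀ j, LL dA dB (hist j) ≤ nn j
  mem : ∀ (i₀ : ℕ) (c : Bool) (R : Orc), side act i₀ c R ∈ coNPRel (join R C)
  act_nn : ∀ j, act (nn j) = some (j, NN dA dB K (hist j, ctab C (LL dA dB (hist j))))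
  act_none : ∀ n, (∀ j, nn j ≠ n) → act n = none

theorem LB_le_LL (dA dB : VD) (h : List ℕ) : LB dA dB (wOf h) ≤ LL dA dB h := by
  unfold LL
  exact Nat.le_add_right_of_le (Nat.le_add_right_of_le (Nat.le_add_right _ _))

theorem exists_Stg (C : Orc) (dA dB : VD) (K : ℕ) : Nonempty (Stg C dA dB K) := by
  obtain ⟨act, h0, h⟩ :=
    exists_stages_rel (NN dA dB K) (LL dA dB) (cf_NN dA dB K) (cf_LL dA dB)
  obtain ⟨nn, hist, h1, h2, h3, h4, h5, h6, h7⟩ := h C
  exact ⟨⟨nn, hist, fun n => act (n, ctab C (Nat.log 2 n)), h1, h2, h3, h4,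
    fun j => (Nat.lt_two_pow_self.le).trans (h5 j),
    fun i₀ c R => side_mem_rel h0 i₀ c C R, h6, h7⟩⟩

namespace Stg

variable {C : Orc} {dA dB : VD} {K : ℕ} (σ : Stg C dA dB K)

/-- Left end of a window. -/
def w (j : ℕ) : ℕ := wOf (σ.hist j)

/-- Number of instances. -/
noncomputable def N (j : ℕ) : ℕ :=
  NN dA dB K (σ.hist j, ctab C (LL dA dB (σ.hist j)))

/-- Length of the blocks. -/
def b (j : ℕ) : ℕ := σ.nn j - j

theorem length_hist (j : ℕ) : (σ.hist j).length = j := by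
  induction j with
  | zero => rw [σ.h0]; rfl
  | succ j ih => rw [σ.hs, List.length_cons, ih]

theorem w_zero : σ.w 0 = 0 := by unfold w; rw [σ.h0]; rfl

theorem w_succ (j : ℕ) : σ.w (j + 1) = 2 ^ σ.nn j := by
  unfold w
  rw [σ.hs]
  rfl

theorem LB_le (j : ℕ) : LB dA dB (σ.w j) + 2 ^ σ.w j + 2 * j + 3 ≤ σ.nn j := by
  have := σ.hL j
  unfold LL at this
  rw [σ.length_hist] at this
  exact this

theorem LB_le' (j : ℕ) : LB dA dB (σ.w j) + 2 * j + 3 ≤ σ.nn j := by
  have h1 := σ.LB_le j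
  have h2 : 0 < 2 ^ σ.w j := by positivity
  omega

theorem w_lt (j : ℕ) : σ.w j < σ.w (j + 1) := by
  rw [σ.w_succ]
  have h1 := σ.LB_le j
  have h2 : σ.w j < 2 ^ σ.w j := Nat.lt_two_pow_self
  have h3 : σ.nn j < 2 ^ σ.nn j := Nat.lt_two_pow_self
  omega

theorem w_mono : Monotone σ.w := monotone_nat_of_le_succ (fun j => (σ.w_lt j).le)

theorem N_le (j : ℕ) : σ.N j ≤ σ.nn j := σ.hN j

theorem b_add (j : ℕ) : σ.b j + j = σ.nn j := by
  have := σ.LB_le' j
  unfold b; omega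

theorem le_b (j : ℕ) : j + 3 ≤ σ.b j := by
  have := σ.LB_le' j
  unfold b; omega

/-- The events of failure of disjointness. -/
def F (i : ℕ) : Set Orc := bad C dA dB (σ.w i) (σ.w (i + 1))

theorem biUnion_F (i : ℕ) : ⋃ j ∈ Finset.range i, σ.F j = bad C dA dB 0 (σ.w i) := by
  induction i with
  | zero =>
    rw [σ.w_zero]
    ext R
    simp [bad]
  | succ i ih =>
    rw [Finset.range_add_one, Finset.set_biUnion_insert, ih]
    ext R
    constructor
    · rintro (⟨z, h1, h2, h3⟩ | ⟨z, h1, h2, h3⟩)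
      · exact ⟨z, Nat.zero_le _, h2, h3⟩
      · exact ⟨z, h1, h2.trans (σ.w_lt i), h3⟩
    · rintro ⟨z, h1, h2, h3⟩
      by_cases hz : z.length < σ.w i
      · exact Or.inr ⟨z, h1, hz, h3⟩
      · exact Or.inl ⟨z, by omega, h2, h3⟩

theorem dep_F (i : ℕ) : Dep (σ.F i) (lows (σ.nn (i + 1))) :=
  (dep_bad C dA dB _ _).mono (lows_mono (by have := σ.LB_le' (i + 1); omega))

theorem measurable_F (i : ℕ) : MeasurableSet (σ.F i) := (σ.dep_F i).measurableSet

/-- The probability of a first failure in a window. -/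
noncomputable def h (i : ℕ) : ℝ := randomOracle.real (σ.F i \ ⋃ j ∈ Finset.range i, σ.F j)

theorem h_eq (i : ℕ) : σ.h i =
    (cnt dA dB (σ.hist (i + 1)) (ctab C (LL dA dB (σ.hist (i + 1)))) : ℝ) /
    2 ^ (allStr (LB dA dB (wOf (σ.hist (i + 1))))).length := by
  have ht : (σ.hist (i + 1)).tail = σ.hist i := by rw [σ.hs]; rfl
  rw [← real_bad_diff C dA dB (σ.hist (i + 1)) (by rw [ht]; exact (σ.w_lt i).le)
    (LB_le_LL dA dB _), ht]
  unfold h
  rw [σ.biUnion_F]
  rfl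

theorem h_nonneg (i : ℕ) : 0 ≤ σ.h i := measureReal_nonneg

theorem sum_h_le (n : ℕ) : ∑ i ∈ Finset.range n, σ.h i ≤ 1 := by
  unfold h
  rw [← measureReal_biUnion_finset]
  · exact measureReal_le_one
  · intro i _ j _ hij
    rw [Function.onFun, Set.disjoint_left]
    rintro R ⟨h1, h2⟩ ⟨h3, h4⟩
    simp only [Set.mem_iUnion, Finset.mem_range, not_exists] at h2 h4
    rcases lt_or_gt_of_ne hij with h | h
    · exact h4 i h h1
    · exact h2 j h h3
  · intro i _
    exact (σ.measurable_F i).diff (Finset.measurableSet_biUnion _ (fun j _ => σ.measurable_F j))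

theorem summable_h : Summable σ.h :=
  summable_of_sum_range_le σ.h_nonneg σ.sum_h_le

/-- Expected number of instances without witness. -/
noncomputable def q (i : ℕ) : ℝ :=
  σ.N i * (1 - (1 / 2) ^ σ.b i) ^ (2 * 2 ^ σ.nn i)

theorem q_bounds_succ (i : ℕ) :
    K * σ.h i + (1 / 2) ^ (i + 1) ≤ σ.q (i + 1) ∧
      σ.q (i + 1) ≤ 4 * K * σ.h i + 6 * (1 / 2) ^ (i + 1) := by
  refine numI_bounds K _ _ (i + 1) (σ.b (i + 1)) (σ.le_b (i + 1)) (σ.h i) (σ.q (i + 1))
    (σ.h_eq i) ?_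
  unfold q N NN
  rw [σ.length_hist, σ.b_add]

theorem q_bounds_zero : (1 / 2) ^ 0 ≤ σ.q 0 := by
  have h1 := numI_bounds K (cnt dA dB (σ.hist 0) (ctab C (LL dA dB (σ.hist 0))))
    (allStr (LB dA dB (wOf (σ.hist 0)))).length 0
    (σ.b 0) (σ.le_b 0) _ (σ.q 0) rfl (by
      unfold q N NN
      rw [σ.length_hist, σ.b_add])
  refine le_trans ?_ h1.1
  have : 0 ≤ (K : ℝ) * ((cnt dA dB (σ.hist 0) (ctab C (LL dA dB (σ.hist 0))) : ℝ) /
      2 ^ (allStr (LB dA dB (wOf (σ.hist 0)))).length) := by positivity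
  linarith

theorem le_q (i : ℕ) : (1 / 2) ^ i ≤ σ.q i := by
  cases i with
  | zero => exact σ.q_bounds_zero
  | succ i =>
    have := (σ.q_bounds_succ i).1
    have h2 := mul_nonneg (Nat.cast_nonneg (α := ℝ) K) (σ.h_nonneg i)
    linarith

theorem q_pos (i : ℕ) : 0 < σ.q i := lt_of_lt_of_le (by positivity) (σ.le_q i)

theorem hqK (i : ℕ) : (K : ℝ) * σ.h i ≤ σ.q (i + 1) := by
  have := (σ.q_bounds_succ i).1
  have h2 : (0 : ℝ) < (1 / 2) ^ (i + 1) := by positivity
  linarith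

theorem summable_q : Summable σ.q := by
  rw [← summable_nat_add_iff 1]
  refine Summable.of_nonneg_of_le (fun i => (σ.q_pos _).le) (fun i => (σ.q_bounds_succ i).2) ?_
  refine (σ.summable_h.mul_left _).add (Summable.mul_left _ ?_)
  rw [summable_nat_add_iff (f := fun i => ((1 : ℝ) / 2) ^ i) 1]
  exact summable_geometric_two

theorem tendsto_q : Tendsto σ.q atTop (nhds 0) := σ.summable_q.tendsto_atTop_zero

/-- Some instance of the stage has no witness. -/
def Dbl (i : ℕ) : Set Orc :=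
  ⋃ ν ∈ Finset.range (σ.N i), noneOf (blk (σ.nn i) (σ.b i) ν) Finset.univ

theorem real_Dbl_le (i : ℕ) : randomOracle.real (σ.Dbl i) ≤ σ.q i := by
  unfold Dbl
  refine (measureReal_biUnion_finset_le _ _).trans ?_
  rw [Finset.sum_congr rfl (fun ν _ => real_noneOf (b := σ.b i)
    (fun κ _ => card_blk (σ.nn i) (σ.b i) ν κ)
    (fun κ _ κ' _ hne => disjoint_blk _ _ _ _ _ _ (fun h => hne (congrArg Prod.snd h))))]
  rw [Finset.sum_const, Finset.card_range, nsmul_eq_mul]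
  unfold q
  simp

theorem ae_notMem_Dbl : ∀ᵐ R ∂randomOracle, ∀ᶠ i in atTop, R ∉ σ.Dbl i := by
  refine ae_eventually_notMem ?_
  have h1 : ∀ i, randomOracle (σ.Dbl i) ≤ ENNReal.ofReal (σ.q i) := by
    intro i
    rw [← ofReal_measureReal (measure_ne_top _ _)]
    exact ENNReal.ofReal_le_ofReal (σ.real_Dbl_le i)
  exact ne_top_of_le_ne_top σ.summable_q.tsum_ofReal_ne_top (ENNReal.tsum_le_tsum h1)

end Stg

end Pool.Agent.RO.J
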