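import Pool.Agent.Work.MP_46935e_lc.RO.Limit

/-!
# The limit argument with an arbitrary constant
-/

set_option autoImplicit false

namespace Pool.Agent.RO

open MeasureTheory Filter

/-- **Limit argument** with an arbitrary constant `c` in place of `32`. -/
theorem limit2 {Ω : Type} [MeasurableSpace Ω] (μ : Measure Ω) [IsProbabilityMeasure μ]
    (𝒟 : ℕ → Set (Set Ω)) (hmono : ∀ i, 𝒟 i ⊆ 𝒟 (i + 1))
    (hmeas : ∀ i, ∀ D ∈ 𝒟 i, MeasurableSet D) (huniv : ∀ i, Set.univ ∈ 𝒟 i)
    (hcompl : ∀ i, ∀ D ∈ 𝒟 i, Dᶜ ∈ 𝒟 i) (hinter : ∀ i, ∀ D ∈ 𝒟 i, ∀ D' ∈ 𝒟 i, D ∩ D' ∈ 𝒟 i)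
    (F : ℕ → Set Ω) (hF : ∀ i, F i ∈ 𝒟 (i + 1)) {κ : Type} [Countable κ]
    (Err : κ → ℕ → Set Ω) (i₁ : κ → ℕ) (hErr : ∀ k i, i₁ k ≤ i → Err k i ∈ 𝒟 (i + 1))
    (q : ℕ → ℝ) (hq0 : ∀ i, 0 < q i) (hq : Tendsto q atTop (nhds 0)) (K : ℝ) (hK : 0 < K)
    (hqK : ∀ i, K * μ.real (F i \ ⋃ j ∈ Finset.range i, F j) ≤ q (i + 1)) (c : ℝ) (hc : 0 ≤ c)
    (hst : ∀ k i, i₁ k ≤ i → ∀ D ∈ 𝒟 i, (∀ j < i, Disjoint D (F j)) → ∀ ε > 0,
      q i * (μ.real D - q i - ε - c * μ.real (Err k i ∩ D) / ε) ≤ μ.real (F i ∩ D)) :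
    μ.real (⋃ k, {ω | (∀ i, ω ∉ F i) ∧ ∀ i, i₁ k ≤ i → ω ∉ Err k i}) ≤ 8 / K := by
  classical
  rcases isEmpty_or_nonempty κ with hκ | hκ
  · rw [Set.iUnion_of_empty, measureReal_empty]
    positivity
  obtain ⟨e, he⟩ := exists_surjective_nat κ
  by_contra hcon
  rw [not_le] at hcon
  set G : κ → Set Ω := fun k => {ω | (∀ i, ω ∉ F i) ∧ ∀ i, i₁ k ≤ i → ω ∉ Err k i} with hG
  set θ : ℝ := μ.real (⋃ k, G k) with hθ
  have hθ0 : 0 < θ := lt_trans (by positivity) hcon
  have hθK : 8 < θ * K := by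
    rw [div_lt_iff₀ hK] at hcon
    exact hcon
  -- monotonicity of the classes
  have hmono' : ∀ i j, i ≤ j → 𝒟 i ⊆ 𝒟 j := fun i j hij => monotone_nat_of_le_succ hmono hij
  -- finitely many of the sets
  have hU : (⋃ k, G k) = ⋃ n, G (e n) := by
    ext ω
    simp only [Set.mem_iUnion]
    constructor
    · rintro ⟨k, hk⟩
      obtain ⟨n, rfl⟩ := he k
      exact ⟨n, hk⟩
    · rintro ⟨n, hn⟩
      exact ⟨_, hn⟩
  obtain ⟨m, hm⟩ : ∃ m : ℕ, θ / 2 < μ.real (⋃ n ∈ Finset.range m, G (e n)) := by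
    have h1 : Tendsto (fun m : ℕ => μ (⋃ n ∈ Finset.range m, G (e n))) atTop
        (nhds (μ (⋃ m : ℕ, ⋃ n ∈ Finset.range m, G (e n)))) := by
      apply tendsto_measure_iUnion_atTop
      intro a b hab
      apply Set.biUnion_subset_biUnion_left
      intro x hx
      simp only [Finset.coe_range, Set.mem_Iio] at hx ⊢
      omega
    have h2 : (⋃ m : ℕ, ⋃ n ∈ Finset.range m, G (e n)) = ⋃ k, G k := by
      rw [hU]
      ext ω
      simp only [Set.mem_iUnion, Finset.mem_range, exists_prop]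
      constructor
      · rintro ⟨m, n, _, h⟩
        exact ⟨n, h⟩
      · rintro ⟨n, h⟩
        exact ⟨n + 1, n, by omega, h⟩
    rw [h2] at h1
    have h3 : Tendsto (fun m : ℕ => μ.real (⋃ n ∈ Finset.range m, G (e n))) atTop (nhds θ) :=
      (ENNReal.tendsto_toReal (measure_ne_top _ _)).comp h1
    exact (h3.eventually (lt_mem_nhds (by linarith : θ / 2 < θ))).exists
  have hm0 : 0 < m := by
    rcases Nat.eq_zero_or_pos m with h | h
    · rw [h] at hm
      simp at hm
      linarith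
    · exact h
  -- the sets
  set A : ℕ → ℕ → Set Ω := fun n j => if i₁ (e n) ≤ j then Err (e n) j else ∅ with hA
  set D : ℕ → ℕ → Set Ω := fun n i => outside F i ∩ outside (A n) i with hD
  set D' : ℕ → ℕ → Set Ω := fun n i => D n i ∩ outside (fun l => D l i) n with hD'
  have hempty : ∀ i, (∅ : Set Ω) ∈ 𝒟 i := by
    intro i
    have := hcompl i _ (huniv i)
    rwa [Set.compl_univ] at this
  have hDm : ∀ n i, D n i ∈ 𝒟 i := by
    intro n i
    refine hinter i _ (outside_mem (huniv i) (hcompl i) (hinter i) _ _ ?_) _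
      (outside_mem (huniv i) (hcompl i) (hinter i) _ _ ?_)
    · intro j hj
      exact hmono' (j + 1) i hj (hF j)
    · intro j hj
      simp only [hA]
      split_ifs with h
      · exact hmono' (j + 1) i hj (hErr _ _ h)
      · exact hempty i
  have hD'm : ∀ n i, D' n i ∈ 𝒟 i := by
    intro n i
    exact hinter i _ (hDm n i) _ (outside_mem (huniv i) (hcompl i) (hinter i) _ _
      (fun j _ => hDm j i))
  have hD'meas : ∀ n i, MeasurableSet (D' n i) := fun n i => hmeas i _ (hD'm n i)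
  have hDmeas : ∀ n i, MeasurableSet (D n i) := fun n i => hmeas i _ (hDm n i)
  have hFmeas : ∀ i, MeasurableSet (F i) := fun i => hmeas _ _ (hF i)
  have hDanti : ∀ n i, D n (i + 1) ⊆ D n i := by
    rintro n i ω ⟨h1, h2⟩
    exact ⟨fun j hj => h1 j (by omega), fun j hj => h2 j (by omega)⟩
  -- disjointness
  have hdis : ∀ i, (↑(Finset.range m) : Set ℕ).PairwiseDisjoint (fun n => D' n i) := by
    intro i a _ b _ hab
    rw [Function.onFun, Set.disjoint_left]
    rintro ω ⟨ha1, ha2⟩ ⟨hb1, hb2⟩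
    rcases lt_or_gt_of_ne hab with h | h
    · exact hb2 a h ha1
    · exact ha2 b h hb1
  have hD'F : ∀ n i, ∀ j < i, Disjoint (D' n i) (F j) := by
    intro n i j hj
    rw [Set.disjoint_left]
    rintro ω ⟨⟨h1, _⟩, _⟩ h3
    exact h1 j hj h3
  -- the union is large
  have hlarge : ∀ i, θ / 2 < ∑ n ∈ Finset.range m, μ.real (D' n i) := by
    intro i
    refine lt_of_lt_of_le hm (le_trans ?_ (measureReal_biUnion_finset_le _ _))
    refine measureReal_mono ?_ (measure_ne_top _ _)
    intro ω hω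
    simp only [Set.mem_iUnion, Finset.mem_range, exists_prop] at hω ⊢
    obtain ⟨n, hn, h⟩ := hω
    have hex : ∃ n, ω ∈ D n i := by
      refine ⟨n, fun j _ => h.1 j, fun j _ => ?_⟩
      simp only [hA]
      split_ifs with h3
      · exact h.2 j h3
      · exact Set.notMem_empty _
    have hmem : ω ∈ D n i := by
      refine ⟨fun j _ => h.1 j, fun j _ => ?_⟩
      simp only [hA]
      split_ifs with h3
      · exact h.2 j h3
      · exact Set.notMem_empty _
    refine ⟨Nat.find hex, lt_of_le_of_lt (Nat.find_min' hex hmem) hn, Nat.find_spec hex, ?_⟩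
    intro l hl
    exact Nat.find_min hex hl
  -- the errors
  set a : ℕ → ℕ → ℝ := fun n i => μ.real (D n i) with ha
  have hErrle : ∀ n i, i₁ (e n) ≤ i →
      μ.real (Err (e n) i ∩ D' n i) ≤ a n i - a n (i + 1) := by
    intro n i hi
    have h1 : Err (e n) i ∩ D' n i ⊆ D n i \ D n (i + 1) := by
      rintro ω ⟨h1, h2, _⟩
      refine ⟨h2, fun h3 => ?_⟩
      have h4 := h3.2 i (Nat.lt_succ_self i)
      simp only [hA, hi, if_true] at h4
      exact h4 h1
    refine (measureReal_mono h1 (measure_ne_top _ _)).trans ?_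
    rw [measureReal_sdiff (hDanti n i) (hDmeas n (i + 1))]
  have hsum0 : Tendsto (fun i => ∑ n ∈ Finset.range m, (a n i - a n (i + 1))) atTop
      (nhds 0) := by
    have h1 : ∀ n, Tendsto (fun i => a n i - a n (i + 1)) atTop (nhds 0) := by
      intro n
      have hanti : Antitone (a n) := antitone_nat_of_succ_le (fun i =>
        measureReal_mono (hDanti n i) (measure_ne_top _ _))
      have hb : BddBelow (Set.range (a n)) := ⟨0, by
        rintro _ ⟨i, rfl⟩
        exact measureReal_nonneg⟩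
      have h2 := tendsto_atTop_ciInf hanti hb
      have h3 := (tendsto_add_atTop_iff_nat 1).2 h2
      have h4 := h2.sub h3
      rwa [sub_self] at h4
    have h2 := tendsto_finsetSum (Finset.range m) (fun n _ => h1 n)
    simpa using h2
  set ε : ℝ := θ / (16 * m) with hε
  have hmR : (0 : ℝ) < m := by exact_mod_cast hm0
  have hε0 : 0 < ε := by positivity
  have hmε : m * ε = θ / 16 := by
    rw [hε]
    field_simp
  -- the main inequality for large `i`
  have hev : ∀ᶠ i in atTop, m * q i + c / ε *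
      (∑ n ∈ Finset.range m, (a n i - a n (i + 1))) < θ / 16 := by
    have h1 : Tendsto (fun i => m * q i + c / ε *
        (∑ n ∈ Finset.range m, (a n i - a n (i + 1)))) atTop
        (nhds (m * 0 + c / ε * 0)) := (hq.const_mul _).add (hsum0.const_mul _)
    rw [mul_zero, mul_zero, add_zero] at h1
    exact h1.eventually (gt_mem_nhds (by positivity))
  have hev2 : ∀ᶠ i in atTop, ∀ n ∈ Finset.range m, i₁ (e n) ≤ i := by
    rw [Filter.eventually_all_finset]
    intro n _
    exact eventually_ge_atTop _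
  obtain ⟨i₂, hi₂⟩ := eventually_atTop.1 (hev.and hev2)
  set h : ℕ → ℝ := fun i => μ.real (F i \ ⋃ j ∈ Finset.range i, F j) with hh
  have hmain : ∀ i, i₂ ≤ i → q i * (θ / 4) ≤ h i := by
    intro i hi
    obtain ⟨e1, e2⟩ := hi₂ i hi
    have h1 : ∑ n ∈ Finset.range m, μ.real (F i ∩ D' n i) ≤ h i := by
      rw [← measureReal_biUnion_finset]
      · refine measureReal_mono ?_ (measure_ne_top _ _)
        intro ω hω
        simp only [Set.mem_iUnion, Finset.mem_range, exists_prop] at hω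
        obtain ⟨n, _, h2, h3⟩ := hω
        refine ⟨h2, ?_⟩
        simp only [Set.mem_iUnion, Finset.mem_range, exists_prop, not_exists, not_and]
        intro j hj h4
        exact Set.disjoint_left.1 (hD'F n i j hj) h3 h4
      · intro x hx y hy hxy
        exact (hdis i hx hy hxy).mono Set.inter_subset_right Set.inter_subset_right
      · intro n _
        exact (hFmeas i).inter (hD'meas n i)
    have h2 : ∀ n ∈ Finset.range m, q i * (μ.real (D' n i) - q i - ε -
        c / ε * (a n i - a n (i + 1))) ≤ μ.real (F i ∩ D' n i) := by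
      intro n hn
      refine le_trans ?_ (hst (e n) i (e2 n hn) (D' n i) (hD'm n i) (hD'F n i) ε hε0)
      apply mul_le_mul_of_nonneg_left _ (hq0 i).le
      have h3 := hErrle n i (e2 n hn)
      have h4 : c * μ.real (Err (e n) i ∩ D' n i) / ε ≤ c / ε * (a n i - a n (i + 1)) := by
        rw [mul_div_right_comm]
        exact mul_le_mul_of_nonneg_left h3 (by positivity)
      linarith
    have h3 := (Finset.sum_le_sum h2).trans h1
    rw [← Finset.mul_sum, Finset.sum_sub_distrib, Finset.sum_sub_distrib, Finset.sum_sub_distrib,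
      ← Finset.mul_sum, Finset.sum_const, Finset.sum_const, Finset.card_range, nsmul_eq_mul,
      nsmul_eq_mul, hmε] at h3
    refine le_trans ?_ h3
    apply mul_le_mul_of_nonneg_left _ (hq0 i).le
    have := hlarge i
    linarith
  have hpos : 0 < h i₂ := lt_of_lt_of_le (mul_pos (hq0 _) (by linarith)) (hmain i₂ le_rfl)
  have hdouble : ∀ i, i₂ ≤ i → 2 * h i ≤ h (i + 1) := by
    intro i hi
    have h1 := hmain (i + 1) (by omega)
    have h2 := hqK i
    have h3 : 0 ≤ h i := measureReal_nonneg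
    have h4 : K * h i * (θ / 4) ≤ q (i + 1) * (θ / 4) :=
      mul_le_mul_of_nonneg_right h2 (by linarith)
    nlinarith
  have hgrow : ∀ n, 2 ^ n * h i₂ ≤ h (i₂ + n) := by
    intro n
    induction n with
    | zero => simp
    | succ n ih =>
      have h1 := hdouble (i₂ + n) (by omega)
      rw [pow_succ]
      rw [← add_assoc]
      linarith
  have hle1 : ∀ i, h i ≤ 1 := fun i => measureReal_le_one
  obtain ⟨n, hn⟩ := pow_unbounded_of_one_lt (1 / h i₂) (by norm_num : (1 : ℝ) < 2)
  rw [div_lt_iff₀ hpos] at hn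
  have h1 := hgrow n
  have h2 := hle1 (i₂ + n)
  linarith

end Pool.Agent.RO
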