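import Pool.Agent.Work.MP_46935e_lc.RO.Stages
import Pool.Agent.Work.MP_46935e_lc.RO.Limit
import Pool.Agent.Work.MP_46935e_lc.RO.Countable
import Pool.Agent.Work.MP_46935e_lc.RO.PairNP
import Pool.Agent.Work.MP_46935e_lc.RO.ManyOne

/-!
# Relative to a random oracle there is no complete disjoint coNP pair
-/

set_option autoImplicit false

namespace Pool.Agent.RO

open Pool.Agent.PT Pool.Agent.Work.MP_46935e_lc MeasureTheory Filter

/-! ### Countability -/

theorem countable_poly : Countable (Polynomial ℕ) := by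
  have h2 : Function.Injective
      (fun p : Polynomial ℕ => (List.range (p.natDegree + 1)).map p.coeff) := by
    intro p q hpq
    simp only at hpq
    have hl := congrArg List.length hpq
    simp only [List.length_map, List.length_range] at hl
    have hd : p.natDegree = q.natDegree := by omega
    ext n
    rcases Nat.lt_or_ge p.natDegree n with hn | hn
    · rw [Polynomial.coeff_eq_zero_of_natDegree_lt hn,
        Polynomial.coeff_eq_zero_of_natDegree_lt (hd ▸ hn)]
    · rw [hd] at hpq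
      exact List.map_inj_left.1 hpq n (List.mem_range.2 (by omega))
  exact h2.countable

theorem bitEncode_inj {β : Type} [N487b59b3 β] :
    Function.Injective (fun b : β => (N487b59b3.toEncoding (α := β)).encode b) :=
  N487b59b3.bitEncode_injective

instance : Countable VD := by
  have := countable_poly
  have h1 : {g : (List Bool × List Bool) × List Bool → Bool × List Bool |
      N68a2faeb.IsPolyTime g}.Countable := countable_tm2 _ _ bitEncode_inj
  have := h1.to_subtype
  refine Function.Injective.countable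
    (f := fun d : VD => (d.p, ((⟨d.g, d.hg⟩ :
      {g : (List Bool × List Bool) × List Bool → Bool × List Bool | N68a2faeb.IsPolyTime g}),
      d.q))) ?_
  rintro ⟨p, g, q, hg⟩ ⟨p', g', q', hg'⟩ h
  simp only [Prod.mk.injEq, Subtype.mk.injEq] at h
  obtain ⟨rfl, rfl, rfl⟩ := h
  rfl

/-- Data of a Turing reduction. -/
structure RD where
  /-- step function -/
  g : List Bool × List Bool → Bool × List Bool
  /-- polynomial part of the bound for the number of rounds -/
  p : Polynomial ℕ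
  hg : N68a2faeb.IsPolyTime g

instance : Countable RD := by
  have := countable_poly
  have h1 : {g : List Bool × List Bool → Bool × List Bool |
      N68a2faeb.IsPolyTime g}.Countable := countable_tm2 _ _ bitEncode_inj
  have := h1.to_subtype
  refine Function.Injective.countable
    (f := fun d : RD => (d.p, (⟨d.g, d.hg⟩ :
      {g : List Bool × List Bool → Bool × List Bool | N68a2faeb.IsPolyTime g}))) ?_
  rintro ⟨g, p, hg⟩ ⟨g', p', hg'⟩ h
  simp only [Prod.mk.injEq, Subtype.mk.injEq] at h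
  obtain ⟨rfl, rfl⟩ := h
  rfl

/-! ### Bounds for reductions -/

/-- Number of rounds on inputs of length `m`. -/
def RD.t (r : RD) (T : ℕ → ℕ) (m : ℕ) : ℕ := T m + r.p.eval m

/-- Exponent for the length of queries. -/
noncomputable def RD.k (r : RD) : ℕ := (exists_qlen (ptf_of_P r.hg)).choose

/-- Bound for the length of queries on inputs of length `m`. -/
noncomputable def RD.len (r : RD) (T : ℕ → ℕ) (m : ℕ) : ℕ := qlen r.k (4 * m + 1) (r.t T m)

theorem RD.query_le (r : RD) (T : ℕ → ℕ) (O : Orc) (x : List Bool) :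
    ∀ q ∈ oqs r.g O x (r.t T x.length) [], q.length ≤ r.len T x.length := by
  intro q hq
  exact ((exists_qlen (ptf_of_P r.hg)).choose_spec O x _ q hq).trans
    (qlen_mono _ (sz_bits x) (le_refl _))

theorem exists_thr (dA dB : VD) (r : RD) {T : ℕ → ℕ} (hT : SubExp T) :
    ∃ n₀ : ℕ, ∀ n, n₀ ≤ n → ∀ m, n ≤ m → m ≤ 2 * n + 1 →
      r.len T m < 2 ^ n ∧
        r.t T m * (1 + dA.rb (r.len T m) + dB.rb (r.len T m)) ≤ 2 ^ (n - 1) := by
  have ht : SubExp (r.t T) := hT.add (SubExp.id.eval r.p)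
  have hℓ : SubExp (r.len T) := by
    unfold RD.len qlen
    exact (((((SubExp.const 4).mul SubExp.id).add (SubExp.const 1)).add
      ((SubExp.const 4).mul ht)).add (SubExp.const 5)).pow r.k
  have hrb : ∀ d : VD, SubExp (fun m => d.rb (r.len T m)) := by
    intro d
    unfold VD.rb
    exact ((((SubExp.const 6).mul hℓ).add ((SubExp.const 3).mul (hℓ.eval d.p))).add
      (SubExp.const 1)).eval d.q
  have hs : SubExp (fun m => r.t T m * (1 + dA.rb (r.len T m) + dB.rb (r.len T m))) :=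
    ht.mul (((SubExp.const 1).add (hrb dA)).add (hrb dB))
  obtain ⟨n₀, h⟩ := eventually_atTop.1 (hℓ.lt.and hs.lt)
  refine ⟨n₀ + 1, fun n hn m h1 h2 => ?_⟩
  obtain ⟨h3, h4⟩ := h n (by omega)
  have h5 := h3 m h1 h2
  have h6 := h4 m h1 h2
  have h7 : 2 ^ n = 2 * 2 ^ (n - 1) := by
    rw [← pow_succ']
    congr 1
    omega
  refine ⟨by omega, ?_⟩
  rw [h7] at h6
  omega

namespace Stg

variable {dA dB : VD} {K : ℕ} (σ : Stg dA dB K)

/-- Errors of a reduction on the instances of a stage. -/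
def Err (r : RD) (T : ℕ → ℕ) (i : ℕ) : Set Orc :=
  ⋃ ν ∈ Finset.range (σ.N i),
    errI dA dB r.g (r.t T (σ.nn i + ν + 1)) (σ.nn i) (σ.b i) ν

theorem query_le (r : RD) (T : ℕ → ℕ) (i ν : ℕ) : ∀ R S : Orc,
    ∀ q ∈ oqs r.g (join R S) (inst (σ.nn i) ν) (r.t T (σ.nn i + ν + 1)) [],
      q.length ≤ r.len T (σ.nn i + ν + 1) := by
  intro R S q hq
  have := r.query_le T (join R S) (inst (σ.nn i) ν)
  rw [length_inst] at this
  exact this q hq

theorem dep_Err (r : RD) (T : ℕ → ℕ) {i n₀ : ℕ}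
    (hthr : ∀ n, n₀ ≤ n → ∀ m, n ≤ m → m ≤ 2 * n + 1 → r.len T m < 2 ^ n ∧
        r.t T m * (1 + dA.rb (r.len T m) + dB.rb (r.len T m)) ≤ 2 ^ (n - 1)) (hi : n₀ ≤ i) :
    Dep (σ.Err r T i) (lows (σ.nn (i + 1))) := by
  unfold Err
  refine Dep.iUnion (fun ν => Dep.iUnion (fun hν => ?_))
  rw [Finset.mem_range] at hν
  refine (dep_errI dA dB r.g (σ.query_le r T i ν)).mono (lows_mono ?_)
  have h1 : i ≤ σ.nn i := σ.mono.id_le i
  have h2 := σ.N_le i
  have h3 := (hthr (σ.nn i) (by omega) (σ.nn i + ν + 1) (by omega) (by omega)).1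
  have h4 := σ.LB_le (i + 1)
  rw [σ.w_succ] at h4
  have h5 := LB_mono dA dB h3.le
  have h6 : σ.b i ≤ σ.nn i := Nat.sub_le _ _
  have h7 := σ.LB_le' i
  have h8 : σ.nn i < 2 ^ σ.nn i := Nat.lt_two_pow_self
  have h9 : 2 ^ 3 ≤ 2 ^ σ.nn i := Nat.pow_le_pow_right (by norm_num) (by omega)
  have h10 : ∀ W : ℕ, 8 ≤ W → 4 * W + 3 ≤ 2 ^ W := by
    intro W hW
    induction W, hW using Nat.le_induction with
    | base => norm_num
    | succ W hW ih => rw [pow_succ]; omega
  have h11 := h10 (2 ^ σ.nn i) (by omega)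
  omega

/-- The stage inequality for the events of the construction. -/
theorem stage_ineq (r : RD) (T : ℕ → ℕ) {i n₀ : ℕ}
    (hthr : ∀ n, n₀ ≤ n → ∀ m, n ≤ m → m ≤ 2 * n + 1 → r.len T m < 2 ^ n ∧
        r.t T m * (1 + dA.rb (r.len T m) + dB.rb (r.len T m)) ≤ 2 ^ (n - 1)) (hi : n₀ ≤ i)
    (D : Set Orc) (hD : Dep D (lows (σ.nn i))) (hDF : ∀ j < i, Disjoint D (σ.F j))
    (ε : ℝ) (hε : 0 < ε) :
    σ.q i * (randomOracle.real D - σ.q i - ε - 32 * randomOracle.real (σ.Err r T i ∩ D) / ε) ≤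
      randomOracle.real (σ.F i ∩ D) := by
  have h1 : i ≤ σ.nn i := σ.mono.id_le i
  have hN := σ.N_le i
  have hb := σ.le_b i
  have hcU : Fintype.card (Fin (σ.nn i) → Bool) = 2 ^ σ.nn i := by simp
  have hpow : 2 ^ σ.nn i = 2 * 2 ^ (σ.nn i - 1) := by
    rw [← pow_succ']
    congr 1
    have := σ.b_add i
    omega
  refine stage' (U := Fin (σ.nn i) → Bool) (Finset.range (σ.N i)) (σ.b i)
    (fun ν κ => blk (σ.nn i) (σ.b i) ν κ) (fun ν κ => card_blk _ _ _ _)
    (fun ν κ ν' κ' h => disjoint_blk _ _ _ _ _ _ h) (lows (σ.nn i))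
    (fun ν κ => disjoint_lows_blk _ _ _ _) D (σ.F i)
    (fun ν => errI dA dB r.g (r.t T (σ.nn i + ν + 1)) (σ.nn i) (σ.b i) ν) hD ⟨_, σ.dep_F i⟩
    (fun ν => ⟨_, dep_errI dA dB r.g (σ.query_le r T i ν)⟩) (2 ^ (σ.nn i - 1)) ?_
    (by rw [hcU, hpow]) (by rw [hcU]; positivity) (by omega) ((1 / 2) ^ σ.b i) (σ.q i) rfl
    (by rw [hcU, Finset.card_range]; rfl) ?_ ε hε
  · intro ν hν R hRD hRF _
    rw [Finset.mem_range] at hν
    obtain ⟨h3, h4⟩ := hthr (σ.nn i) (by omega) (σ.nn i + ν + 1) (by omega) (by omega)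
    have hd : ∀ z : List Bool, z.length < r.len T (σ.nn i + ν + 1) → acc dA R z ∨ acc dB R z := by
      intro z hz
      by_contra hcon
      rw [not_or] at hcon
      have hbad : R ∈ ⋃ j ∈ Finset.range (i + 1), σ.F j := by
        rw [σ.biUnion_F]
        exact ⟨z, Nat.zero_le _, by rw [σ.w_succ]; omega, hcon.1, hcon.2⟩
      simp only [Set.mem_iUnion, Finset.mem_range] at hbad
      obtain ⟨j, hj, hRj⟩ := hbad
      rcases Nat.lt_succ_iff_lt_or_eq.1 hj with hj | rfl
      · exact (Set.disjoint_left.1 (hDF j hj)) hRD hRj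
      · exact hRF hRj
    obtain ⟨c, Q, hQ, hstar⟩ := star_prop dA dB r.g (b := σ.b i) (σ.query_le r T i ν) hd
    refine ⟨c, Q, hQ.trans h4, fun R' hR' _ hno => hstar R' hR' (noWit_iff.2 hno)⟩
  · rw [hcU]
    have h5 : ((2 ^ σ.nn i : ℕ) : ℝ) * (1 / 2) ^ σ.b i = 2 ^ i := by
      rw [← σ.b_add i, pow_add]
      push_cast
      rw [one_div, inv_pow]
      have : (2 : ℝ) ^ σ.b i ≠ 0 := by positivity
      field_simp
    rw [h5]
    have h6 := σ.le_q i
    have h7 : (2 : ℝ) ^ i * (1 / 2) ^ i = 1 := by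
      rw [← mul_pow]; norm_num
    have h8 : (2 : ℝ) ^ i * (1 / 2) ^ i ≤ 2 ^ i * σ.q i :=
      mul_le_mul_of_nonneg_left h6 (by positivity)
    nlinarith

/-- The exceptional set of oracles: the old pair is disjoint and the reduction makes no error from
some stage on. -/
def Exc (r : RD) (T : ℕ → ℕ) (i₁ : ℕ) : Set Orc :=
  {R | (∀ i, R ∉ σ.F i) ∧ ∀ i, i₁ ≤ i → R ∉ σ.Err r T i}

theorem real_Exc_le (hK : 0 < K) {T : ℕ → ℕ} (hT : SubExp T) :
    randomOracle.real (⋃ k : RD × ℕ, σ.Exc k.1 T k.2) ≤ 8 / K := by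
  choose thr hthr using fun r : RD => exists_thr dA dB r hT
  have key := limit randomOracle (fun i => {D | Dep D (lows (σ.nn i))})
    (fun i D hD => Dep.mono hD (lows_mono (σ.mono (Nat.lt_succ_self i)).le))
    (fun i D hD => Dep.measurableSet hD) (fun i => Dep.univ) (fun i D hD => Dep.compl hD)
    (fun i D hD D' hD' => Dep.inter hD hD') σ.F (fun i => σ.dep_F i)
    (κ := RD × ℕ) (fun k i => σ.Err k.1 T i) (fun k => max k.2 (thr k.1))
    (fun k i hi => σ.dep_Err k.1 T (hthr k.1) (le_trans (le_max_right _ _) hi)) σ.q σ.q_pos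
    σ.tendsto_q K (by exact_mod_cast hK) σ.hqK
    (fun k i hi D hD hDF ε hε => σ.stage_ineq k.1 T (hthr k.1)
      (le_trans (le_max_right _ _) hi) D hD hDF ε hε)
  refine le_trans (measureReal_mono (Set.iUnion_mono (fun k => ?_)) (measure_ne_top _ _)) key
  intro R hR
  exact ⟨hR.1, fun i hi => hR.2 i (le_trans (le_max_left _ _) hi)⟩

end Stg

/-! ### The old pair -/

theorem exists_VD_pair {R : Orc} {A B : List Bool → Bool} (h : IsDisjointCoNPPairRel R A B) :
    ∃ dA dB : VD, (∀ z, A z = false ↔ acc dA R z) ∧ (∀ z, B z = false ↔ acc dB R z) ∧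
      ∀ z, acc dA R z ∨ acc dB R z := by
  obtain ⟨dA, hA⟩ := exists_VD (R := R) (L := Aᶜ) h.memA
  obtain ⟨dB, hB⟩ := exists_VD (R := R) (L := Bᶜ) h.memB
  have hA' : ∀ z, A z = false ↔ acc dA R z := by
    intro z
    rw [← hA z]
    show A z = false ↔ (!(A z)) = true
    simp
  have hB' : ∀ z, B z = false ↔ acc dB R z := by
    intro z
    rw [← hB z]
    show B z = false ↔ (!(B z)) = true
    simp
  refine ⟨dA, dB, hA', hB', fun z => ?_⟩
  rw [← hA', ← hB']
  have := h.disjoint z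
  cases hz : A z
  · exact Or.inl rfl
  · cases hz' : B z
    · exact Or.inr rfl
    · exact absurd ⟨hz, hz'⟩ this

/-- A Turing reduction of the new pair makes no error. -/
theorem mem_Exc_of_reducible {dA dB : VD} {K : ℕ} (σ : Stg dA dB K) {R : Orc} {T : ℕ → ℕ}
    {A B : List Bool → Bool} (hA : ∀ z, A z = false ↔ acc dA R z)
    (hB : ∀ z, B z = false ↔ acc dB R z) (hd : ∀ z, acc dA R z ∨ acc dB R z) (r : RD) (i₀ : ℕ)
    (hr : ∀ S, Separates S A B → ∀ x,
      (side σ.act i₀ true R x = true →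
        orun r.g (join R S) x (T x.length + r.p.eval x.length) [] = some [true]) ∧
      (side σ.act i₀ false R x = true →
        orun r.g (join R S) x (T x.length + r.p.eval x.length) [] = some [false])) :
    R ∈ σ.Exc r T i₀ := by
  classical
  refine ⟨fun i hi => ?_, fun i hi hR => ?_⟩
  · obtain ⟨z, -, -, h1, h2⟩ := hi
    exact (hd z).elim h1 h2
  · unfold Stg.Err at hR
    simp only [Set.mem_iUnion, Finset.mem_range] at hR
    obtain ⟨ν, hν, S, hS, hcase⟩ := hR
    have hlook : look σ.act i₀ (inst (σ.nn i) ν) = some (σ.nn i, (σ.b i, ν)) :=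
      look_inst (σ.act_nn i) hi hν
    set L := oqs r.g (join R S) (inst (σ.nn i) ν) (r.t T (σ.nn i + ν + 1)) [] with hL
    set S' : Orc := fun z => if false :: z ∈ L then S z else A z with hS'
    have hsep : Separates S' A B := by
      refine ⟨fun z hz => ?_, fun z hz => ?_⟩
      · show (if false :: z ∈ L then S z else A z) = true
        split_ifs with hq
        · by_contra hne
          rw [Bool.not_eq_true] at hne
          have := (hA z).2 ((hS z hq).2 hne)
          rw [hz] at this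
          cases this
        · exact hz
      · show (if false :: z ∈ L then S z else A z) = false
        split_ifs with hq
        · by_contra hne
          rw [Bool.not_eq_false] at hne
          have := (hB z).2 ((hS z hq).1 hne)
          rw [hz] at this
          cases this
        · rw [hA]
          refine (hd z).resolve_right (fun h => ?_)
          have := (hB z).2 h
          rw [hz] at this
          cases this
    have hrun : orun r.g (join R S') (inst (σ.nn i) ν) (r.t T (σ.nn i + ν + 1)) [] =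
        orun r.g (join R S) (inst (σ.nn i) ν) (r.t T (σ.nn i + ν + 1)) [] := by
      refine (orun_congr r.g _ _ [] (fun q hq => ?_)).1
      match q, hq with
      | [], _ => rfl
      | true :: w, _ => rfl
      | false :: z, hq =>
        show S z = if false :: z ∈ L then S z else A z
        rw [if_pos hq]
    have h1 := hr S' hsep (inst (σ.nn i) ν)
    rw [length_inst] at h1
    rcases hcase with ⟨hno, hne⟩ | ⟨hno, hne⟩
    · apply hne
      rw [← hrun]
      exact h1.1 (side_eq_true.2 ⟨_, _, _, hlook, hno⟩)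
    · apply hne
      rw [← hrun]
      exact h1.2 (side_eq_true.2 ⟨_, _, _, hlook, hno⟩)

/-- The new pair is disjoint from a late stage on. -/
theorem disjoint_new {dA dB : VD} {K : ℕ} (σ : Stg dA dB K) {R : Orc} {i₀ : ℕ}
    (h : ∀ i, i₀ ≤ i → R ∉ σ.Dbl i) (x : List Bool) :
    ¬ (side σ.act i₀ true R x = true ∧ side σ.act i₀ false R x = true) := by
  rintro ⟨h1, h2⟩
  obtain ⟨n, b, ν, h3, h4⟩ := side_eq_true.1 h1
  obtain ⟨n', b', ν', h5, h6⟩ := side_eq_true.1 h2
  rw [h3] at h5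
  obtain ⟨e1, e2⟩ := Prod.mk.inj (Option.some.inj h5)
  obtain ⟨e2, e3⟩ := Prod.mk.inj e2
  subst e1 e2 e3
  obtain ⟨i, N, h7, h8, h9, h10, -⟩ := exists_of_look h3
  by_cases hn : ∃ j, σ.nn j = n
  · obtain ⟨j, rfl⟩ := hn
    rw [σ.act_nn] at h7
    obtain ⟨e1, e2⟩ := Prod.mk.inj (Option.some.inj h7)
    subst e1 e2
    apply h j h8
    unfold Stg.Dbl
    simp only [Set.mem_iUnion, Finset.mem_range]
    refine ⟨ν, h9, fun κ _ => ?_⟩
    obtain ⟨c, u⟩ := κ
    subst h10
    cases c
    · exact noWit_iff.1 h6 u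
    · exact noWit_iff.1 h4 u
  · rw [σ.act_none n (fun j hj => hn ⟨j, hj⟩)] at h7
    cases h7

/-- A choice of the stages. -/
noncomputable def stg (dA dB : VD) (K : ℕ) : Stg dA dB K := (exists_Stg dA dB K).some

/-- **Theorem.** Let `T` be subexponential. For almost every oracle `R` and every disjoint
coNP pair relative to `R` there is another one which is not Turing reducible to it with
`T n + poly n` queries. -/
theorem main (T : ℕ → ℕ) (hT : SubExp T) :
    ∀ᵐ R ∂randomOracle, ∀ A B : N68a2faeb.DecisionProblem, IsDisjointCoNPPairRel R A B →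
      ∃ A' B' : N68a2faeb.DecisionProblem, IsDisjointCoNPPairRel R A' B' ∧
        ¬ PairTuringReducibleRel R T A' B' A B := by
  have h1 : ∀ᵐ R ∂randomOracle, ∀ (dA dB : VD) (K : ℕ), ∀ᶠ i in atTop,
      R ∉ (stg dA dB K).Dbl i := by
    rw [ae_all_iff]; intro dA
    rw [ae_all_iff]; intro dB
    rw [ae_all_iff]; intro K
    exact (stg dA dB K).ae_notMem_Dbl
  have h2 : ∀ᵐ R ∂randomOracle, ∀ (dA dB : VD), ∃ K : ℕ, ∀ (r : RD) (i₀ : ℕ),
      R ∉ (stg dA dB K).Exc r T i₀ := by
    rw [ae_all_iff]; intro dA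
    rw [ae_all_iff]; intro dB
    rw [ae_iff]
    have hsub : ∀ K : ℕ, {R : Orc | ¬ ∃ K : ℕ, ∀ (r : RD) (i₀ : ℕ),
        R ∉ (stg dA dB K).Exc r T i₀} ⊆ ⋃ k : RD × ℕ, (stg dA dB K).Exc k.1 T k.2 := by
      intro K R hR
      simp only [not_exists, not_forall, not_not, Set.mem_ofPred_eq] at hR
      obtain ⟨r, i₀, h⟩ := hR K
      exact Set.mem_iUnion.2 ⟨(r, i₀), h⟩
    have hle : ∀ K : ℕ, randomOracle.real {R : Orc | ¬ ∃ K : ℕ, ∀ (r : RD) (i₀ : ℕ),
        R ∉ (stg dA dB K).Exc r T i₀} ≤ 8 / ((K + 1 : ℕ) : ℝ) := by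
      intro K
      exact (measureReal_mono (hsub (K + 1)) (measure_ne_top _ _)).trans
        ((stg dA dB (K + 1)).real_Exc_le (Nat.succ_pos K) hT)
    have hlim : Tendsto (fun K : ℕ => 8 / ((K + 1 : ℕ) : ℝ)) atTop (nhds 0) := by
      have := (tendsto_const_div_atTop_nhds_zero_nat (8 : ℝ))
      exact this.comp (tendsto_add_atTop_nat 1)
    have h0 := ge_of_tendsto' hlim hle
    have h00 := le_antisymm h0 measureReal_nonneg
    rwa [measureReal_eq_zero_iff (measure_ne_top _ _)] at h00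
  filter_upwards [h1, h2] with R hR1 hR2 A B hAB
  obtain ⟨dA, dB, hA, hB, hd⟩ := exists_VD_pair hAB
  obtain ⟨K, hK⟩ := hR2 dA dB
  obtain ⟨i₀, hi₀⟩ := eventually_atTop.1 (hR1 dA dB K)
  set τ := (stg dA dB K) with hτ
  refine ⟨side τ.act i₀ true R, side τ.act i₀ false R,
    ⟨side_mem τ.ptf i₀ true R, side_mem τ.ptf i₀ false R, disjoint_new τ hi₀⟩, ?_⟩
  rintro ⟨g, p, hg, hr⟩
  exact hK ⟨g, p, hg⟩ i₀ (mem_Exc_of_reducible τ hA hB hd ⟨g, p, hg⟩ i₀ hr)

end Pool.Agent.RO
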