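import Pool.Agent.Work.MP_46935e_lc.RO.Defs

/-!
# Nondeterministic Turing reductions of pairs
-/

set_option autoImplicit false

namespace Pool.Agent.RO

open N68a2faeb

/-- The nondeterministic oracle machine with verifying procedure `V` accepts `x` relative to the
oracle `O` in time `t`: for some certificate `w` of length at most `t` the procedure `V`, started
on `(x, w)`, halts within `t` rounds with output `[true]`. -/
def NAccepts (V : (List Bool × List Bool) × List Bool → Bool × List Bool)
    (O : List Bool → Bool) (t : ℕ) (x : List Bool) : Prop :=
  ∃ w : List Bool, w.length ≤ t ∧ orun V O (x, w) t [] = some [true]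

/-- Nondeterministic Turing reducibility of `(A, B)` to `(A', B')` relative to `O` in time
`T n + poly n`: there are two nondeterministic oracle machines which, given `O` and any
separator `S` of `(A', B')` as oracles, accept disjoint languages, the first one containing `A` and
the second one containing `B`. -/
def PairNTReducibleRel (O : List Bool → Bool) (T : ℕ → ℕ) (A B A' B' : DecisionProblem) : Prop :=
  ∃ (V₁ V₀ : (List Bool × List Bool) × List Bool → Bool × List Bool) (p : Polynomial ℕ),
    IsPolyTime V₁ ∧ IsPolyTime V₀ ∧ ∀ S, Separates S A' B' → ∀ x,
      (A x = true → NAccepts V₁ (join O S) (T x.length + p.eval x.length) x) ∧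
      (B x = true → NAccepts V₀ (join O S) (T x.length + p.eval x.length) x) ∧
      ¬ (NAccepts V₁ (join O S) (T x.length + p.eval x.length) x ∧
        NAccepts V₀ (join O S) (T x.length + p.eval x.length) x)

end Pool.Agent.RO
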