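import Pool.Agent.Work.MP_46935e_lc.RO.Star
import Pool.Agent.Work.MP_46935e_lc.RO.NDefs

/-!
# Errors of nondeterministic Turing reductions, and how planting two witnesses produces them

Everything is relative to `J R`, where `R` is the random oracle and `J` is a local operator
(for example `J R = R` or `J R = join R C`).
-/

set_option autoImplicit false

namespace Pool.Agent.RO

open Pool.Agent.PT Pool.Agent.Work.MP_46935e_lc

/-- Every value of `J R` depends on one not longer string of `R`. -/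
structure Loc (J : Orc → Orc) where
  /-- the string -/
  r : List Bool → List Bool
  len : ∀ q, (r q).length ≤ q.length
  dep : ∀ (R R' : Orc) (q : List Bool), R (r q) = R' (r q) → J R q = J R' q

variable {J : Orc → Orc}

theorem Loc.agree (hJ : Loc J) {R R' : Orc} {m : ℕ}
    (h : ∀ x : List Bool, x.length ≤ m → R x = R' x) :
    ∀ x : List Bool, x.length ≤ m → J R x = J R' x :=
  fun x hx => hJ.dep R R' x (h _ ((hJ.len x).trans hx))

theorem Loc.acc_congr (hJ : Loc J) (d : VD) {R R' : Orc} {n : ℕ} {z : List Bool}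
    (hz : z.length ≤ n) (h : ∀ x : List Bool, x.length ≤ d.ub n → R x = R' x) :
    acc d (J R) z ↔ acc d (J R') z :=
  Pool.Agent.RO.acc_congr d hz (hJ.agree h)

/-- Short certificates of acceptance. -/
theorem Loc.acc_cert (hJ : Loc J) (d : VD) {R : Orc} {n : ℕ} {z : List Bool}
    (hz : z.length ≤ n) (ha : acc d (J R) z) : ∃ Q : Finset (List Bool), Q.card ≤ d.rb n ∧
      ∀ R' : Orc, (∀ x ∈ Q, R' x = R x) → acc d (J R') z := by
  classical
  obtain ⟨Q, hQ, h⟩ := Pool.Agent.RO.acc_cert d hz ha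
  refine ⟨Q.image hJ.r, Finset.card_image_le.trans hQ, fun R' hR' => h _ (fun x hx => ?_)⟩
  exact hJ.dep R' R x (hR' _ (Finset.mem_image_of_mem _ hx))

/-- The answer `s` for `z` is correct for the pair. -/
def Cor (J : Orc → Orc) (dA dB : VD) (R : Orc) (z : List Bool) (s : Bool) : Prop :=
  (s = true → acc dB (J R) z) ∧ (s = false → acc dA (J R) z)

theorem Loc.cor_cert (hJ : Loc J) (dA dB : VD) {R : Orc} {n : ℕ} {z : List Bool} {s : Bool}
    (hz : z.length ≤ n) (h : Cor J dA dB R z s) : ∃ Q : Finset (List Bool),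
      Q.card ≤ dA.rb n + dB.rb n ∧ ∀ R' : Orc, (∀ x ∈ Q, R' x = R x) → Cor J dA dB R' z s := by
  cases s with
  | true =>
    obtain ⟨Q, h1, h2⟩ := hJ.acc_cert dB hz (h.1 rfl)
    exact ⟨Q, by omega, fun R' hR' => ⟨fun _ => h2 R' hR', fun h => by cases h⟩⟩
  | false =>
    obtain ⟨Q, h1, h2⟩ := hJ.acc_cert dA hz (h.2 rfl)
    exact ⟨Q, by omega, fun R' hR' => ⟨fun h => (by cases h), fun _ => h2 R' hR'⟩⟩

theorem Loc.cor_congr (hJ : Loc J) (dA dB : VD) {R R' : Orc} {n : ℕ} {z : List Bool} {s : Bool}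
    (hz : z.length ≤ n) (h : ∀ x : List Bool, x.length < LB dA dB n → R x = R' x) :
    Cor J dA dB R z s ↔ Cor J dA dB R' z s := by
  unfold Cor
  rw [hJ.acc_congr dA hz (fun x hx => h x (by unfold LB; omega)),
    hJ.acc_congr dB hz (fun x hx => h x (by unfold LB; omega))]

/-- All queries of the machine on `x` have length at most `ℓ`. -/
def QLen (V : (List Bool × List Bool) × List Bool → Bool × List Bool) (t : ℕ) (x : List Bool)
    (ℓ : ℕ) : Prop :=
  ∀ (O : Orc) (w : List Bool), w.length ≤ t → ∀ q ∈ oqs V O (x, w) t [], q.length ≤ ℓ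

theorem nAccepts_of_agree {V : (List Bool × List Bool) × List Bool → Bool × List Bool} {t : ℕ}
    {x : List Bool} {ℓ : ℕ} (hℓ : QLen V t x ℓ) {O O' : Orc}
    (h : ∀ q : List Bool, q.length ≤ ℓ → O q = O' q) (ha : NAccepts V O t x) :
    NAccepts V O' t x := by
  obtain ⟨w, hw, hr⟩ := ha
  refine ⟨w, hw, ?_⟩
  rw [(orun_congr V (x, w) t [] (fun q hq => h q (hℓ O w hw q hq))).1]
  exact hr

theorem nAccepts_congr {V : (List Bool × List Bool) × List Bool → Bool × List Bool} {t : ℕ}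
    {x : List Bool} {ℓ : ℕ} (hℓ : QLen V t x ℓ) {O O' : Orc}
    (h : ∀ q : List Bool, q.length ≤ ℓ → O q = O' q) : NAccepts V O t x ↔ NAccepts V O' t x :=
  ⟨nAccepts_of_agree hℓ h, nAccepts_of_agree hℓ (fun q hq => (h q hq).symm)⟩

theorem join_agree₂ {O O' S S' : Orc} {m : ℕ}
    (h : ∀ x : List Bool, x.length ≤ m → O x = O' x)
    (h' : ∀ x : List Bool, x.length ≤ m → S x = S' x) :
    ∀ x : List Bool, x.length ≤ m → join O S x = join O' S' x := by
  intro x hx
  match x, hx with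
  | [], _ => rfl
  | true :: w, hx =>
    rw [join_true, join_true]
    exact h w (by rw [List.length_cons] at hx; omega)
  | false :: z, hx =>
    rw [join_false, join_false]
    exact h' z (by rw [List.length_cons] at hx; omega)

/-- Short certificates of acceptance by a machine of a reduction. -/
theorem Loc.nAccepts_cert (hJ : Loc J) (dA dB : VD)
    {V : (List Bool × List Bool) × List Bool → Bool × List Bool} {t : ℕ}
    {x : List Bool} {ℓ : ℕ} (hℓ : QLen V t x ℓ) {R S : Orc}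
    (hS : ∀ z : List Bool, z.length ≤ ℓ → Cor J dA dB R z (S z))
    (ha : NAccepts V (join (J R) S) t x) :
    ∃ (Q : Finset (List Bool)) (Z : List (List Bool)), Q.card ≤ t * (1 + dA.rb ℓ + dB.rb ℓ) ∧
      Z.length ≤ t ∧ (∀ z ∈ Z, z.length ≤ ℓ) ∧
      ∀ R' : Orc, (∀ y ∈ Q, R' y = R y) → (∀ z ∈ Z, Cor J dA dB R' z (S z)) ∧
        ∀ S' : Orc, (∀ z ∈ Z, S' z = S z) → NAccepts V (join (J R') S') t x := by
  classical
  obtain ⟨w, hw, hr⟩ := ha
  set L := oqs V (join (J R) S) (x, w) t [] with hL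
  have hlen : ∀ q ∈ L, q.length ≤ ℓ := hℓ _ w hw
  -- the queries to the separator
  set Z : List (List Bool) := (L.filter (fun q => decide (q.headD true = false))).map List.tail
    with hZ
  have hmemZ : ∀ z, false :: z ∈ L → z ∈ Z := by
    intro z hz
    rw [hZ, List.mem_map]
    exact ⟨false :: z, List.mem_filter.2 ⟨hz, by simp⟩, rfl⟩
  have hZlen : ∀ z ∈ Z, z.length ≤ ℓ := by
    intro z hz
    rw [hZ, List.mem_map] at hz
    obtain ⟨q, hq, rfl⟩ := hz
    have := hlen q (List.mem_filter.1 hq).1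
    rw [List.length_tail]
    omega
  have hcert : ∀ q ∈ L, ∃ Q : Finset (List Bool), Q.card ≤ 1 + dA.rb ℓ + dB.rb ℓ ∧
      ∀ R' : Orc, (∀ y ∈ Q, R' y = R y) →
        (∀ v, q = true :: v → J R' v = J R v) ∧ Cor J dA dB R' q.tail (S q.tail) := by
    intro q hq
    have h3 := hlen q hq
    obtain ⟨Q, hQ, hQ'⟩ := hJ.cor_cert dA dB (n := ℓ) (z := q.tail) (by
      rw [List.length_tail]; omega) (hS q.tail (by rw [List.length_tail]; omega))
    refine ⟨insert (hJ.r q.tail) Q, ?_, fun R' hR' => ⟨?_, ?_⟩⟩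
    · have := Finset.card_insert_le (hJ.r q.tail) Q
      omega
    · rintro v rfl
      exact hJ.dep R' R v (hR' _ (Finset.mem_insert_self _ _))
    · exact hQ' R' (fun y hy => hR' y (Finset.mem_insert_of_mem hy))
  choose! Qf hQ1 hQ2 using hcert
  refine ⟨L.toFinset.biUnion Qf, Z, ?_, ?_, hZlen, fun R' hR' => ?_⟩
  · refine (Finset.card_biUnion_le_card_mul _ _ _
      (fun q hq => hQ1 q (List.mem_toFinset.1 hq))).trans (Nat.mul_le_mul_right _ ?_)
    exact (List.toFinset_card_le _).trans (length_oqs _ _ _ _ _)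
  · rw [hZ, List.length_map]
    exact (List.length_filter_le _ _).trans (length_oqs _ _ _ _ _)
  · have hR'' : ∀ q ∈ L, ∀ y ∈ Qf q, R' y = R y := fun q hq y hy =>
      hR' y (Finset.mem_biUnion.2 ⟨q, List.mem_toFinset.2 hq, hy⟩)
    constructor
    · intro z hz
      rw [hZ, List.mem_map] at hz
      obtain ⟨q, hq, rfl⟩ := hz
      have hq' := (List.mem_filter.1 hq).1
      exact (hQ2 q hq' R' (hR'' q hq')).2
    · intro S' hS'
      refine ⟨w, hw, ?_⟩
      rw [(orun_congr V (x, w) t [] (O := join (J R) S) (O' := join (J R') S') ?_).1]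
      · exact hr
      · intro q hq
        match q, hq with
        | [], _ => rfl
        | true :: v, hq =>
          rw [join_true, join_true]
          exact ((hQ2 _ hq R' (hR'' _ hq)).1 v rfl).symm
        | false :: z, hq =>
          rw [join_false, join_false]
          exact (hS' z (hmemZ z hq)).symm

/-- For some correct separator the reduction fails on the instance `ν`. -/
def errN (J : Orc → Orc) (dA dB : VD)
    (V₁ V₀ : (List Bool × List Bool) × List Bool → Bool × List Bool) (t n b ν ℓ : ℕ) : Set Orc :=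
  {R | ∃ S : Orc, (∀ z : List Bool, z.length ≤ ℓ → Cor J dA dB R z (S z)) ∧
    (((∀ u, ¬ Wit R n b ν true u) ∧ ¬ NAccepts V₁ (join (J R) S) t (inst n ν)) ∨
      ((∀ u, ¬ Wit R n b ν false u) ∧ ¬ NAccepts V₀ (join (J R) S) t (inst n ν)) ∨
      (NAccepts V₁ (join (J R) S) t (inst n ν) ∧ NAccepts V₀ (join (J R) S) t (inst n ν)))}

theorem errN_of_agree (hJ : Loc J) (dA dB : VD)
    {V₁ V₀ : (List Bool × List Bool) × List Bool → Bool × List Bool} {t n b ν ℓ : ℕ}
    (h₁ : QLen V₁ t (inst n ν) ℓ) (h₀ : QLen V₀ t (inst n ν) ℓ) {R R' : Orc}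
    (h : ∀ x ∈ lows (ℓ + LB dA dB ℓ + (n + b + ν + 2)), R x = R' x)
    (hR : R ∈ errN J dA dB V₁ V₀ t n b ν ℓ) : R' ∈ errN J dA dB V₁ V₀ t n b ν ℓ := by
  obtain ⟨S, hS, hc⟩ := hR
  have hW : ∀ c u, Wit R n b ν c u ↔ Wit R' n b ν c u := fun c u =>
    wit_congr (fun x hx => h x (mem_lows.2 (by omega)))
  have hJR : ∀ x : List Bool, x.length ≤ ℓ → join (J R) S x = join (J R') S x :=
    join_agree₂ (hJ.agree (fun x hx => h x (mem_lows.2 (by unfold LB; omega)))) (fun _ _ => rfl)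
  refine ⟨S, fun z hz => ?_, ?_⟩
  · rw [← hJ.cor_congr dA dB hz (fun x hx => h x (mem_lows.2 (by omega)))]
    exact hS z hz
  · simpa only [hW, nAccepts_congr h₁ hJR, nAccepts_congr h₀ hJR] using hc

theorem dep_errN (hJ : Loc J) (dA dB : VD)
    {V₁ V₀ : (List Bool × List Bool) × List Bool → Bool × List Bool} {t n b ν ℓ : ℕ}
    (h₁ : QLen V₁ t (inst n ν) ℓ) (h₀ : QLen V₀ t (inst n ν) ℓ) :
    Dep (errN J dA dB V₁ V₀ t n b ν ℓ) (lows (ℓ + LB dA dB ℓ + (n + b + ν + 2))) :=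
  fun _ _ h => ⟨errN_of_agree hJ dA dB h₁ h₀ h,
    errN_of_agree hJ dA dB h₁ h₀ (fun x hx => (h x hx).symm)⟩

/-- The pair is disjoint on the strings of length at most `ℓ`. -/
def Good (J : Orc → Orc) (dA dB : VD) (ℓ : ℕ) (R : Orc) : Prop :=
  ∀ z : List Bool, z.length ≤ ℓ → acc dA (J R) z ∨ acc dB (J R) z

theorem exists_cor {dA dB : VD} {ℓ : ℕ} {R : Orc} (h : Good J dA dB ℓ R) (S₀ : Orc) :
    ∃ S : Orc, (∀ z : List Bool, z.length ≤ ℓ → Cor J dA dB R z (S z)) ∧
      ∀ z, Cor J dA dB R z (S₀ z) → S z = S₀ z := by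
  classical
  refine ⟨fun z => if Cor J dA dB R z (S₀ z) then S₀ z else !(S₀ z), fun z hz => ?_,
    fun z hz => if_pos hz⟩
  by_cases hc : Cor J dA dB R z (S₀ z)
  · simp only [if_pos hc]
    exact hc
  · simp only [if_neg hc]
    unfold Cor at hc ⊢
    cases hs : S₀ z with
    | true =>
      rw [hs] at hc
      refine ⟨fun h => by simp at h, fun _ => ?_⟩
      refine (h z hz).resolve_right (fun hB => hc ⟨fun _ => hB, fun h => by cases h⟩)
    | false =>
      rw [hs] at hc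
      refine ⟨fun _ => ?_, fun h => by simp at h⟩
      exact (h z hz).resolve_left (fun hA => hc ⟨fun h => (by cases h), fun _ => hA⟩)

/-- The analysis of one planted witness. -/
theorem one_plant (hJ : Loc J) (dA dB : VD)
    {V : (List Bool × List Bool) × List Bool → Bool × List Bool} {t : ℕ} {x : List Bool}
    {ℓ : ℕ} (hℓ : QLen V t x ℓ) {R : Orc} (S₀ : Orc)
    (hS₀ : ∀ z : List Bool, z.length ≤ ℓ → Cor J dA dB R z (S₀ z)) {Rκ : Orc}
    (hgood : Good J dA dB ℓ Rκ)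
    (hac : ∀ S : Orc, (∀ z : List Bool, z.length ≤ ℓ → Cor J dA dB Rκ z (S z)) →
        NAccepts V (join (J Rκ) S) t x) :
    ∃ (Q : Finset (List Bool)) (Z : List (List Bool)) (S : Orc),
      Q.card ≤ t * (1 + 2 * dA.rb ℓ + 2 * dB.rb ℓ) ∧ (∀ z ∈ Z, z.length ≤ ℓ) ∧
      (∀ z, Cor J dA dB Rκ z (S₀ z) → S z = S₀ z) ∧
      (∀ z ∈ Z, ∀ R' : Orc, (∀ y ∈ Q, R' y = R y) → Cor J dA dB R' z (S₀ z)) ∧
      ∀ R' : Orc, (∀ y ∈ Q, R' y = Rκ y) → (∀ z ∈ Z, Cor J dA dB R' z (S z)) ∧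
        ∀ S' : Orc, (∀ z ∈ Z, S' z = S z) → NAccepts V (join (J R') S') t x := by
  classical
  obtain ⟨S, hS, hSS⟩ := exists_cor hgood S₀
  obtain ⟨Q, Z, hQ, hZ, hZl, hcert⟩ := hJ.nAccepts_cert dA dB hℓ hS (hac S hS)
  have hz : ∀ z ∈ Z, ∃ Q' : Finset (List Bool), Q'.card ≤ dA.rb ℓ + dB.rb ℓ ∧
      ∀ R' : Orc, (∀ x ∈ Q', R' x = R x) → Cor J dA dB R' z (S₀ z) := fun z hz =>
    hJ.cor_cert dA dB (hZl z hz) (hS₀ z (hZl z hz))
  choose! Qz hQz1 hQz2 using hz
  refine ⟨Q ∪ Z.toFinset.biUnion Qz, Z, S, ?_, hZl, hSS, fun z hz R' hR' => ?_,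
    fun R' hR' => hcert R' (fun y hy => hR' y (Finset.mem_union_left _ hy))⟩
  · have h1 : (Z.toFinset.biUnion Qz).card ≤ t * (dA.rb ℓ + dB.rb ℓ) :=
      (Finset.card_biUnion_le_card_mul _ _ _
        (fun z hz => hQz1 z (List.mem_toFinset.1 hz))).trans
        (Nat.mul_le_mul_right _ ((List.toFinset_card_le _).trans hZ))
    have h2 := Finset.card_union_le Q (Z.toFinset.biUnion Qz)
    have h3 : t * (1 + 2 * dA.rb ℓ + 2 * dB.rb ℓ) =
        t * (1 + dA.rb ℓ + dB.rb ℓ) + t * (dA.rb ℓ + dB.rb ℓ) := by ring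
    omega
  · exact hQz2 z hz R' (fun y hy => hR' y (Finset.mem_union_right _
      (Finset.mem_biUnion.2 ⟨z, List.mem_toFinset.2 hz, hy⟩)))

theorem wit_plant_iff {n b ν : ℕ} {κ : Bool × (Fin n → Bool)} {c : Bool} {u : Fin n → Bool}
    (h : κ ≠ (c, u)) (R : Orc) :
    plant (blk n b ν κ) R ∈ allTrue (blk n b ν (c, u)) ↔ R ∈ allTrue (blk n b ν (c, u)) := by
  have hd : Disjoint (blk n b ν κ) (blk n b ν (c, u)) :=
    disjoint_blk n b ν κ ν (c, u) (fun h' => h (Prod.mk.inj h').2)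
  unfold allTrue
  refine forall₂_congr (fun x hx => ?_)
  rw [plant_of_notMem (Finset.disjoint_right.1 hd hx)]

/-- **Property (star), two witnesses.** -/
theorem star2 (hJ : Loc J) (dA dB : VD)
    {V₁ V₀ : (List Bool × List Bool) × List Bool → Bool × List Bool} {t n b ν ℓ : ℕ}
    (h₁ : QLen V₁ t (inst n ν) ℓ) (h₀ : QLen V₀ t (inst n ν) ℓ) {R : Orc}
    (hR : Good J dA dB ℓ R) (hno : ∀ κ, R ∉ allTrue (blk n b ν κ)) :
    ∃ Q Q' : (Fin n → Bool) → Finset (List Bool),
      (∀ u, (Q u).card ≤ t * (1 + 2 * dA.rb ℓ + 2 * dB.rb ℓ)) ∧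
      (∀ u, (Q' u).card ≤ t * (1 + 2 * dA.rb ℓ + 2 * dB.rb ℓ)) ∧
      ∀ u u', Good J dA dB ℓ (plant (blk n b ν (true, u)) R) →
        plant (blk n b ν (true, u)) R ∉ errN J dA dB V₁ V₀ t n b ν ℓ →
        Good J dA dB ℓ (plant (blk n b ν (false, u')) R) →
        plant (blk n b ν (false, u')) R ∉ errN J dA dB V₁ V₀ t n b ν ℓ →
        Disjoint (Q u) (blk n b ν (false, u')) → Disjoint (Q' u') (blk n b ν (true, u)) →
        Good J dA dB ℓ (plant (blk n b ν (true, u)) (plant (blk n b ν (false, u')) R)) →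
        plant (blk n b ν (true, u)) (plant (blk n b ν (false, u')) R) ∈
          errN J dA dB V₁ V₀ t n b ν ℓ := by
  classical
  obtain ⟨S₀, hS₀, -⟩ := exists_cor hR (fun _ => true)
  -- type `true` planted: the machine `V₀` has to accept
  have hT : ∀ u, (Good J dA dB ℓ (plant (blk n b ν (true, u)) R) ∧
      plant (blk n b ν (true, u)) R ∉ errN J dA dB V₁ V₀ t n b ν ℓ) →
      ∀ S : Orc, (∀ z : List Bool, z.length ≤ ℓ →
        Cor J dA dB (plant (blk n b ν (true, u)) R) z (S z)) →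
        NAccepts V₀ (join (J (plant (blk n b ν (true, u)) R)) S) t (inst n ν) := by
    rintro u ⟨-, h⟩ S hS
    by_contra hcon
    refine h ⟨S, hS, Or.inr (Or.inl ⟨noWit_iff.2 (fun u' => ?_), hcon⟩)⟩
    rw [wit_plant_iff (by simp)]
    exact hno _
  have hF : ∀ u, (Good J dA dB ℓ (plant (blk n b ν (false, u)) R) ∧
      plant (blk n b ν (false, u)) R ∉ errN J dA dB V₁ V₀ t n b ν ℓ) →
      ∀ S : Orc, (∀ z : List Bool, z.length ≤ ℓ →
        Cor J dA dB (plant (blk n b ν (false, u)) R) z (S z)) →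
        NAccepts V₁ (join (J (plant (blk n b ν (false, u)) R)) S) t (inst n ν) := by
    rintro u ⟨-, h⟩ S hS
    by_contra hcon
    refine h ⟨S, hS, Or.inl ⟨noWit_iff.2 (fun u' => ?_), hcon⟩⟩
    rw [wit_plant_iff (by simp)]
    exact hno _
  have hT' := fun u (h : Good J dA dB ℓ (plant (blk n b ν (true, u)) R) ∧
      plant (blk n b ν (true, u)) R ∉ errN J dA dB V₁ V₀ t n b ν ℓ) =>
    one_plant hJ dA dB h₀ S₀ hS₀ h.1 (hT u h)
  have hF' := fun u (h : Good J dA dB ℓ (plant (blk n b ν (false, u)) R) ∧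
      plant (blk n b ν (false, u)) R ∉ errN J dA dB V₁ V₀ t n b ν ℓ) =>
    one_plant hJ dA dB h₁ S₀ hS₀ h.1 (hF u h)
  choose! Q Z S hQ hZl hSS hZ0 hcert using hT'
  choose! Q' Z' S' hQ' hZl' hSS' hZ0' hcert' using hF'
  refine ⟨fun u => if Good J dA dB ℓ (plant (blk n b ν (true, u)) R) ∧
      plant (blk n b ν (true, u)) R ∉ errN J dA dB V₁ V₀ t n b ν ℓ then Q u else ∅,
    fun u => if Good J dA dB ℓ (plant (blk n b ν (false, u)) R) ∧
      plant (blk n b ν (false, u)) R ∉ errN J dA dB V₁ V₀ t n b ν ℓ then Q' u else ∅,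
    fun u => ?_, fun u => ?_, fun u u' g1 e1 g2 e2 d1 d2 g3 => ?_⟩
  · dsimp only
    split_ifs with h
    · exact hQ u h
    · simp
  · dsimp only
    split_ifs with h
    · exact hQ' u h
    · simp
  · dsimp only at d1 d2
    rw [if_pos ⟨g1, e1⟩] at d1
    rw [if_pos ⟨g2, e2⟩] at d2
    have h1 : Good J dA dB ℓ (plant (blk n b ν (true, u)) R) ∧
      plant (blk n b ν (true, u)) R ∉ errN J dA dB V₁ V₀ t n b ν ℓ := ⟨g1, e1⟩
    have h2 : Good J dA dB ℓ (plant (blk n b ν (false, u')) R) ∧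
      plant (blk n b ν (false, u')) R ∉ errN J dA dB V₁ V₀ t n b ν ℓ := ⟨g2, e2⟩
    set κ := blk n b ν (true, u) with hκ
    set κ' := blk n b ν (false, u') with hκ'
    -- agreement
    have a1 : ∀ y ∈ Q u, plant κ' R y = R y := fun y hy =>
      plant_of_notMem (Finset.disjoint_left.1 d1 hy) R
    have a2 : ∀ y ∈ Q' u', plant κ R y = R y := fun y hy =>
      plant_of_notMem (Finset.disjoint_left.1 d2 hy) R
    have a3 : ∀ y ∈ Q u, plant κ (plant κ' R) y = plant κ R y := by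
      intro y hy
      by_cases hk : y ∈ κ
      · rw [plant_of_mem hk, plant_of_mem hk]
      · rw [plant_of_notMem hk, plant_of_notMem hk, a1 y hy]
    have a4 : ∀ y ∈ Q' u', plant κ (plant κ' R) y = plant κ' R y := fun y hy =>
      plant_of_notMem (Finset.disjoint_left.1 d2 hy) _
    -- the separators agree on common queries
    have s1 : ∀ z ∈ Z u, S' u' z = S₀ z := fun z hz =>
      hSS' u' h2 z (hZ0 u h1 z hz _ a1)
    have s2 : ∀ z ∈ Z' u', S u z = S₀ z := fun z hz =>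
      hSS u h1 z (hZ0' u' h2 z hz _ a2)
    obtain ⟨c1, c2⟩ := hcert u h1 _ a3
    obtain ⟨c3, c4⟩ := hcert' u' h2 _ a4
    obtain ⟨S₃, hS₃, -⟩ := exists_cor g3 (fun _ => true)
    set SS : Orc := fun z => if z ∈ Z u then S u z else if z ∈ Z' u' then S' u' z else S₃ z
      with hSSdef
    have hs1 : ∀ z ∈ Z u, SS z = S u z := fun z hz => if_pos hz
    have hs2 : ∀ z ∈ Z' u', SS z = S' u' z := by
      intro z hz
      by_cases hz' : z ∈ Z u
      · rw [hs1 z hz', s2 z hz, s1 z hz']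
      · rw [hSSdef]
        show (if z ∈ Z u then S u z else if z ∈ Z' u' then S' u' z else S₃ z) = _
        rw [if_neg hz', if_pos hz]
    refine ⟨SS, fun z hz => ?_, Or.inr (Or.inr ⟨c4 SS hs2, c2 SS hs1⟩)⟩
    by_cases hz1 : z ∈ Z u
    · rw [hs1 z hz1]; exact c1 z hz1
    · by_cases hz2 : z ∈ Z' u'
      · rw [hs2 z hz2]; exact c3 z hz2
      · have : SS z = S₃ z := by
          show (if z ∈ Z u then S u z else if z ∈ Z' u' then S' u' z else S₃ z) = _
          rw [if_neg hz1, if_neg hz2]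
        rw [this]
        exact hS₃ z hz

end Pool.Agent.RO
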