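import Pool.Agent.Work.MP_46935e_lc.RO.NDefs
import Pool.Agent.Work.MP_46935e_lc.RO.Acc
import Pool.Agent.Work.PT.Auto

/-!
# Turing reductions of pairs are nondeterministic Turing reductions of pairs
-/

set_option autoImplicit false

namespace Pool.Agent.RO

open Pool.Agent.PT Pool.Agent.Work.MP_46935e_lc

/-- The verifier which ignores its certificate and accepts if the output of `g` is `y`. -/
def outIs (y : List Bool) (g : List Bool × List Bool → Bool × List Bool)
    (p : (List Bool × List Bool) × List Bool) : Bool × List Bool :=
  if (g (p.1.1, p.2)).1 = true then (true, [decide ((g (p.1.1, p.2)).2 = y)])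
  else (false, (g (p.1.1, p.2)).2)

theorem ptf_outIs (y : List Bool) {g : List Bool × List Bool → Bool × List Bool} (hg : PTF g) :
    PTF (outIs y g) := by
  have h : PTF (fun p : (List Bool × List Bool) × List Bool => g (p.1.1, p.2)) :=
    hg.comp ((PTF.fst.comp PTF.fst).pair PTF.snd)
  unfold outIs
  exact PTF.cond (PTF.fst.comp h)
    ((PTF.const true).pair (PTF.cons ((PTF.snd.comp h).eq (PTF.const y)) (PTF.const [])))
    ((PTF.const false).pair (PTF.snd.comp h))

theorem orun_outIs (y : List Bool) (g : List Bool × List Bool → Bool × List Bool)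
    (O : List Bool → Bool) (x w : List Bool) (t : ℕ) : ∀ a,
    orun (outIs y g) O (x, w) t a = (orun g O x t a).map (fun z => [decide (z = y)]) := by
  induction t with
  | zero => intro a; rfl
  | succ t ih =>
    intro a
    rw [orun, orun]
    by_cases hg : (g (x, a)).1 = true
    · have e : outIs y g ((x, w), a) = (true, [decide ((g (x, a)).2 = y)]) := by
        unfold outIs; rw [if_pos hg]
      rw [e, if_pos hg]
      rfl
    · have e : outIs y g ((x, w), a) = (false, (g (x, a)).2) := by
        unfold outIs; rw [if_neg hg]
      rw [e, if_neg hg]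
      simp only [Bool.false_eq_true, if_false]
      exact ih _

theorem nAccepts_outIs (y : List Bool) (g : List Bool × List Bool → Bool × List Bool)
    (O : List Bool → Bool) (x : List Bool) (t : ℕ) :
    NAccepts (outIs y g) O t x ↔ orun g O x t [] = some y := by
  unfold NAccepts
  simp only [orun_outIs]
  constructor
  · rintro ⟨w, -, h⟩
    cases hr : orun g O x t [] with
    | none => rw [hr] at h; cases h
    | some z =>
      rw [hr] at h
      have h1 := Option.some.inj h
      have h2 : decide (z = y) = true := (List.cons.inj h1).1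
      rw [of_decide_eq_true h2]
  · intro h
    refine ⟨[], Nat.zero_le _, ?_⟩
    rw [h]
    simp

theorem nt_of_turing {O : List Bool → Bool} {A B A' B' : List Bool → Bool} {T : ℕ → ℕ}
    (h : PairTuringReducibleRel O T A B A' B') : PairNTReducibleRel O T A B A' B' := by
  obtain ⟨g, p, hg, h⟩ := h
  refine ⟨outIs [true] g, outIs [false] g, p, of_ptf_T (ptf_outIs _ (ptf_of_P hg)),
    of_ptf_T (ptf_outIs _ (ptf_of_P hg)), fun S hS x => ?_⟩
  simp only [nAccepts_outIs]
  refine ⟨(h S hS x).1, (h S hS x).2, ?_⟩
  rintro ⟨h1, h2⟩
  rw [h1] at h2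
  simp at h2

end Pool.Agent.RO
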