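import Pool.Agent.Work.MP_46935e_lc.RO.Stage

/-!
# Stage inequality with two planted witnesses of opposite types
-/

set_option autoImplicit false

namespace Pool.Agent.RO

open MeasureTheory Filter

theorem plant_plant (B B' : Finset (List Bool)) (R : Orc) :
    plant B (plant B' R) = plant (B ∪ B') R := by
  funext x
  unfold plant
  by_cases h : x ∈ B <;> by_cases h' : x ∈ B' <;> simp [h, h']

section exact

variable {γ : Type*} [DecidableEq γ] [Fintype γ]

/-- Exactly the blocks `B κ`, `κ ∈ K`, are contained in the oracle. -/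
def exactly (B : γ → Finset (List Bool)) (K : Finset γ) : Set Orc :=
  allTrue (K.biUnion B) ∩ noneOf B Kᶜ

theorem dep_exactly (B : γ → Finset (List Bool)) (K : Finset γ) :
    Dep (exactly B K) (Finset.univ.biUnion B) :=
  ((dep_allTrue _).mono (Finset.biUnion_subset_biUnion_of_subset_left _ (Finset.subset_univ _))).inter
    ((dep_noneOf _ _).mono
      (Finset.biUnion_subset_biUnion_of_subset_left _ (Finset.subset_univ _)))

theorem exactly_subset {B : γ → Finset (List Bool)} {K : Finset γ} {R : Orc} (h : R ∈ exactly B K)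
    (κ : γ) : κ ∈ K ↔ R ∈ allTrue (B κ) := by
  constructor
  · intro hκ x hx
    exact h.1 x (Finset.mem_biUnion.2 ⟨κ, hκ, hx⟩)
  · intro hR
    by_contra hκ
    exact h.2 κ (Finset.mem_compl.2 hκ) hR

theorem exactly_disjoint {B : γ → Finset (List Bool)} {K K' : Finset γ} (h : K ≠ K') :
    Disjoint (exactly B K) (exactly B K') := by
  rw [Set.disjoint_left]
  intro R h1 h2
  apply h
  ext κ
  rw [exactly_subset h1, exactly_subset h2]

theorem real_exactly {B : γ → Finset (List Bool)} {b : ℕ} (hc : ∀ j, (B j).card = b)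
    (hd : ∀ i j, i ≠ j → Disjoint (B i) (B j)) (K : Finset γ) :
    randomOracle.real (exactly B K) =
      ((1 / 2) ^ b) ^ K.card * (1 - (1 / 2) ^ b) ^ (Fintype.card γ - K.card) := by
  unfold exactly
  rw [(dep_allTrue _).indep (dep_noneOf _ _), real_allTrue,
    real_noneOf (b := b) (fun j _ => hc j) (fun i _ j _ => hd i j), Finset.card_compl,
    Finset.card_biUnion (fun i _ j _ hij => hd i j hij), Finset.sum_congr rfl (fun j _ => hc j),
    Finset.sum_const, smul_eq_mul, mul_comm K.card b, pow_mul]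
  rw [Finset.disjoint_biUnion_left]
  intro i hi
  rw [Finset.disjoint_biUnion_right]
  intro j hj
  refine hd i j ?_
  rintro rfl
  exact (Finset.mem_compl.1 hj) hi

theorem plant_exactly {B : γ → Finset (List Bool)} {b : ℕ} (hc : ∀ j, (B j).card = b)
    (hd : ∀ i j, i ≠ j → Disjoint (B i) (B j)) {S₀ SE : Finset (List Bool)}
    (hS₀ : ∀ κ, Disjoint S₀ (B κ)) {D F Err : Set Orc} (hD : Dep D S₀) (hE : Dep Err SE)
    (K : Finset γ) :
    ((1 / 2) ^ b) ^ K.card * randomOracle.real {R | R ∈ noneOf B Finset.univ ∧ R ∈ D ∧ R ∉ F ∧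
      plant (K.biUnion B) R ∈ Err} ≤ randomOracle.real (exactly B K ∩ (Err ∩ D)) := by
  have hdep : Dep (Err ∩ (D ∩ noneOf B Kᶜ)) (SE ∪ (S₀ ∪ (Kᶜ).biUnion B)) := by
    refine (hE.mono Finset.subset_union_left).inter (Dep.mono ?_ Finset.subset_union_right)
    exact (hD.mono Finset.subset_union_left).inter
      ((dep_noneOf _ _).mono Finset.subset_union_right)
  have e : exactly B K ∩ (Err ∩ D) = (Err ∩ (D ∩ noneOf B Kᶜ)) ∩ allTrue (K.biUnion B) := by
    ext R
    simp only [exactly, Set.mem_inter_iff]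
    tauto
  have hcard : (K.biUnion B).card = b * K.card := by
    rw [Finset.card_biUnion (fun i _ j _ hij => hd i j hij), Finset.sum_congr rfl (fun j _ => hc j),
      Finset.sum_const, smul_eq_mul, mul_comm]
  rw [e, real_inter_allTrue hdep, hcard, pow_mul]
  refine mul_le_mul_of_nonneg_left ?_ (by positivity)
  refine measureReal_mono ?_ (measure_ne_top _ _)
  rintro R ⟨hRE, hRD, hRF, hRErr⟩
  refine ⟨hRErr, ?_, ?_⟩
  · refine (hD _ _ (fun x hx => ?_)).1 hRD
    refine (plant_of_notMem ?_ R).symm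
    intro h'
    obtain ⟨κ, _, hκ⟩ := Finset.mem_biUnion.1 h'
    exact Finset.disjoint_left.1 (hS₀ κ) hx hκ
  · intro j hj h'
    refine hRE j (Finset.mem_univ j) (fun x hx => ?_)
    rw [← h' x hx]
    refine (plant_of_notMem ?_ R).symm
    intro h''
    obtain ⟨κ, hκK, hκ⟩ := Finset.mem_biUnion.1 h''
    have hne : j ≠ κ := by
      rintro rfl
      exact (Finset.mem_compl.1 hj) hκK
    exact Finset.disjoint_left.1 (hd j κ hne) hx hκ

/-- Sum over a family of exact events. -/
theorem sum_exactly {J : Type*} [Fintype J] {B : γ → Finset (List Bool)} (f : J → Finset γ)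
    (hf : Function.Injective f) {Φ : Set Orc} (hΦ : MeasurableSet Φ) :
    ∑ j, randomOracle.real (exactly B (f j) ∩ Φ) =
      randomOracle.real ((⋃ j, exactly B (f j)) ∩ Φ) := by
  rw [Set.iUnion_inter, measureReal_iUnion_fintype]
  · intro j j' hne
    exact (exactly_disjoint (fun h => hne (hf h))).mono Set.inter_subset_left Set.inter_subset_left
  · exact fun j => (dep_exactly B (f j)).measurableSet.inter hΦ

theorem real_iUnion_exactly {J : Type*} [Fintype J] {B : γ → Finset (List Bool)} {b k : ℕ}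
    (hc : ∀ j, (B j).card = b) (hd : ∀ i j, i ≠ j → Disjoint (B i) (B j)) (f : J → Finset γ)
    (hf : Function.Injective f) (hfk : ∀ j, (f j).card = k) :
    randomOracle.real (⋃ j, exactly B (f j)) =
      Fintype.card J * (((1 / 2) ^ b) ^ k * (1 - (1 / 2) ^ b) ^ (Fintype.card γ - k)) := by
  rw [measureReal_iUnion_fintype]
  · rw [Finset.sum_congr rfl (fun j _ => real_exactly hc hd (f j)),
      Finset.sum_congr rfl (fun j _ => by rw [hfk j]), Finset.sum_const, nsmul_eq_mul,
      Finset.card_univ]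
  · exact fun j j' hne => exactly_disjoint (fun h => hne (hf h))
  · exact fun j => (dep_exactly B (f j)).measurableSet

end exact

/-- First and second moments: upper bound for a sum over independent events. -/
theorem moment_upper {ι : Type*} [DecidableEq ι] (I : Finset ι) (A : ι → Set Orc)
    (T : ι → Finset (List Bool)) (hA : ∀ ν, Dep (A ν) (T ν))
    (hT : ∀ ν ν', ν ≠ ν' → Disjoint (T ν) (T ν')) (p : ℝ)
    (hp : ∀ ν, randomOracle.real (A ν) = p) (hm : 1 ≤ I.card * p) {G : Set Orc}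
    (hG : MeasurableSet G) {δ : ℝ} (hδ : 0 < δ) :
    ∑ ν ∈ I, randomOracle.real (A ν ∩ G) ≤
      I.card * p * (δ + randomOracle.real G / (2 * δ)) := by
  set m := (I.card : ℝ) * p with hmdef
  have hm0 : 0 < m := by linarith
  have h2 := second_moment randomOracle I A (fun ν _ => (hA ν).measurableSet) hG
    (ε := δ / m) (by positivity)
  have h3 : ∑ ν ∈ I, ∑ ν' ∈ I, randomOracle.real (A ν ∩ A ν') ≤ m + m ^ 2 := by
    have h4 : ∀ ν ∈ I, ∑ ν' ∈ I, randomOracle.real (A ν ∩ A ν') ≤ p + I.card * p ^ 2 := by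
      intro ν hν
      rw [← Finset.add_sum_erase I _ hν, Set.inter_self, hp]
      refine add_le_add le_rfl ?_
      have h7 : ∀ ν' ∈ I.erase ν, randomOracle.real (A ν ∩ A ν') = p ^ 2 := by
        intro ν' hν'
        rw [(hA ν).indep (hA ν') (hT ν ν' (Finset.ne_of_mem_erase hν').symm), hp, hp, sq]
      rw [Finset.sum_congr rfl h7, Finset.sum_const, nsmul_eq_mul]
      refine mul_le_mul_of_nonneg_right ?_ (sq_nonneg _)
      exact_mod_cast Finset.card_le_card (Finset.erase_subset _ _)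
    refine (Finset.sum_le_sum h4).trans (le_of_eq ?_)
    rw [Finset.sum_const, nsmul_eq_mul, hmdef]
    ring
  have h5 : δ / m / 2 * ∑ ν ∈ I, ∑ ν' ∈ I, randomOracle.real (A ν ∩ A ν') ≤
      δ / m / 2 * (m + m ^ 2) := mul_le_mul_of_nonneg_left h3 (by positivity)
  have h6 : δ / m / 2 * (m + m ^ 2) = δ / 2 * (1 + m) := by
    field_simp
  have h7 : randomOracle.real G / (2 * (δ / m)) = m * (randomOracle.real G / (2 * δ)) := by
    field_simp
  rw [h6] at h5
  rw [h7] at h2
  have h8 : δ / 2 * (1 + m) ≤ m * δ := by nlinarith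
  linarith

/-- The sum of the probabilities that a number has no witness, outside `F`. -/
theorem stage_lower {ι U : Type} [DecidableEq ι] [Fintype U] [DecidableEq U] (I : Finset ι) (b : ℕ)
    (bl : ι → Bool × U → Finset (List Bool)) (hcard : ∀ ν κ, (bl ν κ).card = b)
    (hdisj : ∀ ν κ ν' κ', (ν, κ) ≠ (ν', κ') → Disjoint (bl ν κ) (bl ν' κ'))
    (S₀ : Finset (List Bool)) (hS₀ : ∀ ν κ, Disjoint S₀ (bl ν κ))
    (D F : Set Orc) (hD : Dep D S₀) (hFm : MeasurableSet F) (τ q : ℝ)
    (hτ : τ = (1 / 2) ^ b) (hq : q = I.card * (1 - τ) ^ (2 * Fintype.card U)) :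
    randomOracle.real D * q - randomOracle.real (F ∩ D) - q ^ 2 ≤
      ∑ ν ∈ I, randomOracle.real (noneOf (bl ν) Finset.univ ∩ (D \ F)) := by
  classical
  set M := Fintype.card U with hM
  have hcU : Fintype.card (Bool × U) = 2 * M := by simp [hM]
  have hDm : MeasurableSet D := hD.measurableSet
  set E : ι → Set Orc := fun ν => noneOf (bl ν) Finset.univ with hE
  set T : ι → Finset (List Bool) := fun ν => Finset.univ.biUnion (bl ν) with hT
  have hEdep : ∀ ν, Dep (E ν) (T ν) := fun ν => dep_noneOf _ _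
  have hEm : ∀ ν, MeasurableSet (E ν) := fun ν => (hEdep ν).measurableSet
  have hd1 : ∀ ν, ∀ i j : Bool × U, i ≠ j → Disjoint (bl ν i) (bl ν j) := by
    intro ν i j hij
    exact hdisj ν i ν j (fun h => hij (congrArg Prod.snd h))
  have hTd : ∀ ν ν', ν ≠ ν' → Disjoint (T ν) (T ν') := by
    intro ν ν' h
    rw [hT, Finset.disjoint_biUnion_left]
    intro i _
    rw [Finset.disjoint_biUnion_right]
    intro j _
    exact hdisj ν i ν' j (fun h' => h (congrArg Prod.fst h'))
  have hTS : ∀ ν, Disjoint (T ν) S₀ := by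
    intro ν
    rw [hT, Finset.disjoint_biUnion_left]
    intro i _
    exact (hS₀ ν i).symm
  have hPE : ∀ ν, randomOracle.real (E ν) = (1 - τ) ^ (2 * M) := by
    intro ν
    rw [hE]
    show randomOracle.real (noneOf (bl ν) Finset.univ) = _
    rw [real_noneOf (b := b) (fun j _ => hcard ν j) (fun i _ j _ => hd1 ν i j), Finset.card_univ,
      hcU, hτ]
  have h1 : ∀ ν ∈ I, randomOracle.real (E ν ∩ (D \ F)) =
      (1 - τ) ^ (2 * M) * randomOracle.real D - randomOracle.real (E ν ∩ (F ∩ D)) := by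
    intro ν _
    have h2 := measureReal_inter_add_sdiff (μ := randomOracle) (s := E ν ∩ D) hFm
    have h3 : randomOracle.real (E ν ∩ D) = (1 - τ) ^ (2 * M) * randomOracle.real D := by
      rw [(hEdep ν).indep hD (hTS ν), hPE]
    have e1 : (E ν ∩ D) ∩ F = E ν ∩ (F ∩ D) := by ext R; simp only [Set.mem_inter_iff]; tauto
    have e2 : (E ν ∩ D) \ F = E ν ∩ (D \ F) := by
      ext R
      constructor
      · rintro ⟨⟨a1, a2⟩, a3⟩; exact ⟨a1, a2, a3⟩
      · rintro ⟨a1, a2, a3⟩; exact ⟨⟨a1, a2⟩, a3⟩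
    rw [e1, e2, h3] at h2
    linarith
  show _ ≤ ∑ ν ∈ I, randomOracle.real (E ν ∩ (D \ F))
  rw [Finset.sum_congr rfl h1, Finset.sum_sub_distrib, Finset.sum_const, nsmul_eq_mul,
    ← mul_assoc, ← hq]
  have h4 := pairs_bound randomOracle I E (fun ν _ => hEm ν) (hFm.inter hDm)
  have h5 : ∑ ν ∈ I, ∑ ν' ∈ I.erase ν, randomOracle.real (E ν ∩ E ν') ≤ q ^ 2 := by
    have h6 : ∀ ν ∈ I, ∑ ν' ∈ I.erase ν, randomOracle.real (E ν ∩ E ν') ≤
        I.card * ((1 - τ) ^ (2 * M) * (1 - τ) ^ (2 * M)) := by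
      intro ν hν
      have h7 : ∀ ν' ∈ I.erase ν, randomOracle.real (E ν ∩ E ν') =
          (1 - τ) ^ (2 * M) * (1 - τ) ^ (2 * M) := by
        intro ν' hν'
        rw [(hEdep ν).indep (hEdep ν') (hTd ν ν' (Finset.ne_of_mem_erase hν').symm), hPE, hPE]
      rw [Finset.sum_congr rfl h7, Finset.sum_const, nsmul_eq_mul]
      refine mul_le_mul_of_nonneg_right ?_ (mul_self_nonneg _)
      exact_mod_cast Finset.card_le_card (Finset.erase_subset _ _)
    refine (Finset.sum_le_sum h6).trans (le_of_eq ?_)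
    rw [Finset.sum_const, nsmul_eq_mul, hq]
    ring
  nlinarith [h4, h5]

section count

variable {U : Type} [Fintype U]

/-- A small set meets few blocks of a disjoint family. -/
theorem bad_card (B : U → Finset (List Bool)) (hB : ∀ u u', u ≠ u' → Disjoint (B u) (B u'))
    (Q : Finset (List Bool)) :
    ((Finset.univ : Finset U).filter (fun u => ¬ Disjoint Q (B u))).card ≤ Q.card := by
  have hex : ∀ u ∈ (Finset.univ : Finset U).filter (fun u => ¬ Disjoint Q (B u)),
      ∃ x, x ∈ Q ∧ x ∈ B u := by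
    intro u hu
    exact Finset.not_disjoint_iff.1 (Finset.mem_filter.1 hu).2
  choose! f hf using hex
  refine Finset.card_le_card_of_injOn f (fun u hu => (hf u hu).1) ?_
  intro u hu u' hu' h
  by_contra hne
  exact Finset.disjoint_left.1 (hB u u' hne) (hf u hu).2 (h ▸ (hf u' hu').2)

/-- The counting of pairs. -/
theorem pair_count (α α' : U → ℝ) (β : U → U → ℝ) (bad bad' : U → U → Prop)
    [∀ u u', Decidable (bad u u')] [∀ u u', Decidable (bad' u u')] (s : ℕ)
    (hα : ∀ u, 0 ≤ α u) (hα' : ∀ u, 0 ≤ α' u) (hβ : ∀ u u', 0 ≤ β u u')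
    (h : ∀ u u', ¬ bad u u' → ¬ bad' u' u → 1 ≤ α u + α' u' + β u u')
    (hb : ∀ u, ((Finset.univ : Finset U).filter (fun u' => bad u u')).card ≤ s)
    (hb' : ∀ u, ((Finset.univ : Finset U).filter (fun u' => bad' u u')).card ≤ s) :
    (Fintype.card U : ℝ) ^ 2 - 2 * Fintype.card U * s ≤
      (∑ u, ∑ u', β u u') + Fintype.card U * ((∑ u, α u) + ∑ u, α' u) := by
  have h1 : ∀ u u', (1 : ℝ) ≤ α u + α' u' + β u u' + (if bad u u' then 1 else 0) +
      (if bad' u' u then 1 else 0) := by
    intro u u'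
    have a1 := hα u
    have a2 := hα' u'
    have a3 := hβ u u'
    by_cases c1 : bad u u' <;> by_cases c2 : bad' u' u
    · simp only [c1, c2, if_true]; linarith
    · simp only [c1, c2, if_true, if_false]; linarith
    · simp only [c1, c2, if_true, if_false]; linarith
    · have := h u u' c1 c2
      simp only [c1, c2, if_false]; linarith
  have h2 : ∑ _u : U, ∑ _u' : U, (1 : ℝ) ≤ ∑ u, ∑ u', (α u + α' u' + β u u' +
      (if bad u u' then 1 else 0) + (if bad' u' u then 1 else 0)) :=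
    Finset.sum_le_sum (fun u _ => Finset.sum_le_sum (fun u' _ => h1 u u'))
  have h3 : ∑ u, ∑ u', (α u + α' u' + β u u' + (if bad u u' then (1 : ℝ) else 0) +
      (if bad' u' u then 1 else 0)) = Fintype.card U * (∑ u, α u) + Fintype.card U * (∑ u, α' u) +
      (∑ u, ∑ u', β u u') + (∑ u, ∑ u', (if bad u u' then (1 : ℝ) else 0)) +
      ∑ u, ∑ u', (if bad' u' u then (1 : ℝ) else 0) := by
    simp only [Finset.sum_add_distrib, Finset.sum_const, Finset.card_univ, nsmul_eq_mul]
    rw [← Finset.mul_sum]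
  have h4 : ∑ u, ∑ u', (if bad u u' then (1 : ℝ) else 0) ≤ Fintype.card U * s := by
    calc ∑ u, ∑ u', (if bad u u' then (1 : ℝ) else 0) ≤ ∑ _u : U, (s : ℝ) := by
          refine Finset.sum_le_sum (fun u _ => ?_)
          rw [Finset.sum_boole]
          exact_mod_cast hb u
      _ = Fintype.card U * s := by
          rw [Finset.sum_const, Finset.card_univ, nsmul_eq_mul]
  have h5 : ∑ u, ∑ u', (if bad' u' u then (1 : ℝ) else 0) ≤ Fintype.card U * s := by
    rw [Finset.sum_comm]
    calc ∑ u', ∑ u, (if bad' u' u then (1 : ℝ) else 0) ≤ ∑ _u : U, (s : ℝ) := by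
          refine Finset.sum_le_sum (fun u _ => ?_)
          rw [Finset.sum_boole]
          exact_mod_cast hb' u
      _ = Fintype.card U * s := by
          rw [Finset.sum_const, Finset.card_univ, nsmul_eq_mul]
  have h6 : ∑ _u : U, ∑ _u' : U, (1 : ℝ) = (Fintype.card U : ℝ) ^ 2 := by
    simp [sq]
  rw [h6, h3] at h2
  linarith

end count

/-- The planting inequality for one number. -/
theorem plant2 {U : Type} [Fintype U] [DecidableEq U] (b : ℕ)
    (B : Bool × U → Finset (List Bool)) (hcard : ∀ κ, (B κ).card = b)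
    (hdisj : ∀ κ κ', κ ≠ κ' → Disjoint (B κ) (B κ'))
    (S₀ SE : Finset (List Bool)) (hS₀ : ∀ κ, Disjoint S₀ (B κ))
    (D F Err : Set Orc) (hD : Dep D S₀) (hFm : MeasurableSet F) (hErr : Dep Err SE) (s : ℕ)
    (star : ∀ R ∈ D, R ∉ F → (∀ κ, R ∉ allTrue (B κ)) →
      ∃ Q Q' : U → Finset (List Bool), (∀ u, (Q u).card ≤ s) ∧ (∀ u, (Q' u).card ≤ s) ∧
        ∀ u u', plant (B (true, u)) R ∉ Err → plant (B (false, u')) R ∉ Err →
          Disjoint (Q u) (B (false, u')) → Disjoint (Q' u') (B (true, u)) →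
          plant (B (true, u)) (plant (B (false, u')) R) ∈ Err) :
    ((1 / 2) ^ b) ^ 2 * ((Fintype.card U : ℝ) ^ 2 - 2 * Fintype.card U * s) *
        randomOracle.real (noneOf B Finset.univ ∩ (D \ F)) ≤
      randomOracle.real ((⋃ p : U × U, exactly B {(true, p.1), (false, p.2)}) ∩ (Err ∩ D)) +
      Fintype.card U * (1 / 2) ^ b *
        randomOracle.real ((⋃ κ : Bool × U, exactly B {κ}) ∩ (Err ∩ D)) := by
  classical
  have hDm : MeasurableSet D := hD.measurableSet
  have hErrm : MeasurableSet Err := hErr.measurableSet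
  have hEm : MeasurableSet (noneOf B Finset.univ) := (dep_noneOf B Finset.univ).measurableSet
  set τ : ℝ := (1 / 2) ^ b with hτ
  have hτ0 : 0 ≤ τ := by rw [hτ]; positivity
  set f1 : Bool × U → Finset (Bool × U) := fun κ => {κ} with hf1
  set f2 : U × U → Finset (Bool × U) := fun p => {(true, p.1), (false, p.2)} with hf2
  have hf1i : Function.Injective f1 := fun κ κ' h => Finset.singleton_injective h
  have hf2c : ∀ p, (f2 p).card = 2 := by
    intro p
    rw [hf2]
    exact Finset.card_pair (fun h => by simpa using congrArg Prod.fst h)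
  have hf2i : Function.Injective f2 := by
    intro p p' h
    have m1 : (true, p.1) ∈ f2 p' := h ▸ (by simp [hf2] : (true, p.1) ∈ f2 p)
    have m2 : (false, p.2) ∈ f2 p' := h ▸ (by simp [hf2] : (false, p.2) ∈ f2 p)
    simp [hf2] at m1 m2
    exact Prod.ext m1 m2
  set Z : Finset (Bool × U) → Set Orc := fun K => {R | R ∈ noneOf B Finset.univ ∧ R ∈ D ∧ R ∉ F ∧
      plant (K.biUnion B) R ∈ Err} with hZ
  have hZm : ∀ K, MeasurableSet (Z K) := by
    intro K
    have h1 : Z K = noneOf B Finset.univ ∩ (D ∩ (Fᶜ ∩ {R | plant (K.biUnion B) R ∈ Err})) := by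
      ext R; rfl
    rw [h1]
    exact hEm.inter (hDm.inter (hFm.compl.inter (hErr.plant _).measurableSet))
  have hP2 : τ ^ 2 * ∑ p, randomOracle.real (Z (f2 p)) ≤
      randomOracle.real ((⋃ p, exactly B (f2 p)) ∩ (Err ∩ D)) := by
    rw [← sum_exactly f2 hf2i (hErrm.inter hDm), Finset.mul_sum]
    refine Finset.sum_le_sum (fun p _ => ?_)
    have := plant_exactly (F := F) hcard hdisj hS₀ hD hErr (f2 p)
    rw [hf2c p] at this
    exact this
  have hP1 : τ * ∑ κ, randomOracle.real (Z (f1 κ)) ≤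
      randomOracle.real ((⋃ κ, exactly B (f1 κ)) ∩ (Err ∩ D)) := by
    rw [← sum_exactly f1 hf1i (hErrm.inter hDm), Finset.mul_sum]
    refine Finset.sum_le_sum (fun κ _ => ?_)
    have := plant_exactly (F := F) hcard hdisj hS₀ hD hErr (f1 κ)
    rw [Finset.card_singleton, pow_one] at this
    exact this
  -- counting
  have hcount : ∀ R ∈ noneOf B Finset.univ ∩ (D \ F),
      (Fintype.card U : ℝ) ^ 2 - 2 * Fintype.card U * s ≤
        (∑ p, (Z (f2 p)).indicator (fun _ => (1 : ℝ)) R) +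
        Fintype.card U * ∑ κ, (Z (f1 κ)).indicator (fun _ => (1 : ℝ)) R := by
    rintro R ⟨hRE, hRD, hRF⟩
    obtain ⟨Q, Q', hQ, hQ', hst⟩ := star R hRD hRF (fun κ => hRE κ (Finset.mem_univ κ))
    have hnn : ∀ K, 0 ≤ (Z K).indicator (fun _ => (1 : ℝ)) R := fun K =>
      Set.indicator_nonneg (fun _ _ => zero_le_one) _
    have key := pair_count (fun u => (Z (f1 (true, u))).indicator (fun _ => (1 : ℝ)) R)
      (fun u => (Z (f1 (false, u))).indicator (fun _ => (1 : ℝ)) R)
      (fun u u' => (Z (f2 (u, u'))).indicator (fun _ => (1 : ℝ)) R)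
      (fun u u' => ¬ Disjoint (Q u) (B (false, u')))
      (fun u' u => ¬ Disjoint (Q' u') (B (true, u))) s (fun u => hnn _) (fun u => hnn _)
      (fun u u' => hnn _) ?_ ?_ ?_
    · rw [Fintype.sum_prod_type, Fintype.sum_prod_type, Fintype.sum_bool]
      exact key
    · intro u u' c1 c2
      rw [not_not] at c1 c2
      by_cases a1 : plant (B (true, u)) R ∈ Err
      · have : R ∈ Z (f1 (true, u)) := by
          refine ⟨hRE, hRD, hRF, ?_⟩
          rw [hf1, Finset.singleton_biUnion]
          exact a1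
        rw [Set.indicator_of_mem this]
        have b1 := hnn (f1 (false, u'))
        have b2 := hnn (f2 (u, u'))
        linarith
      by_cases a2 : plant (B (false, u')) R ∈ Err
      · have : R ∈ Z (f1 (false, u')) := by
          refine ⟨hRE, hRD, hRF, ?_⟩
          rw [hf1, Finset.singleton_biUnion]
          exact a2
        rw [Set.indicator_of_mem this]
        have b1 := hnn (f1 (true, u))
        have b2 := hnn (f2 (u, u'))
        linarith
      have a3 := hst u u' a1 a2 c1 c2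
      have : R ∈ Z (f2 (u, u')) := by
        refine ⟨hRE, hRD, hRF, ?_⟩
        rw [hf2, Finset.biUnion_insert, Finset.singleton_biUnion, ← plant_plant]
        exact a3
      rw [Set.indicator_of_mem this]
      have b1 := hnn (f1 (true, u))
      have b2 := hnn (f1 (false, u'))
      linarith
    · intro u
      exact (bad_card (fun u' => B (false, u')) (fun v v' hv => hdisj _ _
        (fun h' => hv (congrArg Prod.snd h'))) (Q u)).trans (hQ u)
    · intro u
      exact (bad_card (fun u' => B (true, u')) (fun v v' hv => hdisj _ _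
        (fun h' => hv (congrArg Prod.snd h'))) (Q' u)).trans (hQ' u)
  have hsumZ : ((Fintype.card U : ℝ) ^ 2 - 2 * Fintype.card U * s) *
      randomOracle.real (noneOf B Finset.univ ∩ (D \ F)) ≤
      (∑ p, randomOracle.real (Z (f2 p))) +
        Fintype.card U * ∑ κ, randomOracle.real (Z (f1 κ)) := by
    have hGm : MeasurableSet (noneOf B Finset.univ ∩ (D \ F)) := hEm.inter (hDm.diff hFm)
    rw [sum_real_eq_int _ _ _ (fun κ _ => hZm (f2 κ)), sum_real_eq_int _ _ _ (fun κ _ => hZm (f1 κ)),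
      real_eq_int _ hGm, ← integral_const_mul, ← integral_const_mul, ← integral_add]
    · apply integral_mono
      · exact (integrable_ind _ hGm).const_mul _
      · exact (integrable_finsetSum _ (fun κ _ => integrable_ind _ (hZm _))).add
          ((integrable_finsetSum _ (fun κ _ => integrable_ind _ (hZm _))).const_mul _)
      intro R
      by_cases hR : R ∈ noneOf B Finset.univ ∩ (D \ F)
      · simp only [Set.indicator_of_mem hR, mul_one]
        exact hcount R hR
      · simp only [Set.indicator_of_notMem hR, mul_zero]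
        have hnn : ∀ K, 0 ≤ (Z K).indicator (fun _ => (1 : ℝ)) R := fun K =>
          Set.indicator_nonneg (fun _ _ => zero_le_one) _
        exact add_nonneg (Finset.sum_nonneg (fun p _ => hnn _))
          (mul_nonneg (by positivity) (Finset.sum_nonneg (fun κ _ => hnn _)))
    · exact integrable_finsetSum _ (fun κ _ => integrable_ind _ (hZm _))
    · exact (integrable_finsetSum _ (fun κ _ => integrable_ind _ (hZm _))).const_mul _
  have h1 := mul_le_mul_of_nonneg_left hsumZ (by positivity : 0 ≤ τ ^ 2)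
  have h2 : (Fintype.card U : ℝ) * τ * (τ * ∑ κ, randomOracle.real (Z (f1 κ))) ≤
      (Fintype.card U : ℝ) * τ * randomOracle.real ((⋃ κ, exactly B (f1 κ)) ∩ (Err ∩ D)) :=
    mul_le_mul_of_nonneg_left hP1 (by positivity)
  calc τ ^ 2 * ((Fintype.card U : ℝ) ^ 2 - 2 * Fintype.card U * s) *
        randomOracle.real (noneOf B Finset.univ ∩ (D \ F))
      = τ ^ 2 * (((Fintype.card U : ℝ) ^ 2 - 2 * Fintype.card U * s) *
        randomOracle.real (noneOf B Finset.univ ∩ (D \ F))) := by ring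
    _ ≤ τ ^ 2 * ((∑ p, randomOracle.real (Z (f2 p))) +
        Fintype.card U * ∑ κ, randomOracle.real (Z (f1 κ))) := h1
    _ = τ ^ 2 * (∑ p, randomOracle.real (Z (f2 p))) +
        (Fintype.card U : ℝ) * τ * (τ * ∑ κ, randomOracle.real (Z (f1 κ))) := by ring
    _ ≤ _ := add_le_add hP2 h2

/-- **Stage inequality with two planted witnesses of opposite types.** -/
theorem stage2 {ι U : Type} [DecidableEq ι] [Fintype U] [DecidableEq U] (I : Finset ι) (b : ℕ)
    (bl : ι → Bool × U → Finset (List Bool)) (hcard : ∀ ν κ, (bl ν κ).card = b)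
    (hdisj : ∀ ν κ ν' κ', (ν, κ) ≠ (ν', κ') → Disjoint (bl ν κ) (bl ν' κ'))
    (S₀ : Finset (List Bool)) (hS₀ : ∀ ν κ, Disjoint S₀ (bl ν κ))
    (D F : Set Orc) (Err : ι → Set Orc) (hD : Dep D S₀) (hF : ∃ S, Dep F S)
    (hErr : ∀ ν, ∃ S, Dep (Err ν) S) (s : ℕ)
    (star : ∀ ν ∈ I, ∀ R ∈ D, R ∉ F → (∀ κ, R ∉ allTrue (bl ν κ)) →
      ∃ Q Q' : U → Finset (List Bool), (∀ u, (Q u).card ≤ s) ∧ (∀ u, (Q' u).card ≤ s) ∧
        ∀ u u', plant (bl ν (true, u)) R ∉ Err ν → plant (bl ν (false, u')) R ∉ Err ν →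
          Disjoint (Q u) (bl ν (false, u')) → Disjoint (Q' u') (bl ν (true, u)) →
          plant (bl ν (true, u)) (plant (bl ν (false, u')) R) ∈ Err ν)
    (hs : 4 * s ≤ Fintype.card U) (hU : 0 < Fintype.card U) (hb : 1 ≤ b) (τ q : ℝ)
    (hτ : τ = (1 / 2) ^ b) (hq : q = I.card * (1 - τ) ^ (2 * Fintype.card U))
    (hl : 1 ≤ Fintype.card U * τ) (hm : 1 ≤ (Fintype.card U * τ) * q) (ε : ℝ) (hε : 0 < ε) :
    q * (randomOracle.real D - q - ε - 128 * randomOracle.real ((⋃ ν ∈ I, Err ν) ∩ D) / ε) ≤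
      randomOracle.real (F ∩ D) := by
  classical
  obtain ⟨SF, hSF⟩ := hF
  have hFm : MeasurableSet F := hSF.measurableSet
  have hDm : MeasurableSet D := hD.measurableSet
  choose SE hSE using hErr
  have hErrm : ∀ ν, MeasurableSet (Err ν) := fun ν => (hSE ν).measurableSet
  set M := Fintype.card U with hM
  have hcU : Fintype.card (Bool × U) = 2 * M := by simp [hM]
  have hM0 : (0 : ℝ) < M := by exact_mod_cast hU
  have hτ0 : 0 < τ := by rw [hτ]; positivity
  have hτ1 : τ ≤ 1 / 2 := by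
    rw [hτ]
    calc ((1 : ℝ) / 2) ^ b ≤ (1 / 2) ^ 1 := pow_le_pow_of_le_one (by norm_num) (by norm_num) hb
      _ = 1 / 2 := pow_one _
  have h1τ : 0 < 1 - τ := by linarith
  set l := (M : ℝ) * τ with hldef
  have hq0 : 0 < q := by
    by_contra h
    have : l * q ≤ 0 := mul_nonpos_of_nonneg_of_nonpos (by positivity) (not_lt.1 h)
    linarith
  have hd1 : ∀ ν, ∀ i j : Bool × U, i ≠ j → Disjoint (bl ν i) (bl ν j) := by
    intro ν i j hij
    exact hdisj ν i ν j (fun h => hij (congrArg Prod.snd h))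
  set T : ι → Finset (List Bool) := fun ν => Finset.univ.biUnion (bl ν) with hT
  have hTd : ∀ ν ν', ν ≠ ν' → Disjoint (T ν) (T ν') := by
    intro ν ν' h
    rw [hT, Finset.disjoint_biUnion_left]
    intro i _
    rw [Finset.disjoint_biUnion_right]
    intro j _
    exact hdisj ν i ν' j (fun h' => h (congrArg Prod.fst h'))
  set Γ : Set Orc := (⋃ ν ∈ I, Err ν) ∩ D with hΓ
  have hΓm : MeasurableSet Γ :=
    (MeasurableSet.biUnion I.countable_toSet (fun ν _ => hErrm ν)).inter hDm
  have hlow := stage_lower I b bl hcard hdisj S₀ hS₀ D F hD hFm τ q hτ hq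
  set W := randomOracle.real D * q - randomOracle.real (F ∩ D) - q ^ 2 with hW
  set G := randomOracle.real Γ with hG
  have hG0 : 0 ≤ G := measureReal_nonneg
  -- the events
  set A2 : ι → Set Orc := fun ν => ⋃ p : U × U, exactly (bl ν) {(true, p.1), (false, p.2)} with hA2
  set A1 : ι → Set Orc := fun ν => ⋃ κ : Bool × U, exactly (bl ν) {κ} with hA1
  have hA2d : ∀ ν, Dep (A2 ν) (T ν) := fun ν => Dep.iUnion (fun p => dep_exactly _ _)
  have hA1d : ∀ ν, Dep (A1 ν) (T ν) := fun ν => Dep.iUnion (fun p => dep_exactly _ _)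
  have hA2p : ∀ ν, randomOracle.real (A2 ν) = (M : ℝ) ^ 2 * (τ ^ 2 * (1 - τ) ^ (2 * M - 2)) := by
    intro ν
    have := real_iUnion_exactly (k := 2) (hcard ν) (hd1 ν)
      (fun p : U × U => ({(true, p.1), (false, p.2)} : Finset (Bool × U))) (by
        intro p p' h
        have h' : ({(true, p.1), (false, p.2)} : Finset (Bool × U)) =
          {(true, p'.1), (false, p'.2)} := h
        have m1 : (true, p.1) ∈ ({(true, p'.1), (false, p'.2)} : Finset (Bool × U)) := by
          rw [← h']; simp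
        have m2 : (false, p.2) ∈ ({(true, p'.1), (false, p'.2)} : Finset (Bool × U)) := by
          rw [← h']; simp
        simp at m1 m2
        exact Prod.ext m1 m2)
      (fun p => Finset.card_pair (fun h => by simpa using congrArg Prod.fst h))
    show randomOracle.real (⋃ p : U × U, exactly (bl ν) {(true, p.1), (false, p.2)}) = _
    rw [this, ← hτ, hcU, Fintype.card_prod, ← hM]
    push_cast
    ring
  have hA1p : ∀ ν, randomOracle.real (A1 ν) = 2 * (M : ℝ) * (τ * (1 - τ) ^ (2 * M - 1)) := by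
    intro ν
    have := real_iUnion_exactly (k := 1) (hcard ν) (hd1 ν)
      (fun κ : Bool × U => ({κ} : Finset (Bool × U))) (fun κ κ' h => Finset.singleton_injective h)
      (fun κ => Finset.card_singleton κ)
    show randomOracle.real (⋃ κ : Bool × U, exactly (bl ν) {κ}) = _
    rw [this, ← hτ, hcU, pow_one]
    push_cast
    ring
  set m2 := (I.card : ℝ) * ((M : ℝ) ^ 2 * (τ ^ 2 * (1 - τ) ^ (2 * M - 2))) with hm2
  set m1 := (I.card : ℝ) * (2 * (M : ℝ) * (τ * (1 - τ) ^ (2 * M - 1))) with hm1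
  have hm2q : m2 * (1 - τ) ^ 2 = l ^ 2 * q := by
    rw [hm2, hq, hldef]
    have : (1 - τ) ^ (2 * M) = (1 - τ) ^ (2 * M - 2) * (1 - τ) ^ 2 := by
      rw [← pow_add]
      congr 1
      omega
    rw [this]
    ring
  have hm1q : m1 * (1 - τ) = 2 * l * q := by
    rw [hm1, hq, hldef]
    have : (1 - τ) ^ (2 * M) = (1 - τ) ^ (2 * M - 1) * (1 - τ) := by
      rw [← pow_succ]
      congr 1
      omega
    rw [this]
    ring
  have hm20 : 0 ≤ m2 := by rw [hm2]; positivity
  have hm10 : 0 ≤ m1 := by rw [hm1]; positivity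
  have hlq : 1 ≤ l ^ 2 * q := by
    have : l ^ 2 * q = l * (l * q) := by ring
    rw [this]
    exact one_le_mul_of_one_le_of_one_le hl hm
  have hsq1 : (1 - τ) ^ 2 ≤ 1 := pow_le_one₀ h1τ.le (by linarith)
  have hsq2 : 1 / 4 ≤ (1 - τ) ^ 2 := by
    have := pow_le_pow_left₀ (by norm_num : (0 : ℝ) ≤ 1 / 2) (by linarith : 1 / 2 ≤ 1 - τ) 2
    linarith
  have hm2a : 1 ≤ m2 := by
    have := mul_le_mul_of_nonneg_left hsq1 hm20
    linarith
  have hm1a : 1 ≤ m1 := by
    have := mul_le_mul_of_nonneg_left (by linarith : 1 - τ ≤ 1) hm10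
    linarith
  have hm2b : m2 ≤ 4 * (l ^ 2 * q) := by
    have := mul_le_mul_of_nonneg_left hsq2 hm20
    linarith
  have hm1b : m1 ≤ 4 * (l * q) := by
    have := mul_le_mul_of_nonneg_left (by linarith : 1 / 2 ≤ 1 - τ) hm10
    linarith
  set δ := ε / 16 with hδdef
  have hδ : 0 < δ := by positivity
  have hu2 := moment_upper I A2 T hA2d hTd _ hA2p hm2a hΓm hδ
  have hu1 := moment_upper I A1 T hA1d hTd _ hA1p hm1a hΓm hδ
  rw [← hm2, ← hG] at hu2
  rw [← hm1, ← hG] at hu1
  have hmonoG : ∀ (A : ι → Set Orc), ∑ ν ∈ I, randomOracle.real (A ν ∩ (Err ν ∩ D)) ≤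
      ∑ ν ∈ I, randomOracle.real (A ν ∩ Γ) := by
    intro A
    refine Finset.sum_le_sum (fun ν hν => measureReal_mono ?_ (measure_ne_top _ _))
    rintro R ⟨h1, h2, h3⟩
    exact ⟨h1, Set.mem_biUnion hν h2, h3⟩
  have hpl : τ ^ 2 * ((M : ℝ) ^ 2 - 2 * M * s) *
      ∑ ν ∈ I, randomOracle.real (noneOf (bl ν) Finset.univ ∩ (D \ F)) ≤
      (∑ ν ∈ I, randomOracle.real (A2 ν ∩ (Err ν ∩ D))) +
        l * ∑ ν ∈ I, randomOracle.real (A1 ν ∩ (Err ν ∩ D)) := by
    rw [Finset.mul_sum, Finset.mul_sum, ← Finset.sum_add_distrib]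
    refine Finset.sum_le_sum (fun ν hν => ?_)
    have := plant2 b (bl ν) (hcard ν) (hd1 ν) S₀ (SE ν) (hS₀ ν) D F (Err ν) hD hFm (hSE ν) s
      (fun R hRD hRF hR => star ν hν R hRD hRF hR)
    rw [← hτ, ← hM] at this
    exact this
  have hMs : (M : ℝ) ^ 2 / 2 ≤ (M : ℝ) ^ 2 - 2 * M * s := by
    have h4s : (4 : ℝ) * s ≤ M := by exact_mod_cast hs
    have := mul_le_mul_of_nonneg_left h4s hM0.le
    linarith
  have hX0 : 0 ≤ δ + G / (2 * δ) := by positivity
  have hchain : τ ^ 2 * ((M : ℝ) ^ 2 - 2 * M * s) *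
      ∑ ν ∈ I, randomOracle.real (noneOf (bl ν) Finset.univ ∩ (D \ F)) ≤
      8 * (l ^ 2 * q) * (δ + G / (2 * δ)) := by
    have a1 := (hmonoG A2).trans hu2
    have a2 := (hmonoG A1).trans hu1
    have a3 := mul_le_mul_of_nonneg_left a2 (by positivity : 0 ≤ l)
    have a4 : m2 * (δ + G / (2 * δ)) ≤ 4 * (l ^ 2 * q) * (δ + G / (2 * δ)) :=
      mul_le_mul_of_nonneg_right hm2b hX0
    have a5 : l * (m1 * (δ + G / (2 * δ))) ≤ l * (4 * (l * q) * (δ + G / (2 * δ))) :=
      mul_le_mul_of_nonneg_left (mul_le_mul_of_nonneg_right hm1b hX0) (by positivity)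
    calc _ ≤ _ := hpl
      _ ≤ 4 * (l ^ 2 * q) * (δ + G / (2 * δ)) + l * (4 * (l * q) * (δ + G / (2 * δ))) :=
          add_le_add (a1.trans a4) (a3.trans a5)
      _ = _ := by ring
  have hdd : G / (2 * δ) = 8 * G / ε := by
    rw [hδdef]; field_simp; ring
  by_cases hneg : W ≤ 0
  · have h3 : 0 ≤ 128 * G / ε := by positivity
    rw [hW] at hneg
    have h8 := mul_pos hq0 hε
    have h9 := mul_nonneg hq0.le h3
    have e3 : q * (randomOracle.real D - q - ε - 128 * G / ε) =
        randomOracle.real D * q - q ^ 2 - (q * ε + q * (128 * G / ε)) := by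
      ring
    rw [e3]
    linarith
  · push Not at hneg
    have hlow' : W ≤ ∑ ν ∈ I, randomOracle.real (noneOf (bl ν) Finset.univ ∩ (D \ F)) := hlow
    have h5 : l ^ 2 / 2 * W ≤ 8 * (l ^ 2 * q) * (δ + G / (2 * δ)) := by
      calc l ^ 2 / 2 * W = τ ^ 2 * ((M : ℝ) ^ 2 / 2) * W := by rw [hldef]; ring
        _ ≤ τ ^ 2 * ((M : ℝ) ^ 2 - 2 * M * s) * W :=
            mul_le_mul_of_nonneg_right (mul_le_mul_of_nonneg_left hMs (by positivity)) hneg.le
        _ ≤ τ ^ 2 * ((M : ℝ) ^ 2 - 2 * M * s) *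
            ∑ ν ∈ I, randomOracle.real (noneOf (bl ν) Finset.univ ∩ (D \ F)) := by
            refine mul_le_mul_of_nonneg_left hlow' (mul_nonneg (by positivity) ?_)
            have : 0 ≤ (M : ℝ) ^ 2 / 2 := by positivity
            linarith
        _ ≤ _ := hchain
    have hl2 : 0 < l ^ 2 / 2 := by
      have : 0 < l := mul_pos hM0 hτ0
      positivity
    have h6 : l ^ 2 / 2 * W ≤ l ^ 2 / 2 * (16 * q * (δ + G / (2 * δ))) := by
      refine h5.trans (le_of_eq ?_); ring
    have h7 := le_of_mul_le_mul_left h6 hl2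
    rw [hdd] at h7
    have e2 : 16 * q * (δ + 8 * G / ε) = ε * q + q * (128 * G / ε) := by
      rw [hδdef]; ring
    rw [e2, hW] at h7
    have e3 : q * (randomOracle.real D - q - ε - 128 * G / ε) =
        randomOracle.real D * q - q ^ 2 - (ε * q + q * (128 * G / ε)) := by
      ring
    rw [e3]
    linarith

end Pool.Agent.RO
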