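import Pool.Agent.Work.MP_46935e_lc.RO.NErr
import Pool.Agent.Work.MP_46935e_lc.RO.NTuring
import Pool.Agent.Work.MP_46935e_lc.RO.Stage2
import Pool.Agent.Work.MP_46935e_lc.RO.Limit2
import Pool.Agent.Work.MP_46935e_lc.RO.Main
import Pool.Agent.Work.MP_46935e_lc.RO.JStages

/-!
# No disjoint coNP pair is complete under nondeterministic Turing reductions

Relative to `J R`, where `R` is the random oracle and `J` a local operator for which the stages of
the construction exist.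
-/

set_option autoImplicit false

namespace Pool.Agent.RO

open Pool.Agent.PT Pool.Agent.Work.MP_46935e_lc MeasureTheory Filter

/-- Left end of a window. -/
def win (nn : ℕ → ℕ) : ℕ → ℕ
  | 0 => 0
  | i + 1 => 2 ^ nn i

/-- Some string with length in `[a, b)` is rejected by both machines. -/
def badJ (J : Orc → Orc) (dA dB : VD) (a b : ℕ) : Set Orc :=
  {R | ∃ z : List Bool, a ≤ z.length ∧ z.length < b ∧ ¬ acc dA (J R) z ∧ ¬ acc dB (J R) z}

/-- The data of the construction. -/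
structure SS (J : Orc → Orc) (dA dB : VD) (K : ℕ) where
  /-- parameters -/
  nn : ℕ → ℕ
  /-- number of instances -/
  N : ℕ → ℕ
  /-- stage function -/
  act : ℕ → Option (ℕ × ℕ)
  mono : StrictMono nn
  N_le : ∀ i, N i ≤ nn i
  LB_le : ∀ i, LB dA dB (win nn i) + 2 ^ win nn i + 2 * i + 3 ≤ nn i
  mem : ∀ (i₀ : ℕ) (c : Bool) (R : Orc), side act i₀ c R ∈ coNPRel (J R)
  act_nn : ∀ j, act (nn j) = some (j, N j)
  act_none : ∀ n, (∀ j, nn j ≠ n) → act n = none
  le_q : ∀ i, (1 / 2 : ℝ) ^ i ≤ N i * (1 - (1 / 2) ^ (nn i - i)) ^ (2 * 2 ^ nn i)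
  hqK : ∀ i, (K : ℝ) * randomOracle.real (badJ J dA dB (win nn i) (win nn (i + 1)) \
    ⋃ j ∈ Finset.range i, badJ J dA dB (win nn j) (win nn (j + 1))) ≤
      N (i + 1) * (1 - (1 / 2) ^ (nn (i + 1) - (i + 1))) ^ (2 * 2 ^ nn (i + 1))
  summable_q : Summable fun i => (N i : ℝ) * (1 - (1 / 2) ^ (nn i - i)) ^ (2 * 2 ^ nn i)

namespace SS

variable {J : Orc → Orc} {dA dB : VD} {K : ℕ} (σ : SS J dA dB K)

/-- Left end of a window. -/
def w (i : ℕ) : ℕ := win σ.nn i

/-- Length of the blocks. -/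
def b (i : ℕ) : ℕ := σ.nn i - i

/-- Expected number of instances without witness. -/
noncomputable def q (i : ℕ) : ℝ := σ.N i * (1 - (1 / 2) ^ σ.b i) ^ (2 * 2 ^ σ.nn i)

/-- The events of failure of disjointness. -/
def F (i : ℕ) : Set Orc := badJ J dA dB (σ.w i) (σ.w (i + 1))

theorem w_zero : σ.w 0 = 0 := rfl
theorem w_succ (i : ℕ) : σ.w (i + 1) = 2 ^ σ.nn i := rfl

theorem LB_le' (j : ℕ) : LB dA dB (σ.w j) + 2 * j + 3 ≤ σ.nn j := by
  have h1 : LB dA dB (σ.w j) + 2 ^ σ.w j + 2 * j + 3 ≤ σ.nn j := σ.LB_le j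
  have h2 : 0 < 2 ^ σ.w j := by positivity
  omega

theorem w_lt (j : ℕ) : σ.w j < σ.w (j + 1) := by
  rw [σ.w_succ]
  have h1 : LB dA dB (σ.w j) + 2 ^ σ.w j + 2 * j + 3 ≤ σ.nn j := σ.LB_le j
  have h2 : σ.w j < 2 ^ σ.w j := Nat.lt_two_pow_self
  have h3 : σ.nn j < 2 ^ σ.nn j := Nat.lt_two_pow_self
  omega

theorem b_add (j : ℕ) : σ.b j + j = σ.nn j := by
  have := σ.LB_le' j
  unfold b; omega

theorem le_b (j : ℕ) : j + 3 ≤ σ.b j := by
  have := σ.LB_le' j
  unfold b; omega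

theorem biUnion_F (i : ℕ) : ⋃ j ∈ Finset.range i, σ.F j = badJ J dA dB 0 (σ.w i) := by
  induction i with
  | zero =>
    rw [σ.w_zero]
    ext R
    simp [badJ]
  | succ i ih =>
    rw [Finset.range_add_one, Finset.set_biUnion_insert, ih]
    ext R
    constructor
    · rintro (⟨z, h1, h2, h3⟩ | ⟨z, h1, h2, h3⟩)
      · exact ⟨z, Nat.zero_le _, h2, h3⟩
      · exact ⟨z, h1, h2.trans (σ.w_lt i), h3⟩
    · rintro ⟨z, h1, h2, h3⟩
      by_cases hz : z.length < σ.w i
      · exact Or.inr ⟨z, h1, hz, h3⟩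
      · exact Or.inl ⟨z, by omega, h2, h3⟩

theorem dep_badJ (hJ : Loc J) (dA dB : VD) (a b : ℕ) :
    Dep (badJ J dA dB a b) (lows (LB dA dB b)) := by
  intro R R' h
  have hA : ∀ x : List Bool, x.length ≤ dA.ub b → R x = R' x := fun x hx =>
    h x (mem_lows.2 (by unfold LB; omega))
  have hB : ∀ x : List Bool, x.length ≤ dB.ub b → R x = R' x := fun x hx =>
    h x (mem_lows.2 (by unfold LB; omega))
  exact exists_congr (fun z => and_congr_right (fun _ => and_congr_right (fun hz =>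
    and_congr (not_congr (hJ.acc_congr dA hz.le hA)) (not_congr (hJ.acc_congr dB hz.le hB)))))

theorem dep_F (hJ : Loc J) (i : ℕ) : Dep (σ.F i) (lows (σ.nn (i + 1))) :=
  (dep_badJ hJ dA dB _ _).mono (lows_mono (by have := σ.LB_le' (i + 1); omega))

theorem q_pos (i : ℕ) : 0 < σ.q i := lt_of_lt_of_le (by positivity) (σ.le_q i)

/-- Some instance of the stage has no witness. -/
def Dbl (i : ℕ) : Set Orc :=
  ⋃ ν ∈ Finset.range (σ.N i), noneOf (blk (σ.nn i) (σ.b i) ν) Finset.univ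

theorem real_Dbl_le (i : ℕ) : randomOracle.real (σ.Dbl i) ≤ σ.q i := by
  unfold Dbl
  refine (measureReal_biUnion_finset_le _ _).trans ?_
  rw [Finset.sum_congr rfl (fun ν _ => real_noneOf (b := σ.b i)
    (fun κ _ => card_blk (σ.nn i) (σ.b i) ν κ)
    (fun κ _ κ' _ hne => disjoint_blk _ _ _ _ _ _ (fun h => hne (congrArg Prod.snd h))))]
  rw [Finset.sum_const, Finset.card_range, nsmul_eq_mul]
  unfold q
  simp

theorem ae_notMem_Dbl : ∀ᵐ R ∂randomOracle, ∀ᶠ i in atTop, R ∉ σ.Dbl i := by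
  refine ae_eventually_notMem ?_
  have h1 : ∀ i, randomOracle (σ.Dbl i) ≤ ENNReal.ofReal (σ.q i) := by
    intro i
    rw [← ofReal_measureReal (measure_ne_top _ _)]
    exact ENNReal.ofReal_le_ofReal (σ.real_Dbl_le i)
  exact ne_top_of_le_ne_top σ.summable_q.tsum_ofReal_ne_top (ENNReal.tsum_le_tsum h1)

end SS

/-! ### Nondeterministic Turing reductions -/

/-- Data of a nondeterministic Turing reduction. -/
structure ND where
  /-- first machine -/
  V₁ : (List Bool × List Bool) × List Bool → Bool × List Bool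
  /-- second machine -/
  V₀ : (List Bool × List Bool) × List Bool → Bool × List Bool
  /-- polynomial part of the time bound -/
  p : Polynomial ℕ
  h₁ : N68a2faeb.IsPolyTime V₁
  h₀ : N68a2faeb.IsPolyTime V₀

instance : Countable ND := by
  have := countable_poly
  have h1 : {g : (List Bool × List Bool) × List Bool → Bool × List Bool |
      N68a2faeb.IsPolyTime g}.Countable := countable_tm2 _ _ bitEncode_inj
  have := h1.to_subtype
  refine Function.Injective.countable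
    (f := fun d : ND => (d.p, ((⟨d.V₁, d.h₁⟩ :
      {g : (List Bool × List Bool) × List Bool → Bool × List Bool | N68a2faeb.IsPolyTime g}),
      (⟨d.V₀, d.h₀⟩ :
      {g : (List Bool × List Bool) × List Bool → Bool × List Bool |
        N68a2faeb.IsPolyTime g})))) ?_
  rintro ⟨g, g', p, hg, hg'⟩ ⟨f, f', p', hf, hf'⟩ h
  simp only [Prod.mk.injEq, Subtype.mk.injEq] at h
  obtain ⟨rfl, rfl, rfl⟩ := h
  rfl

/-- Time bound on inputs of length `m`. -/
def ND.t (r : ND) (T : ℕ → ℕ) (m : ℕ) : ℕ := T m + r.p.eval m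

/-- Exponent for the length of queries. -/
noncomputable def ND.k (r : ND) : ℕ :=
  (exists_qlen (ptf_of_T r.h₁)).choose + (exists_qlen (ptf_of_T r.h₀)).choose

/-- Bound for the length of queries on inputs of length `m`. -/
noncomputable def ND.len (r : ND) (T : ℕ → ℕ) (m : ℕ) : ℕ :=
  qlen r.k (4 * m + 4 * r.t T m + 3) (r.t T m)

theorem qlen_mono_k {k k' : ℕ} (hk : k ≤ k') (s t : ℕ) : qlen k s t ≤ qlen k' s t :=
  Nat.pow_le_pow_right (by omega) hk

theorem ND.qLen₁ (r : ND) (T : ℕ → ℕ) (x : List Bool) :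
    QLen r.V₁ (r.t T x.length) x (r.len T x.length) := by
  intro O w hw q hq
  refine ((exists_qlen (ptf_of_T r.h₁)).choose_spec O (x, w) _ q hq).trans
    ((qlen_mono_k (Nat.le_add_right _ _) _ _).trans (qlen_mono _ ?_ (le_refl _)))
  rw [sz_pair]
  have h1 := sz_bits x
  have h2 := sz_bits w
  omega

theorem ND.qLen₀ (r : ND) (T : ℕ → ℕ) (x : List Bool) :
    QLen r.V₀ (r.t T x.length) x (r.len T x.length) := by
  intro O w hw q hq
  refine ((exists_qlen (ptf_of_T r.h₀)).choose_spec O (x, w) _ q hq).trans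
    ((qlen_mono_k (Nat.le_add_left _ _) _ _).trans (qlen_mono _ ?_ (le_refl _)))
  rw [sz_pair]
  have h1 := sz_bits x
  have h2 := sz_bits w
  omega

/-- The threshold from which on the bounds are small. -/
def Thr (dA dB : VD) (r : ND) (T : ℕ → ℕ) (n₀ : ℕ) : Prop :=
  ∀ n, n₀ ≤ n → ∀ m, n ≤ m → m ≤ 2 * n + 1 → r.len T m < 2 ^ n ∧
    4 * (r.t T m * (1 + 2 * dA.rb (r.len T m) + 2 * dB.rb (r.len T m))) ≤ 2 ^ n

theorem exists_Thr (dA dB : VD) (r : ND) {T : ℕ → ℕ} (hT : SubExp T) :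
    ∃ n₀ : ℕ, Thr dA dB r T n₀ := by
  have ht : SubExp (r.t T) := hT.add (SubExp.id.eval r.p)
  have hℓ : SubExp (r.len T) := by
    unfold ND.len qlen
    exact (((((((SubExp.const 4).mul SubExp.id).add ((SubExp.const 4).mul ht)).add
      (SubExp.const 3)).add ((SubExp.const 4).mul ht)).add (SubExp.const 5))).pow r.k
  have hrb : ∀ d : VD, SubExp (fun m => d.rb (r.len T m)) := by
    intro d
    unfold VD.rb
    exact ((((SubExp.const 6).mul hℓ).add ((SubExp.const 3).mul (hℓ.eval d.p))).add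
      (SubExp.const 1)).eval d.q
  have hs : SubExp (fun m => 2 * (r.t T m *
      (1 + 2 * dA.rb (r.len T m) + 2 * dB.rb (r.len T m)))) :=
    (SubExp.const 2).mul (ht.mul (((SubExp.const 1).add ((SubExp.const 2).mul (hrb dA))).add
      ((SubExp.const 2).mul (hrb dB))))
  obtain ⟨n₀, h⟩ := eventually_atTop.1 (hℓ.lt.and hs.lt)
  refine ⟨n₀, fun n hn m h1 h2 => ?_⟩
  obtain ⟨h3, h4⟩ := h n hn
  have h5 := h3 m h1 h2
  have h6 := h4 m h1 h2
  exact ⟨by omega, by omega⟩

namespace SS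

variable {J : Orc → Orc} {dA dB : VD} {K : ℕ} (σ : SS J dA dB K)

/-- Errors of a reduction on an instance, or failure of disjointness. -/
def ErrI (r : ND) (T : ℕ → ℕ) (i ν : ℕ) : Set Orc :=
  errN J dA dB r.V₁ r.V₀ (r.t T (σ.nn i + ν + 1)) (σ.nn i) (σ.b i) ν
    (r.len T (σ.nn i + ν + 1)) ∪ σ.F i

/-- Errors of a reduction on the instances of a stage. -/
def Err (r : ND) (T : ℕ → ℕ) (i : ℕ) : Set Orc :=
  ⋃ ν ∈ Finset.range (σ.N i), σ.ErrI r T i ν

theorem qLen₁ (r : ND) (T : ℕ → ℕ) (i ν : ℕ) : QLen r.V₁ (r.t T (σ.nn i + ν + 1))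
    (inst (σ.nn i) ν) (r.len T (σ.nn i + ν + 1)) := by
  have := r.qLen₁ T (inst (σ.nn i) ν)
  rw [length_inst] at this
  exact this

theorem qLen₀ (r : ND) (T : ℕ → ℕ) (i ν : ℕ) : QLen r.V₀ (r.t T (σ.nn i + ν + 1))
    (inst (σ.nn i) ν) (r.len T (σ.nn i + ν + 1)) := by
  have := r.qLen₀ T (inst (σ.nn i) ν)
  rw [length_inst] at this
  exact this

theorem dep_ErrI (hJ : Loc J) (r : ND) (T : ℕ → ℕ) (i ν : ℕ) :
    ∃ S, Dep (σ.ErrI r T i ν) S := by
  classical
  exact ⟨_ ∪ _, ((dep_errN hJ dA dB (σ.qLen₁ r T i ν) (σ.qLen₀ r T i ν)).mono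
    Finset.subset_union_left).union ((σ.dep_F hJ i).mono Finset.subset_union_right)⟩

theorem dep_Err (hJ : Loc J) (r : ND) (T : ℕ → ℕ) {i n₀ : ℕ} (hthr : Thr dA dB r T n₀)
    (hi : n₀ ≤ i) : Dep (σ.Err r T i) (lows (σ.nn (i + 1))) := by
  unfold Err
  refine Dep.iUnion (fun ν => Dep.iUnion (fun hν => Dep.union ?_ (σ.dep_F hJ i)))
  rw [Finset.mem_range] at hν
  refine (dep_errN hJ dA dB (σ.qLen₁ r T i ν) (σ.qLen₀ r T i ν)).mono (lows_mono ?_)
  have h1 : i ≤ σ.nn i := σ.mono.id_le i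
  have h2 := σ.N_le i
  have h3 := (hthr (σ.nn i) (by omega) (σ.nn i + ν + 1) (by omega) (by omega)).1
  have h4 : LB dA dB (σ.w (i + 1)) + 2 ^ σ.w (i + 1) + 2 * (i + 1) + 3 ≤ σ.nn (i + 1) :=
    σ.LB_le (i + 1)
  rw [σ.w_succ] at h4
  have h5 := LB_mono dA dB h3.le
  have h6 : σ.b i ≤ σ.nn i := Nat.sub_le _ _
  have h7 := σ.LB_le' i
  have h8 : σ.nn i < 2 ^ σ.nn i := Nat.lt_two_pow_self
  have h9 : 2 ^ 3 ≤ 2 ^ σ.nn i := Nat.pow_le_pow_right (by norm_num) (by omega)
  have h10 : ∀ W : ℕ, 8 ≤ W → 4 * W + 3 ≤ 2 ^ W := by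
    intro W hW
    induction W, hW using Nat.le_induction with
    | base => norm_num
    | succ W hW ih => rw [pow_succ]; omega
  have h11 := h10 (2 ^ σ.nn i) (by omega)
  omega

theorem plant_blk_low {n b ν : ℕ} {κ : Bool × (Fin n → Bool)} (R : Orc) :
    ∀ x ∈ lows n, plant (blk n b ν κ) R x = R x := fun x hx =>
  plant_of_notMem (Finset.disjoint_left.1 (disjoint_lows_blk n b ν κ) hx) R

/-- Oracles outside of the events of failure up to the stage `i` are good. -/
theorem good_of_notMem {i ℓ : ℕ} (hℓ : ℓ < 2 ^ σ.nn i) {R : Orc}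
    (h : ∀ j ≤ i, R ∉ σ.F j) : Good J dA dB ℓ R := by
  intro z hz
  by_contra hcon
  rw [not_or] at hcon
  have hbad : R ∈ ⋃ j ∈ Finset.range (i + 1), σ.F j := by
    rw [σ.biUnion_F]
    exact ⟨z, Nat.zero_le _, by rw [σ.w_succ]; omega, hcon.1, hcon.2⟩
  simp only [Set.mem_iUnion, Finset.mem_range] at hbad
  obtain ⟨j, hj, hRj⟩ := hbad
  exact h j (by omega) hRj

/-- The stage inequality for the events of the construction. -/
theorem stage_ineq (hJ : Loc J) (r : ND) (T : ℕ → ℕ) {i n₀ : ℕ} (hthr : Thr dA dB r T n₀)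
    (hi : n₀ ≤ i) (D : Set Orc) (hD : Dep D (lows (σ.nn i)))
    (hDF : ∀ j < i, Disjoint D (σ.F j)) (ε : ℝ) (hε : 0 < ε) :
    σ.q i * (randomOracle.real D - σ.q i - ε -
      128 * randomOracle.real (σ.Err r T i ∩ D) / ε) ≤ randomOracle.real (σ.F i ∩ D) := by
  have h1 : i ≤ σ.nn i := σ.mono.id_le i
  have hN := σ.N_le i
  have hb := σ.le_b i
  have hcU : Fintype.card (Fin (σ.nn i) → Bool) = 2 ^ σ.nn i := by simp
  have h5 : ((2 ^ σ.nn i : ℕ) : ℝ) * (1 / 2) ^ σ.b i = 2 ^ i := by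
    rw [← σ.b_add i, pow_add]
    push_cast
    rw [one_div, inv_pow]
    have : (2 : ℝ) ^ σ.b i ≠ 0 := by positivity
    field_simp
  refine stage2 (U := Fin (σ.nn i) → Bool) (Finset.range (σ.N i)) (σ.b i)
    (fun ν κ => blk (σ.nn i) (σ.b i) ν κ) (fun ν κ => card_blk _ _ _ _)
    (fun ν κ ν' κ' h => disjoint_blk _ _ _ _ _ _ h) (lows (σ.nn i))
    (fun ν κ => disjoint_lows_blk _ _ _ _) D (σ.F i)
    (fun ν => σ.ErrI r T i ν) hD ⟨_, σ.dep_F hJ i⟩
    (fun ν => σ.dep_ErrI hJ r T i ν) (2 ^ σ.nn i / 4) ?_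
    (by rw [hcU]; omega) (by rw [hcU]; positivity) (by omega) ((1 / 2) ^ σ.b i) (σ.q i) rfl
    (by rw [hcU, Finset.card_range]; rfl) ?_ ?_ ε hε
  · intro ν hν R hRD hRF hno
    rw [Finset.mem_range] at hν
    obtain ⟨h3, h4⟩ := hthr (σ.nn i) (by omega) (σ.nn i + ν + 1) (by omega) (by omega)
    have hlow : ∀ j < i, ∀ R' : Orc, (∀ x ∈ lows (σ.nn i), R' x = R x) → R' ∉ σ.F j := by
      intro j hj R' hR' hF
      refine (Set.disjoint_left.1 (hDF j hj)) hRD (((σ.dep_F hJ j) R' R (fun x hx => ?_)).1 hF)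
      exact hR' x (lows_mono (σ.mono.monotone (by omega)) hx)
    have hg : ∀ R' : Orc, (∀ x ∈ lows (σ.nn i), R' x = R x) → R' ∉ σ.F i →
        Good J dA dB (r.len T (σ.nn i + ν + 1)) R' := by
      intro R' hR' hF
      refine σ.good_of_notMem h3 (fun j hj => ?_)
      rcases Nat.lt_or_eq_of_le hj with hj | rfl
      · exact hlow j hj R' hR'
      · exact hF
    obtain ⟨Q, Q', hQ, hQ', hstar⟩ := star2 hJ dA dB (b := σ.b i) (σ.qLen₁ r T i ν)
      (σ.qLen₀ r T i ν) (hg R (fun _ _ => rfl) hRF) hno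
    refine ⟨Q, Q', fun u => (hQ u).trans (by omega), fun u => (hQ' u).trans (by omega),
      fun u u' e1 e2 d1 d2 => ?_⟩
    unfold ErrI at e1 e2 ⊢
    rw [Set.mem_union, not_or] at e1 e2
    by_contra hcon
    rw [Set.mem_union, not_or] at hcon
    refine hcon.1 (hstar u u' (hg _ (plant_blk_low R) e1.2) e1.1 (hg _ (plant_blk_low R) e2.2)
      e2.1 d1 d2 (hg _ (fun x hx => ?_) hcon.2))
    rw [plant_blk_low _ x hx, plant_blk_low _ x hx]
  · rw [hcU, h5]
    exact one_le_pow₀ (by norm_num)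
  · rw [hcU, h5]
    have h6 := σ.le_q i
    have h7 : (2 : ℝ) ^ i * (1 / 2) ^ i = 1 := by
      rw [← mul_pow]; norm_num
    rw [← h7]
    exact mul_le_mul_of_nonneg_left h6 (by positivity)

/-- The exceptional set of oracles: the old pair is disjoint and the reduction makes no error from
some stage on. -/
def Exc (r : ND) (T : ℕ → ℕ) (i₁ : ℕ) : Set Orc :=
  {R | (∀ i, R ∉ σ.F i) ∧ ∀ i, i₁ ≤ i → R ∉ σ.Err r T i}

theorem real_Exc_le (hJ : Loc J) (hK : 0 < K) {T : ℕ → ℕ} (hT : SubExp T) :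
    randomOracle.real (⋃ k : ND × ℕ, σ.Exc k.1 T k.2) ≤ 8 / K := by
  choose thr hthr using fun r : ND => exists_Thr dA dB r hT
  have key := limit2 randomOracle (fun i => {D | Dep D (lows (σ.nn i))})
    (fun i D hD => Dep.mono hD (lows_mono (σ.mono (Nat.lt_succ_self i)).le))
    (fun i D hD => Dep.measurableSet hD) (fun i => Dep.univ) (fun i D hD => Dep.compl hD)
    (fun i D hD D' hD' => Dep.inter hD hD') σ.F (fun i => σ.dep_F hJ i)
    (κ := ND × ℕ) (fun k i => σ.Err k.1 T i) (fun k => max k.2 (thr k.1))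
    (fun k i hi => σ.dep_Err hJ k.1 T (hthr k.1) (le_trans (le_max_right _ _) hi)) σ.q σ.q_pos
    σ.summable_q.tendsto_atTop_zero K (by exact_mod_cast hK) σ.hqK 128 (by norm_num)
    (fun k i hi D hD hDF ε hε => σ.stage_ineq hJ k.1 T (hthr k.1)
      (le_trans (le_max_right _ _) hi) D hD hDF ε hε)
  refine le_trans (measureReal_mono (Set.iUnion_mono (fun k => ?_)) (measure_ne_top _ _)) key
  intro R hR
  exact ⟨hR.1, fun i hi => hR.2 i (le_trans (le_max_left _ _) hi)⟩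

end SS

/-- A nondeterministic Turing reduction of the new pair makes no error. -/
theorem SS.mem_Exc {J : Orc → Orc} {dA dB : VD} {K : ℕ} (σ : SS J dA dB K)
    {R : Orc} {T : ℕ → ℕ} {A B : List Bool → Bool} (hA : ∀ z, A z = false ↔ acc dA (J R) z)
    (hB : ∀ z, B z = false ↔ acc dB (J R) z) (hd : ∀ z, acc dA (J R) z ∨ acc dB (J R) z)
    (r : ND) (i₀ : ℕ)
    (hr : ∀ S, Separates S A B → ∀ x,
      (side σ.act i₀ true R x = true →
        NAccepts r.V₁ (join (J R) S) (T x.length + r.p.eval x.length) x) ∧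
      (side σ.act i₀ false R x = true →
        NAccepts r.V₀ (join (J R) S) (T x.length + r.p.eval x.length) x) ∧
      ¬ (NAccepts r.V₁ (join (J R) S) (T x.length + r.p.eval x.length) x ∧
        NAccepts r.V₀ (join (J R) S) (T x.length + r.p.eval x.length) x)) :
    R ∈ σ.Exc r T i₀ := by
  have hF : ∀ i, R ∉ σ.F i := by
    rintro i ⟨z, -, -, h1, h2⟩
    exact (hd z).elim h1 h2
  refine ⟨hF, fun i hi hR => ?_⟩
  unfold SS.Err at hR
  simp only [Set.mem_iUnion, Finset.mem_range] at hR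
  obtain ⟨ν, hν, hR⟩ := hR
  unfold SS.ErrI at hR
  rcases hR with hR | hR
  · obtain ⟨S, hS, hcase⟩ := hR
    have hlook : look σ.act i₀ (inst (σ.nn i) ν) = some (σ.nn i, (σ.b i, ν)) :=
      look_inst (σ.act_nn i) hi hν
    set ℓ := r.len T (σ.nn i + ν + 1) with hℓ
    set S' : Orc := fun z => if z.length ≤ ℓ then S z else A z with hS'
    have hsep : Separates S' A B := by
      refine ⟨fun z hz => ?_, fun z hz => ?_⟩
      · show (if z.length ≤ ℓ then S z else A z) = true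
        split_ifs with hq
        · by_contra hne
          rw [Bool.not_eq_true] at hne
          have := (hA z).2 ((hS z hq).2 hne)
          rw [hz] at this
          cases this
        · exact hz
      · show (if z.length ≤ ℓ then S z else A z) = false
        split_ifs with hq
        · by_contra hne
          rw [Bool.not_eq_false] at hne
          have := (hB z).2 ((hS z hq).1 hne)
          rw [hz] at this
          cases this
        · rw [hA]
          refine (hd z).resolve_right (fun h => ?_)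
          have := (hB z).2 h
          rw [hz] at this
          cases this
    have hag : ∀ x : List Bool, x.length ≤ ℓ → join (J R) S' x = join (J R) S x :=
      join_agree₂ (fun _ _ => rfl) (fun z hz => if_pos hz)
    have h1 := hr S' hsep (inst (σ.nn i) ν)
    rw [length_inst] at h1
    have a1 := nAccepts_congr (σ.qLen₁ r T i ν) hag
    have a0 := nAccepts_congr (σ.qLen₀ r T i ν) hag
    unfold ND.t at a1 a0 hcase
    rw [a1, a0] at h1
    rcases hcase with ⟨hno, hne⟩ | ⟨hno, hne⟩ | hboth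
    · exact hne (h1.1 (side_eq_true.2 ⟨_, _, _, hlook, hno⟩))
    · exact hne (h1.2.1 (side_eq_true.2 ⟨_, _, _, hlook, hno⟩))
    · exact h1.2.2 hboth
  · exact hF i hR

/-- The new pair is disjoint from a late stage on. -/
theorem SS.disjoint_new {J : Orc → Orc} {dA dB : VD} {K : ℕ} (σ : SS J dA dB K) {R : Orc}
    {i₀ : ℕ} (h : ∀ i, i₀ ≤ i → R ∉ σ.Dbl i) (x : List Bool) :
    ¬ (side σ.act i₀ true R x = true ∧ side σ.act i₀ false R x = true) := by
  rintro ⟨h1, h2⟩
  obtain ⟨n, b, ν, h3, h4⟩ := side_eq_true.1 h1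
  obtain ⟨n', b', ν', h5, h6⟩ := side_eq_true.1 h2
  rw [h3] at h5
  obtain ⟨e1, e2⟩ := Prod.mk.inj (Option.some.inj h5)
  obtain ⟨e2, e3⟩ := Prod.mk.inj e2
  subst e1 e2 e3
  obtain ⟨i, N, h7, h8, h9, h10, -⟩ := exists_of_look h3
  by_cases hn : ∃ j, σ.nn j = n
  · obtain ⟨j, rfl⟩ := hn
    rw [σ.act_nn] at h7
    obtain ⟨e1, e2⟩ := Prod.mk.inj (Option.some.inj h7)
    subst e1 e2
    apply h j h8
    unfold SS.Dbl
    simp only [Set.mem_iUnion, Finset.mem_range]
    refine ⟨ν, h9, fun κ _ => ?_⟩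
    obtain ⟨c, u⟩ := κ
    subst h10
    cases c
    · exact noWit_iff.1 h6 u
    · exact noWit_iff.1 h4 u
  · rw [σ.act_none n (fun j hj => hn ⟨j, hj⟩)] at h7
    cases h7

/-- **Main theorem for a local operator.** -/
theorem main_local {J : Orc → Orc} (hJ : Loc J) (hSS : ∀ dA dB K, Nonempty (SS J dA dB K))
    (T : ℕ → ℕ) (hT : SubExp T) :
    ∀ᵐ R ∂randomOracle, ∀ A B : N68a2faeb.DecisionProblem, IsDisjointCoNPPairRel (J R) A B →
      ∃ A' B' : N68a2faeb.DecisionProblem, IsDisjointCoNPPairRel (J R) A' B' ∧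
        ¬ PairNTReducibleRel (J R) T A' B' A B := by
  set sg : ∀ dA dB K, SS J dA dB K := fun dA dB K => (hSS dA dB K).some with hsg
  have h1 : ∀ᵐ R ∂randomOracle, ∀ (dA dB : VD) (K : ℕ), ∀ᶠ i in atTop,
      R ∉ (sg dA dB K).Dbl i := by
    rw [ae_all_iff]; intro dA
    rw [ae_all_iff]; intro dB
    rw [ae_all_iff]; intro K
    exact (sg dA dB K).ae_notMem_Dbl
  have h2 : ∀ᵐ R ∂randomOracle, ∀ (dA dB : VD), ∃ K : ℕ, ∀ (r : ND) (i₀ : ℕ),
      R ∉ (sg dA dB K).Exc r T i₀ := by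
    rw [ae_all_iff]; intro dA
    rw [ae_all_iff]; intro dB
    rw [ae_iff]
    have hsub : ∀ K : ℕ, {R : Orc | ¬ ∃ K : ℕ, ∀ (r : ND) (i₀ : ℕ),
        R ∉ (sg dA dB K).Exc r T i₀} ⊆ ⋃ k : ND × ℕ, (sg dA dB K).Exc k.1 T k.2 := by
      intro K R hR
      simp only [not_exists, not_forall, not_not, Set.mem_ofPred_eq] at hR
      obtain ⟨r, i₀, h⟩ := hR K
      exact Set.mem_iUnion.2 ⟨(r, i₀), h⟩
    have hle : ∀ K : ℕ, randomOracle.real {R : Orc | ¬ ∃ K : ℕ, ∀ (r : ND) (i₀ : ℕ),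
        R ∉ (sg dA dB K).Exc r T i₀} ≤ 8 / ((K + 1 : ℕ) : ℝ) := by
      intro K
      exact (measureReal_mono (hsub (K + 1)) (measure_ne_top _ _)).trans
        ((sg dA dB (K + 1)).real_Exc_le hJ (Nat.succ_pos K) hT)
    have hlim : Tendsto (fun K : ℕ => 8 / ((K + 1 : ℕ) : ℝ)) atTop (nhds 0) := by
      have := (tendsto_const_div_atTop_nhds_zero_nat (8 : ℝ))
      exact this.comp (tendsto_add_atTop_nat 1)
    have h0 := ge_of_tendsto' hlim hle
    have h00 := le_antisymm h0 measureReal_nonneg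
    rwa [measureReal_eq_zero_iff (measure_ne_top _ _)] at h00
  filter_upwards [h1, h2] with R hR1 hR2 A B hAB
  obtain ⟨dA, dB, hA, hB, hd⟩ := exists_VD_pair hAB
  obtain ⟨K, hK⟩ := hR2 dA dB
  obtain ⟨i₀, hi₀⟩ := eventually_atTop.1 (hR1 dA dB K)
  set τ := sg dA dB K with hτ
  refine ⟨side τ.act i₀ true R, side τ.act i₀ false R,
    ⟨τ.mem i₀ true R, τ.mem i₀ false R, τ.disjoint_new hi₀⟩, ?_⟩
  rintro ⟨V₁, V₀, p, hV₁, hV₀, hr⟩
  exact hK ⟨V₁, V₀, p, hV₁, hV₀⟩ i₀
    (τ.mem_Exc hA hB hd ⟨V₁, V₀, p, hV₁, hV₀⟩ i₀ hr)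

/-! ### The two instances -/

theorem win_eq {nn : ℕ → ℕ} {w : ℕ → ℕ} (h0 : w 0 = 0) (hs : ∀ i, w (i + 1) = 2 ^ nn i) :
    ∀ i, win nn i = w i := by
  intro i
  cases i with
  | zero => exact h0.symm
  | succ i => exact (hs i).symm

/-- The identity is local. -/
def locId : Loc (fun R : Orc => R) where
  r := fun q => q
  len := fun _ => le_refl _
  dep := fun _ _ _ h => h

/-- The join with a fixed oracle is local. -/
def locJoin (C : Orc) : Loc (fun R : Orc => join R C) where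
  r := List.tail
  len := fun q => by rw [List.length_tail]; omega
  dep := fun R R' q h => by
    match q, h with
    | [], _ => rfl
    | true :: w, h => exact h
    | false :: z, _ => rfl

theorem exists_SS_id (dA dB : VD) (K : ℕ) : Nonempty (SS (fun R : Orc => R) dA dB K) := by
  obtain ⟨σ⟩ := exists_Stg dA dB K
  have hw := win_eq σ.w_zero σ.w_succ
  exact ⟨{
    nn := σ.nn
    N := σ.N
    act := σ.act
    mono := σ.mono
    N_le := σ.N_le
    LB_le := fun i => by rw [hw]; exact σ.LB_le i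
    mem := fun i₀ c R => side_mem σ.ptf i₀ c R
    act_nn := σ.act_nn
    act_none := σ.act_none
    le_q := σ.le_q
    hqK := fun i => by
      simp only [hw]
      exact σ.hqK i
    summable_q := σ.summable_q }⟩

theorem exists_SS_join (C : Orc) (dA dB : VD) (K : ℕ) :
    Nonempty (SS (fun R : Orc => join R C) dA dB K) := by
  obtain ⟨σ⟩ := Pool.Agent.RO.J.exists_Stg C dA dB K
  have hw := win_eq σ.w_zero σ.w_succ
  exact ⟨{
    nn := σ.nn
    N := σ.N
    act := σ.act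
    mono := σ.mono
    N_le := σ.N_le
    LB_le := fun i => by rw [hw]; exact σ.LB_le i
    mem := σ.mem
    act_nn := σ.act_nn
    act_none := σ.act_none
    le_q := σ.le_q
    hqK := fun i => by
      simp only [hw]
      exact σ.hqK i
    summable_q := σ.summable_q }⟩

end Pool.Agent.RO
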