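import Pool.Agent.Work.MP_46935e_lc.RO.Acc

/-!
# The new pair
-/

set_option autoImplicit false

namespace Pool.Agent.RO

open Pool.Agent.PT Pool.Agent.Work.MP_46935e_lc

/-- Address of the `j`-th bit of the block of the candidate `(c, u)` for the instance `ν`. -/
def addr (ν : ℕ) (c : Bool) (u : List Bool) (j : ℕ) : List Bool :=
  List.replicate ν true ++ (false :: c :: (u ++ List.replicate j true))

/-- The string coding the instance `ν` of the stage with parameter `n`. -/
def inst (n ν : ℕ) : List Bool := List.replicate n true ++ (false :: List.replicate ν true)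

/-- `u` is a witness of type `c` for the instance `ν`. -/
def Wit (R : Orc) (n b ν : ℕ) (c : Bool) (u : List Bool) : Prop :=
  u.length = n ∧ ∀ j < b, R (addr ν c u j) = true

/-- Parsing of instances. -/
def pin (x : List Bool) : Option (ℕ × ℕ) :=
  ((List.range x.length).find? (fun n => decide (x = inst n (x.length - n - 1)))).map
    (fun n => (n, x.length - n - 1))

theorem length_inst (n ν : ℕ) : (inst n ν).length = n + ν + 1 := by
  simp [inst]; ring

theorem inst_inj {n ν n' ν' : ℕ} (h : inst n ν = inst n' ν') : n = n' ∧ ν = ν' := by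
  have hl := congrArg List.length h
  rw [length_inst, length_inst] at hl
  have key : ∀ {n ν n' ν' : ℕ}, inst n ν = inst n' ν' → ¬ n < n' := by
    intro n ν n' ν' h hlt
    have h1 : (inst n ν)[n]? = some false := by simp [inst]
    have h2 : (inst n' ν')[n]? = some true := by
      rw [inst, List.getElem?_append_left (by simpa using hlt)]
      simp [hlt]
    rw [h, h2] at h1
    simp at h1
  have h1 := key h
  have h2 := key h.symm
  omega

theorem pin_inst (n ν : ℕ) : pin (inst n ν) = some (n, ν) := by
  unfold pin
  have hl := length_inst n ν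
  cases hf : (List.range (inst n ν).length).find?
      (fun m => decide (inst n ν = inst m ((inst n ν).length - m - 1))) with
  | none =>
    rw [List.find?_eq_none] at hf
    have := hf n (by rw [List.mem_range]; omega)
    rw [hl] at this
    exact absurd (decide_eq_true (by congr 1; omega)) this
  | some m =>
    have h1 := List.find?_some hf
    rw [decide_eq_true_eq] at h1
    obtain ⟨h2, h3⟩ := inst_inj h1
    rw [Option.map_some]
    subst h2
    rw [← h3]

theorem eq_inst_of_pin {x : List Bool} {n ν : ℕ} (h : pin x = some (n, ν)) : x = inst n ν := by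
  unfold pin at h
  rw [Option.map_eq_some_iff] at h
  obtain ⟨m, h1, h2⟩ := h
  have h3 := List.find?_some h1
  rw [decide_eq_true_eq] at h3
  obtain ⟨rfl, rfl⟩ := Prod.mk.inj h2
  exact h3

/-- The parameters `(n, b, ν)` of the active instance `x` (`act` is the stage function). -/
def look (act : ℕ → Option (ℕ × ℕ)) (i₀ : ℕ) (x : List Bool) : Option (ℕ × (ℕ × ℕ)) :=
  (pin x).bind (fun p => (act p.1).bind (fun s =>
    if i₀ ≤ s.1 ∧ p.2 < s.2 then some (p.1, (p.1 - s.1, p.2)) else none))

theorem look_inst {act : ℕ → Option (ℕ × ℕ)} {i₀ n ν i N : ℕ} (h : act n = some (i, N))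
    (hi : i₀ ≤ i) (hν : ν < N) : look act i₀ (inst n ν) = some (n, (n - i, ν)) := by
  unfold look
  rw [pin_inst, Option.bind_some, h, Option.bind_some, if_pos ⟨hi, hν⟩]

theorem exists_of_look {act : ℕ → Option (ℕ × ℕ)} {i₀ : ℕ} {x : List Bool} {n b ν : ℕ}
    (h : look act i₀ x = some (n, (b, ν))) :
    ∃ i N, act n = some (i, N) ∧ i₀ ≤ i ∧ ν < N ∧ b = n - i ∧ x = inst n ν := by
  unfold look at h
  rw [Option.bind_eq_some_iff] at h
  obtain ⟨⟨n', ν'⟩, h1, h2⟩ := h
  rw [Option.bind_eq_some_iff] at h2
  obtain ⟨⟨i, N⟩, h3, h4⟩ := h2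
  dsimp only at h3 h4
  split_ifs at h4 with h5
  have h6 := Option.some.inj h4
  have e1 : n' = n := congrArg Prod.fst h6
  have e2 : n' - i = b := congrArg (fun p => p.2.1) h6
  have e3 : ν' = ν := congrArg (fun p => p.2.2) h6
  subst e1 e3
  exact ⟨i, N, h3, h5.1, h5.2, e2.symm, eq_inst_of_pin h1⟩

open Classical in
/-- The two languages of the new pair: active instances without witness of type `c`. -/
noncomputable def side (act : ℕ → Option (ℕ × ℕ)) (i₀ : ℕ) (c : Bool) (R : Orc) :
    List Bool → Bool := fun x =>
  match look act i₀ x with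
  | none => false
  | some p => decide (∀ u, ¬ Wit R p.1 p.2.1 p.2.2 c u)

open Classical in
theorem side_eq_true {act : ℕ → Option (ℕ × ℕ)} {i₀ : ℕ} {c : Bool} {R : Orc} {x : List Bool} :
    side act i₀ c R x = true ↔
      ∃ n b ν, look act i₀ x = some (n, (b, ν)) ∧ ∀ u, ¬ Wit R n b ν c u := by
  unfold side
  cases h : look act i₀ x with
  | none => simp
  | some p =>
    obtain ⟨n, b, ν⟩ := p
    dsimp only
    rw [decide_eq_true_iff]
    constructor
    · intro h1; exact ⟨n, b, ν, rfl, h1⟩
    · rintro ⟨n', b', ν', h1, h2⟩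
      have h3 := Option.some.inj h1
      have e1 : n = n' := congrArg Prod.fst h3
      have e2 : b = b' := congrArg (fun p => p.2.1) h3
      have e3 : ν = ν' := congrArg (fun p => p.2.2) h3
      subst e1 e2 e3
      exact h2

theorem length_addr (ν : ℕ) (c : Bool) (u : List Bool) (j : ℕ) :
    (addr ν c u j).length = ν + u.length + j + 2 := by
  simp [addr]; ring

theorem addr_inj {ν ν' : ℕ} {c c' : Bool} {u u' : List Bool} {j j' : ℕ}
    (h : addr ν c u j = addr ν' c' u' j') (hu : u.length = u'.length) :
    ν = ν' ∧ c = c' ∧ u = u' ∧ j = j' := by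
  have key : ∀ {ν ν' : ℕ} {c c' : Bool} {u u' : List Bool} {j j' : ℕ},
      addr ν c u j = addr ν' c' u' j' → ¬ ν < ν' := by
    intro ν ν' c c' u u' j j' h hlt
    have h1 : (addr ν c u j)[ν]? = some false := by simp [addr]
    have h2 : (addr ν' c' u' j')[ν]? = some true := by
      rw [addr, List.getElem?_append_left (by simpa using hlt)]
      simp [hlt]
    rw [h, h2] at h1
    simp at h1
  have h1 := key h
  have h2 := key h.symm
  obtain rfl : ν = ν' := by omega
  unfold addr at h
  have h3 := List.append_cancel_left h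
  simp only [List.cons.injEq, true_and] at h3
  obtain ⟨h4, h5⟩ := h3
  obtain ⟨h6, h7⟩ := List.append_inj h5 hu
  have h8 := congrArg List.length h7
  simp only [List.length_replicate] at h8
  exact ⟨rfl, h4, h6, h8⟩

end Pool.Agent.RO
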