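import Pool.Agent.Work.MP_46935e_lc.RO.PairDef

/-!
# Errors of a Turing reduction of pairs, and how planting a witness produces them
-/

set_option autoImplicit false

namespace Pool.Agent.RO

open Pool.Agent.PT Pool.Agent.Work.MP_46935e_lc

/-- The answers `S z` received in the run are correct for the pair: `z` is in no wrong side. -/
def Legit (dA dB : VD) (R S : Orc) (L : List (List Bool)) : Prop :=
  ∀ z, false :: z ∈ L → (S z = true → acc dB R z) ∧ (S z = false → acc dA R z)

/-- With some correct answers the run of `g` on the instance `ν` has a wrong output. -/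
def errI (dA dB : VD) (g : List Bool × List Bool → Bool × List Bool) (t n b ν : ℕ) : Set Orc :=
  {R | ∃ S : Orc, Legit dA dB R S (oqs g (join R S) (inst n ν) t []) ∧
    (((∀ u, ¬ Wit R n b ν true u) ∧ orun g (join R S) (inst n ν) t [] ≠ some [true]) ∨
      ((∀ u, ¬ Wit R n b ν false u) ∧ orun g (join R S) (inst n ν) t [] ≠ some [false]))}

theorem wit_congr {R R' : Orc} {n b ν : ℕ} {c : Bool} {u : List Bool}
    (h : ∀ x : List Bool, x.length < n + b + ν + 2 → R x = R' x) :
    Wit R n b ν c u ↔ Wit R' n b ν c u := by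
  unfold Wit
  refine and_congr_right (fun hu => forall₂_congr (fun j hj => ?_))
  rw [h _ (by rw [length_addr]; omega)]

theorem errI_of_agree (dA dB : VD) (g : List Bool × List Bool → Bool × List Bool)
    {t n b ν ℓ : ℕ} (hℓ : ∀ R S : Orc, ∀ q ∈ oqs g (join R S) (inst n ν) t [], q.length ≤ ℓ)
    {R R' : Orc} (h : ∀ x ∈ lows (ℓ + LB dA dB ℓ + (n + b + ν + 2)), R x = R' x)
    (hR : R ∈ errI dA dB g t n b ν) : R' ∈ errI dA dB g t n b ν := by
  obtain ⟨S, h1, h2⟩ := hR
  have hq : ∀ q ∈ oqs g (join R S) (inst n ν) t [], join R S q = join R' S q := by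
    intro q hq
    have h3 := hℓ R S q hq
    match q, h3 with
    | [], _ => rfl
    | true :: w, h3 =>
      rw [join_true, join_true]
      exact h w (mem_lows.2 (by rw [List.length_cons] at h3; omega))
    | false :: z, _ => rfl
  obtain ⟨e1, e2⟩ := orun_congr g (inst n ν) t [] hq
  have hW : ∀ c u, Wit R n b ν c u ↔ Wit R' n b ν c u := fun c u =>
    wit_congr (fun x hx => h x (mem_lows.2 (by omega)))
  refine ⟨S, ?_, ?_⟩
  · rw [e2]
    intro z hz
    have h3 := hℓ R S _ hz
    rw [List.length_cons] at h3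
    have hB := acc_congr dB (R := R) (R' := R') (n := ℓ) (z := z) (by omega) (fun x hx =>
      h x (mem_lows.2 (by unfold LB; omega)))
    have hA := acc_congr dA (R := R) (R' := R') (n := ℓ) (z := z) (by omega) (fun x hx =>
      h x (mem_lows.2 (by unfold LB; omega)))
    rw [← hA, ← hB]
    exact h1 z hz
  · rw [e1]
    simpa only [hW] using h2

theorem dep_errI (dA dB : VD) (g : List Bool × List Bool → Bool × List Bool)
    {t n b ν ℓ : ℕ} (hℓ : ∀ R S : Orc, ∀ q ∈ oqs g (join R S) (inst n ν) t [], q.length ≤ ℓ) :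
    Dep (errI dA dB g t n b ν) (lows (ℓ + LB dA dB ℓ + (n + b + ν + 2))) :=
  fun _ _ h => ⟨errI_of_agree dA dB g hℓ h, errI_of_agree dA dB g hℓ (fun x hx => (h x hx).symm)⟩

/-- **Property (star).** -/
theorem star_prop (dA dB : VD) (g : List Bool × List Bool → Bool × List Bool)
    {t n b ν ℓ : ℕ} (hℓ : ∀ R S : Orc, ∀ q ∈ oqs g (join R S) (inst n ν) t [], q.length ≤ ℓ)
    {R : Orc} (hd : ∀ z : List Bool, z.length < ℓ → acc dA R z ∨ acc dB R z) :
    ∃ (c : Bool) (Q : Finset (List Bool)), Q.card ≤ t * (1 + dA.rb ℓ + dB.rb ℓ) ∧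
      ∀ R' : Orc, (∀ x ∈ Q, R' x = R x) → (∀ u, ¬ Wit R' n b ν (!c) u) →
        R' ∈ errI dA dB g t n b ν := by
  classical
  set S : Orc := fun z => decide (acc dB R z) with hS
  set L := oqs g (join R S) (inst n ν) t [] with hL
  -- certificates
  have hcert : ∀ q ∈ L, ∃ Q : Finset (List Bool), Q.card ≤ 1 + dA.rb ℓ + dB.rb ℓ ∧
      ∀ R' : Orc, (∀ x ∈ Q, R' x = R x) → join R S q = join R' S q ∧
        ∀ z, q = false :: z → (S z = true → acc dB R' z) ∧ (S z = false → acc dA R' z) := by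
    intro q hq
    have h3 := hℓ R S q hq
    match q, h3 with
    | [], _ => exact ⟨∅, by simp, fun R' _ => ⟨rfl, fun z hz => by cases hz⟩⟩
    | true :: w, _ =>
      refine ⟨{w}, by rw [Finset.card_singleton]; omega, fun R' h => ⟨?_, fun z hz => by cases hz⟩⟩
      rw [join_true, join_true]
      exact (h w (Finset.mem_singleton_self w)).symm
    | false :: z, h3 =>
      rw [List.length_cons] at h3
      by_cases hz : acc dB R z
      · obtain ⟨Q, hQ, hQ'⟩ := acc_cert dB (n := ℓ) (z := z) (by omega) hz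
        refine ⟨Q, by omega, fun R' h => ⟨rfl, fun z' hz' => ?_⟩⟩
        obtain rfl := (List.cons.inj hz').2
        refine ⟨fun _ => hQ' R' h, fun hf => ?_⟩
        rw [hS] at hf
        exact absurd hz (of_decide_eq_false hf)
      · have hzA : acc dA R z := (hd z (by omega)).resolve_right hz
        obtain ⟨Q, hQ, hQ'⟩ := acc_cert dA (n := ℓ) (z := z) (by omega) hzA
        refine ⟨Q, by omega, fun R' h => ⟨rfl, fun z' hz' => ?_⟩⟩
        obtain rfl := (List.cons.inj hz').2
        refine ⟨fun hf => ?_, fun _ => hQ' R' h⟩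
        rw [hS] at hf
        exact absurd (of_decide_eq_true hf) hz
  choose! Qf hQ1 hQ2 using hcert
  have hcard : (L.toFinset.biUnion Qf).card ≤ t * (1 + dA.rb ℓ + dB.rb ℓ) := by
    refine (Finset.card_biUnion_le_card_mul _ _ _ (fun q hq => hQ1 q (List.mem_toFinset.1 hq))).trans
      (Nat.mul_le_mul_right _ ?_)
    exact (List.toFinset_card_le _).trans (length_oqs _ _ _ _ _)
  have hkey : ∀ R' : Orc, (∀ x ∈ L.toFinset.biUnion Qf, R' x = R x) →
      orun g (join R' S) (inst n ν) t [] = orun g (join R S) (inst n ν) t [] ∧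
        Legit dA dB R' S (oqs g (join R' S) (inst n ν) t []) := by
    intro R' hR'
    have hR'' : ∀ q ∈ L, ∀ x ∈ Qf q, R' x = R x := fun q hq x hx =>
      hR' x (Finset.mem_biUnion.2 ⟨q, List.mem_toFinset.2 hq, hx⟩)
    obtain ⟨e1, e2⟩ := orun_congr g (inst n ν) t [] (O := join R S) (O' := join R' S)
      (fun q hq => (hQ2 q hq R' (hR'' q hq)).1)
    refine ⟨e1, ?_⟩
    rw [e2]
    intro z hz
    exact (hQ2 _ hz R' (hR'' _ hz)).2 z rfl
  by_cases hy : orun g (join R S) (inst n ν) t [] = some [true]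
  · refine ⟨true, _, hcard, fun R' hR' hW => ?_⟩
    obtain ⟨e1, e2⟩ := hkey R' hR'
    refine ⟨S, e2, Or.inr ⟨hW, ?_⟩⟩
    rw [e1, hy]
    simp
  · refine ⟨false, _, hcard, fun R' hR' hW => ?_⟩
    obtain ⟨e1, e2⟩ := hkey R' hR'
    refine ⟨S, e2, Or.inl ⟨hW, ?_⟩⟩
    rw [e1]
    exact hy

/-! ### Blocks -/

/-- The block of a candidate. -/
def blk (n b ν : ℕ) (κ : Bool × (Fin n → Bool)) : Finset (List Bool) :=
  (Finset.range b).image (addr ν κ.1 (List.ofFn κ.2))

theorem mem_allTrue_blk {n b ν : ℕ} {κ : Bool × (Fin n → Bool)} {R : Orc} :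
    R ∈ allTrue (blk n b ν κ) ↔ Wit R n b ν κ.1 (List.ofFn κ.2) := by
  unfold allTrue blk Wit
  simp

theorem card_blk (n b ν : ℕ) (κ : Bool × (Fin n → Bool)) : (blk n b ν κ).card = b := by
  unfold blk
  rw [Finset.card_image_of_injective, Finset.card_range]
  intro j j' h
  exact (addr_inj h rfl).2.2.2

theorem disjoint_blk (n b : ℕ) (ν : ℕ) (κ : Bool × (Fin n → Bool)) (ν' : ℕ)
    (κ' : Bool × (Fin n → Bool)) (h : (ν, κ) ≠ (ν', κ')) :
    Disjoint (blk n b ν κ) (blk n b ν' κ') := by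
  rw [Finset.disjoint_left]
  intro x hx hx'
  unfold blk at hx hx'
  obtain ⟨j, -, rfl⟩ := Finset.mem_image.1 hx
  obtain ⟨j', -, e⟩ := Finset.mem_image.1 hx'
  obtain ⟨h1, h2, h3, -⟩ := addr_inj e.symm (by simp)
  apply h
  rw [h1]
  congr 1
  exact Prod.ext h2 (List.ofFn_injective h3)

theorem disjoint_lows_blk (n b ν : ℕ) (κ : Bool × (Fin n → Bool)) :
    Disjoint (lows n) (blk n b ν κ) := by
  rw [Finset.disjoint_left]
  intro x hx hx'
  obtain ⟨j, -, rfl⟩ := Finset.mem_image.1 hx'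
  rw [mem_lows, length_addr, List.length_ofFn] at hx
  omega

theorem exists_wit_iff {n b ν : ℕ} {c : Bool} {R : Orc} :
    (∃ u, Wit R n b ν c u) ↔ ∃ u : Fin n → Bool, R ∈ allTrue (blk n b ν (c, u)) := by
  constructor
  · rintro ⟨u, hu, h⟩
    subst hu
    refine ⟨u.get, mem_allTrue_blk.2 ⟨by simp, fun j hj => ?_⟩⟩
    have := h j hj
    simpa using this
  · rintro ⟨u, hu⟩
    exact ⟨_, mem_allTrue_blk.1 hu⟩

theorem noWit_iff {n b ν : ℕ} {c : Bool} {R : Orc} :
    (∀ u, ¬ Wit R n b ν c u) ↔ ∀ u : Fin n → Bool, R ∉ allTrue (blk n b ν (c, u)) := by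
  have := exists_wit_iff (n := n) (b := b) (ν := ν) (c := c) (R := R)
  rw [← not_exists, this, not_exists]

end Pool.Agent.RO
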